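import Pool.Agent.Helper25.K4.Psd2

/-!
# Positive semidefiniteness with a null space, and symmetry
-/

set_option autoImplicit false

open Finset

namespace KC

/-- The matrix entry (an integer) of the packed rows. -/
def entz (b F : ℕ) (Q : ℕ → ℕ) (f g : ℕ) : ℤ := (dgt b (Q f) g : ℤ) - F

theorem list_sq_eq (n : ℕ) (u : ℕ → ℕ → ℝ) (x : ℕ → ℝ) : ∀ rows : List ℕ,
    ∑ f ∈ range n, ∑ g ∈ range n, ((rows.map (fun R => u R f * u R g)).sum) * x f * x g =
      (rows.map (fun R => (∑ f ∈ range n, u R f * x f) ^ 2)).sum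
  | [] => by simp
  | R :: rows => by
    have h := list_sq_eq n u x rows
    simp only [List.map_cons, List.sum_cons, add_mul, Finset.sum_add_distrib]
    rw [h]
    congr 1
    rw [sq, Finset.sum_mul_sum]
    exact Finset.sum_congr rfl fun f _ => Finset.sum_congr rfl fun g _ => by ring

theorem list_cast_prod (b O : ℕ) (l : List ℕ) (f g : ℕ) :
    ((((l.map (fun R => ((dgt b R f : ℤ) - O) * ((dgt b R g : ℤ) - O))).sum : ℤ)) : ℝ) =
      (l.map (fun R => ((dgt b R f : ℝ) - O) * ((dgt b R g : ℝ) - O))).sum := by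
  induction l with
  | nil => simp
  | cons R l ih =>
    simp only [List.map_cons, List.sum_cons]
    rw [Int.cast_add, ih]
    push_cast
    rfl

/-- The quadratic form plus the squares of the null vectors is nonnegative. -/
theorem psdK_ineq {p : PP} {k : KP} {rows ker : List ℕ} {Q : ℕ → ℕ}
    (hp : okK p k rows.length ker.length = true)
    (hfac : facCk p rows = true) (hker : facCk { p with v := k.v, O := k.O } ker = true)
    (hblk : ∀ f < p.n, ∃ fs : List ℕ, f ∈ fs ∧ blkCkK p k rows ker Q fs = true) (x : ℕ → ℝ) :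
    0 ≤ (p.s : ℝ) * (∑ f ∈ range p.n, ∑ g ∈ range p.n, (entz p.b p.F Q f g : ℝ) * x f * x g) +
      k.C * (ker.map (fun R => (∑ f ∈ range p.n, ((dgt p.b R f : ℝ) - k.O) * x f) ^ 2)).sum := by
  obtain ⟨hb, hs, hj1, hjb, hqb, hvb, hkb, hD, hr, ht, hP, hN⟩ := okK_spec hp
  have hex : ∀ f : ℕ, ∃ y : ℕ → ℕ, f < p.n → (∀ g < p.n, y g < 2 ^ p.j) ∧
      ∀ g < p.n, (p.s : ℤ) * ((dgt p.b (Q f) g : ℤ) - p.F) +
        k.C * ((ker.map (fun R => ((dgt p.b R f : ℤ) - k.O) * ((dgt p.b R g : ℤ) - k.O))).sum : ℤ) =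
        ((rows.map (fun R => ((dgt p.b R f : ℤ) - p.O) * ((dgt p.b R g : ℤ) - p.O))).sum : ℤ) +
        ((y g : ℤ) - 2 ^ (p.j - 1)) + (if g = f then (p.D : ℤ) else 0) := by
    intro f
    by_cases hf : f < p.n
    · obtain ⟨fs, hfs, hb⟩ := hblk f hf
      obtain ⟨y, hy⟩ := entryK_spec hp hfac hker hf hfs hb
      exact ⟨y, fun _ => hy⟩
    · exact ⟨fun _ => 0, fun h => absurd h hf⟩
  choose y hy using hex
  set e : ℝ := 2 ^ (p.j - 1) with he
  have he2 : (2 : ℝ) ^ p.j = 2 * e := by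
    rw [he, ← pow_succ']
    congr 1
    omega
  have hpt : ∀ f ∈ range p.n, ∀ g ∈ range p.n,
      (p.s : ℝ) * ((entz p.b p.F Q f g : ℝ) * x f * x g) +
      k.C * ((ker.map (fun R => ((dgt p.b R f : ℝ) - k.O) * ((dgt p.b R g : ℝ) - k.O))).sum *
        x f * x g) =
      (rows.map (fun R => ((dgt p.b R f : ℝ) - p.O) * ((dgt p.b R g : ℝ) - p.O))).sum * x f * x g +
      ((y f g : ℝ) - e) * x f * x g + (if g = f then (p.D : ℝ) * x f * x g else 0) := by
    intro f hf g hg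
    have h := (hy f (Finset.mem_range.1 hf)).2 g (Finset.mem_range.1 hg)
    have h' : ((((p.s : ℤ) * ((dgt p.b (Q f) g : ℤ) - p.F) + k.C *
        ((ker.map (fun R => ((dgt p.b R f : ℤ) - k.O) * ((dgt p.b R g : ℤ) - k.O))).sum : ℤ) : ℤ)) :
          ℝ) =
        ((((rows.map (fun R => ((dgt p.b R f : ℤ) - p.O) * ((dgt p.b R g : ℤ) - p.O))).sum : ℤ) +
        ((y f g : ℤ) - 2 ^ (p.j - 1)) + (if g = f then (p.D : ℤ) else 0) : ℤ) : ℝ) := by rw [h]
    rw [Int.cast_add, Int.cast_add, Int.cast_add, list_cast_prod, Int.cast_mul, Int.cast_mul,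
      list_cast_prod] at h'
    have h3 : (p.s : ℝ) * (entz p.b p.F Q f g : ℝ) +
        k.C * (ker.map (fun R => ((dgt p.b R f : ℝ) - k.O) * ((dgt p.b R g : ℝ) - k.O))).sum =
        (rows.map (fun R => ((dgt p.b R f : ℝ) - p.O) * ((dgt p.b R g : ℝ) - p.O))).sum +
        ((y f g : ℝ) - e) + (if g = f then (p.D : ℝ) else 0) := by
      rw [he]
      unfold entz
      split_ifs with hgf
      · rw [if_pos hgf] at h'
        push_cast at h' ⊢
        linarith
      · rw [if_neg hgf] at h'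
        push_cast at h' ⊢
        linarith
    calc (p.s : ℝ) * ((entz p.b p.F Q f g : ℝ) * x f * x g) +
      k.C * ((ker.map (fun R => ((dgt p.b R f : ℝ) - k.O) * ((dgt p.b R g : ℝ) - k.O))).sum *
        x f * x g) = ((p.s : ℝ) * (entz p.b p.F Q f g : ℝ) +
        k.C * (ker.map (fun R => ((dgt p.b R f : ℝ) - k.O) * ((dgt p.b R g : ℝ) - k.O))).sum) *
          x f * x g := by ring
      _ = _ := by
        rw [h3]
        split_ifs <;> ring
  rw [← list_sq_eq p.n (fun R f => (dgt p.b R f : ℝ) - k.O) x ker]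
  have hsum : (p.s : ℝ) * ∑ f ∈ range p.n, ∑ g ∈ range p.n,
      (entz p.b p.F Q f g : ℝ) * x f * x g +
      k.C * ∑ f ∈ range p.n, ∑ g ∈ range p.n,
        (ker.map (fun R => ((dgt p.b R f : ℝ) - k.O) * ((dgt p.b R g : ℝ) - k.O))).sum *
          x f * x g =
      (∑ f ∈ range p.n, ∑ g ∈ range p.n,
        (rows.map (fun R => ((dgt p.b R f : ℝ) - p.O) * ((dgt p.b R g : ℝ) - p.O))).sum *
          x f * x g) +
      (∑ f ∈ range p.n, ∑ g ∈ range p.n, ((y f g : ℝ) - e) * x f * x g) +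
      ∑ f ∈ range p.n, (p.D : ℝ) * x f * x f := by
    rw [Finset.mul_sum, Finset.mul_sum, ← Finset.sum_add_distrib, ← Finset.sum_add_distrib,
      ← Finset.sum_add_distrib]
    refine Finset.sum_congr rfl fun f hf => ?_
    rw [Finset.mul_sum, Finset.mul_sum, ← Finset.sum_add_distrib,
      Finset.sum_congr rfl (hpt f hf), Finset.sum_add_distrib,
      Finset.sum_add_distrib, Finset.sum_ite_eq', if_pos hf]
  rw [hsum]
  have h1 := list_sq_nonneg p.n (fun R f => (dgt p.b R f : ℝ) - p.O) x rows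
  have h2 : -(e * (∑ f ∈ range p.n, |x f|) ^ 2) ≤
      ∑ f ∈ range p.n, ∑ g ∈ range p.n, ((y f g : ℝ) - e) * x f * x g := by
    rw [sq, Finset.sum_mul_sum, Finset.mul_sum, ← Finset.sum_neg_distrib]
    refine Finset.sum_le_sum fun f hf => ?_
    rw [Finset.mul_sum, ← Finset.sum_neg_distrib]
    refine Finset.sum_le_sum fun g hg => ?_
    have hyb := (hy f (Finset.mem_range.1 hf)).1 g (Finset.mem_range.1 hg)
    have hyb' : (y f g : ℝ) < 2 * e := by
      rw [← he2]
      exact_mod_cast hyb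
    have hy0 : (0 : ℝ) ≤ y f g := Nat.cast_nonneg _
    have habs : |(y f g : ℝ) - e| ≤ e := by
      rw [abs_le]
      constructor <;> linarith
    have h3 : |((y f g : ℝ) - e) * x f * x g| ≤ e * (|x f| * |x g|) := by
      rw [abs_mul, abs_mul, mul_assoc]
      exact mul_le_mul_of_nonneg_right habs (by positivity)
    have := neg_abs_le (((y f g : ℝ) - e) * x f * x g)
    linarith
  have h3 : (∑ f ∈ range p.n, |x f|) ^ 2 ≤ p.n * ∑ f ∈ range p.n, x f * x f := by
    have h := sq_sum_le_card_mul_sum_sq (s := range p.n) (f := fun f => |x f|)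
    simp only [Finset.card_range, sq_abs] at h
    calc _ ≤ (p.n : ℝ) * ∑ f ∈ range p.n, x f ^ 2 := h
      _ = _ := by simp only [sq]
  have h4 : ∑ f ∈ range p.n, (p.D : ℝ) * x f * x f = p.D * ∑ f ∈ range p.n, x f * x f := by
    rw [Finset.mul_sum]
    exact Finset.sum_congr rfl fun f _ => by ring
  have h5 : (p.n : ℝ) * e ≤ p.D := by
    rw [he]
    exact_mod_cast hD
  have h6 : 0 ≤ ∑ f ∈ range p.n, x f * x f := Finset.sum_nonneg fun f _ => mul_self_nonneg _
  have he0 : 0 ≤ e := by rw [he]; positivity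
  rw [h4]
  have h7 : e * (∑ f ∈ range p.n, |x f|) ^ 2 ≤ p.D * ∑ f ∈ range p.n, x f * x f := by
    calc e * (∑ f ∈ range p.n, |x f|) ^ 2 ≤ e * (p.n * ∑ f ∈ range p.n, x f * x f) :=
          mul_le_mul_of_nonneg_left h3 he0
      _ = (p.n * e) * ∑ f ∈ range p.n, x f * x f := by ring
      _ ≤ _ := mul_le_mul_of_nonneg_right h5 h6
  linarith

/-! ## Null vectors -/

/-- A symmetric form which is nonnegative on the orthogonal complement of null vectors is
nonnegative. -/
theorem psd_of_null {n : ℕ} (q : Fin n → Fin n → ℝ) (hsym : ∀ i j, q i j = q j i)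
    (K : Set (Fin n → ℝ)) (hnull : ∀ v ∈ K, ∀ j, ∑ i, v i * q i j = 0)
    (hpos : ∀ y : Fin n → ℝ, (∀ v ∈ K, ∑ i, v i * y i = 0) → 0 ≤ ∑ i, ∑ j, q i j * y i * y j)
    (x : Fin n → ℝ) : 0 ≤ ∑ i, ∑ j, q i j * x i * x j := by
  set W : Submodule ℝ (EuclideanSpace ℝ (Fin n)) :=
    Submodule.span ℝ ((WithLp.toLp 2 : (Fin n → ℝ) → EuclideanSpace ℝ (Fin n)) '' K) with hW
  set X : EuclideanSpace ℝ (Fin n) := WithLp.toLp 2 x with hX
  obtain ⟨a, ha, c, hc, hac⟩ := Submodule.exists_add_mem_mem_orthogonal (K := W) X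
  have hnull' : ∀ v : EuclideanSpace ℝ (Fin n), v ∈ W → ∀ j, ∑ i, v i * q i j = 0 := by
    intro v hv
    rw [hW] at hv
    induction hv using Submodule.span_induction with
    | mem v hv =>
      obtain ⟨u, hu, rfl⟩ := hv
      exact hnull u hu
    | zero => intro j; simp
    | add u v _ _ hu hv =>
      intro j
      have : ∑ i, (u + v) i * q i j = ∑ i, u i * q i j + ∑ i, v i * q i j := by
        rw [← Finset.sum_add_distrib]
        exact Finset.sum_congr rfl fun i _ => by rw [PiLp.add_apply]; ring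
      rw [this, hu j, hv j, add_zero]
    | smul t u _ hu =>
      intro j
      have : ∑ i, (t • u) i * q i j = t * ∑ i, u i * q i j := by
        rw [Finset.mul_sum]
        exact Finset.sum_congr rfl fun i _ => by rw [PiLp.smul_apply, smul_eq_mul]; ring
      rw [this, hu j, mul_zero]
  have hcK : ∀ v ∈ K, ∑ i, v i * c i = 0 := by
    intro v hv
    have h1 := (Submodule.mem_orthogonal W c).1 hc (WithLp.toLp 2 v)
      (Submodule.subset_span ⟨v, hv, rfl⟩)
    rw [PiLp.inner_apply] at h1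
    simp only [RCLike.inner_apply, conj_trivial] at h1
    rw [← h1]
    exact Finset.sum_congr rfl fun i _ => by ring
  have hxi : ∀ i, x i = a i + c i := by
    intro i
    have : X i = (a + c) i := by rw [hac]
    rw [PiLp.add_apply] at this
    exact this
  have hcpos := hpos (fun i => c i) hcK
  have hna := hnull' a ha
  have e1 : ∑ i, ∑ j, q i j * x i * x j = ∑ i, ∑ j, q i j * c i * c j := by
    have s1 : ∀ j, ∑ i, q i j * x i * x j = ∑ i, q i j * c i * x j := by
      intro j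
      have : ∑ i, q i j * x i * x j = (∑ i, a i * q i j) * x j + ∑ i, q i j * c i * x j := by
        rw [Finset.sum_mul, ← Finset.sum_add_distrib]
        exact Finset.sum_congr rfl fun i _ => by rw [hxi i]; ring
      rw [this, hna j, zero_mul, zero_add]
    have s2 : ∀ i, ∑ j, q i j * c i * x j = ∑ j, q i j * c i * c j := by
      intro i
      have : ∑ j, q i j * c i * x j = (∑ j, a j * q j i) * c i + ∑ j, q i j * c i * c j := by
        rw [Finset.sum_mul, ← Finset.sum_add_distrib]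
        exact Finset.sum_congr rfl fun j _ => by rw [hxi j, hsym i j]; ring
      rw [this, hna i, zero_mul, zero_add]
    rw [Finset.sum_comm]
    rw [Finset.sum_congr rfl fun j _ => s1 j, Finset.sum_comm]
    exact Finset.sum_congr rfl fun i _ => s2 i
  rw [e1]
  exact hcpos

/-! ## Check of the null vectors -/

/-- `∑ f < n, (digit f of R) * Q f`, as a descending recursion. -/
noncomputable def dotq (b M : ℕ) (R : ℕ) (Q : ℕ → ℕ) (n : ℕ) : ℕ :=
  Nat.rec (motive := fun _ => ℕ) 0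
    (fun f ih => Nat.add (Nat.mul (Nat.land (Nat.shiftRight R (Nat.mul b f)) M) (Q f)) ih) n

/-- `∑ f < n, digit f of R`. -/
noncomputable def sumd (b M : ℕ) (R : ℕ) (n : ℕ) : ℕ :=
  Nat.rec (motive := fun _ => ℕ) 0
    (fun f ih => Nat.add (Nat.land (Nat.shiftRight R (Nat.mul b f)) M) ih) n

/-- `∑ f < n, Q f`. -/
noncomputable def sumq (Q : ℕ → ℕ) (n : ℕ) : ℕ :=
  Nat.rec (motive := fun _ => ℕ) 0 (fun f ih => Nat.add (Q f) ih) n

theorem dotq_eq (b R : ℕ) (Q : ℕ → ℕ) : ∀ n : ℕ,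
    dotq b (2 ^ b - 1) R Q n = ∑ f ∈ range n, dgt b R f * Q f
  | 0 => rfl
  | n + 1 => by
    rw [Finset.sum_range_succ, ← dotq_eq b R Q n, ← dgt_eq]
    exact Nat.add_comm _ _

theorem sumd_eq (b R : ℕ) : ∀ n : ℕ, sumd b (2 ^ b - 1) R n = ∑ f ∈ range n, dgt b R f
  | 0 => rfl
  | n + 1 => by
    rw [Finset.sum_range_succ, ← sumd_eq b R n, ← dgt_eq]
    exact Nat.add_comm _ _

theorem sumq_eq (Q : ℕ → ℕ) : ∀ n : ℕ, sumq Q n = ∑ f ∈ range n, Q f
  | 0 => rfl
  | n + 1 => by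
    rw [Finset.sum_range_succ, ← sumq_eq Q n]
    exact Nat.add_comm _ _

/-- Check that the vectors `ker` are null vectors. -/
noncomputable def nullCk (p : PP) (k : KP) (ker : List ℕ) (Q : ℕ → ℕ) : Bool :=
  fc (uni p.b p.n) fun U =>
  fc (sumq Q p.n) fun SQ =>
  fc (Nat.sub (Nat.pow 2 p.b) 1) fun M =>
  fc (Nat.mul (Nat.mul p.n (Nat.mul k.O p.F)) U) fun A =>
  fc (Nat.mul k.O SQ) fun B =>
  List.rec (motive := fun _ => Bool) true
    (fun R _ ih => and (Nat.beq (Nat.add (dotq p.b M R Q p.n) A)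
      (Nat.add B (Nat.mul (Nat.mul p.F (sumd p.b M R p.n)) U))) ih) ker

/-- Numerical condition for the null check. -/
def okN (p : PP) (k : KP) : Bool :=
  decide (p.n * (2 ^ k.v * 2 ^ p.q) + p.n * (k.O * p.F) < 2 ^ p.b) &&
  decide (k.O * (p.n * 2 ^ p.q) + p.F * (p.n * 2 ^ k.v) < 2 ^ p.b)

theorem nullCk_spec {p : PP} {k : KP} {ker : List ℕ} {Q : ℕ → ℕ} (h : nullCk p k ker Q = true) :
    ∀ R ∈ ker, (∑ f ∈ range p.n, dgt p.b R f * Q f) + p.n * (k.O * p.F) * uni p.b p.n =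
      k.O * (∑ f ∈ range p.n, Q f) + p.F * (∑ f ∈ range p.n, dgt p.b R f) * uni p.b p.n := by
  unfold nullCk at h
  rw [fc_eq, fc_eq, fc_eq, fc_eq, fc_eq] at h
  revert h
  induction ker with
  | nil => intro _ R hR; exact absurd hR (by simp)
  | cons a ker ih =>
    intro h
    have h' := h
    change (and (Nat.beq (Nat.add (dotq p.b (2 ^ p.b - 1) a Q p.n)
      (p.n * (k.O * p.F) * uni p.b p.n))
      (Nat.add (k.O * sumq Q p.n) (Nat.mul (Nat.mul p.F (sumd p.b (2 ^ p.b - 1) a p.n))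
      (uni p.b p.n)))) _) = true at h'
    rw [Bool.and_eq_true] at h'
    obtain ⟨h1, h2⟩ := h'
    intro R hR
    rcases List.mem_cons.1 hR with rfl | hR
    · have h3 := Nat.eq_of_beq_eq_true h1
      rw [dotq_eq, sumd_eq, sumq_eq] at h3
      exact h3
    · exact ih h2 R hR

theorem null_spec {p : PP} {k : KP} {ker : List ℕ} {Q : ℕ → ℕ} (hb : 0 < p.b) (hk : k.v ≤ p.b)
    (hker : facCk { p with v := k.v, O := k.O } ker = true)
    (hQ : ∀ f < p.n, Q f < 2 ^ (p.b * p.n) ∧ ∀ g < p.n, dgt p.b (Q f) g < 2 ^ p.q)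
    (hn : okN p k = true) (h : nullCk p k ker Q = true) : ∀ R ∈ ker, ∀ g < p.n,
    ∑ f ∈ range p.n, ((dgt p.b R f : ℤ) - k.O) * entz p.b p.F Q f g = 0 := by
  intro R hR
  have hker' := facCk_spec' hb hk hker R hR
  have h1 := nullCk_spec h R hR
  have hU := uni_eq hb p.n
  unfold okN at hn
  rw [Bool.and_eq_true, decide_eq_true_eq, decide_eq_true_eq] at hn
  obtain ⟨hn1, hn2⟩ := hn
  have hexp : ∀ c : ℕ → ℕ, ∑ f ∈ range p.n, c f * Q f =
      ∑ g ∈ range p.n, (∑ f ∈ range p.n, c f * dgt p.b (Q f) g) * 2 ^ (p.b * g) := by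
    intro c
    have : ∀ f ∈ range p.n, c f * Q f =
        ∑ g ∈ range p.n, c f * dgt p.b (Q f) g * 2 ^ (p.b * g) := by
      intro f hf
      conv_lhs => rw [← sum_dgt (hQ f (Finset.mem_range.1 hf)).1]
      rw [Finset.mul_sum]
      exact Finset.sum_congr rfl fun g _ => by ring
    rw [Finset.sum_congr rfl this, Finset.sum_comm]
    exact Finset.sum_congr rfl fun g _ => by rw [Finset.sum_mul]
  have hmain : ∑ g ∈ range p.n, (∑ f ∈ range p.n, dgt p.b R f * dgt p.b (Q f) g +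
      p.n * (k.O * p.F)) * 2 ^ (p.b * g) =
      ∑ g ∈ range p.n, (k.O * (∑ f ∈ range p.n, dgt p.b (Q f) g) +
      p.F * (∑ f ∈ range p.n, dgt p.b R f)) * 2 ^ (p.b * g) := by
    have e1 := hexp (fun f => dgt p.b R f)
    have e2 := hexp (fun _ => 1)
    simp only [one_mul] at e2
    rw [e1, e2, hU] at h1
    have l1 : ∑ g ∈ range p.n, (∑ f ∈ range p.n, dgt p.b R f * dgt p.b (Q f) g +
        p.n * (k.O * p.F)) * 2 ^ (p.b * g) =
        ∑ g ∈ range p.n, (∑ f ∈ range p.n, dgt p.b R f * dgt p.b (Q f) g) * 2 ^ (p.b * g) +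
        p.n * (k.O * p.F) * ∑ g ∈ range p.n, 2 ^ (p.b * g) := by
      rw [Finset.mul_sum, ← Finset.sum_add_distrib]
      exact Finset.sum_congr rfl fun g _ => by ring
    have l2 : ∑ g ∈ range p.n, (k.O * (∑ f ∈ range p.n, dgt p.b (Q f) g) +
        p.F * (∑ f ∈ range p.n, dgt p.b R f)) * 2 ^ (p.b * g) =
        k.O * (∑ g ∈ range p.n, (∑ f ∈ range p.n, dgt p.b (Q f) g) * 2 ^ (p.b * g)) +
        p.F * (∑ f ∈ range p.n, dgt p.b R f) * ∑ g ∈ range p.n, 2 ^ (p.b * g) := by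
      generalize ∑ f ∈ range p.n, dgt p.b R f = Z
      rw [Finset.mul_sum, Finset.mul_sum, ← Finset.sum_add_distrib]
      exact Finset.sum_congr rfl fun g _ => by ring
    rw [l1, l2]
    exact h1
  have hz := digits_unique p.n (B := (2 : ℤ) ^ p.b) (fun g =>
      ((∑ f ∈ range p.n, dgt p.b R f * dgt p.b (Q f) g + p.n * (k.O * p.F) : ℕ) : ℤ) -
      ((k.O * (∑ f ∈ range p.n, dgt p.b (Q f) g) + p.F * (∑ f ∈ range p.n, dgt p.b R f) : ℕ) : ℤ))
      ?_ ?_
  · intro g hg
    have h2 := hz g hg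
    unfold entz
    have e3 : ∑ f ∈ range p.n, ((dgt p.b R f : ℤ) - k.O) * ((dgt p.b (Q f) g : ℤ) - p.F) =
        ∑ f ∈ range p.n, (dgt p.b R f : ℤ) * (dgt p.b (Q f) g : ℤ) -
        k.O * ∑ f ∈ range p.n, (dgt p.b (Q f) g : ℤ) - p.F * ∑ f ∈ range p.n, (dgt p.b R f : ℤ) +
        p.n * (k.O * p.F) := by
      rw [Finset.mul_sum, Finset.mul_sum, ← Finset.sum_sub_distrib, ← Finset.sum_sub_distrib]
      have : (p.n : ℤ) * (k.O * p.F) = ∑ f ∈ range p.n, ((k.O : ℤ) * p.F) := by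
        rw [Finset.sum_const, Finset.card_range, nsmul_eq_mul]
      rw [this, ← Finset.sum_add_distrib]
      exact Finset.sum_congr rfl fun f _ => by ring
    rw [e3]
    push_cast at h2
    linarith
  · intro g hg
    have b1 : ∑ f ∈ range p.n, dgt p.b R f * dgt p.b (Q f) g ≤ p.n * (2 ^ k.v * 2 ^ p.q) := by
      calc _ ≤ ∑ f ∈ range p.n, 2 ^ k.v * 2 ^ p.q :=
            Finset.sum_le_sum fun f hf => Nat.mul_le_mul (hker'.2 f (Finset.mem_range.1 hf)).le
              ((hQ f (Finset.mem_range.1 hf)).2 g hg).le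
        _ = _ := by rw [Finset.sum_const, Finset.card_range, smul_eq_mul]
    have b2 : ∑ f ∈ range p.n, dgt p.b (Q f) g ≤ p.n * 2 ^ p.q := by
      calc _ ≤ ∑ f ∈ range p.n, 2 ^ p.q :=
            Finset.sum_le_sum fun f hf => ((hQ f (Finset.mem_range.1 hf)).2 g hg).le
        _ = _ := by rw [Finset.sum_const, Finset.card_range, smul_eq_mul]
    have b3 : ∑ f ∈ range p.n, dgt p.b R f ≤ p.n * 2 ^ k.v := by
      calc _ ≤ ∑ f ∈ range p.n, 2 ^ k.v :=
            Finset.sum_le_sum fun f hf => (hker'.2 f (Finset.mem_range.1 hf)).le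
        _ = _ := by rw [Finset.sum_const, Finset.card_range, smul_eq_mul]
    have P1 : ∑ f ∈ range p.n, dgt p.b R f * dgt p.b (Q f) g + p.n * (k.O * p.F) < 2 ^ p.b := by
      omega
    have N1 : k.O * (∑ f ∈ range p.n, dgt p.b (Q f) g) + p.F * (∑ f ∈ range p.n, dgt p.b R f) <
        2 ^ p.b := by
      have c1 := Nat.mul_le_mul_left k.O b2
      have c2 := Nat.mul_le_mul_left p.F b3
      omega
    have P1' : ((∑ f ∈ range p.n, dgt p.b R f * dgt p.b (Q f) g + p.n * (k.O * p.F) : ℕ) : ℤ) <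
      2 ^ p.b := by exact_mod_cast P1
    have N1' : ((k.O * (∑ f ∈ range p.n, dgt p.b (Q f) g) +
      p.F * (∑ f ∈ range p.n, dgt p.b R f) : ℕ) : ℤ) < 2 ^ p.b := by exact_mod_cast N1
    have P0 := Int.natCast_nonneg (∑ f ∈ range p.n, dgt p.b R f * dgt p.b (Q f) g +
      p.n * (k.O * p.F))
    have N0 := Int.natCast_nonneg (k.O * (∑ f ∈ range p.n, dgt p.b (Q f) g) +
      p.F * (∑ f ∈ range p.n, dgt p.b R f))
    rw [abs_lt]
    constructor <;> linarith
  · simp only [sub_mul, Finset.sum_sub_distrib]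
    rw [sub_eq_zero]
    have e : ∀ c : ℕ → ℕ, ((∑ g ∈ range p.n, c g * 2 ^ (p.b * g) : ℕ) : ℤ) =
        ∑ g ∈ range p.n, ((c g : ℕ) : ℤ) * ((2 : ℤ) ^ p.b) ^ g := by
      intro c
      rw [Nat.cast_sum]
      refine Finset.sum_congr rfl fun g _ => ?_
      rw [pow_mul]
      push_cast
      ring
    rw [← e, ← e, hmain]

/-! ## Symmetry -/

/-- The column with the digits at shift `sh` of the rows `n - 1, ..., 0` (Horner). -/
noncomputable def colh (b sh M : ℕ) (Q : ℕ → ℕ) (n j : ℕ) : ℕ :=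
  Nat.rec (motive := fun _ => ℕ) 0
    (fun i ih => Nat.add (Nat.land (Nat.shiftRight (Q (Nat.sub n (Nat.succ i))) sh) M)
      (Nat.shiftLeft ih b)) j

theorem colh_eq (b f n : ℕ) (Q : ℕ → ℕ) : ∀ j : ℕ, j ≤ n →
    colh b (Nat.mul b f) (2 ^ b - 1) Q n j =
      ∑ i ∈ range j, dgt b (Q (n - j + i)) f * 2 ^ (b * i)
  | 0, _ => rfl
  | j + 1, hj => by
    have ih := colh_eq b f n Q j (by omega)
    have h : colh b (Nat.mul b f) (2 ^ b - 1) Q n (j + 1) =
        dgt b (Q (n - (j + 1))) f + (colh b (Nat.mul b f) (2 ^ b - 1) Q n j) <<< b := by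
      rw [← dgt_eq]
      rfl
    rw [h, ih, Finset.sum_range_succ', Nat.shiftLeft_eq, Finset.sum_mul]
    rw [add_comm]
    congr 1
    · refine Finset.sum_congr rfl fun i _ => ?_
      have e1 : n - (j + 1) + (i + 1) = n - j + i := by omega
      rw [e1, mul_assoc, ← pow_add]
      congr 2
    · simp

/-- Check of the symmetry for the rows in `fs`. -/
noncomputable def symCk (b n : ℕ) (Q : ℕ → ℕ) (fs : List ℕ) : Bool :=
  fc (Nat.sub (Nat.pow 2 b) 1) fun M =>
  List.rec (motive := fun _ => Bool) true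
    (fun f _ ih => and (fc (Nat.mul b f) fun sh => Nat.beq (colh b sh M Q n n) (Q f)) ih) fs

theorem symCk_spec {b n : ℕ} {Q : ℕ → ℕ} {fs : List ℕ} (h : symCk b n Q fs = true) :
    ∀ f ∈ fs, ∀ g < n, dgt b (Q f) g = dgt b (Q g) f := by
  unfold symCk at h
  rw [fc_eq] at h
  revert h
  induction fs with
  | nil => intro _ f hf; exact absurd hf (by simp)
  | cons a fs ih =>
    intro h
    have h' := h
    change (and (fc (Nat.mul b a) fun sh => Nat.beq (colh b sh (2 ^ b - 1) Q n n) (Q a)) _) = true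
      at h'
    rw [fc_eq, Bool.and_eq_true] at h'
    obtain ⟨h1, h2⟩ := h'
    intro f hf
    rcases List.mem_cons.1 hf with rfl | hf
    · have h3 := Nat.eq_of_beq_eq_true h1
      rw [colh_eq b f n Q n le_rfl] at h3
      intro g hg
      rw [← h3]
      have h4 := dgt_of_sum (b := b) (n := n) (a := fun i => dgt b (Q (n - n + i)) f)
        (fun i _ => dgt_lt _ _ _) hg
      rw [h4, Nat.sub_self, Nat.zero_add]
    · exact ih h2 f hf

/-- Positive semidefiniteness with null vectors. -/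
theorem psd_null_main {p : PP} {k : KP} {rows ker : List ℕ} {Q : ℕ → ℕ}
    (hp : okK p k rows.length ker.length = true) (hn : okN p k = true)
    (hfac : facCk p rows = true) (hker : facCk { p with v := k.v, O := k.O } ker = true)
    (hblk : ∀ f < p.n, ∃ fs : List ℕ, f ∈ fs ∧ blkCkK p k rows ker Q fs = true)
    (hnull : nullCk p k ker Q = true)
    (hsym : ∀ f < p.n, ∃ fs : List ℕ, f ∈ fs ∧ symCk p.b p.n Q fs = true) (x : ℕ → ℝ) :
    0 ≤ ∑ f ∈ range p.n, ∑ g ∈ range p.n, (entz p.b p.F Q f g : ℝ) * x f * x g := by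
  obtain ⟨hb, hs, hj1, hjb, hqb, hvb, hkb, hD, hr, ht, hP, hN⟩ := okK_spec hp
  have hQ : ∀ f < p.n, Q f < 2 ^ (p.b * p.n) ∧ ∀ g < p.n, dgt p.b (Q f) g < 2 ^ p.q := by
    intro f hf
    obtain ⟨fs, hfs, hb'⟩ := hblk f hf
    obtain ⟨-, h2, h3⟩ := blkCkK_spec hb' f hfs
    exact ⟨h2, digits_lt_of_land hb hqb h3⟩
  have hnl := null_spec hb hkb hker hQ hn hnull
  have hsm : ∀ f < p.n, ∀ g < p.n, entz p.b p.F Q f g = entz p.b p.F Q g f := by
    intro f hf g hg
    obtain ⟨fs, hfs, hb'⟩ := hsym f hf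
    unfold entz
    rw [symCk_spec hb' f hfs g hg]
  have hsR : (0 : ℝ) < p.s := by exact_mod_cast hs
  have hmain := psd_of_null (n := p.n) (fun i j => (entz p.b p.F Q i j : ℝ))
    (fun i j => by rw [hsm i i.2 j j.2])
    {v | ∃ R ∈ ker, v = fun i : Fin p.n => (dgt p.b R i : ℝ) - k.O} ?_ ?_ (fun i => x i)
  · have e : ∑ f ∈ range p.n, ∑ g ∈ range p.n, (entz p.b p.F Q f g : ℝ) * x f * x g =
        ∑ i : Fin p.n, ∑ j : Fin p.n, (entz p.b p.F Q i j : ℝ) * x i * x j := by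
      rw [Finset.sum_range]
      exact Finset.sum_congr rfl fun i _ => by rw [Finset.sum_range]
    rw [e]
    exact hmain
  · rintro v ⟨R, hR, rfl⟩ j
    have h1 := hnl R hR j j.2
    have h2 : ((∑ f ∈ range p.n, ((dgt p.b R f : ℤ) - k.O) * entz p.b p.F Q f j : ℤ) : ℝ) = 0 := by
      rw [h1]
      simp
    rw [Finset.sum_range] at h2
    push_cast at h2
    exact h2
  · intro y hy
    set Y : ℕ → ℝ := fun i => if h : i < p.n then y ⟨i, h⟩ else 0 with hY
    have hYi : ∀ i : Fin p.n, Y i = y i := by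
      intro i
      rw [hY]
      simp only [i.2, dif_pos]
    have h1 := psdK_ineq hp hfac hker hblk Y
    have h2 : (ker.map (fun R => (∑ f ∈ range p.n, ((dgt p.b R f : ℝ) - k.O) * Y f) ^ 2)).sum =
        0 := by
      have h3 : ∀ R ∈ ker, (∑ f ∈ range p.n, ((dgt p.b R f : ℝ) - k.O) * Y f) ^ 2 = 0 := by
        intro R hR
        have h4 := hy _ ⟨R, hR, rfl⟩
        rw [Finset.sum_range]
        simp only [hYi]
        rw [h4]
        ring
      rw [List.map_congr_left h3]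
      simp
    rw [h2, mul_zero, add_zero] at h1
    have h5 := nonneg_of_mul_nonneg_right h1 hsR
    have e : ∑ f ∈ range p.n, ∑ g ∈ range p.n, (entz p.b p.F Q f g : ℝ) * Y f * Y g =
        ∑ i : Fin p.n, ∑ j : Fin p.n, (entz p.b p.F Q i j : ℝ) * y i * y j := by
      rw [Finset.sum_range]
      refine Finset.sum_congr rfl fun i _ => ?_
      rw [Finset.sum_range]
      exact Finset.sum_congr rfl fun j _ => by rw [hYi, hYi]
    rw [← e]
    exact h5

end KC
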