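import Pool.Agent.Helper25.K4.Asm
import Pool.Agent.Helper25.K4.Psd3
import Pool.Agent.Helper91.KF.F5
import Pool.Agent.Helper13.KC.S5c
import Pool.Agent.Helper13.KC.S3b
import Pool.Agent.Helper13.KC.S1

/-!
# The square parts of the certificate
-/

set_option autoImplicit false

open Finset

namespace KC

open KF

/-- The entries of the tables are the entries of the packed rows. -/
theorem Tab.qi_ent (T : Tab) (t f g : ℕ) :
    T.qi t f g = entz 96 T.OFF (fun f => T.QT.get (T.rb t + f)) f g := by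
  unfold Tab.qi Tab.qe entz
  rw [← dgt_eq]
  rfl

/-- Positive semidefiniteness of one block of a table. -/
def PsdT (T : Tab) (t : ℕ) : Prop :=
  ∀ x : ℕ → ℝ, 0 ≤ ∑ f ∈ range (T.nf t), ∑ g ∈ range (T.nf t),
    ((T.qi t f g : ℤ) : ℝ) * x f * x g

/-- Data for the check of one block. -/
theorem psdT_of_check {T : Tab} {t : ℕ} {p : PP} {k : KP} {rows ker : List ℕ}
    (hpb : p.b = 96) (hpn : p.n = T.nf t) (hpF : p.F = T.OFF)
    (hp : okK p k rows.length ker.length = true) (hn : okN p k = true)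
    (hfac : facCk p rows = true) (hker : facCk { p with v := k.v, O := k.O } ker = true)
    (hblk : ∀ f < p.n, ∃ fs : List ℕ, f ∈ fs ∧
      blkCkK p k rows ker (fun f => T.QT.get (Nat.add (T.rb t) f)) fs = true)
    (hnull : nullCk p k ker (fun f => T.QT.get (Nat.add (T.rb t) f)) = true)
    (hsym : ∀ f < p.n, ∃ fs : List ℕ, f ∈ fs ∧
      symCk p.b p.n (fun f => T.QT.get (Nat.add (T.rb t) f)) fs = true) : PsdT T t := by
  intro x
  have h := psd_null_main hp hn hfac hker hblk hnull hsym x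
  rw [hpb, hpn, hpF] at h
  simp only [Tab.qi_ent]
  exact h

/-- Data for the check of one block without null vectors. -/
theorem psdT_of_check0 {T : Tab} {t : ℕ} {p : PP} {rows : List ℕ}
    (hpb : p.b = 96) (hpn : p.n = T.nf t) (hpF : p.F = T.OFF)
    (hp : p.ok rows.length = true) (hfac : facCk p rows = true)
    (hblk : ∀ f < p.n, ∃ fs : List ℕ, f ∈ fs ∧
      blkCk p rows (fun f => T.QT.get (Nat.add (T.rb t) f)) fs = true) : PsdT T t := by
  intro x
  have h := psd_main hp hfac hblk x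
  rw [hpb, hpn, hpF] at h
  simp only [Tab.qi_ent]
  exact h

/-- Symmetry of one block of a table. -/
theorem symT_of_check {T : Tab} {t : ℕ}
    (hsym : ∀ f < T.nf t, ∃ fs : List ℕ, f ∈ fs ∧
      symCk 96 (T.nf t) (fun f => T.QT.get (Nat.add (T.rb t) f)) fs = true) :
    ∀ f < T.nf t, ∀ g < T.nf t, T.qe t f g = T.qe t g f := by
  intro f hf g hg
  obtain ⟨fs, hfs, h⟩ := hsym f hf
  have h1 := symCk_spec h f hfs g hg
  rw [← dgt_eq, ← dgt_eq] at h1
  exact h1

section
variable {V : Type} [Fintype V]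

theorem em_G5 {T : Tab} {gens : ℕ → List (List ℕ)} {cert : List (ℕ × List (List ℕ))}
    (h : T.Good gens cert) (hp : ∀ t < T.NT, PsdT T t) (E : V → V → V → Bool) {w : V → ℝ}
    (hw : ∀ v, 0 ≤ w v) : 0 ≤ Em E w T.G5 := by
  have h1 := kcS5 E hw (Q := fun r a b => if r < 1024 then ((T.Q5 r a b : ℤ) : ℝ) else 0) ?_
  · refine h1.trans_eq ?_
    unfold Em
    refine Ev_congr 7 w fun φ => ?_
    unfold gS5 Tab.G5 rt lk5 lk6
    have : msk E φ % 2 ^ 10 < 1024 := Nat.mod_lt _ (by norm_num)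
    simp only [this, if_true]
  · intro r f
    by_cases hr : r < 1024
    · simp only [hr, if_true]
      exact Tab.psd5 h hp hr f
    · simp only [hr, if_false, zero_mul, Finset.sum_const_zero, le_refl]

theorem cB_eq_sl3 (m : ℕ) : cB m = sl3 m / 2 := by
  have h1 : Nat.land (Nat.shiftRight m 10) 7 = m / 2 ^ 10 % 8 := by
    have := land_mod (Nat.shiftRight m 10) 3
    rw [show (2 : ℕ) ^ 3 - 1 = 7 by norm_num, shift_div] at this
    rw [shift_div, this]
    norm_num
  have key : cB m = m / 2 ^ 10 % 8 + 8 * (m / 2 ^ 20 % 8) + 64 * (m / 2 ^ 30 % 8) := by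
    refine Nat.eq_of_testBit_eq fun s => ?_
    set a := m / 2 ^ 10 % 8 with ha
    set b := m / 2 ^ 20 % 8 with hb
    set c := m / 2 ^ 30 % 8 with hc
    have ha8 : a < 2 ^ 3 := Nat.mod_lt _ (by norm_num)
    have hb8 : b < 2 ^ 3 := Nat.mod_lt _ (by norm_num)
    have hc8 : c < 2 ^ 3 := Nat.mod_lt _ (by norm_num)
    have e : a + 8 * b + 64 * c = 2 ^ 3 * (2 ^ 3 * c + b) + a := by ring
    rw [e, Nat.testBit_two_pow_mul_add _ ha8]
    by_cases hs : s < 9
    · rw [cB_bit m s hs]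
      unfold bB
      by_cases h3 : s < 3
      · rw [if_pos h3, if_pos h3, ha, show (8 : ℕ) = 2 ^ 3 by norm_num,
          Nat.testBit_mod_two_pow, Nat.testBit_div_two_pow]
        simp [h3, Nat.add_comm]
      · rw [if_neg h3, if_neg h3, Nat.testBit_two_pow_mul_add _ hb8]
        by_cases h6 : s < 6
        · rw [if_pos h6, if_pos (by omega), hb, show (8 : ℕ) = 2 ^ 3 by norm_num,
            Nat.testBit_mod_two_pow, Nat.testBit_div_two_pow]
          have : s - 3 < 3 := by omega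
          have e2 : s - 3 + 20 = 17 + s := by omega
          simp [this, e2]
        · rw [if_neg h6, if_neg (by omega), hc, show (8 : ℕ) = 2 ^ 3 by norm_num,
            Nat.testBit_mod_two_pow, Nat.testBit_div_two_pow]
          have : s - 3 - 3 < 3 := by omega
          have e2 : s - 3 - 3 + 30 = 24 + s := by omega
          simp [this, e2]
    · have h1 := Nat.testBit_eq_false_of_lt (lt_of_lt_of_le (cB_lt m)
        (Nat.pow_le_pow_right (by norm_num) (by omega : 9 ≤ s)))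
      rw [h1, if_neg (by omega), Nat.testBit_two_pow_mul_add _ hb8, if_neg (by omega)]
      symm
      exact Nat.testBit_eq_false_of_lt (lt_of_lt_of_le hc8
        (Nat.pow_le_pow_right (by norm_num) (by omega)))
  rw [key]
  unfold sl3
  omega

theorem em_G3 {T : Tab} {AT : ℕ → ℕ → BT} (h : T.Good3 AT) (hp : ∀ t < 2, PsdT T t)
    (E : V → V → V → Bool) {w : V → ℝ} (hw : ∀ v, 0 ≤ w v) : 0 ≤ Em E w T.G3 := by
  have h1 := kcS3 E hw (Q := fun r a b => ((T.Q3 r (a / 2) (b / 2) : ℤ) : ℝ))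
    (fun r f => Tab.psd3 h hp r f)
  refine h1.trans_eq ?_
  unfold Em
  refine Ev_congr 7 w fun φ => ?_
  unfold gS3 Tab.G3
  have e1 : msk E φ % 2 ^ 10 / 2 = cA (msk E φ) := by
    unfold cA
    omega
  change ((T.Q3 (msk E φ % 2) (msk E φ % 2 ^ 10 / 2) (sl3 (msk E φ) / 2) : ℤ) : ℝ) = _
  rw [e1, ← cB_eq_sl3]

theorem cD_eq_sl1 (m : ℕ) : cD m = sl1 m := by
  refine Nat.eq_of_testBit_eq fun s => ?_
  set a := m / 2 ^ 16 % 2 with ha
  set b := m / 2 ^ 26 % 2 with hb
  set c := m / 2 ^ 30 % 2 with hc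
  set d := m / 2 ^ 34 % 2 with hd
  have ha8 : a < 2 ^ 1 := Nat.mod_lt _ (by norm_num)
  have hb8 : b < 2 ^ 1 := Nat.mod_lt _ (by norm_num)
  have hc8 : c < 2 ^ 1 := Nat.mod_lt _ (by norm_num)
  have hd8 : d < 2 ^ 1 := Nat.mod_lt _ (by norm_num)
  have e : sl1 m = 2 ^ 1 * (2 ^ 1 * (2 ^ 1 * d + c) + b) + a := by
    unfold sl1
    rw [← ha, ← hb, ← hc, ← hd]
    ring
  rw [e, Nat.testBit_two_pow_mul_add _ ha8, Nat.testBit_two_pow_mul_add _ hb8,
    Nat.testBit_two_pow_mul_add _ hc8]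
  by_cases hs : s < 4
  · rw [cD_bit m s hs]
    have : s = 0 ∨ s = 1 ∨ s = 2 ∨ s = 3 := by omega
    rcases this with rfl | rfl | rfl | rfl
    · simp only [bD]
      rw [ha, Nat.testBit_eq_decide_div_mod_eq, Nat.testBit_eq_decide_div_mod_eq]
      norm_num
    · simp only [bD]
      rw [hb, Nat.testBit_eq_decide_div_mod_eq, Nat.testBit_eq_decide_div_mod_eq]
      norm_num
    · simp only [bD]
      rw [hc, Nat.testBit_eq_decide_div_mod_eq, Nat.testBit_eq_decide_div_mod_eq]
      norm_num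
    · simp only [bD]
      rw [hd, Nat.testBit_eq_decide_div_mod_eq, Nat.testBit_eq_decide_div_mod_eq]
      norm_num
  · have h1 := Nat.testBit_eq_false_of_lt (lt_of_lt_of_le (cD_lt m)
      (Nat.pow_le_pow_right (by norm_num) (by omega : 4 ≤ s)))
    rw [h1, if_neg (by omega), if_neg (by omega), if_neg (by omega)]
    symm
    exact Nat.testBit_eq_false_of_lt (lt_of_lt_of_le hd8
      (Nat.pow_le_pow_right (by norm_num) (by omega)))

theorem em_G1 {T : Tab} (h : T.Good1) (hp : PsdT T 0)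
    (E : V → V → V → Bool) {w : V → ℝ} (hw : ∀ v, 0 ≤ w v) : 0 ≤ Em E w T.G1 := by
  have h1 := kcS1 E hw (Q := fun a b => ((T.Q1 a b : ℤ) : ℝ)) (fun f => Tab.psd1 h hp f)
  refine h1.trans_eq ?_
  unfold Em
  refine Ev_congr 7 w fun φ => ?_
  unfold gS1 Tab.G1 cC
  rw [← cD_eq_sl1]

end

end KC
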