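import Pool.Agent.Helper25.K4.Asm

/-!
# Assembly for a general bound `b / a`
-/

set_option autoImplicit false

open Finset

namespace KC

open KF

/-- First certificate: `S ≤ N (35 b - a e)` on the representatives. Second certificate (slope):
`c ≤ 35 a N - A + B - κ (a e - 35 b) - S'` on the representatives, where `S'` has nonnegative
expectation. -/
theorem assemblyG {a b N c κ C : ℕ} {S S' A B : ℕ → ℤ} (ha : 0 < a) (hc : 0 < c)
    (iS : Inv7 S) (iS' : Inv7 S') (iA : Inv7 A) (iB : Inv7 B)
    (h1 : ∀ m ∈ KE.reps7, S m ≤ N * (35 * b - a * (pcn m : ℤ)))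
    (h2 : ∀ m ∈ KE.reps7, (c : ℤ) + A m - B m + κ * (a * (pcn m : ℤ) - 35 * b) + S' m ≤
      35 * a * N)
    (h3 : ∀ m ∈ KE.reps7, B m ≤ C)
    (hS : ∀ η : ℝ, 0 < η → ∃ θ : ℝ, 0 < θ ∧ ∀ (n : ℕ) (E : Fin n → Fin n → Fin n → Bool)
      (w : Fin n → ℝ), Opt E w → L - θ < dens E w →
      ((b : ℝ) / a - L) * Em E w A + (dens E w - (b : ℝ) / a) * Em E w B - η ≤ Em E w S)
    (hS' : ∀ (n : ℕ) (E : Fin n → Fin n → Fin n → Bool) (w : Fin n → ℝ), Opt E w →
      (b : ℝ) / a ≤ dens E w → 0 ≤ Em E w S') : L ≤ (b : ℝ) / a := by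
  by_contra hcon
  push Not at hcon
  refine absurd ?_ (not_le.2 hcon)
  have ha' : (0 : ℝ) < a := by exact_mod_cast ha
  have hb : (b : ℝ) = a * ((b : ℝ) / a) := by field_simp
  set p : ℝ := (b : ℝ) / a with hp
  clear_value p
  have hNC : ((c : ℕ) : ℝ) > 0 := by exact_mod_cast hc
  -- the number N is positive
  have key1 : ∀ (n : ℕ) (E : Fin n → Fin n → Fin n → Bool) (w : Fin n → ℝ), Opt E w →
      Em E w S ≤ 35 * a * N * (p - dens E w) := by
    intro n E w ho
    have hinv : Inv7 (fun m => (N : ℤ) * ((35 * b : ℤ) - a * (pcn m : ℤ)) - S m) :=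
      ((((Inv7.const _).sub (Inv7.pc.smul a)).smul N).sub iS)
    have hn := Em_nonneg ho.free ho.wt (hinv.nonneg fun m hm => by linarith [h1 m hm])
    rw [Em_sub, Em_smul, Em_sub, Em_const E ho.wt, Em_smul, Em_pc E ho.wt] at hn
    push_cast at hn
    rw [hb] at hn
    linarith
  have key2 : ∀ (n : ℕ) (E : Fin n → Fin n → Fin n → Bool) (w : Fin n → ℝ), Opt E w →
      p ≤ dens E w → (c : ℝ) ≤ 35 * a * N - Em E w A + Em E w B := by
    intro n E w ho hd
    have hinv : Inv7 (fun m => (35 * a * N : ℤ) - (((c : ℤ) + A m - B m) +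
        κ * (a * (pcn m : ℤ) - (35 * b : ℤ)) + S' m)) :=
      (Inv7.const _).sub (((((Inv7.const _).add iA).sub iB).add
        (((Inv7.pc.smul a).sub (Inv7.const _)).smul κ)).add iS')
    have hn := Em_nonneg ho.free ho.wt (hinv.nonneg fun m hm => by linarith [h2 m hm])
    rw [Em_sub, Em_const E ho.wt, Em_add, Em_add, Em_sub, Em_add, Em_const E ho.wt, Em_smul,
      Em_sub, Em_smul, Em_const E ho.wt, Em_pc E ho.wt] at hn
    have h5 := hS' n E w ho hd
    have h6 : (0 : ℝ) ≤ κ * (35 * (a * (dens E w - p))) :=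
      mul_nonneg (Nat.cast_nonneg _) (mul_nonneg (by norm_num)
        (mul_nonneg ha'.le (by linarith)))
    push_cast at hn
    rw [hb] at hn
    linarith
  have key3 : ∀ (n : ℕ) (E : Fin n → Fin n → Fin n → Bool) (w : Fin n → ℝ), Opt E w →
      Em E w B ≤ C := by
    intro n E w ho
    have hinv : Inv7 (fun m => (C : ℤ) - B m) := (Inv7.const _).sub iB
    have hn := Em_nonneg ho.free ho.wt (hinv.nonneg fun m hm => by linarith [h3 m hm])
    rw [Em_sub, Em_const E ho.wt] at hn
    push_cast at hn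
    linarith
  -- the scale
  have hN0 : (0 : ℝ) < 35 * a * N := by
    rcases Nat.eq_zero_or_pos N with hN | hN
    · exfalso
      -- an almost optimal object of large density contradicts the certificates
      set x := L - p with hx
      have hx0 : 0 < x := by linarith
      obtain ⟨θ, hθ, hh⟩ := hS (c * x / 4) (by positivity)
      have hC0 : (0 : ℝ) ≤ C := Nat.cast_nonneg _
      obtain ⟨n, E, w, ho, hd⟩ := exists_opt
        (ε := min (min θ x) (c * x / (C + 1) / 4)) (by positivity)
      have hm1 := min_le_left (min θ x) (c * x / (C + 1) / 4)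
      have hm2 := min_le_left θ x
      have hm3 := min_le_right θ x
      have hm4 := min_le_right (min θ x) (c * x / (C + 1) / 4)
      have e1 := hh n E w ho (by linarith)
      have e2 := key1 n E w ho
      have e3 := key2 n E w ho (by linarith)
      have e4 := key3 n E w ho
      have e5 : dens E w ≤ L := dens_le_L ho.free ho.wt
      rw [hN] at e2 e3
      simp only [Nat.cast_zero, mul_zero, zero_mul, zero_sub] at e2 e3
      set y := L - dens E w with hy
      have hy0 : 0 ≤ y := by linarith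
      have hyx : y * (C + 1) ≤ c * x / 4 := by
        have h8 : y * (C + 1) ≤ c * x / (C + 1) / 4 * (C + 1) :=
          mul_le_mul_of_nonneg_right (by linarith) (by linarith)
        have h9 : c * x / ((C : ℝ) + 1) / 4 * (C + 1) = c * x / 4 := by field_simp
        linarith
      have h10 : x * (-Em E w A + Em E w B) ≤ y * Em E w B + c * x / 4 := by nlinarith
      have h11 : (c : ℝ) * x ≤ x * (-Em E w A + Em E w B) := by nlinarith
      have h12 : y * Em E w B ≤ y * (C + 1) := mul_le_mul_of_nonneg_left (by linarith) hy0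
      have h13 : 0 < (c : ℝ) * x := by positivity
      linarith
    · positivity
  generalize (35 * (a : ℝ) * (N : ℝ)) = M at hN0 key1 key2
  have hM : M ≠ 0 := hN0.ne'
  refine final2 (p0 := p) (c := c / M) (C := C / M) (by positivity) ?_
  intro η hη
  obtain ⟨θ, hθ, h⟩ := hS (M * η) (by positivity)
  refine ⟨min θ (L - p), lt_min hθ (by linarith), fun n E w ho hd => ?_⟩
  have hd1 : L - θ < dens E w := lt_of_le_of_lt (by linarith [min_le_left θ (L - p)]) hd
  have hd2 : p ≤ dens E w := by linarith [min_le_right θ (L - p)]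
  refine ⟨Em E w A / M, Em E w B / M, ?_, ?_, ?_⟩
  · have g1 := h n E w ho hd1
    have g2 := key1 n E w ho
    have g3 : (p - L) * Em E w A + (dens E w - p) * Em E w B - M * η ≤
        M * (p - dens E w) := g1.trans g2
    have g4 : (p - L) * (Em E w A / M) + (dens E w - p) *
        (Em E w B / M) - η = ((p - L) * Em E w A + (dens E w - p) * Em E w B -
        M * η) / M := by
      field_simp
    rw [g4, div_le_iff₀ hN0]
    linarith
  · have g1 := key2 n E w ho hd2
    rw [div_le_iff₀ hN0]
    have g2 : (1 - Em E w A / M + Em E w B / M) * M =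
        M - Em E w A + Em E w B := by
      field_simp
    rw [g2]
    exact g1
  · have g1 := key3 n E w ho
    exact div_le_div_of_nonneg_right g1 hN0.le

/-- Version with one certificate and no inequality containing the density. -/
theorem assemblyU {a b N c : ℕ} {S A : ℕ → ℤ} (ha : 0 < a) (hc : 0 < c)
    (iS : Inv7 S) (iA : Inv7 A)
    (h1 : ∀ m ∈ KE.reps7, S m ≤ N * (35 * b - a * (pcn m : ℤ)))
    (h2 : ∀ m ∈ KE.reps7, (c : ℤ) + A m ≤ 35 * a * N)
    (hS : ∀ η : ℝ, 0 < η → ∃ θ : ℝ, 0 < θ ∧ ∀ (n : ℕ) (E : Fin n → Fin n → Fin n → Bool)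
      (w : Fin n → ℝ), Opt E w → L - θ < dens E w →
      ((b : ℝ) / a - L) * Em E w A - η ≤ Em E w S) : L ≤ (b : ℝ) / a := by
  refine assemblyG (κ := 0) (C := 0) (S' := fun _ => 0) (B := fun _ => 0) ha hc iS
    (Inv7.const 0) iA (Inv7.const 0) h1 (fun m hm => ?_) (fun m _ => le_refl _) ?_ ?_
  · have := h2 m hm
    push_cast
    linarith
  · intro η hη
    obtain ⟨θ, hθ, h⟩ := hS η hη
    refine ⟨θ, hθ, fun n E w ho hd => ?_⟩
    rw [Em_const E ho.wt]
    have := h n E w ho hd
    push_cast
    linarith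
  · intro n E w ho _
    rw [Em_const E ho.wt]
    norm_num

end KC
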