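import Pool.Agent.Helper25.K4.Master
import Pool.Agent.Helper13.KC.Fam
import Pool.Agent.Helper41.KE.Main

/-!
# Assembly: from integer inequalities on the list of representatives to `L ≤ 2 / 7`
-/

set_option autoImplicit false

open Finset

namespace KC

open KF

/-! ## The number of edges -/

/-- The number of edges of a mask. -/
def pcn (m : ℕ) : ℕ := ∑ t ∈ range 35, (m.testBit t).toNat

/-- Kernel version. -/
noncomputable def pcK (m : ℕ) : ℕ :=
  Nat.rec (motive := fun _ => ℕ) 0
    (fun t ih => Nat.add (Nat.land (Nat.shiftRight m t) 1) ih) 35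

theorem land1 (m t : ℕ) : Nat.land (Nat.shiftRight m t) 1 = (m.testBit t).toNat := by
  change (m >>> t) &&& 1 = _
  rw [Nat.and_one_is_mod, Nat.shiftRight_eq_div_pow, Nat.testBit_eq_decide_div_mod_eq]
  have : m / 2 ^ t % 2 = 0 ∨ m / 2 ^ t % 2 = 1 := by omega
  rcases this with h | h <;> rw [h] <;> rfl

theorem pcK_eq (m : ℕ) : pcK m = pcn m := by
  have h : ∀ n : ℕ, (Nat.rec (motive := fun _ => ℕ) 0
      (fun t ih => Nat.add (Nat.land (Nat.shiftRight m t) 1) ih) n : ℕ) =
      ∑ t ∈ range n, (m.testBit t).toNat := by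
    intro n
    induction n with
    | zero => rfl
    | succ n ih =>
      rw [Finset.sum_range_succ, ← ih, ← land1]
      exact Nat.add_comm _ _
  exact h 35

theorem pcr_eq (m : ℕ) : pcr m = pcn m := by
  unfold pcr pcn b2r
  rw [Nat.cast_sum]
  refine Finset.sum_congr rfl fun t _ => ?_
  cases m.testBit t <;> simp

theorem ba_inv : ∀ i < 6, ∀ t < 35, ba i t < 35 ∧ ba i (ba i t) = t := by decide +kernel

theorem pcn_tau (i m : ℕ) (hi : i < 6) : pcn (tau i m) = pcn m := by
  unfold pcn
  refine Finset.sum_nbij' (ba i) (ba i) ?_ ?_ ?_ ?_ ?_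
  · intro t ht
    exact Finset.mem_range.2 (ba_inv i hi t (Finset.mem_range.1 ht)).1
  · intro t ht
    exact Finset.mem_range.2 (ba_inv i hi t (Finset.mem_range.1 ht)).1
  · intro t ht
    exact (ba_inv i hi t (Finset.mem_range.1 ht)).2
  · intro t ht
    exact (ba_inv i hi t (Finset.mem_range.1 ht)).2
  · intro t ht
    rw [tau_bit i m t hi (Finset.mem_range.1 ht)]

/-! ## Invariant functions -/

/-- Invariance of an integer function of admissible masks under relabelling. -/
def Inv7 (F : ℕ → ℤ) : Prop := ∀ l, wok l = true → ∀ m, Adm m → F (awl l m) = F m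

theorem Inv7.add {F G : ℕ → ℤ} (hF : Inv7 F) (hG : Inv7 G) : Inv7 (fun m => F m + G m) :=
  fun l hl m hm => by
    change F (awl l m) + G (awl l m) = F m + G m
    rw [hF l hl m hm, hG l hl m hm]

theorem Inv7.sub {F G : ℕ → ℤ} (hF : Inv7 F) (hG : Inv7 G) : Inv7 (fun m => F m - G m) :=
  fun l hl m hm => by
    change F (awl l m) - G (awl l m) = F m - G m
    rw [hF l hl m hm, hG l hl m hm]

theorem Inv7.smul {F : ℕ → ℤ} (c : ℤ) (hF : Inv7 F) : Inv7 (fun m => c * F m) :=
  fun l hl m hm => by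
    change c * F (awl l m) = c * F m
    rw [hF l hl m hm]

theorem Inv7.const (c : ℤ) : Inv7 (fun _ => c) := fun _ _ _ _ => rfl

theorem Inv7.pc : Inv7 (fun m => (pcn m : ℤ)) := by
  intro l
  induction l with
  | nil => intro _ m _; rfl
  | cons i l ih =>
    intro hl m hm
    obtain ⟨h1, h2⟩ := wok_cons.1 hl
    have h3 := ih h2 (tau i m) (adm_tau hm i h1)
    change (pcn (awl l (tau i m)) : ℤ) = pcn m
    rw [← pcn_tau i m h1]
    exact h3

theorem Inv7.fam {Tr gens : List (List ℕ)} {certs : List (List (ℕ × List ℕ))}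
    (h : invAll Tr gens certs = true) {g : ℕ → ℤ}
    (hg : ∀ W ∈ gens, ∀ m, Adm m → g (awl W m) = g m) : Inv7 (fam Tr g) :=
  fun l hl m hm => fam_awl h hg l hl m hm

/-- A nonnegative invariant function on the representatives is nonnegative. -/
theorem Inv7.nonneg {F : ℕ → ℤ} (hF : Inv7 F) (h : ∀ m ∈ KE.reps7, 0 ≤ F m) :
    ∀ m, Adm m → 0 ≤ F m := by
  intro m hm
  obtain ⟨l, hl, hm'⟩ := KE.enum7 m hm
  rw [← hF l hl m hm]
  exact h _ hm'

/-! ## Expectations -/

section
variable {V : Type} [Fintype V]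

/-- The expectation of an integer function of the mask. -/
noncomputable def Em (E : V → V → V → Bool) (w : V → ℝ) (F : ℕ → ℤ) : ℝ :=
  Ev 7 w (fun φ => ((F (msk E φ) : ℤ) : ℝ))

theorem Em_add (E : V → V → V → Bool) (w : V → ℝ) (F G : ℕ → ℤ) :
    Em E w (fun m => F m + G m) = Em E w F + Em E w G := by
  unfold Em
  rw [← Ev_add]
  exact Ev_congr 7 w fun φ => by push_cast; rfl

theorem Em_sub (E : V → V → V → Bool) (w : V → ℝ) (F G : ℕ → ℤ) :
    Em E w (fun m => F m - G m) = Em E w F - Em E w G := by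
  unfold Em
  rw [← Ev_sub]
  exact Ev_congr 7 w fun φ => by push_cast; rfl

theorem Em_smul (E : V → V → V → Bool) (w : V → ℝ) (c : ℤ) (F : ℕ → ℤ) :
    Em E w (fun m => c * F m) = c * Em E w F := by
  unfold Em
  rw [← Ev_mul]
  exact Ev_congr 7 w fun φ => by push_cast; rfl

theorem Em_const (E : V → V → V → Bool) {w : V → ℝ} (hw : Wt w) (c : ℤ) :
    Em E w (fun _ => c) = c := Ev_const 7 w hw.one _

theorem Em_pc (E : V → V → V → Bool) {w : V → ℝ} (hw : Wt w) :
    Em E w (fun m => (pcn m : ℤ)) = 35 * dens E w := by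
  rw [← Ev_pcr E hw]
  unfold Em
  exact Ev_congr 7 w fun φ => by rw [pcr_eq]; push_cast; rfl

theorem Em_nonneg {E : V → V → V → Bool} (hE : K4m E) {w : V → ℝ} (hw : Wt w) {F : ℕ → ℤ}
    (h : ∀ m, Adm m → 0 ≤ F m) : 0 ≤ Em E w F :=
  Ev_nonneg 7 w hw.nn fun φ => by exact_mod_cast h _ (adm_msk hE φ)

theorem Em_fam {E : V → V → V → Bool} (hE : K4m E) {w : V → ℝ} (hw : Wt w) (g : ℕ → ℤ)
    {Tr gens : List (List ℕ)} {certs : List (List (ℕ × List ℕ))}
    (h : invAll Tr gens certs = true) : Em E w (fam Tr g) = Tr.length * Em E w g := by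
  refine Ev_fam hE w hw.one g Tr ?_
  simp only [invAll, Bool.and_eq_true, List.all_eq_true] at h
  exact h.1

end

/-! ## The assembly

`S` the certificate function (all families), `A` its derivative with respect to `L`, `B` its
derivative with respect to the density. -/

/-- First certificate: `S ≤ N (70 - 7 e)` on the representatives. Second certificate (slope):
`c ≤ 245 N - A + B - κ (7 e - 70) - S'` on the representatives, where `S'` has nonnegative
expectation. -/
theorem assembly {N c κ C : ℕ} {S S' A B : ℕ → ℤ} (hc : 0 < c)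
    (iS : Inv7 S) (iS' : Inv7 S') (iA : Inv7 A) (iB : Inv7 B)
    (h1 : ∀ m ∈ KE.reps7, S m ≤ N * (70 - 7 * (pcn m : ℤ)))
    (h2 : ∀ m ∈ KE.reps7, (c : ℤ) + A m - B m + κ * (7 * (pcn m : ℤ) - 70) + S' m ≤ 245 * N)
    (h3 : ∀ m ∈ KE.reps7, B m ≤ C)
    (hS : ∀ η : ℝ, 0 < η → ∃ θ : ℝ, 0 < θ ∧ ∀ (n : ℕ) (E : Fin n → Fin n → Fin n → Bool)
      (w : Fin n → ℝ), Opt E w → L - θ < dens E w →
      (2 / 7 - L) * Em E w A + (dens E w - 2 / 7) * Em E w B - η ≤ Em E w S)
    (hS' : ∀ (n : ℕ) (E : Fin n → Fin n → Fin n → Bool) (w : Fin n → ℝ), Opt E w →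
      2 / 7 ≤ dens E w → 0 ≤ Em E w S') : L ≤ 2 / 7 := by
  by_contra hcon
  push Not at hcon
  refine absurd ?_ (not_le.2 hcon)
  have hNC : ((c : ℕ) : ℝ) > 0 := by exact_mod_cast hc
  -- the number N is positive
  have key1 : ∀ (n : ℕ) (E : Fin n → Fin n → Fin n → Bool) (w : Fin n → ℝ), Opt E w →
      Em E w S ≤ 245 * N * (2 / 7 - dens E w) := by
    intro n E w ho
    have hinv : Inv7 (fun m => (N : ℤ) * (70 - 7 * (pcn m : ℤ)) - S m) :=
      ((((Inv7.const 70).sub (Inv7.pc.smul 7)).smul N).sub iS)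
    have hn := Em_nonneg ho.free ho.wt (hinv.nonneg fun m hm => by linarith [h1 m hm])
    rw [Em_sub, Em_smul, Em_sub, Em_const E ho.wt, Em_smul, Em_pc E ho.wt] at hn
    push_cast at hn
    linarith
  have key2 : ∀ (n : ℕ) (E : Fin n → Fin n → Fin n → Bool) (w : Fin n → ℝ), Opt E w →
      2 / 7 ≤ dens E w → (c : ℝ) ≤ 245 * N - Em E w A + Em E w B := by
    intro n E w ho hd
    have hinv : Inv7 (fun m => (245 * N : ℤ) - (((c : ℤ) + A m - B m) +
        κ * (7 * (pcn m : ℤ) - 70) + S' m)) :=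
      (Inv7.const _).sub (((((Inv7.const _).add iA).sub iB).add
        (((Inv7.pc.smul 7).sub (Inv7.const 70)).smul κ)).add iS')
    have hn := Em_nonneg ho.free ho.wt (hinv.nonneg fun m hm => by linarith [h2 m hm])
    rw [Em_sub, Em_const E ho.wt, Em_add, Em_add, Em_sub, Em_add, Em_const E ho.wt, Em_smul,
      Em_sub, Em_smul, Em_const E ho.wt, Em_pc E ho.wt] at hn
    have h5 := hS' n E w ho hd
    have h6 : (0 : ℝ) ≤ κ * (7 * (35 * dens E w) - 70) :=
      mul_nonneg (Nat.cast_nonneg _) (by linarith)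
    push_cast at hn
    linarith
  have key3 : ∀ (n : ℕ) (E : Fin n → Fin n → Fin n → Bool) (w : Fin n → ℝ), Opt E w →
      Em E w B ≤ C := by
    intro n E w ho
    have hinv : Inv7 (fun m => (C : ℤ) - B m) := (Inv7.const _).sub iB
    have hn := Em_nonneg ho.free ho.wt (hinv.nonneg fun m hm => by linarith [h3 m hm])
    rw [Em_sub, Em_const E ho.wt] at hn
    push_cast at hn
    linarith
  -- the scale
  have hN0 : (0 : ℝ) < 245 * N := by
    rcases Nat.eq_zero_or_pos N with hN | hN
    · exfalso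
      -- an almost optimal object with density at least 2 / 7 contradicts the certificates
      set x := L - 2 / 7 with hx
      have hx0 : 0 < x := by linarith
      obtain ⟨θ, hθ, hh⟩ := hS (c * x / 4) (by positivity)
      have hC0 : (0 : ℝ) ≤ C := Nat.cast_nonneg _
      obtain ⟨n, E, w, ho, hd⟩ := exists_opt
        (ε := min (min θ x) (c * x / (C + 1) / 4)) (by positivity)
      have hm1 := min_le_left (min θ x) (c * x / (C + 1) / 4)
      have hm2 := min_le_left θ x
      have hm3 := min_le_right θ x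
      have hm4 := min_le_right (min θ x) (c * x / (C + 1) / 4)
      have e1 := hh n E w ho (by linarith)
      have e2 := key1 n E w ho
      have e3 := key2 n E w ho (by linarith)
      have e4 := key3 n E w ho
      have e5 : dens E w ≤ L := dens_le_L ho.free ho.wt
      rw [hN] at e2 e3
      simp only [Nat.cast_zero, mul_zero, zero_mul, zero_sub] at e2 e3
      set y := L - dens E w with hy
      have hy0 : 0 ≤ y := by linarith
      have hyx : y * (C + 1) ≤ c * x / 4 := by
        have h8 : y * (C + 1) ≤ c * x / (C + 1) / 4 * (C + 1) :=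
          mul_le_mul_of_nonneg_right (by linarith) (by linarith)
        have h9 : c * x / ((C : ℝ) + 1) / 4 * (C + 1) = c * x / 4 := by field_simp
        linarith
      have h10 : x * (-Em E w A + Em E w B) ≤ y * Em E w B + c * x / 4 := by nlinarith
      have h11 : (c : ℝ) * x ≤ x * (-Em E w A + Em E w B) := by nlinarith
      have h12 : y * Em E w B ≤ y * (C + 1) := mul_le_mul_of_nonneg_left (by linarith) hy0
      have h13 : 0 < (c : ℝ) * x := by positivity
      linarith
    · positivity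
  generalize (245 * (N : ℝ)) = M at hN0 key1 key2
  have hM : M ≠ 0 := hN0.ne'
  refine final2 (p0 := 2 / 7) (c := c / M) (C := C / M) (by positivity) ?_
  intro η hη
  obtain ⟨θ, hθ, h⟩ := hS (M * η) (by positivity)
  refine ⟨min θ (L - 2 / 7), lt_min hθ (by linarith), fun n E w ho hd => ?_⟩
  have hd1 : L - θ < dens E w := lt_of_le_of_lt (by linarith [min_le_left θ (L - 2 / 7)]) hd
  have hd2 : 2 / 7 ≤ dens E w := by linarith [min_le_right θ (L - 2 / 7)]
  refine ⟨Em E w A / M, Em E w B / M, ?_, ?_, ?_⟩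
  · have g1 := h n E w ho hd1
    have g2 := key1 n E w ho
    have g3 : (2 / 7 - L) * Em E w A + (dens E w - 2 / 7) * Em E w B - M * η ≤
        M * (2 / 7 - dens E w) := g1.trans g2
    have g4 : (2 / 7 - L) * (Em E w A / M) + (dens E w - 2 / 7) *
        (Em E w B / M) - η = ((2 / 7 - L) * Em E w A + (dens E w - 2 / 7) * Em E w B -
        M * η) / M := by
      field_simp
    rw [g4, div_le_iff₀ hN0]
    linarith
  · have g1 := key2 n E w ho hd2
    rw [div_le_iff₀ hN0]
    have g2 : (1 - Em E w A / M + Em E w B / M) * M =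
        M - Em E w A + Em E w B := by
      field_simp
    rw [g2]
    exact g1
  · have g1 := key3 n E w ho
    exact div_le_div_of_nonneg_right g1 hN0.le

end KC
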