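import Pool.Agent.Helper85.KB.B4

/-!
# The local lemma with numerical parameters
-/

set_option autoImplicit false

open Finset hiding dens

namespace KS

open KF

/-- The local lemma: sizes within `τ`, degrees within `δ` of `2/7`, missing pairs at most `m` at
every vertex, missing triples at most `U`: the bad triples are at most `r` times the missing
ones. -/
def LocL (τ δ m U r : ℝ) : Prop :=
  ∀ (V : Type) (_ : Fintype V) (E : V → V → V → Bool) (w : V → ℝ) (κ : V → Fin 6), K4m E →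
    Wt w → ∑ j, (KB.xs w κ j - 1 / 6) ^ 2 ≤ τ ^ 2 →
    (∀ v, 0 < w v → |deg E w v - 2 / 7| ≤ δ) → (∀ v, 0 < w v → KB.mm E w κ v ≤ m) →
    KB.mu E w κ ≤ U → KB.bet E w κ ≤ r * KB.mu E w κ

theorem LocL.mono {τ δ m U r τ' δ' m' U' : ℝ} (h : LocL τ δ m U r) (h1 : τ' ≤ τ) (h0 : 0 ≤ τ')
    (h2 : δ' ≤ δ) (h3 : m' ≤ m) (h4 : U' ≤ U) : LocL τ' δ' m' U' r := by
  intro V iV E w κ hE hw ht hd hm hu
  refine h V iV E w κ hE hw (ht.trans ?_) (fun v hv => (hd v hv).trans h2)
    (fun v hv => (hm v hv).trans h3) (hu.trans h4)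
  exact pow_le_pow_left₀ h0 h1 2

end KS
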