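import Pool.Agent.Helper25.K4.Siz2

/-!
# Sizes of the classes of a partial partition, III: the a priori size lemma
-/

set_option autoImplicit false

open Finset hiding dens

namespace KS

open KF KT

/-- The far case: the largest class cannot be large. -/
theorem far_aux {δ γ M b θ R : ℝ} (hδ0 : 0 ≤ δ) (hγ0 : 0 ≤ γ) (hθ0 : 0 ≤ θ)
    (hb0 : 0 ≤ b) (hH : 61 / 10 * b + 3 / 4 * γ + θ ≤ 1 / 150) (hM1 : 2 / 7 ≤ M) (hM2 : M ≤ 2 / 3)
    (hR : 2 / 7 + δ - θ - (1 - γ - M) ^ 2 / 2 - (2 / 7 + δ) * M ^ 2 - 4 * (2 / 7 + δ) * γ ≤ R)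
    (hMR : M * R ≤ b + δ / 10) : False := by
  have hγ1 : γ ≤ 1 / 100 := by linarith
  have e1 : 2 / 7 + δ - θ - (1 - γ - M) ^ 2 / 2 - (2 / 7 + δ) * M ^ 2 - 4 * (2 / 7 + δ) * γ =
      5 / 686 + 11 / 14 * (M - 2 / 7) * (76 / 77 - M) - γ * (3 / 7) - γ * (M - 2 / 7) -
        γ ^ 2 / 2 - θ + δ * (1 - M ^ 2 - 4 * γ) := by ring
  have h1 : 1 / 4 * (M - 2 / 7) ≤ 11 / 14 * (M - 2 / 7) * (76 / 77 - M) := by nlinarith
  have h2 : γ * (M - 2 / 7) ≤ 1 / 100 * (M - 2 / 7) :=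
    mul_le_mul_of_nonneg_right hγ1 (by linarith)
  have h3 : γ ^ 2 / 2 ≤ γ / 200 := by nlinarith
  have h4 : 1 / 2 * δ ≤ δ * (1 - M ^ 2 - 4 * γ) := by
    have : 1 / 2 ≤ 1 - M ^ 2 - 4 * γ := by nlinarith
    nlinarith
  have h5 : 5 / 686 - 87 / 200 * γ - θ + 1 / 2 * δ ≤ R := by
    rw [e1] at hR
    linarith
  have h6 : 0 ≤ R := by linarith
  have h7 : 2 / 7 * R ≤ M * R := mul_le_mul_of_nonneg_right hM1 h6
  linarith

/-- The near case. -/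
theorem near_aux {δ γ τ b θ R e : ℝ} (hδ0 : 0 ≤ δ) (hγ0 : 0 ≤ γ)
    (hθ0 : 0 ≤ θ) (hb0 : 0 ≤ b) (he : e = 61 / 10 * b + 3 / 4 * γ + θ) (hH : e ≤ 1 / 150)
    (hM : (1 - γ) / 6 + τ < 2 / 7) (hτ : 2 * e < τ)
    (hR : 2 / 7 + δ - θ - (10 * ((1 - γ) / 6 + τ) ^ 2 - 24 * ((1 - γ) / 6 + τ) * τ + 18 * τ ^ 2) -
      (2 / 7 + δ) * ((1 - γ) / 6 + τ) ^ 2 - 4 * (2 / 7 + δ) * γ ≤ R)
    (hMR : ((1 - γ) / 6 + τ) * R ≤ b + δ / 10) : False := by
  have hγ1 : γ ≤ 1 / 100 := by linarith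
  have he0 : 0 ≤ e := by rw [he]; positivity
  have hτ0 : 0 < τ := by linarith
  have hτ1 : τ ≤ 5 / 42 + γ / 6 := by linarith
  have hτ2 : τ ≤ 1 / 8 := by linarith
  have e1 : 2 / 7 + δ - θ -
      (10 * ((1 - γ) / 6 + τ) ^ 2 - 24 * ((1 - γ) / 6 + τ) * τ + 18 * τ ^ 2) -
      (2 / 7 + δ) * ((1 - γ) / 6 + τ) ^ 2 - 4 * (2 / 7 + δ) * γ =
      4 / 7 * τ - 30 / 7 * τ ^ 2 - 4 / 7 * (γ * (1 + τ + γ / 2)) - θ +
        δ * (1 - ((1 - γ) / 6 + τ) ^ 2 - 4 * γ) := by ring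
  have h1 : γ * (1 + τ + γ / 2) ≤ γ * (113 / 100) :=
    mul_le_mul_of_nonneg_left (by linarith) hγ0
  have hM0 : 0 ≤ (1 - γ) / 6 + τ := by linarith
  have h4 : 4 / 5 * δ ≤ δ * (1 - ((1 - γ) / 6 + τ) ^ 2 - 4 * γ) := by
    have : 4 / 5 ≤ 1 - ((1 - γ) / 6 + τ) ^ 2 - 4 * γ := by nlinarith
    nlinarith
  have h5 : 4 / 7 * τ - 30 / 7 * τ ^ 2 - 13 / 20 * γ - θ + 4 / 5 * δ ≤ R := by
    rw [e1] at hR
    linarith
  have hM1 : 33 / 200 ≤ (1 - γ) / 6 + τ := by linarith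
  -- lower bound of the quadratic
  have h6 : b / (33 / 200) < 4 / 7 * τ - 30 / 7 * τ ^ 2 - 13 / 20 * γ - θ := by
    rcases le_total τ (1 / 15) with h | h
    · have g1 : 4 / 7 * (2 * e) - 30 / 7 * (2 * e) ^ 2 < 4 / 7 * τ - 30 / 7 * τ ^ 2 := by
        have : 4 / 7 * τ - 30 / 7 * τ ^ 2 - (4 / 7 * (2 * e) - 30 / 7 * (2 * e) ^ 2) =
            (τ - 2 * e) * (4 / 7 - 30 / 7 * (τ + 2 * e)) := by ring
        have h8 : 0 < (τ - 2 * e) * (4 / 7 - 30 / 7 * (τ + 2 * e)) :=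
          mul_pos (by linarith) (by linarith)
        linarith
      have g2 : 36 / 35 * e ≤ 4 / 7 * (2 * e) - 30 / 7 * (2 * e) ^ 2 := by nlinarith
      have g3 : b / (33 / 200) = 200 / 33 * b := by ring
      rw [g3]
      linarith
    · have g1 : 4 / 7 * (5 / 42 + γ / 6) - 30 / 7 * (5 / 42 + γ / 6) ^ 2 ≤
          4 / 7 * τ - 30 / 7 * τ ^ 2 := by
        have : 4 / 7 * τ - 30 / 7 * τ ^ 2 - (4 / 7 * (5 / 42 + γ / 6) -
            30 / 7 * (5 / 42 + γ / 6) ^ 2) =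
            (5 / 42 + γ / 6 - τ) * (30 / 7 * (τ + (5 / 42 + γ / 6)) - 4 / 7) := by ring
        have h8 : 0 ≤ (5 / 42 + γ / 6 - τ) * (30 / 7 * (τ + (5 / 42 + γ / 6)) - 4 / 7) :=
          mul_nonneg (by linarith) (by linarith)
        linarith
      have g2 : 5 / 686 - 2 / 25 * γ ≤ 4 / 7 * (5 / 42 + γ / 6) - 30 / 7 * (5 / 42 + γ / 6) ^ 2 := by
        nlinarith
      have g3 : b / (33 / 200) = 200 / 33 * b := by ring
      rw [g3]
      linarith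
  have h7 : b / (33 / 200) + 4 / 5 * δ < R := by linarith
  have hb1 : 0 ≤ b / (33 / 200) := by positivity
  have h8 : 0 < R := by linarith
  have h9 : 33 / 200 * R ≤ ((1 - γ) / 6 + τ) * R := mul_le_mul_of_nonneg_right hM1 h8.le
  have h10 : 33 / 200 * (b / (33 / 200)) = b := by ring
  nlinarith

section
variable {V : Type} [Fintype V] {E : V → V → V → Bool} {w : V → ℝ}

/-- The largest class. -/
theorem max_size (ho : Opt E w) (κ : V → Option (Fin 6)) {b θ : ℝ} (hθ0 : 0 ≤ θ)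
    (hθ : L - θ ≤ dens E w) (hx : ∀ i, xsO w κ i ≤ 2 * dens E w) (hb0 : 0 ≤ b)
    (hb : beO E w κ ≤ b + (L - 2 / 7) / 10)
    (hH : 61 / 10 * b + 3 / 4 * unO w κ + θ ≤ 1 / 150) (i : Fin 6) :
    xsO w κ i ≤ (1 - unO w κ) / 6 + 2 * (61 / 10 * b + 3 / 4 * unO w κ + θ) := by
  obtain ⟨i0, hi0⟩ := Finite.exists_max (xsO w κ)
  refine (hi0 i).trans ?_
  by_contra hcon
  push Not at hcon
  set γ := unO w κ with hγ
  set e := 61 / 10 * b + 3 / 4 * γ + θ with he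
  set M := xsO w κ i0 with hM
  have hγ0 : 0 ≤ γ := unO_nn ho.wt.nn κ
  have hL1 := L_le_third
  have hL2 := L_ge
  have hdL : dens E w ≤ L := dens_le_L ho.free ho.wt
  have hd0 : 0 ≤ dens E w := dens_nonneg E ho.wt.nn
  set δ := L - 2 / 7 with hδ
  have hδ0 : 0 ≤ δ := by linarith
  have hLδ : L = 2 / 7 + δ := by linarith
  have he0 : 0 ≤ e := by rw [he]; positivity
  have hγ1 : γ ≤ 1 / 100 := by linarith
  have hMpos : 0 < M := by linarith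
  have hcd := class_deg ho κ i0
  have h1 := muC_nn (E := E) ho.wt.nn κ i0
  have h2 := beC_le (E := E) ho.wt.nn κ i0
  set R := dens E w - PO (xsO w κ) i0 - L * M ^ 2 - 4 * dens E w * γ with hR
  have hMR : M * R ≤ b + δ / 10 := by
    have : M * R = dens E w * M - M * PO (xsO w κ) i0 - L * M ^ 3 - 4 * dens E w * γ * M := by
      rw [hR]; ring
    rw [this]
    linarith
  have hs : ∑ j, xsO w κ j = 1 - γ := sum_xsO ho.wt κ
  have hdg : 4 * dens E w * γ ≤ 4 * (2 / 7 + δ) * γ := by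
    rw [← hLδ]
    nlinarith
  rcases le_or_gt (2 / 7) M with hM7 | hM7
  · have h3 := PO_le_half (xsO_nn ho.wt.nn κ) i0
    rw [hs] at h3
    refine far_aux (M := M) (R := R) hδ0 hγ0 hθ0 hb0 hH hM7 ?_ ?_ hMR
    · have := hx i0
      linarith
    · rw [hR, ← hLδ]
      rw [← hLδ] at hdg
      linarith
  · have h3 := PO_le_max (x := xsO w κ) (i := i0) hi0 (τ := M - (1 - γ) / 6) (by rw [hs]; ring)
    have hMe : M = (1 - γ) / 6 + (M - (1 - γ) / 6) := by ring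
    refine near_aux (τ := M - (1 - γ) / 6) (R := R) hδ0 hγ0 hθ0 hb0 he hH (by linarith)
      (by linarith) ?_ ?_
    · rw [← hMe, hR]
      change PO (xsO w κ) i0 ≤ 10 * M ^ 2 - 24 * M * (M - (1 - γ) / 6) +
        18 * (M - (1 - γ) / 6) ^ 2 at h3
      rw [← hLδ] at hdg ⊢
      linarith
    · rw [← hMe]
      exact hMR

/-- The quadratic size inequality, when the classes are not much larger than the average. -/
theorem sizes_of_max (ho : Opt E w) (κ : V → Option (Fin 6)) {τ θ : ℝ} (hθ0 : 0 ≤ θ)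
    (hθ : L - θ ≤ dens E w) (hγ1 : unO w κ ≤ 1 / 100) (hτ0 : 0 ≤ τ)
    (hmax : ∀ i, xsO w κ i ≤ (1 - unO w κ) / 6 + τ) :
    (4 / 5 - 31 / 3 * τ) * ∑ i, (xsO w κ i - (1 - unO w κ) / 6) ^ 2 + muO E w κ +
      47 / 50 * (L - 2 / 7) ≤ beO E w κ + unO w κ ^ 2 + θ := by
  set γ := unO w κ with hγ
  have hγ0 : 0 ≤ γ := unO_nn ho.wt.nn κ
  have hL1 := L_le_third
  have hL2 := L_ge
  set t : Fin 6 → ℝ := fun i => xsO w κ i - (1 - γ) / 6 with ht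
  have hs : ∑ j, xsO w κ j = 1 - γ := sum_xsO ho.wt κ
  have ht0 : ∑ j, t j = 0 := by
    rw [ht]
    simp only [Finset.sum_sub_distrib, hs, Finset.sum_const, Finset.card_univ, Fintype.card_fin,
      nsmul_eq_mul]
    push_cast
    ring
  have hxt : ∀ i, xsO w κ i = (1 - γ) / 6 + t i := fun i => by rw [ht]; ring
  have h1 := total_le ho κ
  have h2 := BB_expand hxt ht0
  have h3 := cube_expand hxt ht0
  have h4 := cubic_le (l := L) (τ := τ) (by linarith) ht0 (fun j => by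
    have := hmax j
    rw [hxt j] at this
    linarith)
  unfold BB at h2 h4
  rw [h2, h3, ← hγ] at h1
  set r := ∑ j, t j ^ 2 with hr
  have hr0 : 0 ≤ r := Finset.sum_nonneg fun j _ => sq_nonneg _
  -- coefficient of r
  have h5 : (4 / 5 - 31 / 3 * τ) * r ≤ (1 - γ) * r - L * ((1 - γ) / 2) * r -
      (10 + L) * τ * r := by
    have c0 : L * τ ≤ 1 / 3 * τ := mul_le_mul_of_nonneg_right hL1 hτ0
    have c1 : L * (1 - γ) ≤ 1 / 3 * (1 - γ) := mul_le_mul_of_nonneg_right hL1 (by linarith)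
    have : 4 / 5 - 31 / 3 * τ ≤ (1 - γ) - L * ((1 - γ) / 2) - (10 + L) * τ := by linarith
    nlinarith
  have h6 : (L - θ) * (1 - 3 * γ) ≤ dens E w * (1 - 3 * γ) :=
    mul_le_mul_of_nonneg_right hθ (by linarith)
  have h7 : 10 / 36 * (1 - γ) ^ 3 + L * ((1 - γ) ^ 3 / 36) ≤
      L * (1 - 3 * γ) + γ ^ 2 - 47 / 50 * (L - 2 / 7) := by
    have c1 : 10 / 36 * (1 - γ) ^ 3 + L * ((1 - γ) ^ 3 / 36) =
        L * (1 - γ) ^ 3 - 35 / 36 * (L - 2 / 7) * (1 - γ) ^ 3 := by ring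
    have c2 : (1 - γ) ^ 3 ≤ 1 - 3 * γ + 3 * γ ^ 2 := by nlinarith [pow_nonneg hγ0 3]
    have c3 : 1 - 3 * γ ≤ (1 - γ) ^ 3 := by nlinarith [pow_nonneg hγ0 3, sq_nonneg γ]
    have c4 : 97 / 100 ≤ (1 - γ) ^ 3 := by linarith
    have c5 : 35 / 36 * (L - 2 / 7) * (97 / 100) ≤ 35 / 36 * (L - 2 / 7) * (1 - γ) ^ 3 :=
      mul_le_mul_of_nonneg_left c4 (by linarith)
    have c6 : L * (1 - γ) ^ 3 ≤ L * (1 - 3 * γ + 3 * γ ^ 2) :=
      mul_le_mul_of_nonneg_left c2 (by linarith)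
    have c7 : L * (3 * γ ^ 2) ≤ γ ^ 2 := by nlinarith [sq_nonneg γ]
    rw [c1]
    nlinarith
  have h8 : θ * (1 - 3 * γ) ≤ θ := by nlinarith
  linarith

/-- The a priori size lemma. -/
theorem sizes (ho : Opt E w) (κ : V → Option (Fin 6)) {b θ : ℝ} (hθ0 : 0 ≤ θ)
    (hθ : L - θ ≤ dens E w) (hx : ∀ i, xsO w κ i ≤ 2 * dens E w) (hb0 : 0 ≤ b)
    (hb : beO E w κ ≤ b + (L - 2 / 7) / 10)
    (hH : 61 / 10 * b + 3 / 4 * unO w κ + θ ≤ 1 / 150) :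
    (∀ i, xsO w κ i ≤ (1 - unO w κ) / 6 + 1 / 75) ∧
    33 / 50 * ∑ i, (xsO w κ i - (1 - unO w κ) / 6) ^ 2 + muO E w κ +
      47 / 50 * (L - 2 / 7) ≤ beO E w κ + unO w κ ^ 2 + θ := by
  have hγ0 : 0 ≤ unO w κ := unO_nn ho.wt.nn κ
  have hmax : ∀ i, xsO w κ i ≤ (1 - unO w κ) / 6 + 1 / 75 := fun i => by
    have := max_size ho κ hθ0 hθ hx hb0 hb hH i
    linarith
  refine ⟨hmax, ?_⟩
  have h := sizes_of_max ho κ (τ := 1 / 75) hθ0 hθ (by linarith) (by norm_num) hmax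
  have hr0 : 0 ≤ ∑ i, (xsO w κ i - (1 - unO w κ) / 6) ^ 2 :=
    Finset.sum_nonneg fun j _ => sq_nonneg _
  nlinarith

theorem sq_le_of_sum {t : Fin 6 → ℝ} (ht : ∑ j, t j = 0) (i : Fin 6) :
    t i ^ 2 ≤ 5 / 6 * ∑ j, t j ^ 2 := by
  have h1 : ∑ j ∈ Finset.univ.erase i, t j = -t i := by
    have := Finset.add_sum_erase Finset.univ t (Finset.mem_univ i)
    linarith
  have h2 : (∑ j ∈ Finset.univ.erase i, t j) ^ 2 ≤ 5 * ∑ j ∈ Finset.univ.erase i, t j ^ 2 := by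
    have h := sq_sum_le_card_mul_sum_sq (s := Finset.univ.erase i) (f := t)
    have hc : (Finset.univ.erase i).card = 5 := by
      rw [Finset.card_erase_of_mem (Finset.mem_univ i)]
      simp
    rw [hc] at h
    exact_mod_cast h
  have h3 : t i ^ 2 + ∑ j ∈ Finset.univ.erase i, t j ^ 2 = ∑ j, t j ^ 2 :=
    Finset.add_sum_erase Finset.univ (fun j => t j ^ 2) (Finset.mem_univ i)
  rw [h1] at h2
  nlinarith

/-- The a priori size lemma for the partition of the first part. -/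
theorem sizes_part1 (ho : Opt E w) (κ : V → Option (Fin 6)) {m0 W lam c K θ : ℝ} (hθ0 : 0 ≤ θ)
    (hθ1 : θ ≤ 1 / 100000) (hθ : L - θ ≤ dens E w) (hm : 0 ≤ m0) (hW : 0 ≤ W) (hlam : 0 < lam)
    (hc : m0 + W + lam * unO w κ ≤ c) (hbe : beO E w κ ≤ 6 * dens E w * W)
    (hx : ∀ i, xsO w κ i ≤ 2 * dens E w) (hK1 : 183 / 17.5 ≤ K) (hK2 : 3 / 4 ≤ lam * K)
    (hK : K * c + θ ≤ 1 / 150) :
    (∀ i, xsO w κ i ≤ (1 - unO w κ) / 6 + 1 / 75) ∧
    33 / 50 * ∑ i, (xsO w κ i - (1 - unO w κ) / 6) ^ 2 + muO E w κ +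
      47 / 50 * (L - 2 / 7) ≤ beO E w κ + unO w κ ^ 2 + θ ∧
    (∀ i, |xsO w κ i - (1 - unO w κ) / 6| ≤ 1 / 25) ∧ beO E w κ ≤ 1 / 800 ∧
    L - 2 / 7 ≤ 7 / 5000 := by
  have hγ0 : 0 ≤ unO w κ := unO_nn ho.wt.nn κ
  have hL1 := L_le_third
  have hL2 := L_ge
  have hdL : dens E w ≤ L := dens_le_L ho.free ho.wt
  have hKpos : 0 < K := lt_of_lt_of_le (by norm_num) hK1
  have hWc : W ≤ c := by nlinarith
  have hcK : K * (W + lam * unO w κ) ≤ K * c := mul_le_mul_of_nonneg_left (by linarith) hKpos.le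
  have h1 : 183 / 17.5 * W + 3 / 4 * unO w κ ≤ K * c := by
    have e1 : 183 / 17.5 * W ≤ K * W := mul_le_mul_of_nonneg_right hK1 hW
    have e2 : 3 / 4 * unO w κ ≤ lam * K * unO w κ := mul_le_mul_of_nonneg_right hK2 hγ0
    nlinarith
  have hW2 : W ≤ 1 / 1500 := by
    have : 183 / 17.5 * W ≤ 1 / 150 := by linarith
    norm_num at this
    linarith
  have hb : beO E w κ ≤ 12 / 7 * W + (L - 2 / 7) / 10 := by
    have e1 : 6 * dens E w * W ≤ 6 * L * W := by nlinarith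
    have e2 : 6 * L * W = 12 / 7 * W + 6 * (L - 2 / 7) * W := by ring
    have e3 : 6 * (L - 2 / 7) * W ≤ (L - 2 / 7) / 10 := by nlinarith
    linarith
  have hH : 61 / 10 * (12 / 7 * W) + 3 / 4 * unO w κ + θ ≤ 1 / 150 := by
    have : 61 / 10 * (12 / 7 * W) = 183 / 17.5 * W := by norm_num; ring
    linarith
  obtain ⟨r1, r2⟩ := sizes ho κ hθ0 hθ hx (by positivity) hb hH
  have hbn : 0 ≤ beO E w κ := by
    rw [beO_eq]
    exact Finset.sum_nonneg fun i _ => beC_nn ho.wt.nn κ i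
  have hmn : 0 ≤ muO E w κ := by
    rw [muO_eq]
    exact Finset.sum_nonneg fun i _ => muC_nn ho.wt.nn κ i
  have hr0 : 0 ≤ ∑ i, (xsO w κ i - (1 - unO w κ) / 6) ^ 2 :=
    Finset.sum_nonneg fun j _ => sq_nonneg _
  have hγ1 : unO w κ ≤ 1 / 100 := by linarith
  have hγ2 : unO w κ ^ 2 ≤ 1 / 100 * unO w κ := by nlinarith
  have hs : ∑ j, xsO w κ j = 1 - unO w κ := sum_xsO ho.wt κ
  have ht0 : ∑ j, (xsO w κ j - (1 - unO w κ) / 6) = 0 := by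
    simp only [Finset.sum_sub_distrib, hs, Finset.sum_const, Finset.card_univ, Fintype.card_fin,
      nsmul_eq_mul]
    push_cast
    ring
  have hLb : L - 2 / 7 ≤ 50 / 47 * (beO E w κ + unO w κ ^ 2 + θ) := by linarith
  have hb4 : beO E w κ + unO w κ ^ 2 + θ ≤ 62 / 50000 := by linarith
  refine ⟨r1, r2, fun i => ?_, by linarith, by linarith⟩
  have h2 := sq_le_of_sum ht0 i
  have h3 : (xsO w κ i - (1 - unO w κ) / 6) ^ 2 ≤ (1 / 25) ^ 2 := by linarith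
  exact abs_le_of_sq_le_sq h3 (by norm_num)

end

end KS
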