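import Pool.Agent.Helper91.KF.F3

/-!
# Averages over a set of vertices of an optimal object
-/

set_option autoImplicit false

open Finset

namespace KC

open KF

section
variable {V : Type} [Fintype V] {E : V → V → V → Bool} {w : V → ℝ}

/-- The part of the weight inside. -/
noncomputable def wi (w z : V → ℝ) : V → ℝ := fun v => w v * z v

/-- The part of the weight outside. -/
noncomputable def wo (w z : V → ℝ) : V → ℝ := fun v => w v * (1 - z v)

theorem wi_add_wo (w z : V → ℝ) : wi w z + wo w z = w := by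
  funext v
  simp only [Pi.add_apply, wi, wo]
  ring

theorem wo_eq (w z : V → ℝ) : wo w z = w + (-1 : ℝ) • wi w z := by
  funext v
  simp only [Pi.add_apply, Pi.smul_apply, smul_eq_mul, wi, wo]
  ring

theorem tri_uww (ho : Opt E w) (u : V → ℝ) : tri E u w w = dens E w * ∑ v, u v := by
  have : tri E u w w = ∑ v, u v * deg E w v := by
    unfold tri deg
    refine Finset.sum_congr rfl fun x _ => ?_
    rw [Finset.mul_sum]
    refine Finset.sum_congr rfl fun y _ => ?_
    rw [Finset.mul_sum]
    refine Finset.sum_congr rfl fun z _ => by ring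
  rw [this, Finset.mul_sum]
  refine Finset.sum_congr rfl fun v _ => ?_
  rw [ho.reg v]
  ring

/-- The links of the vertices inside, seen outside: exact value. -/
theorem tri_out (ho : Opt E w) (z : V → ℝ) :
    tri E (wi w z) (wo w z) (wo w z) = dens E w * (∑ v, w v * z v) -
      2 * tri E (wi w z) (wi w z) w + tri E (wi w z) (wi w z) (wi w z) := by
  have hE := ho.free
  rw [wo_eq, tri_add2 hE, tri_add3 hE, tri_add3 hE, tri_smul2 hE, tri_smul2 hE, tri_smul3 hE,
    tri_smul3 hE, tri_uww ho, tri_swap23 hE (wi w z) w (wi w z)]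
  unfold wi
  ring

/-- The codegree form of the part inside. -/
theorem cod_in_le (ho : Opt E w) (z : V → ℝ) :
    tri E (wi w z) (wi w z) w ≤ dens E w * (∑ v, w v * z v) ^ 2 := second_var ho (wi w z)

/-- On average the links of the vertices inside lose nothing in first order outside. -/
theorem avg_out (ho : Opt E w) {z : V → ℝ} (hz : ∀ v, 0 ≤ z v) :
    dens E w * (∑ v, w v * z v) * (1 - 2 * ∑ v, w v * z v) ≤
      tri E (wi w z) (wo w z) (wo w z) := by
  have h1 := tri_out ho z
  have h2 := cod_in_le ho z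
  have h0 : ∀ v, 0 ≤ wi w z v := fun v => mul_nonneg (ho.wt.nn v) (hz v)
  have h3 := tri_nonneg E h0 h0 h0
  rw [h1]
  nlinarith

/-- There is a vertex inside whose link outside is large. -/
theorem exists_out (ho : Opt E w) {z : V → ℝ} (hz : ∀ v, 0 ≤ z v) (hp : 0 < ∑ v, w v * z v) :
    ∃ v, 0 < z v ∧ dens E w * (1 - 2 * ∑ v, w v * z v) ≤
      ∑ x, ∑ y, wo w z x * wo w z y * b2r (E v x y) := by
  by_contra hcon
  push Not at hcon
  have h1 := avg_out ho hz
  set g := ∑ v, w v * z v with hg
  have h2 : tri E (wi w z) (wo w z) (wo w z) =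
      ∑ v, w v * z v * ∑ x, ∑ y, wo w z x * wo w z y * b2r (E v x y) := by
    unfold tri
    refine Finset.sum_congr rfl fun v _ => ?_
    rw [Finset.mul_sum]
    refine Finset.sum_congr rfl fun x _ => ?_
    rw [Finset.mul_sum]
    refine Finset.sum_congr rfl fun y _ => ?_
    unfold wi
    ring
  have h3 : ∑ v, w v * z v * ∑ x, ∑ y, wo w z x * wo w z y * b2r (E v x y) <
      ∑ v, w v * z v * (dens E w * (1 - 2 * g)) := by
    have hex : ∃ v, 0 < w v * z v := by
      by_contra hc
      push Not at hc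
      have : ∑ v, w v * z v ≤ 0 := Finset.sum_nonpos fun v _ => hc v
      linarith
    obtain ⟨v, hv⟩ := hex
    refine Finset.sum_lt_sum (fun u _ => ?_) ⟨v, Finset.mem_univ v, ?_⟩
    · rcases (hz u).eq_or_lt with h | h
      · rw [← h]
        simp
      · exact mul_le_mul_of_nonneg_left (hcon u h).le (mul_nonneg (ho.wt.nn u) (hz u))
    · have hzv : 0 < z v := by
        rcases (hz v).eq_or_lt with h | h
        · rw [← h, mul_zero] at hv
          exact absurd hv (lt_irrefl _)
        · exact h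
      exact mul_lt_mul_of_pos_left (hcon v hzv) hv
  rw [← Finset.sum_mul, ← hg] at h3
  rw [h2] at h1
  nlinarith

/-- The density outside: exact value. -/
theorem dens_out (ho : Opt E w) (z : V → ℝ) :
    dens E (wo w z) = dens E w * (1 - 3 * ∑ v, w v * z v) +
      3 * tri E (wi w z) (wi w z) w - tri E (wi w z) (wi w z) (wi w z) := by
  have hE := ho.free
  rw [dens_eq_tri]
  have h1 : tri E (wo w z) (wo w z) (wo w z) = tri E w (wo w z) (wo w z) -
      tri E (wi w z) (wo w z) (wo w z) := by
    conv_lhs => rw [wo_eq w z]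
    rw [tri_add1, tri_smul1, ← wo_eq w z]
    ring
  have h2 : tri E w (wo w z) (wo w z) = dens E w - 2 * (dens E w * ∑ v, w v * z v) +
      tri E (wi w z) (wi w z) w := by
    rw [wo_eq, tri_add2 hE, tri_add3 hE, tri_add3 hE, tri_smul2 hE, tri_smul2 hE, tri_smul3 hE,
      tri_smul3 hE, ← dens_eq_tri, tri_swap13 hE w w (wi w z), tri_swap12 hE w (wi w z) w,
      tri_swap13 hE w (wi w z) (wi w z), tri_uww ho]
    unfold wi
    ring
  rw [h1, h2, tri_out ho z]
  ring

/-- Upper and lower bounds of the density outside. -/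
theorem dens_out_le (ho : Opt E w) {z : V → ℝ} (hz : ∀ v, 0 ≤ z v) :
    dens E (wo w z) ≤ dens E w * (1 - 3 * (∑ v, w v * z v) + 3 * (∑ v, w v * z v) ^ 2) := by
  have h1 := dens_out ho z
  have h2 := cod_in_le ho z
  have h0 : ∀ v, 0 ≤ wi w z v := fun v => mul_nonneg (ho.wt.nn v) (hz v)
  have h3 := tri_nonneg E h0 h0 h0
  rw [h1]
  nlinarith

theorem le_dens_out (ho : Opt E w) {z : V → ℝ} (hz : ∀ v, 0 ≤ z v) (hz1 : ∀ v, z v ≤ 1) :
    dens E w * (1 - 3 * ∑ v, w v * z v) ≤ dens E (wo w z) := by
  have hE := ho.free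
  have h1 := dens_out ho z
  have h0 : ∀ v, 0 ≤ wi w z v := fun v => mul_nonneg (ho.wt.nn v) (hz v)
  have h0' : ∀ v, 0 ≤ wo w z v := fun v => mul_nonneg (ho.wt.nn v) (by linarith [hz1 v])
  have h2 : tri E (wi w z) (wi w z) w = tri E (wi w z) (wi w z) (wi w z) +
      tri E (wi w z) (wi w z) (wo w z) := by
    rw [← tri_add3 hE, wi_add_wo]
  have h3 := tri_nonneg E h0 h0 h0
  have h4 := tri_nonneg E h0 h0 h0'
  rw [h1, h2]
  linarith

end

end KC
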