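import Pool.Agent.Helper20.KT.X3
import Pool.Agent.Helper35.KI.I5

/-!
# Normalised classes of a partial partition
-/

set_option autoImplicit false

open Finset hiding dens

namespace KS

open KF KT
open KC (wi wo wi_add_wo tri_out)

section
variable {V : Type} [Fintype V] {E : V → V → V → Bool} {w : V → ℝ} {κ : V → Option (Fin 6)}

/-- Normalised weight of a class. -/
noncomputable def wn (w : V → ℝ) (κ : V → Option (Fin 6)) (a : Fin 6) (v : V) : ℝ :=
  w v * icO κ a v / xsO w κ a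

/-- The unassigned part of the weight. -/
noncomputable def ze (w : V → ℝ) (κ : V → Option (Fin 6)) : V → ℝ := wi w (zO κ)

theorem wn_nn (hw : ∀ v, 0 ≤ w v) (a : Fin 6) (v : V) : 0 ≤ wn w κ a v :=
  div_nonneg (mul_nonneg (hw v) (icO_nn a v)) (xsO_nn hw a)

theorem wn_sum {a : Fin 6} (hx : 0 < xsO w κ a) : ∑ v, wn w κ a v = 1 := by
  unfold wn
  rw [← Finset.sum_div, ← xsO_eq, div_self hx.ne']

theorem wn_Wa (hw : ∀ v, 0 ≤ w v) (hx : ∀ a, 0 < xsO w κ a) : KI.Wa (wn w κ) :=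
  ⟨fun a v => wn_nn hw a v, fun a => wn_sum (hx a)⟩

theorem x_wn {a : Fin 6} (hx : 0 < xsO w κ a) (v : V) : xsO w κ a * wn w κ a v = w v * icO κ a v := by
  unfold wn
  field_simp

theorem ze_nn (hw : ∀ v, 0 ≤ w v) (v : V) : 0 ≤ ze w κ v := mul_nonneg (hw v) (zO_nn v)

theorem ze_sum : ∑ v, ze w κ v = unO w κ := rfl

/-- The assigned part of the weight. -/
theorem wo_wn (hx : ∀ a, 0 < xsO w κ a) : wo w (zO κ) = ∑ a, xsO w κ a • wn w κ a := by
  funext v
  simp only [Finset.sum_apply, Pi.smul_apply, smul_eq_mul, wo]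
  rw [one_sub_zO, Finset.mul_sum]
  exact Finset.sum_congr rfl fun a _ => (x_wn (hx a) v).symm

theorem w_eq (hx : ∀ a, 0 < xsO w κ a) : w = ze w κ + ∑ a, xsO w κ a • wn w κ a := by
  rw [← wo_wn hx]
  exact (wi_add_wo w (zO κ)).symm

theorem tri_sum1 (E : V → V → V → Bool) {ι : Type} (S : Finset ι) (f : ι → V → ℝ) (u v : V → ℝ) :
    tri E (∑ i ∈ S, f i) u v = ∑ i ∈ S, tri E (f i) u v := by
  classical
  induction S using Finset.induction_on with
  | empty =>
    simp only [Finset.sum_empty]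
    unfold tri
    simp
  | insert i S hi ih =>
    rw [Finset.sum_insert hi, Finset.sum_insert hi, tri_add1, ih]

theorem tri_sum2 (hE : K4m E) {ι : Type} (S : Finset ι) (f : ι → V → ℝ) (u v : V → ℝ) :
    tri E u (∑ i ∈ S, f i) v = ∑ i ∈ S, tri E u (f i) v := by
  rw [tri_swap12 hE, tri_sum1]
  exact Finset.sum_congr rfl fun i _ => tri_swap12 hE _ _ _

theorem tri_sum3 (hE : K4m E) {ι : Type} (S : Finset ι) (f : ι → V → ℝ) (u v : V → ℝ) :
    tri E u v (∑ i ∈ S, f i) = ∑ i ∈ S, tri E u v (f i) := by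
  rw [tri_swap13 hE, tri_sum1]
  exact Finset.sum_congr rfl fun i _ => tri_swap13 hE _ _ _

/-- Third argument expanded over the classes. -/
theorem tri_w (hE : K4m E) (hx : ∀ a, 0 < xsO w κ a) (u v : V → ℝ) :
    tri E u v w = tri E u v (ze w κ) + ∑ a, xsO w κ a * tri E u v (wn w κ a) := by
  conv_lhs => rw [w_eq (κ := κ) hx]
  rw [tri_add3 hE, tri_sum3 hE]
  simp only [tri_smul3 hE]

/-- The pairs between the classes in the link of the unassigned part. -/
noncomputable def PZ (E : V → V → V → Bool) (w : V → ℝ) (κ : V → Option (Fin 6)) (a b : Fin 6) : ℝ :=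
  tri E (ze w κ) (wn w κ a) (wn w κ b)

/-- Codegree of a class and the unassigned part. -/
noncomputable def kZ (E : V → V → V → Bool) (w : V → ℝ) (κ : V → Option (Fin 6)) (a : Fin 6) : ℝ :=
  tri E (wn w κ a) (ze w κ) w

/-- Pairs of unassigned vertices in the link of a class. -/
noncomputable def zZ (E : V → V → V → Bool) (w : V → ℝ) (κ : V → Option (Fin 6)) (a : Fin 6) : ℝ :=
  tri E (wn w κ a) (ze w κ) (ze w κ)

/-- Codegree of two classes. -/
noncomputable def CC (E : V → V → V → Bool) (w : V → ℝ) (κ : V → Option (Fin 6)) (a b : Fin 6) : ℝ :=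
  tri E (wn w κ a) (wn w κ b) w

theorem PZ_symm (hE : K4m E) (a b : Fin 6) : PZ E w κ a b = PZ E w κ b a := tri_swap23 hE _ _ _

theorem PZ_nn (hw : ∀ v, 0 ≤ w v) (a b : Fin 6) : 0 ≤ PZ E w κ a b :=
  tri_nonneg E (ze_nn hw) (wn_nn hw a) (wn_nn hw b)

theorem zZ_nn (hw : ∀ v, 0 ≤ w v) (a : Fin 6) : 0 ≤ zZ E w κ a :=
  tri_nonneg E (wn_nn hw a) (ze_nn hw) (ze_nn hw)

theorem kZ_nn (hw : ∀ v, 0 ≤ w v) (a : Fin 6) : 0 ≤ kZ E w κ a :=
  tri_nonneg E (wn_nn hw a) (ze_nn hw) hw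

/-- Identity (b): the codegree of a class and the unassigned part. -/
theorem kZ_eq (hE : K4m E) (hx : ∀ a, 0 < xsO w κ a) (a : Fin 6) :
    kZ E w κ a = ∑ b, xsO w κ b * PZ E w κ a b + zZ E w κ a := by
  unfold kZ zZ PZ
  rw [tri_w hE hx, add_comm]
  congr 1
  refine Finset.sum_congr rfl fun b _ => ?_
  rw [tri_swap12 hE]

/-- Identity (c): the links of the unassigned vertices, seen on the classes. -/
theorem PZ_sum (ho : Opt E w) (hx : ∀ a, 0 < xsO w κ a) :
    ∑ a, ∑ b, xsO w κ a * xsO w κ b * PZ E w κ a b = dens E w * unO w κ -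
      2 * tri E (ze w κ) (ze w κ) w + tri E (ze w κ) (ze w κ) (ze w κ) := by
  have hE := ho.free
  have h := tri_out ho (zO κ)
  rw [wo_wn hx, tri_sum2 hE] at h
  have h2 : ∀ a, tri E (wi w (zO κ)) (xsO w κ a • wn w κ a) (∑ b, xsO w κ b • wn w κ b) =
      ∑ b, xsO w κ a * xsO w κ b * PZ E w κ a b := by
    intro a
    rw [tri_sum3 hE]
    refine Finset.sum_congr rfl fun b _ => ?_
    rw [tri_smul2 hE, tri_smul3 hE]
    unfold PZ ze
    ring
  simp only [h2] at h
  exact h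

/-- Identity (d): the negative type inequality. -/
theorem neg_type (ho : Opt E w) {y : Fin 6 → ℝ} (hx : ∀ a, 0 < xsO w κ a)
    (hy : ∑ a, y a = unO w κ) :
    tri E (ze w κ) (ze w κ) w ≤ 2 * ∑ a, y a * kZ E w κ a -
      ∑ a, ∑ b, y a * y b * CC E w κ a b := by
  have hE := ho.free
  set η : V → ℝ := ∑ a, y a • wn w κ a with hη
  have h := second_var ho (ze w κ + (-1 : ℝ) • η)
  have h0 : ∑ v, (ze w κ + (-1 : ℝ) • η) v = 0 := by
    simp only [Pi.add_apply, Pi.smul_apply, smul_eq_mul, Finset.sum_add_distrib, ← Finset.mul_sum]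
    have h1 : ∑ v, η v = ∑ a, y a := by
      rw [hη]
      simp only [Finset.sum_apply, Pi.smul_apply, smul_eq_mul]
      rw [Finset.sum_comm]
      refine Finset.sum_congr rfl fun a _ => ?_
      rw [← Finset.mul_sum, wn_sum (hx a), mul_one]
    rw [h1, hy, ze_sum]
    ring
  rw [h0] at h
  rw [tri_add1, tri_add2 hE, tri_add2 hE, tri_smul1, tri_smul1, tri_smul2 hE, tri_smul2 hE,
    tri_swap12 hE (ze w κ) η w] at h
  have e1 : tri E η (ze w κ) w = ∑ a, y a * kZ E w κ a := by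
    rw [hη, tri_sum1]
    simp only [tri_smul1]
    rfl
  have e2 : tri E η η w = ∑ a, ∑ b, y a * y b * CC E w κ a b := by
    rw [hη, tri_sum1]
    refine Finset.sum_congr rfl fun a _ => ?_
    rw [tri_smul1, tri_sum2 hE, Finset.mul_sum]
    refine Finset.sum_congr rfl fun b _ => ?_
    rw [tri_smul2 hE]
    unfold CC
    ring
  rw [e1, e2] at h
  nlinarith

end

end KS
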