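import Pool.Agent.Helper25.K4.Lf

/-!
# The numerical steps of the chain

Generated lemmas: subdivision of the range of the mass of the unassigned part.
-/

set_option autoImplicit false

namespace KS

theorem st5 {g K mu : ℝ} (h0 : 0 ≤ g) (hg : g ≤ 634 / 100000)
    (hmu : mu ≤ (634 / 1000000 - g / 10) * (1 + 8 / 3 * g) ^ 3)
    (hK : 0 ≤ K) (hK1 : K ≤ 3145 / 10000 * g ^ 2)
    (hl : 0 < g → 72 * K ≤ g * ((181989 / 1000) * mu + (295739 / 100000) * g + (12821 / 100) * g ^ 2 + (-16647 / 250000))) :
    K ≤ (14839 / 25000000000) ∧ g ≤ (437 / 125000) ∧ 3 * K + (1724747 / 100000000) * mu + 11 / 6 * g ^ 3 ≤ (225259 / 20000000000) := by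
  rcases le_total g (27 / 50000) with hb0 | ha1
  · have hm : mu ≤ (636743 / 1000000000) := lfM (a := 0) (b := (27 / 50000)) (by norm_num) h0 hb0 hg hmu (by norm_num)
    have hk : K ≤ (9171 / 100000000000) := lfQ (b := (27 / 50000)) h0 hb0 (by norm_num) hK1 (by norm_num)
    exact ⟨hk.trans (by norm_num), hb0.trans (by norm_num), lfX h0 hb0 hm (by norm_num) hk (by norm_num)⟩
  rcases le_total g (111 / 100000) with hb1 | ha2
  · have hm : mu ≤ (292583 / 500000000) := lfM (a := (27 / 50000)) (b := (111 / 100000)) (by norm_num) ha1 hb1 hg hmu (by norm_num)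
    have hk : K ≤ (31 / 80000000) := lfQ (b := (111 / 100000)) h0 hb1 (by norm_num) hK1 (by norm_num)
    exact ⟨hk.trans (by norm_num), hb1.trans (by norm_num), lfX h0 hb1 hm (by norm_num) hk (by norm_num)⟩
  rcases le_total g (137 / 100000) with hb2 | ha3
  · have hm : mu ≤ (264377 / 500000000) := lfM (a := (111 / 100000)) (b := (137 / 100000)) (by norm_num) ha2 hb2 hg hmu (by norm_num)
    have hk : K ≤ (59029 / 100000000000) := lfQ (b := (137 / 100000)) h0 hb2 (by norm_num) hK1 (by norm_num)
    exact ⟨hk.trans (by norm_num), hb2.trans (by norm_num), lfX h0 hb2 hm (by norm_num) hk (by norm_num)⟩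
  rcases le_total g (29 / 20000) with hb3 | ha4
  · have hm : mu ≤ (125697 / 250000000) := lfM (a := (137 / 100000)) (b := (29 / 20000)) (by norm_num) ha3 hb3 hg hmu (by norm_num)
    have hk : K ≤ (29677 / 50000000000) := lfK (a := (137 / 100000)) (b := (29 / 20000)) (R := (921 / 31250)) (by norm_num) ha3 hb3 hm (by norm_num) (by norm_num) (by norm_num) (hl (by linarith)) (by norm_num) (by norm_num) (by norm_num)
    exact ⟨hk.trans (by norm_num), hb3.trans (by norm_num), lfX h0 hb3 hm (by norm_num) hk (by norm_num)⟩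
  rcases le_total g (151 / 100000) with hb4 | ha5
  · have hm : mu ≤ (494931 / 1000000000) := lfM (a := (29 / 20000)) (b := (151 / 100000)) (by norm_num) ha4 hb4 hg hmu (by norm_num)
    have hk : K ≤ (5923 / 10000000000) := lfK (a := (29 / 20000)) (b := (151 / 100000)) (R := (14121 / 500000)) (by norm_num) ha4 hb4 hm (by norm_num) (by norm_num) (by norm_num) (hl (by linarith)) (by norm_num) (by norm_num) (by norm_num)
    exact ⟨hk.trans (by norm_num), hb4.trans (by norm_num), lfX h0 hb4 hm (by norm_num) hk (by norm_num)⟩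
  rcases le_total g (39 / 25000) with hb5 | ha6
  · have hm : mu ≤ (489053 / 1000000000) := lfM (a := (151 / 100000)) (b := (39 / 25000)) (by norm_num) ha5 hb5 hg hmu (by norm_num)
    have hk : K ≤ (59237 / 100000000000) := lfK (a := (151 / 100000)) (b := (39 / 25000)) (R := (1367 / 50000)) (by norm_num) ha5 hb5 hm (by norm_num) (by norm_num) (by norm_num) (hl (by linarith)) (by norm_num) (by norm_num) (by norm_num)
    exact ⟨hk.trans (by norm_num), hb5.trans (by norm_num), lfX h0 hb5 hm (by norm_num) hk (by norm_num)⟩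
  rcases le_total g (1 / 625) with hb6 | ha7
  · have hm : mu ≤ (96829 / 200000000) := lfM (a := (39 / 25000)) (b := (1 / 625)) (by norm_num) ha6 hb6 hg hmu (by norm_num)
    have hk : K ≤ (923 / 1562500000) := lfK (a := (39 / 25000)) (b := (1 / 625)) (R := (13291 / 500000)) (by norm_num) ha6 hb6 hm (by norm_num) (by norm_num) (by norm_num) (hl (by linarith)) (by norm_num) (by norm_num) (by norm_num)
    exact ⟨hk.trans (by norm_num), hb6.trans (by norm_num), lfX h0 hb6 hm (by norm_num) hk (by norm_num)⟩
  rcases le_total g (41 / 25000) with hb7 | ha8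
  · have hm : mu ≤ (480247 / 1000000000) := lfM (a := (1 / 625)) (b := (41 / 25000)) (by norm_num) ha7 hb7 hg hmu (by norm_num)
    have hk : K ≤ (59239 / 100000000000) := lfK (a := (1 / 625)) (b := (41 / 25000)) (R := (26007 / 1000000)) (by norm_num) ha7 hb7 hm (by norm_num) (by norm_num) (by norm_num) (hl (by linarith)) (by norm_num) (by norm_num) (by norm_num)
    exact ⟨hk.trans (by norm_num), hb7.trans (by norm_num), lfX h0 hb7 hm (by norm_num) hk (by norm_num)⟩
  rcases le_total g (21 / 12500) with hb8 | ha9
  · have hm : mu ≤ (238173 / 500000000) := lfM (a := (41 / 25000)) (b := (21 / 12500)) (by norm_num) ha8 hb8 hg hmu (by norm_num)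
    have hk : K ≤ (3709 / 6250000000) := lfK (a := (41 / 25000)) (b := (21 / 12500)) (R := (25433 / 1000000)) (by norm_num) ha8 hb8 hm (by norm_num) (by norm_num) (by norm_num) (hl (by linarith)) (by norm_num) (by norm_num) (by norm_num)
    exact ⟨hk.trans (by norm_num), hb8.trans (by norm_num), lfX h0 hb8 hm (by norm_num) hk (by norm_num)⟩
  rcases le_total g (171 / 100000) with hb9 | ha10
  · have hm : mu ≤ (118101 / 250000000) := lfM (a := (21 / 12500)) (b := (171 / 100000)) (by norm_num) ha9 hb9 hg hmu (by norm_num)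
    have hk : K ≤ (58941 / 100000000000) := lfK (a := (21 / 12500)) (b := (171 / 100000)) (R := (24817 / 1000000)) (by norm_num) ha9 hb9 hm (by norm_num) (by norm_num) (by norm_num) (hl (by linarith)) (by norm_num) (by norm_num) (by norm_num)
    exact ⟨hk.trans (by norm_num), hb9.trans (by norm_num), lfX h0 hb9 hm (by norm_num) hk (by norm_num)⟩
  rcases le_total g (87 / 50000) with hb10 | ha11
  · have hm : mu ≤ (18779 / 40000000) := lfM (a := (171 / 100000)) (b := (87 / 50000)) (by norm_num) ha10 hb10 hg hmu (by norm_num)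
    have hk : K ≤ (58933 / 100000000000) := lfK (a := (171 / 100000)) (b := (87 / 50000)) (R := (12193 / 500000)) (by norm_num) ha10 hb10 hm (by norm_num) (by norm_num) (by norm_num) (hl (by linarith)) (by norm_num) (by norm_num) (by norm_num)
    exact ⟨hk.trans (by norm_num), hb10.trans (by norm_num), lfX h0 hb10 hm (by norm_num) hk (by norm_num)⟩
  rcases le_total g (89 / 50000) with hb11 | ha12
  · have hm : mu ≤ (233291 / 500000000) := lfM (a := (87 / 50000)) (b := (89 / 50000)) (by norm_num) ha11 hb11 hg hmu (by norm_num)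
    have hk : K ≤ (14831 / 25000000000) := lfK (a := (87 / 50000)) (b := (89 / 50000)) (R := (5999 / 250000)) (by norm_num) ha11 hb11 hm (by norm_num) (by norm_num) (by norm_num) (hl (by linarith)) (by norm_num) (by norm_num) (by norm_num)
    exact ⟨hk.trans (by norm_num), hb11.trans (by norm_num), lfX h0 hb11 hm (by norm_num) hk (by norm_num)⟩
  rcases le_total g (91 / 50000) with hb12 | ha13
  · have hm : mu ≤ (28917 / 62500000) := lfM (a := (89 / 50000)) (b := (91 / 50000)) (by norm_num) ha12 hb12 hg hmu (by norm_num)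
    have hk : K ≤ (14801 / 25000000000) := lfK (a := (89 / 50000)) (b := (91 / 50000)) (R := (23421 / 1000000)) (by norm_num) ha12 hb12 hm (by norm_num) (by norm_num) (by norm_num) (hl (by linarith)) (by norm_num) (by norm_num) (by norm_num)
    exact ⟨hk.trans (by norm_num), hb12.trans (by norm_num), lfX h0 hb12 hm (by norm_num) hk (by norm_num)⟩
  rcases le_total g (93 / 50000) with hb13 | ha14
  · have hm : mu ≤ (11469 / 25000000) := lfM (a := (91 / 50000)) (b := (93 / 50000)) (by norm_num) ha13 hb13 hg hmu (by norm_num)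
    have hk : K ≤ (59019 / 100000000000) := lfK (a := (91 / 50000)) (b := (93 / 50000)) (R := (11423 / 500000)) (by norm_num) ha13 hb13 hm (by norm_num) (by norm_num) (by norm_num) (hl (by linarith)) (by norm_num) (by norm_num) (by norm_num)
    exact ⟨hk.trans (by norm_num), hb13.trans (by norm_num), lfX h0 hb13 hm (by norm_num) hk (by norm_num)⟩
  rcases le_total g (191 / 100000) with hb14 | ha15
  · have hm : mu ≤ (454881 / 1000000000) := lfM (a := (93 / 50000)) (b := (191 / 100000)) (by norm_num) ha14 hb14 hg hmu (by norm_num)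
    have hk : K ≤ (59189 / 100000000000) := lfK (a := (93 / 50000)) (b := (191 / 100000)) (R := (2789 / 125000)) (by norm_num) ha14 hb14 hm (by norm_num) (by norm_num) (by norm_num) (hl (by linarith)) (by norm_num) (by norm_num) (by norm_num)
    exact ⟨hk.trans (by norm_num), hb14.trans (by norm_num), lfX h0 hb14 hm (by norm_num) hk (by norm_num)⟩
  rcases le_total g (197 / 100000) with hb15 | ha16
  · have hm : mu ≤ (450019 / 1000000000) := lfM (a := (191 / 100000)) (b := (197 / 100000)) (by norm_num) ha15 hb15 hg hmu (by norm_num)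
    have hk : K ≤ (14799 / 25000000000) := lfK (a := (191 / 100000)) (b := (197 / 100000)) (R := (4327 / 200000)) (by norm_num) ha15 hb15 hm (by norm_num) (by norm_num) (by norm_num) (hl (by linarith)) (by norm_num) (by norm_num) (by norm_num)
    exact ⟨hk.trans (by norm_num), hb15.trans (by norm_num), lfX h0 hb15 hm (by norm_num) hk (by norm_num)⟩
  rcases le_total g (51 / 25000) with hb16 | ha17
  · have hm : mu ≤ (444171 / 1000000000) := lfM (a := (197 / 100000)) (b := (51 / 25000)) (by norm_num) ha16 hb16 hg hmu (by norm_num)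
    have hk : K ≤ (58971 / 100000000000) := lfK (a := (197 / 100000)) (b := (51 / 25000)) (R := (20813 / 1000000)) (by norm_num) ha16 hb16 hm (by norm_num) (by norm_num) (by norm_num) (hl (by linarith)) (by norm_num) (by norm_num) (by norm_num)
    exact ⟨hk.trans (by norm_num), hb16.trans (by norm_num), lfX h0 hb16 hm (by norm_num) hk (by norm_num)⟩
  rcases le_total g (107 / 50000) with hb17 | ha18
  · have hm : mu ≤ (109351 / 250000000) := lfM (a := (51 / 25000)) (b := (107 / 50000)) (by norm_num) ha17 hb17 hg hmu (by norm_num)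
    have hk : K ≤ (1481 / 2500000000) := lfK (a := (51 / 25000)) (b := (107 / 50000)) (R := (19931 / 1000000)) (by norm_num) ha17 hb17 hm (by norm_num) (by norm_num) (by norm_num) (hl (by linarith)) (by norm_num) (by norm_num) (by norm_num)
    exact ⟨hk.trans (by norm_num), hb17.trans (by norm_num), lfX h0 hb17 hm (by norm_num) hk (by norm_num)⟩
  rcases le_total g (57 / 25000) with hb18 | ha19
  · have hm : mu ≤ (106927 / 250000000) := lfM (a := (107 / 50000)) (b := (57 / 25000)) (by norm_num) ha18 hb18 hg hmu (by norm_num)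
    have hk : K ≤ (5909 / 10000000000) := lfK (a := (107 / 50000)) (b := (57 / 25000)) (R := (933 / 50000)) (by norm_num) ha18 hb18 hm (by norm_num) (by norm_num) (by norm_num) (hl (by linarith)) (by norm_num) (by norm_num) (by norm_num)
    exact ⟨hk.trans (by norm_num), hb18.trans (by norm_num), lfX h0 hb18 hm (by norm_num) hk (by norm_num)⟩
  rcases le_total g (251 / 100000) with hb19 | ha20
  · have hm : mu ≤ (809 / 1953125) := lfM (a := (57 / 25000)) (b := (251 / 100000)) (by norm_num) ha19 hb19 hg hmu (by norm_num)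
    have hk : K ≤ (7419 / 12500000000) := lfK (a := (57 / 25000)) (b := (251 / 100000)) (R := (681 / 40000)) (by norm_num) ha19 hb19 hm (by norm_num) (by norm_num) (by norm_num) (hl (by linarith)) (by norm_num) (by norm_num) (by norm_num)
    exact ⟨hk.trans (by norm_num), hb19.trans (by norm_num), lfX h0 hb19 hm (by norm_num) hk (by norm_num)⟩
  rcases le_total g (293 / 100000) with hb20 | ha21
  · have hm : mu ≤ (24503 / 62500000) := lfM (a := (251 / 100000)) (b := (293 / 100000)) (by norm_num) ha20 hb20 hg hmu (by norm_num)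
    have hk : K ≤ (59117 / 100000000000) := lfK (a := (251 / 100000)) (b := (293 / 100000)) (R := (14527 / 1000000)) (by norm_num) ha20 hb20 hm (by norm_num) (by norm_num) (by norm_num) (hl (by linarith)) (by norm_num) (by norm_num) (by norm_num)
    exact ⟨hk.trans (by norm_num), hb20.trans (by norm_num), lfX h0 hb20 hm (by norm_num) hk (by norm_num)⟩
  rcases le_total g (349 / 100000) with hb21 | ha22
  · have hm : mu ≤ (35061 / 100000000) := lfM (a := (293 / 100000)) (b := (349 / 100000)) (by norm_num) ha21 hb21 hg hmu (by norm_num)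
    have hk : K ≤ (353 / 800000000) := lfK (a := (293 / 100000)) (b := (349 / 100000)) (R := (9103 / 1000000)) (by norm_num) ha21 hb21 hm (by norm_num) (by norm_num) (by norm_num) (hl (by linarith)) (by norm_num) (by norm_num) (by norm_num)
    exact ⟨hk.trans (by norm_num), hb21.trans (by norm_num), lfX h0 hb21 hm (by norm_num) hk (by norm_num)⟩
  rcases le_total g (19 / 5000) with hb22 | ha23
  · have hm : mu ≤ (293753 / 1000000000) := lfM (a := (349 / 100000)) (b := (19 / 5000)) (by norm_num) ha22 hb22 hg hmu (by norm_num)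
    exact (lfC (a := (349 / 100000)) (b := (19 / 5000)) (R := (-19 / 500000)) (by norm_num) ha22 hb22 hm (by norm_num) (by norm_num) (by norm_num) hK (hl (by linarith)) (by norm_num) (by norm_num)).elim
  rcases le_total g (51 / 10000) with hb23 | ha24
  · have hm : mu ≤ (52901 / 200000000) := lfM (a := (19 / 5000)) (b := (51 / 10000)) (by norm_num) ha23 hb23 hg hmu (by norm_num)
    exact (lfC (a := (19 / 5000)) (b := (51 / 10000)) (R := (-33 / 1000000)) (by norm_num) ha23 hb23 hm (by norm_num) (by norm_num) (by norm_num) hK (hl (by linarith)) (by norm_num) (by norm_num)).elim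
  have hgl : g ≤ (317 / 50000) := hg.trans (by norm_num)
  have hm : mu ≤ (130397 / 1000000000) := lfM (a := (51 / 10000)) (b := (317 / 50000)) (by norm_num) ha24 hgl hg hmu (by norm_num)
  exact (lfC (a := (51 / 10000)) (b := (317 / 50000)) (R := (-18953 / 1000000)) (by norm_num) ha24 hgl hm (by norm_num) (by norm_num) (by norm_num) hK (hl (by linarith)) (by norm_num) (by norm_num)).elim

theorem st6 {g K mu : ℝ} (h0 : 0 ≤ g) (hg : g ≤ 634 / 100000)
    (hmu : mu ≤ (634 / 1000000 - g / 10) * (1 + 8 / 3 * g) ^ 3)
    (hK : 0 ≤ K) (hK1 : K ≤ 3145 / 10000 * g ^ 2)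
    (hl : 0 < g → 72 * K ≤ g * ((181503 / 1000) * mu + (9184 / 3125) * g + (12821 / 100) * g ^ 2 + (-17091 / 250000))) :
    K ≤ (10901 / 20000000000) ∧ g ≤ (1677 / 500000) ∧ 3 * K + (391527 / 50000000) * mu + 11 / 6 * g ^ 3 ≤ (569199 / 100000000000) := by
  rcases le_total g (17 / 20000) with hb0 | ha1
  · have hm : mu ≤ (638321 / 1000000000) := lfM (a := 0) (b := (17 / 20000)) (by norm_num) h0 hb0 hg hmu (by norm_num)
    have hk : K ≤ (22723 / 100000000000) := lfQ (b := (17 / 20000)) h0 hb0 (by norm_num) hK1 (by norm_num)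
    exact ⟨hk.trans (by norm_num), hb0.trans (by norm_num), lfX h0 hb0 hm (by norm_num) hk (by norm_num)⟩
  rcases le_total g (119 / 100000) with hb1 | ha2
  · have hm : mu ≤ (138561 / 250000000) := lfM (a := (17 / 20000)) (b := (119 / 100000)) (by norm_num) ha1 hb1 hg hmu (by norm_num)
    have hk : K ≤ (44537 / 100000000000) := lfQ (b := (119 / 100000)) h0 hb1 (by norm_num) hK1 (by norm_num)
    exact ⟨hk.trans (by norm_num), hb1.trans (by norm_num), lfX h0 hb1 hm (by norm_num) hk (by norm_num)⟩
  rcases le_total g (13 / 10000) with hb2 | ha3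
  · have hm : mu ≤ (4163 / 8000000) := lfM (a := (119 / 100000)) (b := (13 / 10000)) (by norm_num) ha2 hb2 hg hmu (by norm_num)
    have hk : K ≤ (53151 / 100000000000) := lfQ (b := (13 / 10000)) h0 hb2 (by norm_num) hK1 (by norm_num)
    exact ⟨hk.trans (by norm_num), hb2.trans (by norm_num), lfX h0 hb2 hm (by norm_num) hk (by norm_num)⟩
  rcases le_total g (69 / 50000) with hb3 | ha4
  · have hm : mu ≤ (101917 / 200000000) := lfM (a := (13 / 10000)) (b := (69 / 50000)) (by norm_num) ha3 hb3 hg hmu (by norm_num)
    have hk : K ≤ (54487 / 100000000000) := lfK (a := (13 / 10000)) (b := (69 / 50000)) (R := (7107 / 250000)) (by norm_num) ha3 hb3 hm (by norm_num) (by norm_num) (by norm_num) (hl (by linarith)) (by norm_num) (by norm_num) (by norm_num)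
    exact ⟨hk.trans (by norm_num), hb3.trans (by norm_num), lfX h0 hb3 hm (by norm_num) hk (by norm_num)⟩
  rcases le_total g (9 / 6250) with hb4 | ha5
  · have hm : mu ≤ (62717 / 125000000) := lfM (a := (69 / 50000)) (b := (9 / 6250)) (by norm_num) ha4 hb4 hg hmu (by norm_num)
    have hk : K ≤ (27201 / 50000000000) := lfK (a := (69 / 50000)) (b := (9 / 6250)) (R := (27201 / 1000000)) (by norm_num) ha4 hb4 hm (by norm_num) (by norm_num) (by norm_num) (hl (by linarith)) (by norm_num) (by norm_num) (by norm_num)
    exact ⟨hk.trans (by norm_num), hb4.trans (by norm_num), lfX h0 hb4 hm (by norm_num) hk (by norm_num)⟩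
  rcases le_total g (149 / 100000) with hb5 | ha6
  · have hm : mu ≤ (99173 / 200000000) := lfM (a := (9 / 6250)) (b := (149 / 100000)) (by norm_num) ha5 hb5 hg hmu (by norm_num)
    have hk : K ≤ (54429 / 100000000000) := lfK (a := (9 / 6250)) (b := (149 / 100000)) (R := (26301 / 1000000)) (by norm_num) ha5 hb5 hm (by norm_num) (by norm_num) (by norm_num) (hl (by linarith)) (by norm_num) (by norm_num) (by norm_num)
    exact ⟨hk.trans (by norm_num), hb5.trans (by norm_num), lfX h0 hb5 hm (by norm_num) hk (by norm_num)⟩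
  rcases le_total g (153 / 100000) with hb6 | ha7
  · have hm : mu ≤ (490961 / 1000000000) := lfM (a := (149 / 100000)) (b := (153 / 100000)) (by norm_num) ha6 hb6 hg hmu (by norm_num)
    have hk : K ≤ (54281 / 100000000000) := lfK (a := (149 / 100000)) (b := (153 / 100000)) (R := (3193 / 125000)) (by norm_num) ha6 hb6 hm (by norm_num) (by norm_num) (by norm_num) (hl (by linarith)) (by norm_num) (by norm_num) (by norm_num)
    exact ⟨hk.trans (by norm_num), hb6.trans (by norm_num), lfX h0 hb6 hm (by norm_num) hk (by norm_num)⟩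
  rcases le_total g (157 / 100000) with hb7 | ha8
  · have hm : mu ≤ (487067 / 1000000000) := lfM (a := (153 / 100000)) (b := (157 / 100000)) (by norm_num) ha7 hb7 hg hmu (by norm_num)
    have hk : K ≤ (54451 / 100000000000) := lfK (a := (153 / 100000)) (b := (157 / 100000)) (R := (24971 / 1000000)) (by norm_num) ha7 hb7 hm (by norm_num) (by norm_num) (by norm_num) (hl (by linarith)) (by norm_num) (by norm_num) (by norm_num)
    exact ⟨hk.trans (by norm_num), hb7.trans (by norm_num), lfX h0 hb7 hm (by norm_num) hk (by norm_num)⟩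
  rcases le_total g (1 / 625) with hb8 | ha9
  · have hm : mu ≤ (120783 / 250000000) := lfM (a := (157 / 100000)) (b := (1 / 625)) (by norm_num) ha8 hb8 hg hmu (by norm_num)
    have hk : K ≤ (54127 / 100000000000) := lfK (a := (157 / 100000)) (b := (1 / 625)) (R := (24357 / 1000000)) (by norm_num) ha8 hb8 hm (by norm_num) (by norm_num) (by norm_num) (hl (by linarith)) (by norm_num) (by norm_num) (by norm_num)
    exact ⟨hk.trans (by norm_num), hb8.trans (by norm_num), lfX h0 hb8 hm (by norm_num) hk (by norm_num)⟩
  rcases le_total g (163 / 100000) with hb9 | ha10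
  · have hm : mu ≤ (30013 / 62500000) := lfM (a := (1 / 625)) (b := (163 / 100000)) (by norm_num) ha9 hb9 hg hmu (by norm_num)
    have hk : K ≤ (54169 / 100000000000) := lfK (a := (1 / 625)) (b := (163 / 100000)) (R := (23927 / 1000000)) (by norm_num) ha9 hb9 hm (by norm_num) (by norm_num) (by norm_num) (hl (by linarith)) (by norm_num) (by norm_num) (by norm_num)
    exact ⟨hk.trans (by norm_num), hb9.trans (by norm_num), lfX h0 hb9 hm (by norm_num) hk (by norm_num)⟩
  rcases le_total g (83 / 50000) with hb10 | ha11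
  · have hm : mu ≤ (477283 / 1000000000) := lfM (a := (163 / 100000)) (b := (83 / 50000)) (by norm_num) ha10 hb10 hg hmu (by norm_num)
    have hk : K ≤ (27087 / 50000000000) := lfK (a := (163 / 100000)) (b := (83 / 50000)) (R := (23497 / 1000000)) (by norm_num) ha10 hb10 hm (by norm_num) (by norm_num) (by norm_num) (hl (by linarith)) (by norm_num) (by norm_num) (by norm_num)
    exact ⟨hk.trans (by norm_num), hb10.trans (by norm_num), lfX h0 hb10 hm (by norm_num) hk (by norm_num)⟩
  rcases le_total g (169 / 100000) with hb11 | ha12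
  · have hm : mu ≤ (118589 / 250000000) := lfM (a := (83 / 50000)) (b := (169 / 100000)) (by norm_num) ha11 hb11 hg hmu (by norm_num)
    have hk : K ≤ (27071 / 50000000000) := lfK (a := (83 / 50000)) (b := (169 / 100000)) (R := (11533 / 500000)) (by norm_num) ha11 hb11 hm (by norm_num) (by norm_num) (by norm_num) (hl (by linarith)) (by norm_num) (by norm_num) (by norm_num)
    exact ⟨hk.trans (by norm_num), hb11.trans (by norm_num), lfX h0 hb11 hm (by norm_num) hk (by norm_num)⟩
  rcases le_total g (173 / 100000) with hb12 | ha13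
  · have hm : mu ≤ (235733 / 500000000) := lfM (a := (169 / 100000)) (b := (173 / 100000)) (by norm_num) ha12 hb12 hg hmu (by norm_num)
    have hk : K ≤ (6811 / 12500000000) := lfK (a := (169 / 100000)) (b := (173 / 100000)) (R := (22677 / 1000000)) (by norm_num) ha12 hb12 hm (by norm_num) (by norm_num) (by norm_num) (hl (by linarith)) (by norm_num) (by norm_num) (by norm_num)
    exact ⟨hk.trans (by norm_num), hb12.trans (by norm_num), lfX h0 hb12 hm (by norm_num) hk (by norm_num)⟩
  rcases le_total g (177 / 100000) with hb13 | ha14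
  · have hm : mu ≤ (467559 / 1000000000) := lfM (a := (173 / 100000)) (b := (177 / 100000)) (by norm_num) ha13 hb13 hg hmu (by norm_num)
    have hk : K ≤ (54337 / 100000000000) := lfK (a := (173 / 100000)) (b := (177 / 100000)) (R := (22103 / 1000000)) (by norm_num) ha13 hb13 hm (by norm_num) (by norm_num) (by norm_num) (hl (by linarith)) (by norm_num) (by norm_num) (by norm_num)
    exact ⟨hk.trans (by norm_num), hb13.trans (by norm_num), lfX h0 hb13 hm (by norm_num) hk (by norm_num)⟩
  rcases le_total g (181 / 100000) with hb14 | ha15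
  · have hm : mu ≤ (9273 / 20000000) := lfM (a := (177 / 100000)) (b := (181 / 100000)) (by norm_num) ha14 hb14 hg hmu (by norm_num)
    have hk : K ≤ (433 / 800000000) := lfK (a := (177 / 100000)) (b := (181 / 100000)) (R := (2153 / 100000)) (by norm_num) ha14 hb14 hm (by norm_num) (by norm_num) (by norm_num) (hl (by linarith)) (by norm_num) (by norm_num) (by norm_num)
    exact ⟨hk.trans (by norm_num), hb14.trans (by norm_num), lfX h0 hb14 hm (by norm_num) hk (by norm_num)⟩
  rcases le_total g (93 / 50000) with hb15 | ha16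
  · have hm : mu ≤ (18391 / 40000000) := lfM (a := (181 / 100000)) (b := (93 / 50000)) (by norm_num) ha15 hb15 hg hmu (by norm_num)
    have hk : K ≤ (54243 / 100000000000) := lfK (a := (181 / 100000)) (b := (93 / 50000)) (R := (20997 / 1000000)) (by norm_num) ha15 hb15 hm (by norm_num) (by norm_num) (by norm_num) (hl (by linarith)) (by norm_num) (by norm_num) (by norm_num)
    exact ⟨hk.trans (by norm_num), hb15.trans (by norm_num), lfX h0 hb15 hm (by norm_num) hk (by norm_num)⟩
  rcases le_total g (6 / 3125) with hb16 | ha17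
  · have hm : mu ≤ (454917 / 1000000000) := lfM (a := (93 / 50000)) (b := (6 / 3125)) (by norm_num) ha16 hb16 hg hmu (by norm_num)
    have hk : K ≤ (5419 / 10000000000) := lfK (a := (93 / 50000)) (b := (6 / 3125)) (R := (20321 / 1000000)) (by norm_num) ha16 hb16 hm (by norm_num) (by norm_num) (by norm_num) (hl (by linarith)) (by norm_num) (by norm_num) (by norm_num)
    exact ⟨hk.trans (by norm_num), hb16.trans (by norm_num), lfX h0 hb16 hm (by norm_num) hk (by norm_num)⟩
  rcases le_total g (1 / 500) with hb17 | ha18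
  · have hm : mu ≤ (44911 / 100000000) := lfM (a := (6 / 3125)) (b := (1 / 500)) (by norm_num) ha17 hb17 hg hmu (by norm_num)
    have hk : K ≤ (13571 / 25000000000) := lfK (a := (6 / 3125)) (b := (1 / 500)) (R := (9771 / 500000)) (by norm_num) ha17 hb17 hm (by norm_num) (by norm_num) (by norm_num) (hl (by linarith)) (by norm_num) (by norm_num) (by norm_num)
    exact ⟨hk.trans (by norm_num), hb17.trans (by norm_num), lfX h0 hb17 hm (by norm_num) hk (by norm_num)⟩
  rcases le_total g (211 / 100000) with hb18 | ha19
  · have hm : mu ≤ (55171 / 125000000) := lfM (a := (1 / 500)) (b := (211 / 100000)) (by norm_num) ha18 hb18 hg hmu (by norm_num)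
    have hk : K ≤ (54269 / 100000000000) := lfK (a := (1 / 500)) (b := (211 / 100000)) (R := (9259 / 500000)) (by norm_num) ha18 hb18 hm (by norm_num) (by norm_num) (by norm_num) (hl (by linarith)) (by norm_num) (by norm_num) (by norm_num)
    exact ⟨hk.trans (by norm_num), hb18.trans (by norm_num), lfX h0 hb18 hm (by norm_num) hk (by norm_num)⟩
  rcases le_total g (57 / 25000) with hb19 | ha20
  · have hm : mu ≤ (430763 / 1000000000) := lfM (a := (211 / 100000)) (b := (57 / 25000)) (by norm_num) ha19 hb19 hg hmu (by norm_num)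
    have hk : K ≤ (54429 / 100000000000) := lfK (a := (211 / 100000)) (b := (57 / 25000)) (R := (4297 / 250000)) (by norm_num) ha19 hb19 hm (by norm_num) (by norm_num) (by norm_num) (hl (by linarith)) (by norm_num) (by norm_num) (by norm_num)
    exact ⟨hk.trans (by norm_num), hb19.trans (by norm_num), lfX h0 hb19 hm (by norm_num) hk (by norm_num)⟩
  rcases le_total g (257 / 100000) with hb20 | ha21
  · have hm : mu ≤ (82881 / 200000000) := lfM (a := (57 / 25000)) (b := (257 / 100000)) (by norm_num) ha20 hb20 hg hmu (by norm_num)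
    have hk : K ≤ (27221 / 50000000000) := lfK (a := (57 / 25000)) (b := (257 / 100000)) (R := (3813 / 250000)) (by norm_num) ha20 hb20 hm (by norm_num) (by norm_num) (by norm_num) (hl (by linarith)) (by norm_num) (by norm_num) (by norm_num)
    exact ⟨hk.trans (by norm_num), hb20.trans (by norm_num), lfX h0 hb20 hm (by norm_num) hk (by norm_num)⟩
  rcases le_total g (79 / 25000) with hb21 | ha22
  · have hm : mu ≤ (96653 / 250000000) := lfM (a := (257 / 100000)) (b := (79 / 25000)) (by norm_num) ha21 hb21 hg hmu (by norm_num)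
    have hk : K ≤ (54313 / 100000000000) := lfK (a := (257 / 100000)) (b := (79 / 25000)) (R := (99 / 8000)) (by norm_num) ha21 hb21 hm (by norm_num) (by norm_num) (by norm_num) (hl (by linarith)) (by norm_num) (by norm_num) (by norm_num)
    exact ⟨hk.trans (by norm_num), hb21.trans (by norm_num), lfX h0 hb21 hm (by norm_num) hk (by norm_num)⟩
  rcases le_total g (67 / 20000) with hb22 | ha23
  · have hm : mu ≤ (326599 / 1000000000) := lfM (a := (79 / 25000)) (b := (67 / 20000)) (by norm_num) ha22 hb22 hg hmu (by norm_num)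
    have hk : K ≤ (1279 / 12500000000) := lfK (a := (79 / 25000)) (b := (67 / 20000)) (R := (2199 / 1000000)) (by norm_num) ha22 hb22 hm (by norm_num) (by norm_num) (by norm_num) (hl (by linarith)) (by norm_num) (by norm_num) (by norm_num)
    exact ⟨hk.trans (by norm_num), hb22.trans (by norm_num), lfX h0 hb22 hm (by norm_num) hk (by norm_num)⟩
  rcases le_total g (183 / 50000) with hb23 | ha24
  · have hm : mu ≤ (307841 / 1000000000) := lfM (a := (67 / 20000)) (b := (183 / 50000)) (by norm_num) ha23 hb23 hg hmu (by norm_num)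
    exact (lfC (a := (67 / 20000)) (b := (183 / 50000)) (R := (-1 / 62500)) (by norm_num) ha23 hb23 hm (by norm_num) (by norm_num) (by norm_num) hK (hl (by linarith)) (by norm_num) (by norm_num)).elim
  rcases le_total g (31 / 6250) with hb24 | ha25
  · have hm : mu ≤ (34847 / 125000000) := lfM (a := (183 / 50000)) (b := (31 / 6250)) (by norm_num) ha24 hb24 hg hmu (by norm_num)
    exact (lfC (a := (183 / 50000)) (b := (31 / 6250)) (R := (-17 / 500000)) (by norm_num) ha24 hb24 hm (by norm_num) (by norm_num) (by norm_num) hK (hl (by linarith)) (by norm_num) (by norm_num)).elim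
  have hgl : g ≤ (317 / 50000) := hg.trans (by norm_num)
  have hm : mu ≤ (145119 / 1000000000) := lfM (a := (31 / 6250)) (b := (317 / 50000)) (by norm_num) ha25 hgl hg hmu (by norm_num)
  exact (lfC (a := (31 / 6250)) (b := (317 / 50000)) (R := (-9119 / 500000)) (by norm_num) ha25 hgl hm (by norm_num) (by norm_num) (by norm_num) hK (hl (by linarith)) (by norm_num) (by norm_num)).elim

theorem st7 {g K mu : ℝ} (h0 : 0 ≤ g) (hg : g ≤ 634 / 100000)
    (hmu : mu ≤ (634 / 1000000 - g / 10) * (1 + 8 / 3 * g) ^ 3)
    (hK : 0 ≤ K) (hK1 : K ≤ 3145 / 10000 * g ^ 2)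
    (hl : 0 < g → 72 * K ≤ g * ((36211 / 200) * mu + (292159 / 100000) * g + (12821 / 100) * g ^ 2 + (-199 / 2000))) :
    K ≤ (5857 / 100000000000) ∧ g ≤ (1103 / 1000000) ∧ 3 * K + 0 * mu + 11 / 6 * g ^ 3 ≤ (11 / 62500000) := by
  rcases le_total g (43 / 100000) with hb0 | ha1
  · have hm : mu ≤ (79523 / 125000000) := lfM (a := 0) (b := (43 / 100000)) (by norm_num) h0 hb0 hg hmu (by norm_num)
    have hk : K ≤ (727 / 12500000000) := lfQ (b := (43 / 100000)) h0 hb0 (by norm_num) hK1 (by norm_num)
    exact ⟨hk.trans (by norm_num), hb0.trans (by norm_num), lfX h0 hb0 hm (by norm_num) hk (by norm_num)⟩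
  rcases le_total g (9 / 20000) with hb1 | ha2
  · have hm : mu ≤ (593131 / 1000000000) := lfM (a := (43 / 100000)) (b := (9 / 20000)) (by norm_num) ha1 hb1 hg hmu (by norm_num)
    have hk : K ≤ (577 / 10000000000) := lfK (a := (43 / 100000)) (b := (9 / 20000)) (R := (9231 / 1000000)) (by norm_num) ha1 hb1 hm (by norm_num) (by norm_num) (by norm_num) (hl (by linarith)) (by norm_num) (by norm_num) (by norm_num)
    exact ⟨hk.trans (by norm_num), hb1.trans (by norm_num), lfX h0 hb1 hm (by norm_num) hk (by norm_num)⟩
  rcases le_total g (47 / 100000) with hb2 | ha3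
  · have hm : mu ≤ (295609 / 500000000) := lfM (a := (9 / 20000)) (b := (47 / 100000)) (by norm_num) ha2 hb2 hg hmu (by norm_num)
    have hk : K ≤ (73 / 1250000000) := lfK (a := (9 / 20000)) (b := (47 / 100000)) (R := (1789 / 200000)) (by norm_num) ha2 hb2 hm (by norm_num) (by norm_num) (by norm_num) (hl (by linarith)) (by norm_num) (by norm_num) (by norm_num)
    exact ⟨hk.trans (by norm_num), hb2.trans (by norm_num), lfX h0 hb2 hm (by norm_num) hk (by norm_num)⟩
  rcases le_total g (3 / 6250) with hb3 | ha4
  · have hm : mu ≤ (589257 / 1000000000) := lfM (a := (47 / 100000)) (b := (3 / 6250)) (by norm_num) ha3 hb3 hg hmu (by norm_num)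
    have hk : K ≤ (5747 / 100000000000) := lfK (a := (47 / 100000)) (b := (3 / 6250)) (R := (431 / 50000)) (by norm_num) ha3 hb3 hm (by norm_num) (by norm_num) (by norm_num) (hl (by linarith)) (by norm_num) (by norm_num) (by norm_num)
    exact ⟨hk.trans (by norm_num), hb3.trans (by norm_num), lfX h0 hb3 hm (by norm_num) hk (by norm_num)⟩
  rcases le_total g (49 / 100000) with hb4 | ha5
  · have hm : mu ≤ (588301 / 1000000000) := lfM (a := (3 / 6250)) (b := (49 / 100000)) (by norm_num) ha4 hb4 hg hmu (by norm_num)
    have hk : K ≤ (577 / 10000000000) := lfK (a := (3 / 6250)) (b := (49 / 100000)) (R := (4239 / 500000)) (by norm_num) ha4 hb4 hm (by norm_num) (by norm_num) (by norm_num) (hl (by linarith)) (by norm_num) (by norm_num) (by norm_num)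
    exact ⟨hk.trans (by norm_num), hb4.trans (by norm_num), lfX h0 hb4 hm (by norm_num) hk (by norm_num)⟩
  rcases le_total g (1 / 2000) with hb5 | ha6
  · have hm : mu ≤ (36709 / 62500000) := lfM (a := (49 / 100000)) (b := (1 / 2000)) (by norm_num) ha5 hb5 hg hmu (by norm_num)
    have hk : K ≤ (5789 / 100000000000) := lfK (a := (49 / 100000)) (b := (1 / 2000)) (R := (1667 / 200000)) (by norm_num) ha5 hb5 hm (by norm_num) (by norm_num) (by norm_num) (hl (by linarith)) (by norm_num) (by norm_num) (by norm_num)
    exact ⟨hk.trans (by norm_num), hb5.trans (by norm_num), lfX h0 hb5 hm (by norm_num) hk (by norm_num)⟩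
  rcases le_total g (51 / 100000) with hb6 | ha7
  · have hm : mu ≤ (293193 / 500000000) := lfM (a := (1 / 2000)) (b := (51 / 100000)) (by norm_num) ha6 hb6 hg hmu (by norm_num)
    have hk : K ≤ (5803 / 100000000000) := lfK (a := (1 / 2000)) (b := (51 / 100000)) (R := (128 / 15625)) (by norm_num) ha6 hb6 hm (by norm_num) (by norm_num) (by norm_num) (hl (by linarith)) (by norm_num) (by norm_num) (by norm_num)
    exact ⟨hk.trans (by norm_num), hb6.trans (by norm_num), lfX h0 hb6 hm (by norm_num) hk (by norm_num)⟩
  rcases le_total g (13 / 25000) with hb7 | ha8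
  · have hm : mu ≤ (585429 / 1000000000) := lfM (a := (51 / 100000)) (b := (13 / 25000)) (by norm_num) ha7 hb7 hg hmu (by norm_num)
    have hk : K ≤ (2907 / 50000000000) := lfK (a := (51 / 100000)) (b := (13 / 25000)) (R := (8049 / 1000000)) (by norm_num) ha7 hb7 hm (by norm_num) (by norm_num) (by norm_num) (hl (by linarith)) (by norm_num) (by norm_num) (by norm_num)
    exact ⟨hk.trans (by norm_num), hb7.trans (by norm_num), lfX h0 hb7 hm (by norm_num) hk (by norm_num)⟩
  rcases le_total g (53 / 100000) with hb8 | ha9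
  · have hm : mu ≤ (73059 / 125000000) := lfM (a := (13 / 25000)) (b := (53 / 100000)) (by norm_num) ha8 hb8 hg hmu (by norm_num)
    have hk : K ≤ (5821 / 100000000000) := lfK (a := (13 / 25000)) (b := (53 / 100000)) (R := (7907 / 1000000)) (by norm_num) ha8 hb8 hm (by norm_num) (by norm_num) (by norm_num) (hl (by linarith)) (by norm_num) (by norm_num) (by norm_num)
    exact ⟨hk.trans (by norm_num), hb8.trans (by norm_num), lfX h0 hb8 hm (by norm_num) hk (by norm_num)⟩
  rcases le_total g (27 / 50000) with hb9 | ha10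
  · have hm : mu ≤ (291757 / 500000000) := lfM (a := (53 / 100000)) (b := (27 / 50000)) (by norm_num) ha9 hb9 hg hmu (by norm_num)
    have hk : K ≤ (5823 / 100000000000) := lfK (a := (53 / 100000)) (b := (27 / 50000)) (R := (1941 / 250000)) (by norm_num) ha9 hb9 hm (by norm_num) (by norm_num) (by norm_num) (hl (by linarith)) (by norm_num) (by norm_num) (by norm_num)
    exact ⟨hk.trans (by norm_num), hb9.trans (by norm_num), lfX h0 hb9 hm (by norm_num) hk (by norm_num)⟩
  rcases le_total g (11 / 20000) with hb10 | ha11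
  · have hm : mu ≤ (145639 / 250000000) := lfM (a := (27 / 50000)) (b := (11 / 20000)) (by norm_num) ha10 hb10 hg hmu (by norm_num)
    have hk : K ≤ (2911 / 50000000000) := lfK (a := (27 / 50000)) (b := (11 / 20000)) (R := (7621 / 1000000)) (by norm_num) ha10 hb10 hm (by norm_num) (by norm_num) (by norm_num) (hl (by linarith)) (by norm_num) (by norm_num) (by norm_num)
    exact ⟨hk.trans (by norm_num), hb10.trans (by norm_num), lfX h0 hb10 hm (by norm_num) hk (by norm_num)⟩
  rcases le_total g (7 / 12500) with hb11 | ha12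
  · have hm : mu ≤ (290799 / 500000000) := lfM (a := (11 / 20000)) (b := (7 / 12500)) (by norm_num) ha11 hb11 hg hmu (by norm_num)
    have hk : K ≤ (5817 / 100000000000) := lfK (a := (11 / 20000)) (b := (7 / 12500)) (R := (3739 / 500000)) (by norm_num) ha11 hb11 hm (by norm_num) (by norm_num) (by norm_num) (hl (by linarith)) (by norm_num) (by norm_num) (by norm_num)
    exact ⟨hk.trans (by norm_num), hb11.trans (by norm_num), lfX h0 hb11 hm (by norm_num) hk (by norm_num)⟩
  rcases le_total g (57 / 100000) with hb12 | ha13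
  · have hm : mu ≤ (3629 / 6250000) := lfM (a := (7 / 12500)) (b := (57 / 100000)) (by norm_num) ha12 hb12 hg hmu (by norm_num)
    have hk : K ≤ (5807 / 100000000000) := lfK (a := (7 / 12500)) (b := (57 / 100000)) (R := (1467 / 200000)) (by norm_num) ha12 hb12 hm (by norm_num) (by norm_num) (by norm_num) (hl (by linarith)) (by norm_num) (by norm_num) (by norm_num)
    exact ⟨hk.trans (by norm_num), hb12.trans (by norm_num), lfX h0 hb12 hm (by norm_num) hk (by norm_num)⟩
  rcases le_total g (29 / 50000) with hb13 | ha14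
  · have hm : mu ≤ (289841 / 500000000) := lfM (a := (57 / 100000)) (b := (29 / 50000)) (by norm_num) ha13 hb13 hg hmu (by norm_num)
    have hk : K ≤ (2897 / 50000000000) := lfK (a := (57 / 100000)) (b := (29 / 50000)) (R := (899 / 125000)) (by norm_num) ha13 hb13 hm (by norm_num) (by norm_num) (by norm_num) (hl (by linarith)) (by norm_num) (by norm_num) (by norm_num)
    exact ⟨hk.trans (by norm_num), hb13.trans (by norm_num), lfX h0 hb13 hm (by norm_num) hk (by norm_num)⟩
  rcases le_total g (59 / 100000) with hb14 | ha15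
  · have hm : mu ≤ (578723 / 1000000000) := lfM (a := (29 / 50000)) (b := (59 / 100000)) (by norm_num) ha14 hb14 hg hmu (by norm_num)
    have hk : K ≤ (2889 / 50000000000) := lfK (a := (29 / 50000)) (b := (59 / 100000)) (R := (141 / 20000)) (by norm_num) ha14 hb14 hm (by norm_num) (by norm_num) (by norm_num) (hl (by linarith)) (by norm_num) (by norm_num) (by norm_num)
    exact ⟨hk.trans (by norm_num), hb14.trans (by norm_num), lfX h0 hb14 hm (by norm_num) hk (by norm_num)⟩
  rcases le_total g (3 / 5000) with hb15 | ha16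
  · have hm : mu ≤ (115553 / 200000000) := lfM (a := (59 / 100000)) (b := (3 / 5000)) (by norm_num) ha15 hb15 hg hmu (by norm_num)
    have hk : K ≤ (1439 / 25000000000) := lfK (a := (59 / 100000)) (b := (3 / 5000)) (R := (6907 / 1000000)) (by norm_num) ha15 hb15 hm (by norm_num) (by norm_num) (by norm_num) (hl (by linarith)) (by norm_num) (by norm_num) (by norm_num)
    exact ⟨hk.trans (by norm_num), hb15.trans (by norm_num), lfX h0 hb15 hm (by norm_num) hk (by norm_num)⟩
  rcases le_total g (61 / 100000) with hb16 | ha17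
  · have hm : mu ≤ (288403 / 500000000) := lfM (a := (3 / 5000)) (b := (61 / 100000)) (by norm_num) ha16 hb16 hg hmu (by norm_num)
    have hk : K ≤ (5731 / 100000000000) := lfK (a := (3 / 5000)) (b := (61 / 100000)) (R := (1691 / 250000)) (by norm_num) ha16 hb16 hm (by norm_num) (by norm_num) (by norm_num) (hl (by linarith)) (by norm_num) (by norm_num) (by norm_num)
    exact ⟨hk.trans (by norm_num), hb16.trans (by norm_num), lfX h0 hb16 hm (by norm_num) hk (by norm_num)⟩
  rcases le_total g (63 / 100000) with hb17 | ha18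
  · have hm : mu ≤ (575893 / 1000000000) := lfM (a := (61 / 100000)) (b := (63 / 100000)) (by norm_num) ha17 hb17 hg hmu (by norm_num)
    have hk : K ≤ (1457 / 25000000000) := lfK (a := (61 / 100000)) (b := (63 / 100000)) (R := (333 / 50000)) (by norm_num) ha17 hb17 hm (by norm_num) (by norm_num) (by norm_num) (hl (by linarith)) (by norm_num) (by norm_num) (by norm_num)
    exact ⟨hk.trans (by norm_num), hb17.trans (by norm_num), lfX h0 hb17 hm (by norm_num) hk (by norm_num)⟩
  rcases le_total g (13 / 20000) with hb18 | ha19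
  · have hm : mu ≤ (22959 / 40000000) := lfM (a := (63 / 100000)) (b := (13 / 20000)) (by norm_num) ha18 hb18 hg hmu (by norm_num)
    have hk : K ≤ (1439 / 25000000000) := lfK (a := (63 / 100000)) (b := (13 / 20000)) (R := (51 / 8000)) (by norm_num) ha18 hb18 hm (by norm_num) (by norm_num) (by norm_num) (hl (by linarith)) (by norm_num) (by norm_num) (by norm_num)
    exact ⟨hk.trans (by norm_num), hb18.trans (by norm_num), lfX h0 hb18 hm (by norm_num) hk (by norm_num)⟩
  rcases le_total g (17 / 25000) with hb19 | ha20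
  · have hm : mu ≤ (572101 / 1000000000) := lfM (a := (13 / 20000)) (b := (17 / 25000)) (by norm_num) ha19 hb19 hg hmu (by norm_num)
    have hk : K ≤ (1447 / 25000000000) := lfK (a := (13 / 20000)) (b := (17 / 25000)) (R := (383 / 62500)) (by norm_num) ha19 hb19 hm (by norm_num) (by norm_num) (by norm_num) (hl (by linarith)) (by norm_num) (by norm_num) (by norm_num)
    exact ⟨hk.trans (by norm_num), hb19.trans (by norm_num), lfX h0 hb19 hm (by norm_num) hk (by norm_num)⟩
  rcases le_total g (9 / 12500) with hb20 | ha21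
  · have hm : mu ≤ (569267 / 1000000000) := lfM (a := (17 / 25000)) (b := (9 / 12500)) (by norm_num) ha20 hb20 hg hmu (by norm_num)
    have hk : K ≤ (5739 / 100000000000) := lfK (a := (17 / 25000)) (b := (9 / 12500)) (R := (5739 / 1000000)) (by norm_num) ha20 hb20 hm (by norm_num) (by norm_num) (by norm_num) (hl (by linarith)) (by norm_num) (by norm_num) (by norm_num)
    exact ⟨hk.trans (by norm_num), hb20.trans (by norm_num), lfX h0 hb20 hm (by norm_num) hk (by norm_num)⟩
  rcases le_total g (79 / 100000) with hb21 | ha22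
  · have hm : mu ≤ (14139 / 25000000) := lfM (a := (9 / 12500)) (b := (79 / 100000)) (by norm_num) ha21 hb21 hg hmu (by norm_num)
    have hk : K ≤ (29 / 500000000) := lfK (a := (9 / 12500)) (b := (79 / 100000)) (R := (2643 / 500000)) (by norm_num) ha21 hb21 hm (by norm_num) (by norm_num) (by norm_num) (hl (by linarith)) (by norm_num) (by norm_num) (by norm_num)
    exact ⟨hk.trans (by norm_num), hb21.trans (by norm_num), lfX h0 hb21 hm (by norm_num) hk (by norm_num)⟩
  rcases le_total g (23 / 25000) with hb22 | ha23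
  · have hm : mu ≤ (111819 / 200000000) := lfM (a := (79 / 100000)) (b := (23 / 25000)) (by norm_num) ha22 hb22 hg hmu (by norm_num)
    have hk : K ≤ (5781 / 100000000000) := lfK (a := (79 / 100000)) (b := (23 / 25000)) (R := (1131 / 250000)) (by norm_num) ha22 hb22 hm (by norm_num) (by norm_num) (by norm_num) (hl (by linarith)) (by norm_num) (by norm_num) (by norm_num)
    exact ⟨hk.trans (by norm_num), hb22.trans (by norm_num), lfX h0 hb22 hm (by norm_num) hk (by norm_num)⟩
  rcases le_total g (11 / 10000) with hb23 | ha24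
  · have hm : mu ≤ (17087 / 31250000) := lfM (a := (23 / 25000)) (b := (11 / 10000)) (by norm_num) ha23 hb23 hg hmu (by norm_num)
    have hk : K ≤ (4381 / 100000000000) := lfK (a := (23 / 25000)) (b := (11 / 10000)) (R := (2867 / 1000000)) (by norm_num) ha23 hb23 hm (by norm_num) (by norm_num) (by norm_num) (hl (by linarith)) (by norm_num) (by norm_num) (by norm_num)
    exact ⟨hk.trans (by norm_num), hb23.trans (by norm_num), lfX h0 hb23 hm (by norm_num) hk (by norm_num)⟩
  rcases le_total g (3 / 2500) with hb24 | ha25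
  · have hm : mu ≤ (529047 / 1000000000) := lfM (a := (11 / 10000)) (b := (3 / 2500)) (by norm_num) ha24 hb24 hg hmu (by norm_num)
    exact (lfC (a := (11 / 10000)) (b := (3 / 2500)) (R := (-11 / 500000)) (by norm_num) ha24 hb24 hm (by norm_num) (by norm_num) (by norm_num) hK (hl (by linarith)) (by norm_num) (by norm_num)).elim
  rcases le_total g (33 / 20000) with hb25 | ha26
  · have hm : mu ≤ (104163 / 200000000) := lfM (a := (3 / 2500)) (b := (33 / 20000)) (by norm_num) ha25 hb25 hg hmu (by norm_num)
    exact (lfC (a := (3 / 2500)) (b := (33 / 20000)) (R := (-17 / 500000)) (by norm_num) ha25 hb25 hm (by norm_num) (by norm_num) (by norm_num) hK (hl (by linarith)) (by norm_num) (by norm_num)).elim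
  rcases le_total g (179 / 50000) with hb26 | ha27
  · have hm : mu ≤ (482561 / 1000000000) := lfM (a := (33 / 20000)) (b := (179 / 50000)) (by norm_num) ha26 hb26 hg hmu (by norm_num)
    exact (lfC (a := (33 / 20000)) (b := (179 / 50000)) (R := (-27 / 1000000)) (by norm_num) ha26 hb26 hm (by norm_num) (by norm_num) (by norm_num) hK (hl (by linarith)) (by norm_num) (by norm_num)).elim
  have hgl : g ≤ (317 / 50000) := hg.trans (by norm_num)
  have hm : mu ≤ (290237 / 1000000000) := lfM (a := (179 / 50000)) (b := (317 / 50000)) (by norm_num) ha27 hgl hg hmu (by norm_num)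
  exact (lfC (a := (179 / 50000)) (b := (317 / 50000)) (R := (-11637 / 500000)) (by norm_num) ha27 hgl hm (by norm_num) (by norm_num) (by norm_num) hK (hl (by linarith)) (by norm_num) (by norm_num)).elim

theorem st8 {g K mu : ℝ} (h0 : 0 < g) (hg : g ≤ 634 / 100000)
    (hmu : mu ≤ (634 / 1000000 - g / 10) * (1 + 8 / 3 * g) ^ 3)
    (hK : 0 ≤ K) (hK1 : K ≤ 3145 / 10000 * g ^ 2)
    (hm2 : (23 / 8000) * mu ≤ 3 * K + 11 / 6 * g ^ 3 + 1 / 1000000000000)
    (hl : 72 * K ≤ g * ((180183 / 1000) * mu + (288729 / 100000) * g + (12821 / 100) * g ^ 2 + (-100709 / 1000000))) : False := by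
  rcases le_total g (127 / 100000) with hb0 | ha1
  · have hm : mu ≤ (530619 / 1000000000) := lfS h0.le hb0 hK1 (by norm_num) hm2 (by norm_num)
    exact lfD (b := (127 / 100000)) (R := (-613 / 500000)) h0 hb0 hm (by norm_num) (by norm_num) (by norm_num) hK hl (by norm_num) (by norm_num)
  rcases le_total g (119 / 50000) with hb1 | ha2
  · have hm : mu ≤ (103343 / 200000000) := lfM (a := (127 / 100000)) (b := (119 / 50000)) (by norm_num) ha1 hb1 hg hmu (by norm_num)
    exact lfD (b := (119 / 50000)) (R := (-7 / 1000000)) h0 hb1 hm (by norm_num) (by norm_num) (by norm_num) hK hl (by norm_num) (by norm_num)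
  have hgl : g ≤ (317 / 50000) := hg.trans (by norm_num)
  have hm : mu ≤ (416427 / 1000000000) := lfM (a := (119 / 50000)) (b := (317 / 50000)) (by norm_num) ha2 hgl hg hmu (by norm_num)
  exact lfD (b := (317 / 50000)) (R := (-2217 / 1000000)) h0 hgl hm (by norm_num) (by norm_num) (by norm_num) hK hl (by norm_num) (by norm_num)

end KS
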