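import Pool.Agent.Helper25.K4.W4
import Pool.Agent.Helper25.K4.St2

/-!
# The steps of the chain, II
-/

set_option autoImplicit false

open Finset hiding dens

namespace KS

open KF KT KW

section
variable {V : Type} [Fintype V] {E : V → V → V → Bool} {w : V → ℝ} {κ : V → Option (Fin 6)}
  {α : Fin 6 → ℝ} {θ : ℝ}

theorem step5 (h : Env E w κ α θ) (hθ1 : θ ≤ 1 / 1000000000000)
    (S : LocL (50 / 10000) (11 / 10000) (346 / 10000) (7 / 10000) (413102080 / 406097920))
    (K : LR.LinkL (50 / 10000) (1 / 30) (-710 / 10000) (72 / 7) 108 144 0 (108 / 25))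
    (T : ∑ i, KB.tt (wp w κ α) (kt κ) i ^ 2 ≤ (981 / 200000) ^ 2) (l : L - 2 / 7 ≤ (1973777 / 100000000000))
    (D : ∀ i, df E (wp w κ α) (kt κ) i ≤ (1918949 / 100000000000)) :
    ∑ i, KB.tt (wp w κ α) (kt κ) i ^ 2 ≤ (933 / 250000) ^ 2 ∧ L - 2 / 7 ≤ (289619 / 25000000000) ∧
      ∀ i, df E (wp w κ α) (kt κ) i ≤ (140787 / 12500000000) := by
  have h0 := h.g0
  have hg := h.g1
  have hq := h.xlo (τ := (981 / 200000)) (x0 := (487 / 3125)) (by norm_num) T (by linarith)
  have lk : 0 < unO w κ → 72 * EK E w (up w κ α) ≤ unO w κ * ((181989 / 1000) * KB.mu E (wp w κ α) (kt κ) +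
      (295739 / 100000) * unO w κ + (12821 / 100) * unO w κ ^ 2 + (-16647 / 250000)) := fun hp =>
    h.link (τ' := (981 / 200000)) (xl := (40547 / 250000)) (xu := (34229 / 200000)) (x0 := (487 / 3125)) (Y := (1918949 / 100000000000))
      (ε := 1 / 1000000) K
      (by norm_num) (by norm_num) T le_rfl (by norm_num) (by norm_num) (by norm_num) hq
      (by norm_num; linarith) (by norm_num) (by norm_num) (by norm_num) (by norm_num) (by norm_num)
      (by norm_num) (by norm_num) D (by norm_num) (by norm_num) (hθ1.trans (by norm_num))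
      (by norm_num) hp
  obtain ⟨a, b, c⟩ := st5 h0 hg h.mu' h.K0 h.K1 lk
  have p : unO w κ ^ 2 ≤ (437 / 125000) ^ 2 := pow_le_pow_left₀ h0 b 2
  have u := h.xlo (τ := (981 / 200000)) (x0 := (15869 / 100000)) (by norm_num) T (by linarith)
  have v : (1 + unO w κ / (2 * (15869 / 100000))) ^ 2 / 30 ≤ 346 / 10000 := by
    have f : (1 + unO w κ / (2 * (15869 / 100000))) ^ 2 ≤ (1 + (437 / 125000) / (2 * (15869 / 100000))) ^ 2 :=
      pow_le_pow_left₀ (by positivity) (by gcongr) 2
    norm_num at f ⊢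
    linarith
  have e := h.loc2 (s := (4129 / 10000000)) (τ' := (981 / 200000)) (x0 := (15869 / 100000)) S (by norm_num)
    (by norm_num) T (by norm_num) (by norm_num; linarith) l (by norm_num at p ⊢; linarith)
    (by norm_num) u v le_rfl
  obtain ⟨T', l', D'⟩ := h.next (ρ := (1724747 / 100000000)) (X := (225259 / 20000000000)) (τ := (895653 / 200000000)) (c := (80887 / 100000))
    (Y := (140787 / 12500000000)) e (by norm_num) c (by norm_num)
    (fun i => ((le_abs_self _).trans (h.tp (by norm_num) T i)).trans (by norm_num))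
    (by norm_num) (by norm_num) (by linarith)
  refine ⟨?_, ?_, D'⟩
  · norm_num at T' ⊢
    linarith
  · norm_num at l' ⊢
    linarith

theorem step6 (h : Env E w κ α θ) (hθ1 : θ ≤ 1 / 1000000000000)
    (S : LocL (39 / 10000) (9 / 10000) (343 / 10000) (7 / 10000) (411197440 / 408002560))
    (K : LR.LinkL (50 / 10000) (1 / 30) (-710 / 10000) (72 / 7) 108 144 0 (108 / 25))
    (T : ∑ i, KB.tt (wp w κ α) (kt κ) i ^ 2 ≤ (933 / 250000) ^ 2) (l : L - 2 / 7 ≤ (289619 / 25000000000))
    (D : ∀ i, df E (wp w κ α) (kt κ) i ≤ (140787 / 12500000000)) :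
    ∑ i, KB.tt (wp w κ α) (kt κ) i ^ 2 ≤ (527 / 200000) ^ 2 ∧ L - 2 / 7 ≤ (585463 / 100000000000) ∧
      ∀ i, df E (wp w κ α) (kt κ) i ≤ (1423 / 250000000) := by
  have h0 := h.g0
  have hg := h.g1
  have hq := h.xlo (τ := (933 / 250000)) (x0 := (15691 / 100000)) (by norm_num) T (by linarith)
  have lk : 0 < unO w κ → 72 * EK E w (up w κ α) ≤ unO w κ * ((181503 / 1000) * KB.mu E (wp w κ α) (kt κ) +
      (9184 / 3125) * unO w κ + (12821 / 100) * unO w κ ^ 2 + (-17091 / 250000)) := fun hp =>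
    h.link (τ' := (933 / 250000)) (xl := (163259 / 1000000)) (xu := (85037 / 500000)) (x0 := (15691 / 100000)) (Y := (140787 / 12500000000))
      (ε := 1 / 1000000) K
      (by norm_num) (by norm_num) T le_rfl (by norm_num) (by norm_num) (by norm_num) hq
      (by norm_num; linarith) (by norm_num) (by norm_num) (by norm_num) (by norm_num) (by norm_num)
      (by norm_num) (by norm_num) D (by norm_num) (by norm_num) (hθ1.trans (by norm_num))
      (by norm_num) hp
  obtain ⟨a, b, c⟩ := st6 h0 hg h.mu' h.K0 h.K1 lk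
  have p : unO w κ ^ 2 ≤ (1677 / 500000) ^ 2 := pow_le_pow_left₀ h0 b 2
  have u := h.xlo (τ := (933 / 250000)) (x0 := (1599 / 10000)) (by norm_num) T (by linarith)
  have v : (1 + unO w κ / (2 * (1599 / 10000))) ^ 2 / 30 ≤ 343 / 10000 := by
    have f : (1 + unO w κ / (2 * (1599 / 10000))) ^ 2 ≤ (1 + (1677 / 500000) / (2 * (1599 / 10000))) ^ 2 :=
      pow_le_pow_left₀ (by positivity) (by gcongr) 2
    norm_num at f ⊢
    linarith
  have e := h.loc2 (s := (989 / 2500000)) (τ' := (933 / 250000)) (x0 := (1599 / 10000)) S (by norm_num)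
    (by norm_num) T (by norm_num) (by norm_num; linarith) l (by norm_num at p ⊢; linarith)
    (by norm_num) u v le_rfl
  obtain ⟨T', l', D'⟩ := h.next (ρ := (391527 / 50000000)) (X := (569199 / 100000000000)) (τ := (851829 / 250000000)) (c := (8199 / 10000))
    (Y := (1423 / 250000000)) e (by norm_num) c (by norm_num)
    (fun i => ((le_abs_self _).trans (h.tp (by norm_num) T i)).trans (by norm_num))
    (by norm_num) (by norm_num) (by linarith)
  refine ⟨?_, ?_, D'⟩
  · norm_num at T' ⊢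
    linarith
  · norm_num at l' ⊢
    linarith

theorem step7 (h : Env E w κ α θ) (hθ1 : θ ≤ 1 / 1000000000000)
    (S : LocL (27 / 10000) (6 / 10000) (340 / 10000) (7 / 10000) (409010176 / 410189824))
    (K : LR.LinkL (27 / 10000) (1 / 30) (-1009 / 10000) (72 / 7) 108 144 0 (108 / 25))
    (T : ∑ i, KB.tt (wp w κ α) (kt κ) i ^ 2 ≤ (527 / 200000) ^ 2) (l : L - 2 / 7 ≤ (585463 / 100000000000))
    (D : ∀ i, df E (wp w κ α) (kt κ) i ≤ (1423 / 250000000)) :
    ∑ i, KB.tt (wp w κ α) (kt κ) i ^ 2 ≤ (461 / 1000000) ^ 2 ∧ (∀ i, df E (wp w κ α) (kt κ) i ≤ (17601 / 100000000000)) ∧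
      KB.bet E (wp w κ α) (kt κ) ≤ 409010176 / 410189824 * KB.mu E (wp w κ α) (kt κ) := by
  have h0 := h.g0
  have hg := h.g1
  have hq := h.xlo (τ := (527 / 200000)) (x0 := (987 / 6250)) (by norm_num) T (by linarith)
  have lk : 0 < unO w κ → 72 * EK E w (up w κ α) ≤ unO w κ * ((36211 / 200) * KB.mu E (wp w κ α) (kt κ) +
      (292159 / 100000) * unO w κ + (12821 / 100) * unO w κ ^ 2 + (-199 / 2000)) := fun hp =>
    h.link (τ' := (527 / 200000)) (xl := (8213 / 50000)) (xu := (169073 / 1000000)) (x0 := (987 / 6250)) (Y := (1423 / 250000000))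
      (ε := 1 / 1000000) K
      (by norm_num) (by norm_num) T le_rfl (by norm_num) (by norm_num) (by norm_num) hq
      (by norm_num; linarith) (by norm_num) (by norm_num) (by norm_num) (by norm_num) (by norm_num)
      (by norm_num) (by norm_num) D (by norm_num) (by norm_num) (hθ1.trans (by norm_num))
      (by norm_num) hp
  obtain ⟨a, b, c⟩ := st7 h0 hg h.mu' h.K0 h.K1 lk
  have p : unO w κ ^ 2 ≤ (1103 / 1000000) ^ 2 := pow_le_pow_left₀ h0 b 2
  have u := h.xlo (τ := (527 / 200000)) (x0 := (3263 / 20000)) (by norm_num) T (by linarith)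
  have v : (1 + unO w κ / (2 * (3263 / 20000))) ^ 2 / 30 ≤ 340 / 10000 := by
    have f : (1 + unO w κ / (2 * (3263 / 20000))) ^ 2 ≤ (1 + (1103 / 1000000) / (2 * (3263 / 20000))) ^ 2 :=
      pow_le_pow_left₀ (by positivity) (by gcongr) 2
    norm_num at f ⊢
    linarith
  have e := h.loc2 (s := (1297 / 10000000)) (τ' := (527 / 200000)) (x0 := (3263 / 20000)) S (by norm_num)
    (by norm_num) T (by norm_num) (by norm_num; linarith) l (by norm_num at p ⊢; linarith)
    (by norm_num) u v le_rfl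
  obtain ⟨T', l', D'⟩ := h.next (ρ := 0) (X := (11 / 62500000)) (τ := (481151 / 200000000)) (c := (41511 / 50000))
    (Y := (17601 / 100000000000)) e (by norm_num) c (by norm_num)
    (fun i => ((le_abs_self _).trans (h.tp (by norm_num) T i)).trans (by norm_num))
    (by norm_num) (by norm_num) (by linarith)
  refine ⟨?_, D', e⟩
  norm_num at T' ⊢
  linarith

theorem step8 (h : Env E w κ α θ) (hθ1 : θ ≤ 1 / 1000000000000)
    (K : LR.LinkL (27 / 10000) (1 / 30) (-1009 / 10000) (72 / 7) 108 144 0 (108 / 25))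
    (T : ∑ i, KB.tt (wp w κ α) (kt κ) i ^ 2 ≤ (461 / 1000000) ^ 2) (D : ∀ i, df E (wp w κ α) (kt κ) i ≤ (17601 / 100000000000))
    (e : KB.bet E (wp w κ α) (kt κ) ≤ 409010176 / 410189824 * KB.mu E (wp w κ α) (kt κ)) :
    35 / 36 * (L - 2 / 7) ≤ θ := by
  have h0 := h.g0
  have hg := h.g1
  have hq := h.xlo (τ := (461 / 1000000)) (x0 := (1599 / 10000)) (by norm_num) T (by linarith)
  have T9 : ∑ i, KB.tt (wp w κ α) (kt κ) i ^ 2 ≤ (1 / 100) ^ 2 := T.trans (by norm_num)
  have hz : unO w κ = 0 := by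
    by_contra hne
    have hp : 0 < unO w κ := lt_of_le_of_ne h0 (Ne.symm hne)
    have lk := h.link (τ' := (461 / 1000000)) (xl := (33249 / 200000)) (xu := (10443 / 62500)) (x0 := (1599 / 10000))
      (Y := (17601 / 100000000000)) (ε := 1 / 1000000)
      (E' := (180183 / 1000)) (c1 := (288729 / 100000)) (c2 := (12821 / 100)) (y := (-100709 / 1000000)) K
      (by norm_num) (by norm_num) T le_rfl (by norm_num) (by norm_num) (by norm_num) hq
      (by norm_num; linarith) (by norm_num) (by norm_num) (by norm_num) (by norm_num) (by norm_num)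
      (by norm_num) (by norm_num) D (by norm_num) (by norm_num) (hθ1.trans (by norm_num))
      (by norm_num) hp
    exact st8 hp hg h.mu' h.K0 h.K1 (h.muS hθ1 e (by norm_num) T9) lk
  exact h.last e (by norm_num) T9 hz

end

end KS
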