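import Pool.Agent.Helper25.K4.Sp1
import Pool.Agent.Helper25.K4.Sp2

/-!
# The chain

From the certificate of the first part, the eight local lemmas and the three link lemmas to the
value of the density.
-/

set_option autoImplicit false

open Finset hiding dens

namespace KS

open KF KT KW

theorem chain (hH : HE (1 / 10) (59 / 100000))
    (Sa : LocL (466 / 10000) (57 / 10000) (36 / 1000) (7 / 10000) (471183360 / 348016640))
    (Sb : LocL (190 / 10000) (45 / 10000) (36 / 1000) (7 / 10000) (434368512 / 384831488))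
    (Sc : LocL (114 / 10000) (44 / 10000) (36 / 1000) (7 / 10000) (424079360 / 395120640))
    (Sd2 : LocL (82 / 10000) (20 / 10000) (355 / 10000) (7 / 10000) (418541568 / 400658432))
    (Se2 : LocL (61 / 10000) (20 / 10000) (355 / 10000) (7 / 10000) (415588352 / 403611648))
    (Sf4 : LocL (50 / 10000) (11 / 10000) (346 / 10000) (7 / 10000) (413102080 / 406097920))
    (Sg4 : LocL (39 / 10000) (9 / 10000) (343 / 10000) (7 / 10000) (411197440 / 408002560))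
    (Sh5 : LocL (27 / 10000) (6 / 10000) (340 / 10000) (7 / 10000) (409010176 / 410189824))
    (K1 : LR.LinkL (82 / 10000) (1 / 30) (-266 / 10000) (72 / 7) 108 144 0 (108 / 25))
    (K2 : LR.LinkL (50 / 10000) (1 / 30) (-710 / 10000) (72 / 7) 108 144 0 (108 / 25))
    (K3 : LR.LinkL (27 / 10000) (1 / 30) (-1009 / 10000) (72 / 7) 108 144 0 (108 / 25)) : L ≤ 2 / 7 := by
  by_contra hL
  push Not at hL
  obtain ⟨θ, hθ0, hθ1, hθ2⟩ : ∃ θ : ℝ, 0 < θ ∧ θ ≤ 1 / 1000000000000 ∧ 2 * θ ≤ L - 2 / 7 :=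
    ⟨min (1 / 1000000000000) ((L - 2 / 7) / 2), lt_min (by norm_num) (by linarith),
      min_le_left _ _, by linarith [min_le_right (1 / 1000000000000) ((L - 2 / 7) / 2)]⟩
  obtain ⟨V, iV, E, w, κ, α, h⟩ := exists_env hH hL hθ0
  have l0 := h.L1
  obtain ⟨T0', D0'⟩ := h.first (by linarith)
  have T0 : ∑ i, KB.tt (wp w κ α) (kt κ) i ^ 2 ≤ (109 / 2500) ^ 2 := T0'.trans (by norm_num)
  have D0 : ∀ i, df E (wp w κ α) (kt κ) i ≤ (61 / 50000) := fun i => (D0' i).trans (by norm_num)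
  obtain ⟨T1, l1, D1⟩ := step0 h hθ1 Sa T0 l0
  obtain ⟨T2, l2, D2⟩ := step1 h hθ1 Sb T1 l1
  obtain ⟨T3, l3, D3⟩ := step2 h hθ1 Sc T2 l2
  obtain ⟨T4, l4, D4⟩ := step3 h hθ1 Sd2 K1 T3 l3 D3
  obtain ⟨T5, l5, D5⟩ := step4 h hθ1 Se2 K1 T4 l4 D4
  obtain ⟨T6, l6, D6⟩ := step5 h hθ1 Sf4 K2 T5 l5 D5
  obtain ⟨T7, l7, D7⟩ := step6 h hθ1 Sg4 K2 T6 l6 D6
  obtain ⟨T8, D8, e8⟩ := step7 h hθ1 Sh5 K3 T7 l7 D7
  have hend := step8 h hθ1 K3 T8 D8 e8
  linarith

end KS
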