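import Mathlib

/-!
# Real numbers: one interval of the mass of the unassigned part
-/

set_option autoImplicit false

namespace KS

theorem lfM {g mu a b M : ℝ} (h0 : 0 ≤ a) (ha : a ≤ g) (hb : g ≤ b) (hg : g ≤ 634 / 100000)
    (hmu : mu ≤ (634 / 1000000 - g / 10) * (1 + 8 / 3 * g) ^ 3)
    (hM : (634 / 1000000 - a / 10) * (1 + 8 / 3 * b) ^ 3 ≤ M) : mu ≤ M := by
  have h1 : (1 + 8 / 3 * g) ^ 3 ≤ (1 + 8 / 3 * b) ^ 3 :=
    pow_le_pow_left₀ (by linarith) (by linarith) 3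
  have h2 : 0 ≤ (1 + 8 / 3 * g) ^ 3 := by
    have : 0 ≤ 1 + 8 / 3 * g := by linarith
    positivity
  have h3 : (634 / 1000000 - g / 10) * (1 + 8 / 3 * g) ^ 3 ≤
      (634 / 1000000 - g / 10) * (1 + 8 / 3 * b) ^ 3 :=
    mul_le_mul_of_nonneg_left h1 (by linarith)
  have h4 : (634 / 1000000 - g / 10) * (1 + 8 / 3 * b) ^ 3 ≤
      (634 / 1000000 - a / 10) * (1 + 8 / 3 * b) ^ 3 :=
    mul_le_mul_of_nonneg_right (by linarith) (by linarith)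
  linarith

theorem lfR {g K mu E c c2 y a b M R : ℝ} (h0 : 0 ≤ a) (ha : a ≤ g) (hb : g ≤ b) (hm : mu ≤ M)
    (hE : 0 ≤ E) (hc : 0 ≤ c) (hc2 : 0 ≤ c2)
    (hlk : 72 * K ≤ g * (E * mu + c * g + c2 * g ^ 2 + y))
    (hR : E * M + c * b + c2 * b ^ 2 + y ≤ R) : 72 * K ≤ g * R := by
  have h1 : E * mu ≤ E * M := mul_le_mul_of_nonneg_left hm hE
  have h2 : c * g ≤ c * b := mul_le_mul_of_nonneg_left hb hc
  have h3 : c2 * g ^ 2 ≤ c2 * b ^ 2 :=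
    mul_le_mul_of_nonneg_left (pow_le_pow_left₀ (by linarith) hb 2) hc2
  have h4 : g * (E * mu + c * g + c2 * g ^ 2 + y) ≤ g * R :=
    mul_le_mul_of_nonneg_left (by linarith) (by linarith)
  linarith

/-- An interval where the link bound is used. -/
theorem lfK {g K mu E c c2 y a b M R B : ℝ} (h0 : 0 ≤ a) (ha : a ≤ g) (hb : g ≤ b)
    (hm : mu ≤ M) (hE : 0 ≤ E) (hc : 0 ≤ c) (hc2 : 0 ≤ c2)
    (hlk : 72 * K ≤ g * (E * mu + c * g + c2 * g ^ 2 + y))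
    (hR : E * M + c * b + c2 * b ^ 2 + y ≤ R) (hR0 : 0 ≤ R) (hB : b * R ≤ 72 * B) : K ≤ B := by
  have h1 := lfR h0 ha hb hm hE hc hc2 hlk hR
  have h2 : g * R ≤ b * R := mul_le_mul_of_nonneg_right hb hR0
  linarith

/-- An interval that is excluded. -/
theorem lfC {g K mu E c c2 y a b M R : ℝ} (h0 : 0 < a) (ha : a ≤ g) (hb : g ≤ b)
    (hm : mu ≤ M) (hE : 0 ≤ E) (hc : 0 ≤ c) (hc2 : 0 ≤ c2) (hK : 0 ≤ K)
    (hlk : 72 * K ≤ g * (E * mu + c * g + c2 * g ^ 2 + y))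
    (hR : E * M + c * b + c2 * b ^ 2 + y ≤ R) (hR0 : R < 0) : False := by
  have h1 := lfR h0.le ha hb hm hE hc hc2 hlk hR
  have h2 : g * R < 0 := mul_neg_of_pos_of_neg (by linarith) hR0
  linarith

/-- An interval where the trivial bound is used. -/
theorem lfQ {g K q b B : ℝ} (h0 : 0 ≤ g) (hb : g ≤ b) (hq : 0 ≤ q) (hK : K ≤ q * g ^ 2)
    (hB : q * b ^ 2 ≤ B) : K ≤ B := by
  have : q * g ^ 2 ≤ q * b ^ 2 := mul_le_mul_of_nonneg_left (pow_le_pow_left₀ h0 hb 2) hq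
  linarith

theorem lfX {g K mu b M B r X : ℝ} (h0 : 0 ≤ g) (hb : g ≤ b) (hm : mu ≤ M) (hr : 0 ≤ r)
    (hK : K ≤ B) (hX : 3 * B + r * M + 11 / 6 * b ^ 3 ≤ X) :
    3 * K + r * mu + 11 / 6 * g ^ 3 ≤ X := by
  have h1 : r * mu ≤ r * M := mul_le_mul_of_nonneg_left hm hr
  have h2 : g ^ 3 ≤ b ^ 3 := pow_le_pow_left₀ h0 hb 3
  linarith

theorem lfS {g K mu b r m : ℝ} (h0 : 0 ≤ g) (hb : g ≤ b) (hK : K ≤ 3145 / 10000 * g ^ 2)
    (hr : 0 < r) (hm : r * mu ≤ 3 * K + 11 / 6 * g ^ 3 + 1 / 1000000000000)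
    (hM : 3 * (3145 / 10000) * b ^ 2 + 11 / 6 * b ^ 3 + 1 / 1000000000000 ≤ r * m) : mu ≤ m := by
  have h1 : g ^ 2 ≤ b ^ 2 := pow_le_pow_left₀ h0 hb 2
  have h2 : g ^ 3 ≤ b ^ 3 := pow_le_pow_left₀ h0 hb 3
  have h3 : r * mu ≤ r * m := by linarith
  exact le_of_mul_le_mul_left h3 hr

theorem lfD {g K mu E c c2 y b M R : ℝ} (h0 : 0 < g) (hb : g ≤ b)
    (hm : mu ≤ M) (hE : 0 ≤ E) (hc : 0 ≤ c) (hc2 : 0 ≤ c2) (hK : 0 ≤ K)
    (hlk : 72 * K ≤ g * (E * mu + c * g + c2 * g ^ 2 + y))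
    (hR : E * M + c * b + c2 * b ^ 2 + y ≤ R) (hR0 : R < 0) : False := by
  have h1 := lfR le_rfl h0.le hb hm hE hc hc2 hlk hR
  have h2 : g * R < 0 := mul_neg_of_pos_of_neg h0 hR0
  linarith

end KS
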