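import Pool.Agent.Helper13.KC.Core
import Pool.Agent.Helper91.KF.F3

/-!
# From a pointwise inequality on the masks to the bound on `L`
-/

set_option autoImplicit false

open Finset

namespace KC

open KF

/-- The number of edges of a mask, as a real number. -/
noncomputable def pcr (m : ℕ) : ℝ := ∑ t ∈ range 35, b2r (m.testBit t)

theorem tri_ne : ∀ t < 35, f7 (tri t).1 ≠ f7 (tri t).2.1 ∧ f7 (tri t).1 ≠ f7 (tri t).2.2 ∧
    f7 (tri t).2.1 ≠ f7 (tri t).2.2 := by decide +kernel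

section
variable {V : Type} [Fintype V]

theorem Ev_bit (E : V → V → V → Bool) {w : V → ℝ} (hw : Wt w) (t : ℕ) (ht : t < 35) :
    Ev 7 w (fun φ => b2r ((msk E φ).testBit t)) = dens E w := by
  have h1 : Ev 7 w (fun φ => b2r ((msk E φ).testBit t)) =
      Ev 7 w (fun φ => (fun x y z => b2r (E x y z)) (φ (f7 (tri t).1)) (φ (f7 (tri t).2.1))
        (φ (f7 (tri t).2.2))) := by
    refine Ev_congr 7 w fun φ => ?_
    rw [msk_testBit E φ t ht]
  obtain ⟨n1, n2, n3⟩ := tri_ne t ht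
  rw [h1]
  exact Ev_triple w hw.one (fun x y z => b2r (E x y z)) _ _ _ n1 n2 n3

/-- The expected number of edges. -/
theorem Ev_pcr (E : V → V → V → Bool) {w : V → ℝ} (hw : Wt w) :
    Ev 7 w (fun φ => pcr (msk E φ)) = 35 * dens E w := by
  unfold pcr
  rw [Ev_sum, Finset.sum_congr rfl fun t ht => Ev_bit E hw t (Finset.mem_range.1 ht)]
  rw [Finset.sum_const, Finset.card_range, nsmul_eq_mul]
  norm_num

/-- Pointwise inequalities on admissible masks hold in expectation. -/
theorem Ev_mono_adm {E : V → V → V → Bool} (hE : K4m E) {w : V → ℝ} (hw : Wt w) {f g : ℕ → ℝ}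
    (h : ∀ m, Adm m → f m ≤ g m) :
    Ev 7 w (fun φ => f (msk E φ)) ≤ Ev 7 w (fun φ => g (msk E φ)) :=
  Ev_mono 7 w hw.nn fun φ => h _ (adm_msk hE φ)

end

/-- The master theorem. `S` is the certificate function, `A` collects the multipliers of the
inequalities containing `L`, `B` those of the inequalities containing the density. -/
theorem master {p0 c C : ℝ} {S A B : ℕ → ℝ} (hc : 0 < c)
    (hpt : ∀ m, Adm m → S m ≤ 35 * p0 - pcr m)
    (hS : ∀ η : ℝ, 0 < η → ∃ θ : ℝ, 0 < θ ∧ ∀ (n : ℕ) (E : Fin n → Fin n → Fin n → Bool)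
      (w : Fin n → ℝ), Opt E w → L - θ < dens E w →
      (p0 - L) * Ev 7 w (fun φ => A (msk E φ)) + (dens E w - p0) * Ev 7 w (fun φ => B (msk E φ)) - η
        ≤ Ev 7 w (fun φ => S (msk E φ)))
    (hA : ∀ (n : ℕ) (E : Fin n → Fin n → Fin n → Bool) (w : Fin n → ℝ), Opt E w →
      c ≤ 35 - Ev 7 w (fun φ => A (msk E φ)) + Ev 7 w (fun φ => B (msk E φ)))
    (hB : ∀ m, Adm m → B m ≤ C) : L ≤ p0 := by
  refine final2 (p0 := p0) (c := c / 35) (C := C / 35) (by positivity) ?_
  intro η hη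
  obtain ⟨θ, hθ, h⟩ := hS (35 * η) (by positivity)
  refine ⟨θ, hθ, fun n E w ho hd => ?_⟩
  refine ⟨Ev 7 w (fun φ => A (msk E φ)) / 35, Ev 7 w (fun φ => B (msk E φ)) / 35, ?_, ?_, ?_⟩
  · have h1 := h n E w ho hd
    have h2 : Ev 7 w (fun φ => S (msk E φ)) ≤ 35 * p0 - 35 * dens E w := by
      have h3 := Ev_mono_adm ho.free ho.wt hpt
      rw [Ev_sub, Ev_const 7 w ho.wt.one, Ev_pcr E ho.wt] at h3
      exact h3
    linarith
  · have := hA n E w ho
    linarith
  · have h3 := Ev_mono_adm ho.free ho.wt (g := fun _ => C) hB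
    rw [Ev_const 7 w ho.wt.one] at h3
    linarith

/-- Version with pointwise hypotheses and a linear error term. -/
theorem master_pt {p0 c C K : ℝ} {S A B : ℕ → ℝ} (hc : 0 < c)
    (hpt : ∀ m, Adm m → S m ≤ 35 * p0 - pcr m)
    (hS : ∀ (n : ℕ) (E : Fin n → Fin n → Fin n → Bool) (w : Fin n → ℝ), Opt E w →
      (p0 - L) * Ev 7 w (fun φ => A (msk E φ)) + (dens E w - p0) * Ev 7 w (fun φ => B (msk E φ)) -
        K * (L - dens E w) ≤ Ev 7 w (fun φ => S (msk E φ)))
    (hA : ∀ m, Adm m → c ≤ 35 - A m + B m)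
    (hB : ∀ m, Adm m → B m ≤ C) : L ≤ p0 := by
  refine master (A := A) hc hpt ?_ ?_ hB
  · intro η hη
    refine ⟨η / (|K| + 1), by positivity, fun n E w ho hd => ?_⟩
    have h1 := hS n E w ho
    have h2 : dens E w ≤ L := dens_le_L ho.free ho.wt
    have h3 : K * (L - dens E w) ≤ η := by
      have h4 : K * (L - dens E w) ≤ (|K| + 1) * (L - dens E w) :=
        mul_le_mul_of_nonneg_right (by linarith [le_abs_self K]) (by linarith)
      have h5 : (|K| + 1) * (L - dens E w) ≤ (|K| + 1) * (η / (|K| + 1)) :=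
        mul_le_mul_of_nonneg_left (by linarith) (by positivity)
      have h6 : (|K| + 1) * (η / (|K| + 1)) = η := by field_simp
      linarith
    linarith
  · intro n E w ho
    have h3 := Ev_mono_adm ho.free ho.wt (f := fun _ => c) (g := fun m => 35 - A m + B m) hA
    rw [Ev_const 7 w ho.wt.one, Ev_add, Ev_sub, Ev_const 7 w ho.wt.one] at h3
    exact h3

end KC
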