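import Pool.Agent.Helper25.K4.Parts

/-!
# The checks of one block of a table, from lists of blocks of rows
-/

set_option autoImplicit false

open Finset

namespace KC

theorem fa_nil {P : List ℕ → Prop} : ∀ x ∈ ([] : List (List ℕ)), P x :=
  fun _ h => absurd h (by simp)

theorem fa_cons {P : List ℕ → Prop} {a : List ℕ} {l : List (List ℕ)} (h1 : P a)
    (h2 : ∀ x ∈ l, P x) : ∀ x ∈ a :: l, P x :=
  List.forall_mem_cons.2 ⟨h1, h2⟩

/-- Every number below `n` lies in one of the lists. -/
def covB (n : ℕ) (l : List (List ℕ)) : Bool :=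
  (List.range n).all fun f => l.any fun fs => fs.any fun x => Nat.beq x f

theorem covB_spec {n : ℕ} {l : List (List ℕ)} (h : covB n l = true) :
    ∀ f < n, ∃ fs ∈ l, f ∈ fs := by
  intro f hf
  unfold covB at h
  have h1 := List.all_eq_true.1 h f (List.mem_range.2 hf)
  obtain ⟨fs, hfs, h2⟩ := List.any_eq_true.1 h1
  obtain ⟨x, hx, h3⟩ := List.any_eq_true.1 h2
  have h4 : x = f := Nat.eq_of_beq_eq_true h3
  exact ⟨fs, hfs, h4 ▸ hx⟩

/-- The check of one block of a table from lists of blocks of rows. -/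
theorem psdT_of_blocks {T : Tab} {t rb n : ℕ} {p : PP} {k : KP} {rows ker : List ℕ}
    {bl sl : List (List ℕ)} {QT : BT} (hQT : T.QT = QT)
    (hpb : p.b = 96) (hpn : p.n = n) (hpF : p.F = T.OFF)
    (hn : T.nf t = n) (hrb : T.rb t = rb)
    (hp : okK p k rows.length ker.length = true) (hon : okN p k = true)
    (hfac : facCk p rows = true) (hker : facCk { p with v := k.v, O := k.O } ker = true)
    (hblk : ∀ fs ∈ bl, blkCkK p k rows ker (fun f => QT.get (Nat.add rb f)) fs = true)
    (hbl : covB n bl = true)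
    (hnull : nullCk p k ker (fun f => QT.get (Nat.add rb f)) = true)
    (hsym : ∀ fs ∈ sl, symCk 96 n (fun f => QT.get (Nat.add rb f)) fs = true)
    (hsl : covB n sl = true) : PsdT T t := by
  subst hQT
  subst hrb
  subst hpn
  refine psdT_of_check hpb hn.symm hpF hp hon hfac hker ?_ hnull ?_
  · intro f hf
    obtain ⟨fs, hfs, h⟩ := covB_spec hbl f hf
    exact ⟨fs, h, hblk fs hfs⟩
  · intro f hf
    obtain ⟨fs, hfs, h⟩ := covB_spec hsl f hf
    rw [hpb]
    exact ⟨fs, h, hsym fs hfs⟩

/-- Symmetry of one block of a table from lists of blocks of rows. -/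
theorem symT_of_blocks {T : Tab} {t rb n : ℕ} {sl : List (List ℕ)} {QT : BT} (hQT : T.QT = QT)
    (hn : T.nf t = n) (hrb : T.rb t = rb)
    (hsym : ∀ fs ∈ sl, symCk 96 n (fun f => QT.get (Nat.add rb f)) fs = true)
    (hsl : covB n sl = true) :
    ∀ f < T.nf t, ∀ g < T.nf t, T.qe t f g = T.qe t g f := by
  subst hQT
  subst hrb
  subst hn
  refine symT_of_check fun f hf => ?_
  obtain ⟨fs, hfs, h⟩ := covB_spec hsl f hf
  exact ⟨fs, h, hsym fs hfs⟩

end KC
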