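import Pool.Agent.Helper25.K4.Chain
import Pool.Agent.Helper13.KC.E2.Main
import Pool.Agent.Helper45.LS.L1.M
import Pool.Agent.Helper45.LS.L2.M
import Pool.Agent.Helper45.LS.L3.M
import Pool.Agent.Helper41.S8.a.M
import Pool.Agent.Helper41.S8.b.M
import Pool.Agent.Helper41.S8.c.M
import Pool.Agent.Helper41.S8.d2.M
import Pool.Agent.Helper41.S8.e2.M
import Pool.Agent.Helper41.S8.f4.M
import Pool.Agent.Helper41.S8.g4.M
import Pool.Agent.Helper41.S8.h5.M

/-!
# The value of the density
-/

set_option autoImplicit false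

namespace KS

/-- The supremum of the densities of weighted 3-graphs without `K4^-` is at most `2 / 7`. -/
theorem plan_b : KF.L ≤ 2 / 7 :=
  chain KC.E2.main S8.a.loc S8.b.loc S8.c.loc S8.d2.loc S8.e2.loc S8.f4.loc S8.g4.loc S8.h5.loc
    LS.L1.link LS.L2.link LS.L3.link

end KS
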