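import Pool.Agent.Helper13.KC.BT
import Mathlib

/-!
# Kernel check of positive semidefiniteness of integer matrices given by packed rows
-/

set_option autoImplicit false

open Finset

namespace KC

/-! ## Digits -/

/-- The digit `g` of `X` in base `2 ^ b`. -/
def dgt (b X g : ℕ) : ℕ := X / 2 ^ (b * g) % 2 ^ b

theorem dgt_lt (b X g : ℕ) : dgt b X g < 2 ^ b := Nat.mod_lt _ (by positivity)

theorem sum_dgt_mod (b X : ℕ) : ∀ n : ℕ, ∑ g ∈ range n, dgt b X g * 2 ^ (b * g) = X % 2 ^ (b * n)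
  | 0 => by simp [Nat.mod_one]
  | n + 1 => by
    rw [Finset.sum_range_succ, sum_dgt_mod b X n, Nat.mul_succ, pow_add, Nat.mod_mul]
    unfold dgt
    ring

theorem sum_dgt {b X n : ℕ} (h : X < 2 ^ (b * n)) :
    ∑ g ∈ range n, dgt b X g * 2 ^ (b * g) = X := by
  rw [sum_dgt_mod, Nat.mod_eq_of_lt h]

/-- The digit as computed by the kernel. -/
theorem dgt_eq (b X g : ℕ) :
    Nat.land (Nat.shiftRight X (Nat.mul b g)) (2 ^ b - 1) = dgt b X g := by
  change (X >>> (b * g)) &&& (2 ^ b - 1) = dgt b X g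
  rw [Nat.and_two_pow_sub_one_eq_mod, Nat.shiftRight_eq_div_pow]
  rfl

/-- The number with all digits one. -/
def uni (b n : ℕ) : ℕ := (2 ^ (b * n) - 1) / (2 ^ b - 1)

theorem uni_eq {b : ℕ} (hb : 0 < b) (n : ℕ) : uni b n = ∑ g ∈ range n, 2 ^ (b * g) := by
  unfold uni
  have h2 : 2 ≤ 2 ^ b := by
    calc 2 = 2 ^ 1 := rfl
      _ ≤ 2 ^ b := Nat.pow_le_pow_right (by norm_num) hb
  have h1 : ∑ g ∈ range n, 2 ^ (b * g) = ∑ g ∈ range n, (2 ^ b) ^ g := by
    refine Finset.sum_congr rfl fun g _ => ?_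
    rw [pow_mul]
  rw [h1, Nat.geomSum_eq h2, pow_mul]

/-- Uniqueness of digits with signs. -/
theorem digits_unique {B : ℤ} : ∀ (n : ℕ) (d : ℕ → ℤ), (∀ g < n, |d g| < B) →
    ∑ g ∈ range n, d g * B ^ g = 0 → ∀ g < n, d g = 0
  | 0, _, _, _, g, hg => absurd hg (by omega)
  | n + 1, d, hd, hs, g, hg => by
    have hB : 0 < B := lt_of_le_of_lt (abs_nonneg _) (hd 0 (by omega))
    rw [Finset.sum_range_succ'] at hs
    simp only [pow_zero, mul_one] at hs
    have h1 : ∑ k ∈ range n, d (k + 1) * B ^ (k + 1) = B * ∑ k ∈ range n, d (k + 1) * B ^ k := by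
      rw [Finset.mul_sum]
      exact Finset.sum_congr rfl fun k _ => by ring
    rw [h1] at hs
    have h0 : d 0 = 0 := by
      have h2 : B ∣ d 0 := ⟨-∑ k ∈ range n, d (k + 1) * B ^ k, by linarith⟩
      exact Int.eq_zero_of_abs_lt_dvd h2 (hd 0 (by omega))
    have h3 : ∑ k ∈ range n, d (k + 1) * B ^ k = 0 := by
      rw [h0, add_zero] at hs
      rcases mul_eq_zero.1 hs with h | h
      · omega
      · exact h
    have ih := digits_unique n (fun k => d (k + 1)) (fun k hk => hd (k + 1) (by omega)) h3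
    rcases g with _ | g
    · exact h0
    · exact ih g (by omega)

theorem dgt_land (b X Y g : ℕ) : dgt b (X &&& Y) g = dgt b X g &&& dgt b Y g := by
  refine Nat.eq_of_testBit_eq fun i => ?_
  unfold dgt
  rw [Nat.testBit_land, Nat.testBit_mod_two_pow, Nat.testBit_mod_two_pow,
    Nat.testBit_mod_two_pow, Nat.testBit_div_two_pow, Nat.testBit_div_two_pow,
    Nat.testBit_div_two_pow, Nat.testBit_land]
  cases decide (i < b) <;> simp

theorem dgt_of_sum {b n : ℕ} {a : ℕ → ℕ} (ha : ∀ g < n, a g < 2 ^ b) {g : ℕ} (hg : g < n) :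
    dgt b (∑ k ∈ range n, a k * 2 ^ (b * k)) g = a g := by
  have hlt : ∀ m : ℕ, m ≤ n → ∑ k ∈ range m, a k * 2 ^ (b * k) < 2 ^ (b * m) := by
    intro m
    induction m with
    | zero => intro _; simp
    | succ m ih =>
      intro hm
      rw [Finset.sum_range_succ]
      have h1 := ih (by omega)
      have h2 : a m + 1 ≤ 2 ^ b := ha m (by omega)
      calc _ < 2 ^ (b * m) + a m * 2 ^ (b * m) := by omega
        _ = (a m + 1) * 2 ^ (b * m) := by ring
        _ ≤ 2 ^ b * 2 ^ (b * m) := Nat.mul_le_mul_right _ h2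
        _ = 2 ^ (b * (m + 1)) := by rw [← pow_add]; congr 1; ring
  set X := ∑ k ∈ range n, a k * 2 ^ (b * k) with hX
  have hXn := hlt n le_rfl
  have h1 := sum_dgt (b := b) (X := X) (n := n) hXn
  have h2 : ∑ k ∈ range n, ((dgt b X k : ℤ) - a k) * ((2 : ℤ) ^ b) ^ k = 0 := by
    have h3 : ((∑ g ∈ range n, dgt b X g * 2 ^ (b * g) : ℕ) : ℤ) =
        ((∑ k ∈ range n, a k * 2 ^ (b * k) : ℕ) : ℤ) := by rw [h1]
    push_cast at h3
    simp only [sub_mul, Finset.sum_sub_distrib]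
    have h4 : ∀ f : ℕ → ℤ, ∑ k ∈ range n, f k * ((2 : ℤ) ^ b) ^ k =
        ∑ k ∈ range n, f k * 2 ^ (b * k) := fun f =>
      Finset.sum_congr rfl fun k _ => by rw [pow_mul]
    rw [h4, h4, h3, sub_self]
  have h5 := digits_unique n (fun k => (dgt b X k : ℤ) - a k) (fun k hk => by
    have e1 := dgt_lt b X k
    have e2 := ha k hk
    have e3 : ((dgt b X k : ℕ) : ℤ) < 2 ^ b := by exact_mod_cast e1
    have e4 : ((a k : ℕ) : ℤ) < 2 ^ b := by exact_mod_cast e2
    rw [abs_lt]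
    constructor <;> linarith [Int.natCast_nonneg (dgt b X k), Int.natCast_nonneg (a k)]) h2 g hg
  have h6 : (dgt b X g : ℤ) = a g := by linarith
  exact_mod_cast h6

/-- High bits of a digit. -/
theorem lt_of_land_zero {b j y : ℕ} (hj : j ≤ b) (hy : y < 2 ^ b)
    (h : y &&& (2 ^ b - 2 ^ j) = 0) : y < 2 ^ j := by
  by_contra hcon
  push Not at hcon
  obtain ⟨i, hi, hbit⟩ := Nat.exists_ge_and_testBit_of_ge_two_pow hcon
  have hib : i < b := by
    by_contra hib
    push Not at hib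
    have := Nat.testBit_eq_false_of_lt (lt_of_lt_of_le hy (Nat.pow_le_pow_right (by norm_num) hib))
    rw [this] at hbit
    exact absurd hbit (by decide)
  have h2 : (y &&& (2 ^ b - 2 ^ j)).testBit i = true := by
    rw [Nat.testBit_land, hbit, Bool.true_and]
    have e : 2 ^ b - 2 ^ j = 2 ^ j * (2 ^ (b - j) - 1) := by
      rw [Nat.mul_sub, mul_one, ← pow_add]
      congr 2
      omega
    rw [e, Nat.testBit_two_pow_mul, Nat.testBit_two_pow_sub_one]
    simp
    omega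
  rw [h, Nat.zero_testBit] at h2
  exact absurd h2 (by decide)

/-- The mask of the high bits of all digits. -/
theorem digits_lt_of_land {b n j Y : ℕ} (hb : 0 < b) (hj : j ≤ b)
    (h : Nat.land Y ((2 ^ b - 2 ^ j) * uni b n) = 0) : ∀ g < n, dgt b Y g < 2 ^ j := by
  intro g hg
  refine lt_of_land_zero hj (dgt_lt b Y g) ?_
  have h1 : dgt b ((2 ^ b - 2 ^ j) * uni b n) g = 2 ^ b - 2 ^ j := by
    rw [uni_eq hb, Finset.mul_sum]
    exact dgt_of_sum (a := fun _ => 2 ^ b - 2 ^ j) (fun _ _ => by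
      have : 0 < 2 ^ j := by positivity
      have : 0 < 2 ^ b := by positivity
      omega) hg
  have h2 := dgt_land b Y ((2 ^ b - 2 ^ j) * uni b n) g
  rw [h1] at h2
  rw [← h2]
  change dgt b (Nat.land Y ((2 ^ b - 2 ^ j) * uni b n)) g = 0
  rw [h]
  simp [dgt]

/-! ## The check -/

/-- `∑ R, (digit of R at the shift) * R`. -/
noncomputable def dotr (sh M : ℕ) (rows : List ℕ) : ℕ :=
  List.rec (motive := fun _ => ℕ) 0
    (fun R _ ih => Nat.add (Nat.mul (Nat.land (Nat.shiftRight R sh) M) R) ih) rows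

/-- The sum of the rows. -/
noncomputable def sumr (rows : List ℕ) : ℕ :=
  List.rec (motive := fun _ => ℕ) 0 (fun R _ ih => Nat.add R ih) rows

theorem dotr_eq (b g : ℕ) (rows : List ℕ) :
    dotr (Nat.mul b g) (2 ^ b - 1) rows = (rows.map (fun R => dgt b R g * R)).sum := by
  induction rows with
  | nil => rfl
  | cons R rows ih =>
    rw [List.map_cons, List.sum_cons, ← ih, ← dgt_eq]
    rfl

theorem sumr_eq (rows : List ℕ) : sumr rows = rows.sum := by
  induction rows with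
  | nil => rfl
  | cons R rows ih =>
    rw [List.sum_cons, ← ih]
    rfl

/-- The parameters of a check. -/
structure PP where
  /-- width of a digit -/
  b : ℕ
  /-- dimension -/
  n : ℕ
  /-- scale of the matrix -/
  s : ℕ
  /-- offset of the matrix entries -/
  F : ℕ
  /-- offset of the factor entries -/
  O : ℕ
  /-- exponent of the bound of the error entries: `2 e = 2 ^ j` -/
  j : ℕ
  /-- lower bound of the diagonal of the error -/
  D : ℕ
  /-- exponent of the bound of the matrix entries with offset -/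
  q : ℕ
  /-- exponent of the bound of the factor entries with offset -/
  v : ℕ

/-- The numerical conditions. -/
def PP.ok (p : PP) (r : ℕ) : Bool :=
  decide (0 < p.b) && decide (0 < p.s) && decide (1 ≤ p.j) && decide (p.j ≤ p.b) &&
  decide (p.q ≤ p.b) && decide (p.v ≤ p.b) &&
  decide (p.n * 2 ^ (p.j - 1) ≤ p.D) &&
  decide (p.s * 2 ^ p.q + 2 * (p.O * (r * 2 ^ p.v)) + 2 ^ p.j < 2 ^ p.b) &&
  decide (p.s * p.F + r * (2 ^ p.v * 2 ^ p.v) + r * (p.O * p.O) + p.D + 2 ^ p.j < 2 ^ p.b)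

/-- The check of row `f`; `U` all ones, `S` the sum of the rows, `HM` mask of the high bits. -/
noncomputable def rowCk (p : PP) (U S HM K top : ℕ) (Q : ℕ) (rows : List ℕ) (f : ℕ) : Bool :=
  fc (Nat.mul p.b f) fun sh =>
  fc (Nat.add (Nat.add (Nat.mul p.s Q) (Nat.mul (Nat.add (Nat.mul p.O
      (Nat.land (Nat.shiftRight S sh) (Nat.sub (Nat.pow 2 p.b) 1))) (Nat.pow 2 (Nat.sub p.j 1))) U))
      (Nat.mul p.O S)) fun lhs =>
  fc (Nat.add (Nat.add (Nat.mul K U) (dotr sh (Nat.sub (Nat.pow 2 p.b) 1) rows))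
      (Nat.mul p.D (Nat.shiftLeft 1 sh))) fun rhs =>
  and (Nat.ble rhs lhs) (and (Nat.ble (Nat.succ (Nat.sub lhs rhs)) top)
    (Nat.beq (Nat.land (Nat.sub lhs rhs) HM) 0))

/-- Check of a block of rows of the matrix. -/
noncomputable def blkCk (p : PP) (rows : List ℕ) (Q : ℕ → ℕ) (fs : List ℕ) : Bool :=
  fc (uni p.b p.n) fun U =>
  fc (sumr rows) fun S =>
  fc (Nat.mul (Nat.sub (Nat.pow 2 p.b) (Nat.pow 2 p.j)) U) fun HM =>
  fc (Nat.mul (Nat.sub (Nat.pow 2 p.b) (Nat.pow 2 p.q)) U) fun HQ =>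
  fc (Nat.add (Nat.mul p.s p.F) (Nat.mul (List.length rows) (Nat.mul p.O p.O))) fun K =>
  fc (Nat.pow 2 (Nat.mul p.b p.n)) fun top =>
  List.rec (motive := fun _ => Bool) true
    (fun f _ ih => and (fc (Q f) fun q => and (rowCk p U S HM K top q rows f)
      (and (Nat.ble (Nat.succ q) top) (Nat.beq (Nat.land q HQ) 0))) ih) fs

/-- Check of the size of the rows of the factor. -/
noncomputable def facCk (p : PP) (rows : List ℕ) : Bool :=
  fc (Nat.mul (Nat.sub (Nat.pow 2 p.b) (Nat.pow 2 p.v)) (uni p.b p.n)) fun HV =>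
  fc (Nat.pow 2 (Nat.mul p.b p.n)) fun top =>
  List.rec (motive := fun _ => Bool) true
    (fun R _ ih => and (and (Nat.ble (Nat.succ R) top) (Nat.beq (Nat.land R HV) 0)) ih) rows

theorem facCk_spec {p : PP} {rows : List ℕ} (hb : 0 < p.b) (hv : p.v ≤ p.b)
    (h : facCk p rows = true) :
    ∀ R ∈ rows, R < 2 ^ (p.b * p.n) ∧ ∀ g < p.n, dgt p.b R g < 2 ^ p.v := by
  unfold facCk at h
  rw [fc_eq, fc_eq] at h
  revert h
  induction rows with
  | nil => intro _ R hR; exact absurd hR (by simp)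
  | cons A rows ih =>
    intro h
    have h' : (and (and (Nat.ble (Nat.succ A) (Nat.pow 2 (Nat.mul p.b p.n)))
      (Nat.beq (Nat.land A (Nat.mul (Nat.sub (Nat.pow 2 p.b) (Nat.pow 2 p.v)) (uni p.b p.n))) 0))
      (List.rec (motive := fun _ => Bool) true
    (fun R _ ih => and (and (Nat.ble (Nat.succ R) (Nat.pow 2 (Nat.mul p.b p.n)))
      (Nat.beq (Nat.land R (Nat.mul (Nat.sub (Nat.pow 2 p.b) (Nat.pow 2 p.v)) (uni p.b p.n))) 0)) ih)
      rows)) = true := h
    rw [Bool.and_eq_true, Bool.and_eq_true] at h'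
    obtain ⟨⟨h1, h2⟩, h3⟩ := h'
    intro R hR
    rcases List.mem_cons.1 hR with rfl | hR
    · refine ⟨Nat.le_of_ble_eq_true h1, ?_⟩
      exact digits_lt_of_land hb hv (Nat.eq_of_beq_eq_true h2)
    · exact ih h3 R hR

theorem blkCk_spec {p : PP} {rows : List ℕ} {Q : ℕ → ℕ} {fs : List ℕ}
    (h : blkCk p rows Q fs = true) : ∀ f ∈ fs,
    rowCk p (uni p.b p.n) (sumr rows) ((2 ^ p.b - 2 ^ p.j) * uni p.b p.n)
      (p.s * p.F + rows.length * (p.O * p.O)) (2 ^ (p.b * p.n)) (Q f) rows f = true ∧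
      Q f < 2 ^ (p.b * p.n) ∧ Nat.land (Q f) ((2 ^ p.b - 2 ^ p.q) * uni p.b p.n) = 0 := by
  unfold blkCk at h
  rw [fc_eq, fc_eq, fc_eq, fc_eq, fc_eq, fc_eq] at h
  revert h
  induction fs with
  | nil => intro _ f hf; exact absurd hf (by simp)
  | cons a fs ih =>
    intro h
    have h' := h
    change (and (fc (Q a) fun q => and (rowCk p (uni p.b p.n) (sumr rows)
      ((2 ^ p.b - 2 ^ p.j) * uni p.b p.n) (p.s * p.F + rows.length * (p.O * p.O))
      (2 ^ (p.b * p.n)) q rows a) (and (Nat.ble (Nat.succ q) (2 ^ (p.b * p.n)))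
      (Nat.beq (Nat.land q ((2 ^ p.b - 2 ^ p.q) * uni p.b p.n)) 0))) _) = true at h'
    rw [fc_eq, Bool.and_eq_true, Bool.and_eq_true, Bool.and_eq_true] at h'
    obtain ⟨⟨h1, h2, h3⟩, h4⟩ := h'
    intro f hf
    rcases List.mem_cons.1 hf with rfl | hf
    · exact ⟨h1, Nat.le_of_ble_eq_true h2, Nat.eq_of_beq_eq_true h3⟩
    · exact ih h4 f hf

theorem rowCk_spec {p : PP} {U S HM K top Q f : ℕ} {rows : List ℕ}
    (h : rowCk p U S HM K top Q rows f = true) :
    ∃ Y : ℕ, p.s * Q + (p.O * dgt p.b S f + 2 ^ (p.j - 1)) * U + p.O * S =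
      Y + (K * U + (rows.map (fun R => dgt p.b R f * R)).sum + p.D * 2 ^ (p.b * f)) ∧
      Y < top ∧ Nat.land Y HM = 0 := by
  unfold rowCk at h
  rw [fc_eq, fc_eq, fc_eq] at h
  rw [Bool.and_eq_true, Bool.and_eq_true] at h
  obtain ⟨h1, h2, h3⟩ := h
  have e1 : Nat.add (Nat.add (Nat.mul p.s Q) (Nat.mul (Nat.add (Nat.mul p.O
      (Nat.land (Nat.shiftRight S (Nat.mul p.b f)) (Nat.sub (Nat.pow 2 p.b) 1)))
      (Nat.pow 2 (Nat.sub p.j 1))) U)) (Nat.mul p.O S) =
      p.s * Q + (p.O * dgt p.b S f + 2 ^ (p.j - 1)) * U + p.O * S := by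
    rw [← dgt_eq]; rfl
  have e2 : Nat.add (Nat.add (Nat.mul K U) (dotr (Nat.mul p.b f) (Nat.sub (Nat.pow 2 p.b) 1) rows))
      (Nat.mul p.D (Nat.shiftLeft 1 (Nat.mul p.b f))) =
      K * U + (rows.map (fun R => dgt p.b R f * R)).sum + p.D * 2 ^ (p.b * f) := by
    rw [← dotr_eq]
    change K * U + dotr (Nat.mul p.b f) (2 ^ p.b - 1) rows + p.D * (1 <<< (p.b * f)) = _
    rw [Nat.one_shiftLeft]
  rw [e1, e2] at h1 h2 h3
  have h1' := Nat.le_of_ble_eq_true h1
  refine ⟨_, ?_, Nat.le_of_ble_eq_true h2, Nat.eq_of_beq_eq_true h3⟩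
  exact (Nat.sub_add_cancel h1').symm

/-- Expansion of a weighted sum of rows in digits. -/
theorem list_expand {b n : ℕ} (c : ℕ → ℕ) : ∀ (rows : List ℕ), (∀ R ∈ rows, R < 2 ^ (b * n)) →
    (rows.map (fun R => c R * R)).sum =
      ∑ g ∈ range n, (rows.map (fun R => c R * dgt b R g)).sum * 2 ^ (b * g)
  | [], _ => by simp
  | R :: rows, h => by
    have h1 := list_expand c rows fun A hA => h A (List.mem_cons_of_mem _ hA)
    have h2 := sum_dgt (b := b) (n := n) (h R (List.mem_cons_self ..))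
    simp only [List.map_cons, List.sum_cons]
    rw [h1]
    calc c R * R + ∑ g ∈ range n, (rows.map (fun R => c R * dgt b R g)).sum * 2 ^ (b * g)
        = c R * (∑ g ∈ range n, dgt b R g * 2 ^ (b * g)) +
          ∑ g ∈ range n, (rows.map (fun R => c R * dgt b R g)).sum * 2 ^ (b * g) := by rw [h2]
      _ = _ := by
        rw [Finset.mul_sum, ← Finset.sum_add_distrib]
        exact Finset.sum_congr rfl fun g _ => by ring

theorem list_sum_le {A : ℕ} (c : ℕ → ℕ) : ∀ (rows : List ℕ), (∀ R ∈ rows, c R ≤ A) →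
    (rows.map c).sum ≤ rows.length * A
  | [], _ => by simp
  | R :: rows, h => by
    have h1 := list_sum_le c rows fun B hB => h B (List.mem_cons_of_mem _ hB)
    have h2 := h R (List.mem_cons_self ..)
    simp only [List.map_cons, List.sum_cons, List.length_cons]
    calc c R + (rows.map c).sum ≤ A + rows.length * A := by omega
      _ = (rows.length + 1) * A := by ring

theorem list_cast_mul (u v : ℕ → ℕ) (O : ℕ) : ∀ rows : List ℕ,
    ((rows.map (fun R => ((u R : ℤ) - O) * ((v R : ℤ) - O))).sum : ℤ) =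
      ((rows.map (fun R => u R * v R)).sum : ℕ) - O * ((rows.map u).sum : ℕ) -
        O * ((rows.map v).sum : ℕ) + rows.length * (O * O)
  | [] => by simp
  | R :: rows => by
    have h := list_cast_mul u v O rows
    simp only [List.map_cons, List.sum_cons, List.length_cons]
    rw [h]
    push_cast
    ring

theorem PP.ok_spec {p : PP} {r : ℕ} (h : p.ok r = true) :
    0 < p.b ∧ 0 < p.s ∧ 1 ≤ p.j ∧ p.j ≤ p.b ∧ p.q ≤ p.b ∧ p.v ≤ p.b ∧
    p.n * 2 ^ (p.j - 1) ≤ p.D ∧
    p.s * 2 ^ p.q + 2 * (p.O * (r * 2 ^ p.v)) + 2 ^ p.j < 2 ^ p.b ∧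
    p.s * p.F + r * (2 ^ p.v * 2 ^ p.v) + r * (p.O * p.O) + p.D + 2 ^ p.j < 2 ^ p.b := by
  unfold PP.ok at h
  simp only [Bool.and_eq_true, decide_eq_true_eq] at h
  obtain ⟨⟨⟨⟨⟨⟨⟨⟨h1, h2⟩, h3⟩, h4⟩, h5⟩, h6⟩, h7⟩, h8⟩, h9⟩ := h
  exact ⟨h1, h2, h3, h4, h5, h6, h7, h8, h9⟩

/-- The decomposition of one entry. -/
theorem entry_spec {p : PP} {rows : List ℕ} {Q : ℕ → ℕ} (hp : p.ok rows.length = true)
    (hfac : facCk p rows = true) {f : ℕ} (hf : f < p.n) {fs : List ℕ} (hfs : f ∈ fs)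
    (hblk : blkCk p rows Q fs = true) : ∃ y : ℕ → ℕ, (∀ g < p.n, y g < 2 ^ p.j) ∧
      ∀ g < p.n, (p.s : ℤ) * ((dgt p.b (Q f) g : ℤ) - p.F) =
        ((rows.map (fun R => ((dgt p.b R f : ℤ) - p.O) * ((dgt p.b R g : ℤ) - p.O))).sum : ℤ) +
        ((y g : ℤ) - 2 ^ (p.j - 1)) + (if g = f then (p.D : ℤ) else 0) := by
  obtain ⟨hb, hs, hj1, hjb, hqb, hvb, hD, hP, hN⟩ := PP.ok_spec hp
  obtain ⟨hrow, hQ, hQm⟩ := blkCk_spec hblk f hfs
  have hfac' := facCk_spec hb hvb hfac
  obtain ⟨Y, hY, hYt, hYm⟩ := rowCk_spec hrow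
  have hyd := digits_lt_of_land hb hjb hYm
  have hqd := digits_lt_of_land hb hqb hQm
  have hRn : ∀ R ∈ rows, R < 2 ^ (p.b * p.n) := fun R hR => (hfac' R hR).1
  -- digits of the sum of the rows
  have hS : sumr rows = ∑ g ∈ range p.n, (rows.map (fun R => dgt p.b R g)).sum * 2 ^ (p.b * g) := by
    rw [sumr_eq]
    have := list_expand (b := p.b) (n := p.n) (fun _ => 1) rows hRn
    simp only [one_mul, List.map_id'] at this
    exact this
  have hcle : ∀ g < p.n, (rows.map (fun R => dgt p.b R g)).sum ≤ rows.length * 2 ^ p.v :=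
    fun g hg => list_sum_le _ rows fun R hR => ((hfac' R hR).2 g hg).le
  have hc2 : rows.length * 2 ^ p.v < 2 ^ p.b ∨ p.O = 0 := by
    rcases Nat.eq_zero_or_pos p.O with h | h
    · exact Or.inr h
    · left
      have h9 : rows.length * 2 ^ p.v ≤ p.O * (rows.length * 2 ^ p.v) := Nat.le_mul_of_pos_left _ h
      have h10 := hP
      generalize p.O * (rows.length * 2 ^ p.v) = a1 at h9 h10
      generalize rows.length * 2 ^ p.v = a2 at h9 ⊢
      generalize p.s * 2 ^ p.q = a3 at h10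
      generalize 2 ^ p.j = a4 at h10
      generalize 2 ^ p.b = a5 at h10 ⊢
      omega
  have hcf : p.O * dgt p.b (sumr rows) f = p.O * (rows.map (fun R => dgt p.b R f)).sum := by
    rcases hc2 with hc2 | h0
    · congr 1
      rw [hS]
      exact dgt_of_sum (fun g hg => lt_of_le_of_lt (hcle g hg) hc2) hf
    · rw [h0, zero_mul, zero_mul]
  have hA := list_expand (b := p.b) (n := p.n) (fun R => dgt p.b R f) rows hRn
  have hU := uni_eq hb p.n
  have hQe := sum_dgt hQ
  have hYe := sum_dgt hYt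
  have h2f : (2 ^ (p.b * f) : ℕ) = ∑ g ∈ range p.n, (if g = f then 1 else 0) * 2 ^ (p.b * g) := by
    rw [Finset.sum_eq_single f]
    · rw [if_pos rfl, one_mul]
    · intro g _ hg
      rw [if_neg hg, zero_mul]
    · intro h
      exact absurd (Finset.mem_range.2 hf) h
  set K := p.s * p.F + rows.length * (p.O * p.O) with hK
  have hmain : ∑ g ∈ range p.n, (p.s * dgt p.b (Q f) g +
      (p.O * (rows.map (fun R => dgt p.b R f)).sum + 2 ^ (p.j - 1)) +
      p.O * (rows.map (fun R => dgt p.b R g)).sum) * 2 ^ (p.b * g) =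
      ∑ g ∈ range p.n, (dgt p.b Y g + (K + (rows.map (fun R => dgt p.b R f * dgt p.b R g)).sum +
        p.D * (if g = f then 1 else 0))) * 2 ^ (p.b * g) := by
    have e1 : p.s * Q f + (p.O * dgt p.b (sumr rows) f + 2 ^ (p.j - 1)) * uni p.b p.n +
        p.O * sumr rows = ∑ g ∈ range p.n, (p.s * dgt p.b (Q f) g +
      (p.O * (rows.map (fun R => dgt p.b R f)).sum + 2 ^ (p.j - 1)) +
      p.O * (rows.map (fun R => dgt p.b R g)).sum) * 2 ^ (p.b * g) := by
      rw [hcf, hU, hS]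
      conv_lhs => rw [← hQe]
      simp only [add_mul, Finset.sum_add_distrib, Finset.mul_sum, mul_assoc]
    have e2 : Y + (K * uni p.b p.n + (rows.map (fun R => dgt p.b R f * R)).sum +
        p.D * 2 ^ (p.b * f)) = ∑ g ∈ range p.n, (dgt p.b Y g +
        (K + (rows.map (fun R => dgt p.b R f * dgt p.b R g)).sum +
        p.D * (if g = f then 1 else 0))) * 2 ^ (p.b * g) := by
      rw [hU, hA, h2f]
      conv_lhs => rw [← hYe]
      simp only [add_mul, Finset.sum_add_distrib, Finset.mul_sum, mul_assoc]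
    rw [← e1, ← e2]
    exact hY
  have hz := digits_unique p.n (B := (2 : ℤ) ^ p.b) (fun g => ((p.s * dgt p.b (Q f) g +
      (p.O * (rows.map (fun R => dgt p.b R f)).sum + 2 ^ (p.j - 1)) +
      p.O * (rows.map (fun R => dgt p.b R g)).sum : ℕ) : ℤ) - ((dgt p.b Y g +
        (K + (rows.map (fun R => dgt p.b R f * dgt p.b R g)).sum +
        p.D * (if g = f then 1 else 0)) : ℕ) : ℤ)) ?_ ?_
  · refine ⟨fun g => dgt p.b Y g, fun g hg => hyd g hg, fun g hg => ?_⟩
    have h := hz g hg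
    rw [list_cast_mul (fun R => dgt p.b R f) (fun R => dgt p.b R g) p.O rows]
    rw [hK] at h
    push_cast at h ⊢
    split_ifs with hgf
    · rw [if_pos hgf] at h
      linarith
    · rw [if_neg hgf] at h
      linarith
  · intro g hg
    have b1 : dgt p.b (Q f) g ≤ 2 ^ p.q := (hqd g hg).le
    have b2 := hcle f hf
    have b3 := hcle g hg
    have b4 : dgt p.b Y g < 2 ^ p.j := hyd g hg
    have b5 : (rows.map (fun R => dgt p.b R f * dgt p.b R g)).sum ≤
        rows.length * (2 ^ p.v * 2 ^ p.v) :=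
      list_sum_le _ rows fun R hR => Nat.mul_le_mul ((hfac' R hR).2 f hf).le ((hfac' R hR).2 g hg).le
    have b6 : 2 ^ (p.j - 1) ≤ 2 ^ p.j := Nat.pow_le_pow_right (by norm_num) (by omega)
    have P1 : p.s * dgt p.b (Q f) g +
      (p.O * (rows.map (fun R => dgt p.b R f)).sum + 2 ^ (p.j - 1)) +
      p.O * (rows.map (fun R => dgt p.b R g)).sum < 2 ^ p.b := by
      have c1 := Nat.mul_le_mul_left p.s b1
      have c2 := Nat.mul_le_mul_left p.O b2
      have c3 := Nat.mul_le_mul_left p.O b3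
      omega
    have N1 : dgt p.b Y g + (K + (rows.map (fun R => dgt p.b R f * dgt p.b R g)).sum +
        p.D * (if g = f then 1 else 0)) < 2 ^ p.b := by
      have c1 : p.D * (if g = f then 1 else 0) ≤ p.D := by
        split_ifs <;> omega
      omega
    have P1' : ((p.s * dgt p.b (Q f) g +
      (p.O * (rows.map (fun R => dgt p.b R f)).sum + 2 ^ (p.j - 1)) +
      p.O * (rows.map (fun R => dgt p.b R g)).sum : ℕ) : ℤ) < 2 ^ p.b := by exact_mod_cast P1
    have N1' : ((dgt p.b Y g + (K + (rows.map (fun R => dgt p.b R f * dgt p.b R g)).sum +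
        p.D * (if g = f then 1 else 0)) : ℕ) : ℤ) < 2 ^ p.b := by exact_mod_cast N1
    have P0 := Int.natCast_nonneg (p.s * dgt p.b (Q f) g +
      (p.O * (rows.map (fun R => dgt p.b R f)).sum + 2 ^ (p.j - 1)) +
      p.O * (rows.map (fun R => dgt p.b R g)).sum)
    have N0 := Int.natCast_nonneg (dgt p.b Y g +
      (K + (rows.map (fun R => dgt p.b R f * dgt p.b R g)).sum +
        p.D * (if g = f then 1 else 0)))
    rw [abs_lt]
    constructor <;> linarith
  · simp only [sub_mul, Finset.sum_sub_distrib]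
    rw [sub_eq_zero]
    have h : ((∑ g ∈ range p.n, (p.s * dgt p.b (Q f) g +
      (p.O * (rows.map (fun R => dgt p.b R f)).sum + 2 ^ (p.j - 1)) +
      p.O * (rows.map (fun R => dgt p.b R g)).sum) * 2 ^ (p.b * g) : ℕ) : ℤ) =
      ((∑ g ∈ range p.n, (dgt p.b Y g + (K + (rows.map (fun R => dgt p.b R f * dgt p.b R g)).sum +
        p.D * (if g = f then 1 else 0))) * 2 ^ (p.b * g) : ℕ) : ℤ) := by rw [hmain]
    rw [Nat.cast_sum, Nat.cast_sum] at h
    have e : ∀ c : ℕ → ℕ, ∑ g ∈ range p.n, ((c g * 2 ^ (p.b * g) : ℕ) : ℤ) =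
        ∑ g ∈ range p.n, ((c g : ℕ) : ℤ) * ((2 : ℤ) ^ p.b) ^ g := by
      intro c
      refine Finset.sum_congr rfl fun g _ => ?_
      rw [pow_mul]
      push_cast
      ring
    rw [e, e] at h
    exact h

theorem list_sq_nonneg (n : ℕ) (u : ℕ → ℕ → ℝ) (x : ℕ → ℝ) : ∀ rows : List ℕ,
    0 ≤ ∑ f ∈ range n, ∑ g ∈ range n, ((rows.map (fun R => u R f * u R g)).sum) * x f * x g
  | [] => by simp
  | R :: rows => by
    have h := list_sq_nonneg n u x rows
    simp only [List.map_cons, List.sum_cons, add_mul, Finset.sum_add_distrib]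
    have h2 : ∑ f ∈ range n, ∑ g ∈ range n, u R f * u R g * x f * x g =
        (∑ f ∈ range n, u R f * x f) ^ 2 := by
      rw [sq, Finset.sum_mul_sum]
      exact Finset.sum_congr rfl fun f _ => Finset.sum_congr rfl fun g _ => by ring
    rw [h2]
    positivity

/-- The main theorem: positive semidefiniteness from the checks. -/
theorem psd_main {p : PP} {rows : List ℕ} {Q : ℕ → ℕ} (hp : p.ok rows.length = true)
    (hfac : facCk p rows = true)
    (hblk : ∀ f < p.n, ∃ fs : List ℕ, f ∈ fs ∧ blkCk p rows Q fs = true) (x : ℕ → ℝ) :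
    0 ≤ ∑ f ∈ range p.n, ∑ g ∈ range p.n,
      ((((dgt p.b (Q f) g : ℤ) - p.F : ℤ) : ℝ)) * x f * x g := by
  obtain ⟨hb, hs, hj1, hjb, hqb, hvb, hD, hP, hN⟩ := PP.ok_spec hp
  have hsR : (0 : ℝ) < p.s := by exact_mod_cast hs
  refine nonneg_of_mul_nonneg_right (a := (p.s : ℝ)) ?_ hsR
  have hex : ∀ f : ℕ, ∃ y : ℕ → ℕ, f < p.n → (∀ g < p.n, y g < 2 ^ p.j) ∧
      ∀ g < p.n, (p.s : ℤ) * ((dgt p.b (Q f) g : ℤ) - p.F) =
        ((rows.map (fun R => ((dgt p.b R f : ℤ) - p.O) * ((dgt p.b R g : ℤ) - p.O))).sum : ℤ) +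
        ((y g : ℤ) - 2 ^ (p.j - 1)) + (if g = f then (p.D : ℤ) else 0) := by
    intro f
    by_cases hf : f < p.n
    · obtain ⟨fs, hfs, hb⟩ := hblk f hf
      obtain ⟨y, hy⟩ := entry_spec hp hfac hf hfs hb
      exact ⟨y, fun _ => hy⟩
    · exact ⟨fun _ => 0, fun h => absurd h hf⟩
  choose y hy using hex
  set e : ℝ := 2 ^ (p.j - 1) with he
  have he2 : (2 : ℝ) ^ p.j = 2 * e := by
    rw [he, ← pow_succ']
    congr 1
    omega
  have hcast : ∀ (l : List ℕ) (f g : ℕ), ((((l.map (fun R => ((dgt p.b R f : ℤ) - p.O) *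
      ((dgt p.b R g : ℤ) - p.O))).sum : ℤ)) : ℝ) =
      (l.map (fun R => ((dgt p.b R f : ℝ) - p.O) * ((dgt p.b R g : ℝ) - p.O))).sum := by
    intro l f g
    induction l with
    | nil => simp
    | cons R l ih =>
      simp only [List.map_cons, List.sum_cons]
      rw [Int.cast_add, ih]
      push_cast
      rfl
  have hpt : ∀ f ∈ range p.n, ∀ g ∈ range p.n,
      (p.s : ℝ) * ((((dgt p.b (Q f) g : ℤ) - p.F : ℤ) : ℝ) * x f * x g) =
      (rows.map (fun R => ((dgt p.b R f : ℝ) - p.O) * ((dgt p.b R g : ℝ) - p.O))).sum * x f * x g +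
      ((y f g : ℝ) - e) * x f * x g + (if g = f then (p.D : ℝ) * x f * x g else 0) := by
    intro f hf g hg
    have h := (hy f (Finset.mem_range.1 hf)).2 g (Finset.mem_range.1 hg)
    have h' : (((p.s : ℤ) * ((dgt p.b (Q f) g : ℤ) - p.F) : ℤ) : ℝ) =
        ((((rows.map (fun R => ((dgt p.b R f : ℤ) - p.O) * ((dgt p.b R g : ℤ) - p.O))).sum : ℤ) +
        ((y f g : ℤ) - 2 ^ (p.j - 1)) + (if g = f then (p.D : ℤ) else 0) : ℤ) : ℝ) := by rw [h]
    rw [Int.cast_add, Int.cast_add, hcast] at h'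
    have h3 : (p.s : ℝ) * (((dgt p.b (Q f) g : ℤ) - p.F : ℤ) : ℝ) =
        (rows.map (fun R => ((dgt p.b R f : ℝ) - p.O) * ((dgt p.b R g : ℝ) - p.O))).sum +
        ((y f g : ℝ) - e) + (if g = f then (p.D : ℝ) else 0) := by
      rw [he]
      split_ifs with hgf
      · rw [if_pos hgf] at h'
        push_cast at h' ⊢
        linarith
      · rw [if_neg hgf] at h'
        push_cast at h' ⊢
        linarith
    calc (p.s : ℝ) * ((((dgt p.b (Q f) g : ℤ) - p.F : ℤ) : ℝ) * x f * x g)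
        = ((p.s : ℝ) * (((dgt p.b (Q f) g : ℤ) - p.F : ℤ) : ℝ)) * x f * x g := by ring
      _ = _ := by
        rw [h3]
        split_ifs <;> ring
  have hsum : (p.s : ℝ) * ∑ f ∈ range p.n, ∑ g ∈ range p.n,
      ((((dgt p.b (Q f) g : ℤ) - p.F : ℤ) : ℝ)) * x f * x g =
      (∑ f ∈ range p.n, ∑ g ∈ range p.n,
        (rows.map (fun R => ((dgt p.b R f : ℝ) - p.O) * ((dgt p.b R g : ℝ) - p.O))).sum *
          x f * x g) +
      (∑ f ∈ range p.n, ∑ g ∈ range p.n, ((y f g : ℝ) - e) * x f * x g) +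
      ∑ f ∈ range p.n, (p.D : ℝ) * x f * x f := by
    rw [Finset.mul_sum, ← Finset.sum_add_distrib, ← Finset.sum_add_distrib]
    refine Finset.sum_congr rfl fun f hf => ?_
    rw [Finset.mul_sum, Finset.sum_congr rfl (hpt f hf), Finset.sum_add_distrib,
      Finset.sum_add_distrib, Finset.sum_ite_eq', if_pos hf]
  rw [hsum]
  have h1 := list_sq_nonneg p.n (fun R f => (dgt p.b R f : ℝ) - p.O) x rows
  have h2 : -(e * (∑ f ∈ range p.n, |x f|) ^ 2) ≤
      ∑ f ∈ range p.n, ∑ g ∈ range p.n, ((y f g : ℝ) - e) * x f * x g := by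
    rw [sq, Finset.sum_mul_sum, Finset.mul_sum, ← Finset.sum_neg_distrib]
    refine Finset.sum_le_sum fun f hf => ?_
    rw [Finset.mul_sum, ← Finset.sum_neg_distrib]
    refine Finset.sum_le_sum fun g hg => ?_
    have hyb := (hy f (Finset.mem_range.1 hf)).1 g (Finset.mem_range.1 hg)
    have hyb' : (y f g : ℝ) < 2 * e := by
      rw [← he2]
      exact_mod_cast hyb
    have hy0 : (0 : ℝ) ≤ y f g := Nat.cast_nonneg _
    have habs : |(y f g : ℝ) - e| ≤ e := by
      rw [abs_le]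
      constructor <;> linarith
    have h3 : |((y f g : ℝ) - e) * x f * x g| ≤ e * (|x f| * |x g|) := by
      rw [abs_mul, abs_mul, mul_assoc]
      exact mul_le_mul_of_nonneg_right habs (by positivity)
    have := neg_abs_le (((y f g : ℝ) - e) * x f * x g)
    linarith
  have h3 : (∑ f ∈ range p.n, |x f|) ^ 2 ≤ p.n * ∑ f ∈ range p.n, x f * x f := by
    have h := sq_sum_le_card_mul_sum_sq (s := range p.n) (f := fun f => |x f|)
    simp only [Finset.card_range, sq_abs] at h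
    calc _ ≤ (p.n : ℝ) * ∑ f ∈ range p.n, x f ^ 2 := h
      _ = _ := by simp only [sq]
  have h4 : ∑ f ∈ range p.n, (p.D : ℝ) * x f * x f = p.D * ∑ f ∈ range p.n, x f * x f := by
    rw [Finset.mul_sum]
    exact Finset.sum_congr rfl fun f _ => by ring
  have h5 : (p.n : ℝ) * e ≤ p.D := by
    rw [he]
    exact_mod_cast hD
  have h6 : 0 ≤ ∑ f ∈ range p.n, x f * x f := Finset.sum_nonneg fun f _ => mul_self_nonneg _
  have he0 : 0 ≤ e := by rw [he]; positivity
  rw [h4]
  have h7 : e * (∑ f ∈ range p.n, |x f|) ^ 2 ≤ p.D * ∑ f ∈ range p.n, x f * x f := by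
    calc e * (∑ f ∈ range p.n, |x f|) ^ 2 ≤ e * (p.n * ∑ f ∈ range p.n, x f * x f) :=
          mul_le_mul_of_nonneg_left h3 he0
      _ = (p.n * e) * ∑ f ∈ range p.n, x f * x f := by ring
      _ ≤ _ := mul_le_mul_of_nonneg_right h5 h6
  linarith

end KC
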