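import Pool.Agent.Helper25.K4.Psd

/-!
# Kernel check of positive semidefiniteness with a prescribed null space

The matrix `q` (entries `dgt b (Q f) g - F`) kills the integer vectors `k_l` given by the packed
rows `ker`, and `s q + C ∑ k_l k_lᵀ = Wᵀ W + E` with `E` diagonally dominant.
-/

set_option autoImplicit false

open Finset

namespace KC

/-- The parameters of the null vectors. -/
structure KP where
  /-- offset of the entries -/
  O : ℕ
  /-- coefficient -/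
  C : ℕ
  /-- exponent of the bound of the entries with offset -/
  v : ℕ

/-- The numerical conditions. -/
def okK (p : PP) (k : KP) (r t : ℕ) : Bool :=
  decide (0 < p.b) && decide (0 < p.s) && decide (1 ≤ p.j) && decide (p.j ≤ p.b) &&
  decide (p.q ≤ p.b) && decide (p.v ≤ p.b) && decide (k.v ≤ p.b) &&
  decide (p.n * 2 ^ (p.j - 1) ≤ p.D) &&
  decide (r * 2 ^ p.v < 2 ^ p.b) && decide (t * 2 ^ k.v < 2 ^ p.b) &&
  decide (p.s * 2 ^ p.q + k.C * (t * (2 ^ k.v * 2 ^ k.v) + t * (k.O * k.O)) +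
    2 * (p.O * (r * 2 ^ p.v)) + 2 ^ p.j < 2 ^ p.b) &&
  decide (p.s * p.F + r * (2 ^ p.v * 2 ^ p.v) + r * (p.O * p.O) +
    2 * (k.C * (k.O * (t * 2 ^ k.v))) + p.D + 2 ^ p.j < 2 ^ p.b)

/-- The check of row `f`. -/
noncomputable def rowCkK (p : PP) (k : KP) (U S T HM K1 K2 top : ℕ) (Q : ℕ) (rows ker : List ℕ)
    (f : ℕ) : Bool :=
  fc (Nat.mul p.b f) fun sh =>
  fc (Nat.add (Nat.add (Nat.mul p.s Q) (Nat.mul k.C (dotr sh (Nat.sub (Nat.pow 2 p.b) 1) ker)))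
      (Nat.add (Nat.mul (Nat.add (Nat.mul p.O
      (Nat.land (Nat.shiftRight S sh) (Nat.sub (Nat.pow 2 p.b) 1)))
        (Nat.add K2 (Nat.pow 2 (Nat.sub p.j 1)))) U) (Nat.mul p.O S))) fun lhs =>
  fc (Nat.add (Nat.add (Nat.mul (Nat.add K1 (Nat.mul k.C (Nat.mul k.O
      (Nat.land (Nat.shiftRight T sh) (Nat.sub (Nat.pow 2 p.b) 1))))) U)
      (dotr sh (Nat.sub (Nat.pow 2 p.b) 1) rows))
      (Nat.add (Nat.mul k.C (Nat.mul k.O T)) (Nat.mul p.D (Nat.shiftLeft 1 sh)))) fun rhs =>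
  and (Nat.ble rhs lhs) (and (Nat.ble (Nat.succ (Nat.sub lhs rhs)) top)
    (Nat.beq (Nat.land (Nat.sub lhs rhs) HM) 0))

/-- Check of a block of rows of the matrix. -/
noncomputable def blkCkK (p : PP) (k : KP) (rows ker : List ℕ) (Q : ℕ → ℕ) (fs : List ℕ) : Bool :=
  fc (uni p.b p.n) fun U =>
  fc (sumr rows) fun S =>
  fc (sumr ker) fun T =>
  fc (Nat.mul (Nat.sub (Nat.pow 2 p.b) (Nat.pow 2 p.j)) U) fun HM =>
  fc (Nat.mul (Nat.sub (Nat.pow 2 p.b) (Nat.pow 2 p.q)) U) fun HQ =>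
  fc (Nat.add (Nat.mul p.s p.F) (Nat.mul (List.length rows) (Nat.mul p.O p.O))) fun K1 =>
  fc (Nat.mul k.C (Nat.mul (List.length ker) (Nat.mul k.O k.O))) fun K2 =>
  fc (Nat.pow 2 (Nat.mul p.b p.n)) fun top =>
  List.rec (motive := fun _ => Bool) true
    (fun f _ ih => and (fc (Q f) fun q => and (rowCkK p k U S T HM K1 K2 top q rows ker f)
      (and (Nat.ble (Nat.succ q) top) (Nat.beq (Nat.land q HQ) 0))) ih) fs

theorem blkCkK_spec {p : PP} {k : KP} {rows ker : List ℕ} {Q : ℕ → ℕ} {fs : List ℕ}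
    (h : blkCkK p k rows ker Q fs = true) : ∀ f ∈ fs,
    rowCkK p k (uni p.b p.n) (sumr rows) (sumr ker) ((2 ^ p.b - 2 ^ p.j) * uni p.b p.n)
      (p.s * p.F + rows.length * (p.O * p.O)) (k.C * (ker.length * (k.O * k.O)))
      (2 ^ (p.b * p.n)) (Q f) rows ker f = true ∧
      Q f < 2 ^ (p.b * p.n) ∧ Nat.land (Q f) ((2 ^ p.b - 2 ^ p.q) * uni p.b p.n) = 0 := by
  unfold blkCkK at h
  rw [fc_eq, fc_eq, fc_eq, fc_eq, fc_eq, fc_eq, fc_eq, fc_eq] at h
  revert h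
  induction fs with
  | nil => intro _ f hf; exact absurd hf (by simp)
  | cons a fs ih =>
    intro h
    have h' := h
    change (and (fc (Q a) fun q => and (rowCkK p k (uni p.b p.n) (sumr rows) (sumr ker)
      ((2 ^ p.b - 2 ^ p.j) * uni p.b p.n) (p.s * p.F + rows.length * (p.O * p.O))
      (k.C * (ker.length * (k.O * k.O)))
      (2 ^ (p.b * p.n)) q rows ker a) (and (Nat.ble (Nat.succ q) (2 ^ (p.b * p.n)))
      (Nat.beq (Nat.land q ((2 ^ p.b - 2 ^ p.q) * uni p.b p.n)) 0))) _) = true at h'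
    rw [fc_eq, Bool.and_eq_true, Bool.and_eq_true, Bool.and_eq_true] at h'
    obtain ⟨⟨h1, h2, h3⟩, h4⟩ := h'
    intro f hf
    rcases List.mem_cons.1 hf with rfl | hf
    · exact ⟨h1, Nat.le_of_ble_eq_true h2, Nat.eq_of_beq_eq_true h3⟩
    · exact ih h4 f hf

theorem rowCkK_spec {p : PP} {k : KP} {U S T HM K1 K2 top Q f : ℕ} {rows ker : List ℕ}
    (h : rowCkK p k U S T HM K1 K2 top Q rows ker f = true) :
    ∃ Y : ℕ, p.s * Q + k.C * (ker.map (fun R => dgt p.b R f * R)).sum +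
        ((p.O * dgt p.b S f + (K2 + 2 ^ (p.j - 1))) * U + p.O * S) =
      Y + ((K1 + k.C * (k.O * dgt p.b T f)) * U + (rows.map (fun R => dgt p.b R f * R)).sum +
        (k.C * (k.O * T) + p.D * 2 ^ (p.b * f))) ∧
      Y < top ∧ Nat.land Y HM = 0 := by
  unfold rowCkK at h
  rw [fc_eq, fc_eq, fc_eq] at h
  rw [Bool.and_eq_true, Bool.and_eq_true] at h
  obtain ⟨h1, h2, h3⟩ := h
  have e1 : Nat.add (Nat.add (Nat.mul p.s Q) (Nat.mul k.C (dotr (Nat.mul p.b f)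
      (Nat.sub (Nat.pow 2 p.b) 1) ker)))
      (Nat.add (Nat.mul (Nat.add (Nat.mul p.O
      (Nat.land (Nat.shiftRight S (Nat.mul p.b f)) (Nat.sub (Nat.pow 2 p.b) 1)))
        (Nat.add K2 (Nat.pow 2 (Nat.sub p.j 1)))) U) (Nat.mul p.O S)) =
      p.s * Q + k.C * (ker.map (fun R => dgt p.b R f * R)).sum +
        ((p.O * dgt p.b S f + (K2 + 2 ^ (p.j - 1))) * U + p.O * S) := by
    rw [← dgt_eq, ← dotr_eq]; rfl
  have e2 : Nat.add (Nat.add (Nat.mul (Nat.add K1 (Nat.mul k.C (Nat.mul k.O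
      (Nat.land (Nat.shiftRight T (Nat.mul p.b f)) (Nat.sub (Nat.pow 2 p.b) 1))))) U)
      (dotr (Nat.mul p.b f) (Nat.sub (Nat.pow 2 p.b) 1) rows))
      (Nat.add (Nat.mul k.C (Nat.mul k.O T)) (Nat.mul p.D (Nat.shiftLeft 1 (Nat.mul p.b f)))) =
      (K1 + k.C * (k.O * dgt p.b T f)) * U + (rows.map (fun R => dgt p.b R f * R)).sum +
        (k.C * (k.O * T) + p.D * 2 ^ (p.b * f)) := by
    rw [← dgt_eq, ← dotr_eq]
    change (K1 + k.C * (k.O * Nat.land (Nat.shiftRight T (Nat.mul p.b f)) (2 ^ p.b - 1))) * U +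
      dotr (Nat.mul p.b f) (2 ^ p.b - 1) rows + (k.C * (k.O * T) + p.D * (1 <<< (p.b * f))) = _
    rw [Nat.one_shiftLeft]
  rw [e1, e2] at h1 h2 h3
  have h1' := Nat.le_of_ble_eq_true h1
  refine ⟨_, ?_, Nat.le_of_ble_eq_true h2, Nat.eq_of_beq_eq_true h3⟩
  exact (Nat.sub_add_cancel h1').symm

theorem okK_spec {p : PP} {k : KP} {r t : ℕ} (h : okK p k r t = true) :
    0 < p.b ∧ 0 < p.s ∧ 1 ≤ p.j ∧ p.j ≤ p.b ∧ p.q ≤ p.b ∧ p.v ≤ p.b ∧ k.v ≤ p.b ∧
    p.n * 2 ^ (p.j - 1) ≤ p.D ∧ r * 2 ^ p.v < 2 ^ p.b ∧ t * 2 ^ k.v < 2 ^ p.b ∧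
    p.s * 2 ^ p.q + k.C * (t * (2 ^ k.v * 2 ^ k.v) + t * (k.O * k.O)) +
      2 * (p.O * (r * 2 ^ p.v)) + 2 ^ p.j < 2 ^ p.b ∧
    p.s * p.F + r * (2 ^ p.v * 2 ^ p.v) + r * (p.O * p.O) +
      2 * (k.C * (k.O * (t * 2 ^ k.v))) + p.D + 2 ^ p.j < 2 ^ p.b := by
  unfold okK at h
  simp only [Bool.and_eq_true, decide_eq_true_eq] at h
  obtain ⟨⟨⟨⟨⟨⟨⟨⟨⟨⟨⟨h1, h2⟩, h3⟩, h4⟩, h5⟩, h6⟩, h7⟩, h8⟩, h9⟩, h10⟩, h11⟩, h12⟩ := h
  exact ⟨h1, h2, h3, h4, h5, h6, h7, h8, h9, h10, h11, h12⟩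

/-- The rows have small entries. -/
theorem facCk_spec' {p : PP} {v O : ℕ} {rows : List ℕ} (hb : 0 < p.b) (hv : v ≤ p.b)
    (h : facCk { p with v := v, O := O } rows = true) :
    ∀ R ∈ rows, R < 2 ^ (p.b * p.n) ∧ ∀ g < p.n, dgt p.b R g < 2 ^ v :=
  facCk_spec (p := { p with v := v, O := O }) hb hv h

/-- The sum of the rows in digits. -/
theorem sumr_dgt {b n B : ℕ} {rows : List ℕ} (hR : ∀ R ∈ rows, R < 2 ^ (b * n))
    (hB : ∀ R ∈ rows, ∀ g < n, dgt b R g ≤ B) (hlt : rows.length * B < 2 ^ b) {f : ℕ}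
    (hf : f < n) : dgt b (sumr rows) f = (rows.map (fun R => dgt b R f)).sum := by
  have h1 := list_expand (b := b) (n := n) (fun _ => 1) rows hR
  simp only [one_mul, List.map_id'] at h1
  rw [sumr_eq, h1]
  exact dgt_of_sum (fun g hg => lt_of_le_of_lt (list_sum_le _ rows fun R hR' => hB R hR' g hg) hlt) hf

/-- The decomposition of one entry. -/
theorem entryK_spec {p : PP} {k : KP} {rows ker : List ℕ} {Q : ℕ → ℕ}
    (hp : okK p k rows.length ker.length = true)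
    (hfac : facCk p rows = true) (hker : facCk { p with v := k.v, O := k.O } ker = true)
    {f : ℕ} (hf : f < p.n) {fs : List ℕ} (hfs : f ∈ fs)
    (hblk : blkCkK p k rows ker Q fs = true) : ∃ y : ℕ → ℕ, (∀ g < p.n, y g < 2 ^ p.j) ∧
      ∀ g < p.n, (p.s : ℤ) * ((dgt p.b (Q f) g : ℤ) - p.F) +
        k.C * ((ker.map (fun R => ((dgt p.b R f : ℤ) - k.O) * ((dgt p.b R g : ℤ) - k.O))).sum : ℤ) =
        ((rows.map (fun R => ((dgt p.b R f : ℤ) - p.O) * ((dgt p.b R g : ℤ) - p.O))).sum : ℤ) +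
        ((y g : ℤ) - 2 ^ (p.j - 1)) + (if g = f then (p.D : ℤ) else 0) := by
  obtain ⟨hb, hs, hj1, hjb, hqb, hvb, hkb, hD, hr, ht, hP, hN⟩ := okK_spec hp
  obtain ⟨hrow, hQ, hQm⟩ := blkCkK_spec hblk f hfs
  have hfac' := facCk_spec hb hvb hfac
  have hker' := facCk_spec' hb hkb hker
  obtain ⟨Y, hY, hYt, hYm⟩ := rowCkK_spec hrow
  have hyd := digits_lt_of_land hb hjb hYm
  have hqd := digits_lt_of_land hb hqb hQm
  have hRn : ∀ R ∈ rows, R < 2 ^ (p.b * p.n) := fun R hR => (hfac' R hR).1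
  have hKn : ∀ R ∈ ker, R < 2 ^ (p.b * p.n) := fun R hR => (hker' R hR).1
  have hS : sumr rows = ∑ g ∈ range p.n, (rows.map (fun R => dgt p.b R g)).sum * 2 ^ (p.b * g) := by
    rw [sumr_eq]
    have := list_expand (b := p.b) (n := p.n) (fun _ => 1) rows hRn
    simp only [one_mul, List.map_id'] at this
    exact this
  have hT : sumr ker = ∑ g ∈ range p.n, (ker.map (fun R => dgt p.b R g)).sum * 2 ^ (p.b * g) := by
    rw [sumr_eq]
    have := list_expand (b := p.b) (n := p.n) (fun _ => 1) ker hKn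
    simp only [one_mul, List.map_id'] at this
    exact this
  have hcS := sumr_dgt hRn (fun R hR g hg => ((hfac' R hR).2 g hg).le) hr hf
  have hcT := sumr_dgt hKn (fun R hR g hg => ((hker' R hR).2 g hg).le) ht hf
  have hA := list_expand (b := p.b) (n := p.n) (fun R => dgt p.b R f) rows hRn
  have hB := list_expand (b := p.b) (n := p.n) (fun R => dgt p.b R f) ker hKn
  have hU := uni_eq hb p.n
  have hQe := sum_dgt hQ
  have hYe := sum_dgt hYt
  have h2f : (2 ^ (p.b * f) : ℕ) = ∑ g ∈ range p.n, (if g = f then 1 else 0) * 2 ^ (p.b * g) := by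
    rw [Finset.sum_eq_single f]
    · rw [if_pos rfl, one_mul]
    · intro g _ hg
      rw [if_neg hg, zero_mul]
    · intro h
      exact absurd (Finset.mem_range.2 hf) h
  set K1 := p.s * p.F + rows.length * (p.O * p.O) with hK1
  set K2 := k.C * (ker.length * (k.O * k.O)) with hK2
  set cR : ℕ → ℕ := fun g => (rows.map (fun R => dgt p.b R g)).sum with hcR
  set cK : ℕ → ℕ := fun g => (ker.map (fun R => dgt p.b R g)).sum with hcK
  set aR : ℕ → ℕ := fun g => (rows.map (fun R => dgt p.b R f * dgt p.b R g)).sum with haR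
  set aK : ℕ → ℕ := fun g => (ker.map (fun R => dgt p.b R f * dgt p.b R g)).sum with haK
  have hmain : ∑ g ∈ range p.n, (p.s * dgt p.b (Q f) g + k.C * aK g +
      ((p.O * cR f + (K2 + 2 ^ (p.j - 1))) + p.O * cR g)) * 2 ^ (p.b * g) =
      ∑ g ∈ range p.n, (dgt p.b Y g + ((K1 + k.C * (k.O * cK f)) + aR g +
        (k.C * (k.O * cK g) + p.D * (if g = f then 1 else 0)))) * 2 ^ (p.b * g) := by
    have e1 : p.s * Q f + k.C * (ker.map (fun R => dgt p.b R f * R)).sum +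
        ((p.O * dgt p.b (sumr rows) f + (K2 + 2 ^ (p.j - 1))) * uni p.b p.n + p.O * sumr rows) =
        ∑ g ∈ range p.n, (p.s * dgt p.b (Q f) g + k.C * aK g +
      ((p.O * cR f + (K2 + 2 ^ (p.j - 1))) + p.O * cR g)) * 2 ^ (p.b * g) := by
      rw [hcS, hU, hS, hB]
      conv_lhs => rw [← hQe]
      simp only [add_mul, Finset.sum_add_distrib, Finset.mul_sum, mul_assoc, haK, hcR]
    have e2 : Y + ((K1 + k.C * (k.O * dgt p.b (sumr ker) f)) * uni p.b p.n +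
        (rows.map (fun R => dgt p.b R f * R)).sum +
        (k.C * (k.O * sumr ker) + p.D * 2 ^ (p.b * f))) =
        ∑ g ∈ range p.n, (dgt p.b Y g + ((K1 + k.C * (k.O * cK f)) + aR g +
        (k.C * (k.O * cK g) + p.D * (if g = f then 1 else 0)))) * 2 ^ (p.b * g) := by
      rw [hcT, hU, hT, hA, h2f]
      conv_lhs => rw [← hYe]
      simp only [add_mul, Finset.sum_add_distrib, Finset.mul_sum, mul_assoc, haR, hcK]
    rw [← e1, ← e2]
    exact hY
  have hz := digits_unique p.n (B := (2 : ℤ) ^ p.b) (fun g => ((p.s * dgt p.b (Q f) g +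
      k.C * aK g + ((p.O * cR f + (K2 + 2 ^ (p.j - 1))) + p.O * cR g) : ℕ) : ℤ) -
      ((dgt p.b Y g + ((K1 + k.C * (k.O * cK f)) + aR g +
        (k.C * (k.O * cK g) + p.D * (if g = f then 1 else 0))) : ℕ) : ℤ)) ?_ ?_
  · refine ⟨fun g => dgt p.b Y g, fun g hg => hyd g hg, fun g hg => ?_⟩
    have h := hz g hg
    rw [list_cast_mul (fun R => dgt p.b R f) (fun R => dgt p.b R g) p.O rows,
      list_cast_mul (fun R => dgt p.b R f) (fun R => dgt p.b R g) k.O ker]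
    change (p.s : ℤ) * ((dgt p.b (Q f) g : ℤ) - p.F) + k.C * ((aK g : ℕ) - k.O * (cK f : ℕ) -
      k.O * (cK g : ℕ) + ker.length * (k.O * k.O)) = (aR g : ℕ) - p.O * (cR f : ℕ) -
      p.O * (cR g : ℕ) + rows.length * (p.O * p.O) + ((dgt p.b Y g : ℤ) - 2 ^ (p.j - 1)) +
      (if g = f then (p.D : ℤ) else 0)
    rw [hK1, hK2] at h
    push_cast at h ⊢
    split_ifs with hgf
    · rw [if_pos hgf] at h
      linarith
    · rw [if_neg hgf] at h
      linarith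
  · intro g hg
    have b1 : dgt p.b (Q f) g ≤ 2 ^ p.q := (hqd g hg).le
    have b2 : cR f ≤ rows.length * 2 ^ p.v :=
      list_sum_le _ rows fun R hR => ((hfac' R hR).2 f hf).le
    have b3 : cR g ≤ rows.length * 2 ^ p.v :=
      list_sum_le _ rows fun R hR => ((hfac' R hR).2 g hg).le
    have d2 : cK f ≤ ker.length * 2 ^ k.v :=
      list_sum_le _ ker fun R hR => ((hker' R hR).2 f hf).le
    have d3 : cK g ≤ ker.length * 2 ^ k.v :=
      list_sum_le _ ker fun R hR => ((hker' R hR).2 g hg).le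
    have b4 : dgt p.b Y g < 2 ^ p.j := hyd g hg
    have b5 : aR g ≤ rows.length * (2 ^ p.v * 2 ^ p.v) :=
      list_sum_le _ rows fun R hR => Nat.mul_le_mul ((hfac' R hR).2 f hf).le ((hfac' R hR).2 g hg).le
    have d5 : aK g ≤ ker.length * (2 ^ k.v * 2 ^ k.v) :=
      list_sum_le _ ker fun R hR => Nat.mul_le_mul ((hker' R hR).2 f hf).le ((hker' R hR).2 g hg).le
    have b6 : 2 ^ (p.j - 1) ≤ 2 ^ p.j := Nat.pow_le_pow_right (by norm_num) (by omega)
    have P1 : p.s * dgt p.b (Q f) g + k.C * aK g +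
        ((p.O * cR f + (K2 + 2 ^ (p.j - 1))) + p.O * cR g) < 2 ^ p.b := by
      have c1 := Nat.mul_le_mul_left p.s b1
      have c2 := Nat.mul_le_mul_left p.O b2
      have c3 := Nat.mul_le_mul_left p.O b3
      have c4 := Nat.mul_le_mul_left k.C d5
      have c5 : k.C * (ker.length * (2 ^ k.v * 2 ^ k.v) + ker.length * (k.O * k.O)) =
        k.C * (ker.length * (2 ^ k.v * 2 ^ k.v)) + K2 := by rw [hK2]; ring
      rw [c5] at hP
      omega
    have N1 : dgt p.b Y g + ((K1 + k.C * (k.O * cK f)) + aR g +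
        (k.C * (k.O * cK g) + p.D * (if g = f then 1 else 0))) < 2 ^ p.b := by
      have c1 : p.D * (if g = f then 1 else 0) ≤ p.D := by
        split_ifs <;> omega
      have c2 := Nat.mul_le_mul_left k.C (Nat.mul_le_mul_left k.O d2)
      have c3 := Nat.mul_le_mul_left k.C (Nat.mul_le_mul_left k.O d3)
      omega
    have P1' : ((p.s * dgt p.b (Q f) g + k.C * aK g +
        ((p.O * cR f + (K2 + 2 ^ (p.j - 1))) + p.O * cR g) : ℕ) : ℤ) < 2 ^ p.b := by
      exact_mod_cast P1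
    have N1' : ((dgt p.b Y g + ((K1 + k.C * (k.O * cK f)) + aR g +
        (k.C * (k.O * cK g) + p.D * (if g = f then 1 else 0))) : ℕ) : ℤ) < 2 ^ p.b := by
      exact_mod_cast N1
    have P0 := Int.natCast_nonneg (p.s * dgt p.b (Q f) g + k.C * aK g +
        ((p.O * cR f + (K2 + 2 ^ (p.j - 1))) + p.O * cR g))
    have N0 := Int.natCast_nonneg (dgt p.b Y g + ((K1 + k.C * (k.O * cK f)) + aR g +
        (k.C * (k.O * cK g) + p.D * (if g = f then 1 else 0))))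
    rw [abs_lt]
    constructor <;> linarith
  · simp only [sub_mul, Finset.sum_sub_distrib]
    rw [sub_eq_zero]
    have h : ((∑ g ∈ range p.n, (p.s * dgt p.b (Q f) g + k.C * aK g +
      ((p.O * cR f + (K2 + 2 ^ (p.j - 1))) + p.O * cR g)) * 2 ^ (p.b * g) : ℕ) : ℤ) =
      ((∑ g ∈ range p.n, (dgt p.b Y g + ((K1 + k.C * (k.O * cK f)) + aR g +
        (k.C * (k.O * cK g) + p.D * (if g = f then 1 else 0)))) * 2 ^ (p.b * g) : ℕ) : ℤ) := by
      rw [hmain]
    rw [Nat.cast_sum, Nat.cast_sum] at h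
    have e : ∀ c : ℕ → ℕ, ∑ g ∈ range p.n, ((c g * 2 ^ (p.b * g) : ℕ) : ℤ) =
        ∑ g ∈ range p.n, ((c g : ℕ) : ℤ) * ((2 : ℤ) ^ p.b) ^ g := by
      intro c
      refine Finset.sum_congr rfl fun g _ => ?_
      rw [pow_mul]
      push_cast
      ring
    rw [e, e] at h
    exact h

end KC
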