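import Pool.Agent.Helper25.K4.Avg
import Pool.Agent.Helper20.KT.T8

/-!
# Sizes of the classes of a partial partition, I: the degree equation of a class
-/

set_option autoImplicit false

open Finset hiding dens

namespace KS

open KF KT

open KC (wi wo wo_eq tri_uww le_dens_out)

section
variable {V : Type} [Fintype V] {E : V → V → V → Bool} {w : V → ℝ}

/-! ## The bound `L ≤ 1 / 3` -/

theorem edge_cod (hE : K4m E) {x y z : V} (v : V) (h : E x y z = true) :
    b2r (E x y v) + b2r (E x z v) + b2r (E y z v) ≤ 1 := by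
  have h1 : E x y v = true → E x z v = true → False := fun a b => hE.free x y z v h a b
  have h2 : E x y v = true → E y z v = true → False := fun a b =>
    hE.free y x z v (by rw [← hE.s12]; exact h) (by rw [← hE.s12]; exact a) b
  have h3 : E x z v = true → E y z v = true → False := fun a b =>
    hE.free z x y v (by rw [hE.s12, hE.s23]; exact h) (by rw [← hE.s12]; exact a)
      (by rw [← hE.s12]; exact b)
  cases ha : E x y v <;> cases hb : E x z v <;> cases hc : E y z v <;>
    simp only [ha, hb, hc, b2r_true, b2r_false, Bool.false_eq_true, false_implies, true_implies,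
      imp_self] at h1 h2 h3 ⊢ <;> norm_num

theorem dens_cod (E : V → V → V → Bool) (w : V → ℝ) :
    dens E w = ∑ x, ∑ y, w x * w y * cod E w x y := by
  unfold KF.dens cod
  refine Finset.sum_congr rfl fun x _ => Finset.sum_congr rfl fun y _ => ?_
  rw [Finset.mul_sum]
  exact Finset.sum_congr rfl fun z _ => by ring

theorem dens_le_third (hE : K4m E) (hw : Wt w) : dens E w ≤ 1 / 3 := by
  set S := ∑ x, ∑ y, w x * w y * cod E w x y ^ 2 with hS
  set d := dens E w with hd
  have hd0 : 0 ≤ d := dens_nonneg E hw.nn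
  -- the sum over the edges
  have e1 : ∑ x, ∑ y, ∑ z, w x * w y * w z * (b2r (E x y z) * cod E w x y) = S := by
    rw [hS]
    refine Finset.sum_congr rfl fun x _ => Finset.sum_congr rfl fun y _ => ?_
    have : ∑ z, w x * w y * w z * (b2r (E x y z) * cod E w x y) =
        w x * w y * cod E w x y * ∑ z, w z * b2r (E x y z) := by
      rw [Finset.mul_sum]
      exact Finset.sum_congr rfl fun z _ => by ring
    rw [this]
    change w x * w y * cod E w x y * cod E w x y = _
    ring
  have e2 : ∑ x, ∑ y, ∑ z, w x * w y * w z * (b2r (E x y z) * cod E w x z) = S := by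
    rw [← e1]
    refine Finset.sum_congr rfl fun x _ => ?_
    rw [Finset.sum_comm]
    refine Finset.sum_congr rfl fun y _ => Finset.sum_congr rfl fun z _ => ?_
    rw [hE.s23 x z y]
    ring
  have e3 : ∑ x, ∑ y, ∑ z, w x * w y * w z * (b2r (E x y z) * cod E w y z) = S := by
    rw [← e1, Finset.sum_comm]
    refine Finset.sum_congr rfl fun x _ => ?_
    rw [Finset.sum_comm]
    refine Finset.sum_congr rfl fun y _ => Finset.sum_congr rfl fun z _ => ?_
    rw [hE.s12 z x y, hE.s23 x z y]
    ring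
  have e4 : ∑ x, ∑ y, ∑ z, w x * w y * w z * (b2r (E x y z) * (cod E w x y + cod E w x z +
      cod E w y z)) = 3 * S := by
    have : ∀ x y z, w x * w y * w z * (b2r (E x y z) * (cod E w x y + cod E w x z +
        cod E w y z)) = w x * w y * w z * (b2r (E x y z) * cod E w x y) +
        w x * w y * w z * (b2r (E x y z) * cod E w x z) +
        w x * w y * w z * (b2r (E x y z) * cod E w y z) := fun x y z => by ring
    simp only [this, Finset.sum_add_distrib]
    rw [e1, e2, e3]
    ring
  have e5 : ∑ x, ∑ y, ∑ z, w x * w y * w z * (b2r (E x y z) * (cod E w x y + cod E w x z +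
      cod E w y z)) ≤ d := by
    rw [hd]
    unfold KF.dens
    refine Finset.sum_le_sum fun x _ => Finset.sum_le_sum fun y _ => Finset.sum_le_sum
      fun z _ => mul_le_mul_of_nonneg_left ?_
        (mul_nonneg (mul_nonneg (hw.nn x) (hw.nn y)) (hw.nn z))
    cases h : E x y z
    · simp
    · have : cod E w x y + cod E w x z + cod E w y z ≤ 1 := by
        rw [← hw.one]
        unfold cod
        rw [← Finset.sum_add_distrib, ← Finset.sum_add_distrib]
        refine Finset.sum_le_sum fun v _ => ?_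
        have h1 := edge_cod hE v h
        have h2 := hw.nn v
        nlinarith
      simpa using this
  have e6 : d ^ 2 ≤ S := by
    have h1 : 0 ≤ ∑ x, ∑ y, w x * w y * (cod E w x y - d) ^ 2 :=
      Finset.sum_nonneg fun x _ => Finset.sum_nonneg fun y _ =>
        mul_nonneg (mul_nonneg (hw.nn x) (hw.nn y)) (sq_nonneg _)
    have h2 : ∑ x, ∑ y, w x * w y * (cod E w x y - d) ^ 2 = S - 2 * d * d + d ^ 2 := by
      have : ∀ x y, w x * w y * (cod E w x y - d) ^ 2 = w x * w y * cod E w x y ^ 2 -
          2 * d * (w x * w y * cod E w x y) + d ^ 2 * (w x * w y) := fun x y => by ring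
      simp only [this, Finset.sum_add_distrib, Finset.sum_sub_distrib, ← Finset.mul_sum,
        ← Finset.sum_mul]
      rw [hw.one, ← dens_cod]
      ring
    rw [h2] at h1
    nlinarith
  rw [e4] at e5
  nlinarith

theorem L_le_third : L ≤ 1 / 3 := by
  refine csSup_le vals_nonempty ?_
  rintro x ⟨n, E, w, hE, hw, rfl⟩
  exact dens_le_third hE hw

/-! ## The classes -/

/-- The weight of a class. -/
noncomputable def uc (w : V → ℝ) (κ : V → Option (Fin 6)) (a : Option (Fin 6)) : V → ℝ :=
  fun v => w v * b2r (decide (κ v = a))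

theorem uc_nn (hw : ∀ v, 0 ≤ w v) (κ : V → Option (Fin 6)) (a : Option (Fin 6)) (v : V) :
    0 ≤ uc w κ a v := mul_nonneg (hw v) (b2r_nonneg _)

theorem sum_uc_some (w : V → ℝ) (κ : V → Option (Fin 6)) (i : Fin 6) :
    ∑ v, uc w κ (some i) v = xsO w κ i := rfl

theorem sum_uc_none (w : V → ℝ) (κ : V → Option (Fin 6)) :
    ∑ v, uc w κ none v = unO w κ := by
  unfold uc unO
  refine Finset.sum_congr rfl fun v _ => ?_
  cases h : κ v <;> simp [b2r]

theorem sel (κ : V → Option (Fin 6)) (v : V) (G : Option (Fin 6) → ℝ) :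
    ∑ a, b2r (decide (κ v = a)) * G a = G (κ v) := by
  rw [Finset.sum_eq_single (κ v)]
  · simp
  · intro a _ ha
    have : decide (κ v = a) = false := by simp [Ne.symm ha]
    rw [this, b2r_false, zero_mul]
  · intro h
    exact absurd (Finset.mem_univ _) h

theorem sum_uc (w : V → ℝ) (κ : V → Option (Fin 6)) (v : V) : ∑ a, uc w κ a v = w v := by
  have := sel κ v (fun _ => w v)
  conv_rhs => rw [← this]
  unfold uc
  exact Finset.sum_congr rfl fun a _ => by ring

/-- Triples between classes. -/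
noncomputable def TC (E : V → V → V → Bool) (w : V → ℝ) (κ : V → Option (Fin 6))
    (a b c : Option (Fin 6)) : ℝ := tri E (uc w κ a) (uc w κ b) (uc w κ c)

theorem TC_nn (hw : ∀ v, 0 ≤ w v) (κ : V → Option (Fin 6)) (a b c : Option (Fin 6)) :
    0 ≤ TC E w κ a b c := tri_nonneg E (uc_nn hw κ a) (uc_nn hw κ b) (uc_nn hw κ c)

/-- Sums over triples of vertices by classes. -/
theorem fibO (κ : V → Option (Fin 6)) (F : Option (Fin 6) → Option (Fin 6) → Option (Fin 6) → ℝ)
    (g : V → V → V → ℝ) :
    ∑ x, ∑ y, ∑ z, w x * w y * w z * (F (κ x) (κ y) (κ z) * g x y z) =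
      ∑ a, ∑ b, ∑ c, F a b c * ∑ x, ∑ y, ∑ z, uc w κ a x * uc w κ b y * uc w κ c z * g x y z := by
  have h1 : ∀ x y z, w x * w y * w z * (F (κ x) (κ y) (κ z) * g x y z) =
      ∑ a, ∑ b, ∑ c, F a b c * (uc w κ a x * uc w κ b y * uc w κ c z * g x y z) := by
    intro x y z
    have s1 := sel κ x (fun a => ∑ b, b2r (decide (κ y = b)) * ∑ c, b2r (decide (κ z = c)) *
      (w x * w y * w z * (F a b c * g x y z)))
    rw [sel κ y, sel κ z] at s1
    rw [← s1]
    refine Finset.sum_congr rfl fun a _ => ?_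
    rw [Finset.mul_sum]
    refine Finset.sum_congr rfl fun b _ => ?_
    rw [Finset.mul_sum, Finset.mul_sum]
    refine Finset.sum_congr rfl fun c _ => ?_
    unfold uc
    ring
  simp only [h1, Finset.mul_sum]
  -- exchange the sums
  have ex : ∀ (G : V → V → V → Option (Fin 6) → Option (Fin 6) → Option (Fin 6) → ℝ),
      ∑ x, ∑ y, ∑ z, ∑ a, ∑ b, ∑ c, G x y z a b c = ∑ a, ∑ b, ∑ c, ∑ x, ∑ y, ∑ z,
        G x y z a b c := by
    intro G
    have a1 : ∀ x y, ∑ z, ∑ a, ∑ b, ∑ c, G x y z a b c = ∑ a, ∑ b, ∑ c, ∑ z, G x y z a b c := by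
      intro x y
      rw [Finset.sum_comm]
      refine Finset.sum_congr rfl fun a _ => ?_
      rw [Finset.sum_comm]
      exact Finset.sum_congr rfl fun b _ => Finset.sum_comm
    have a2 : ∀ x, ∑ y, ∑ a, ∑ b, ∑ c, ∑ z, G x y z a b c =
        ∑ a, ∑ b, ∑ c, ∑ y, ∑ z, G x y z a b c := by
      intro x
      rw [Finset.sum_comm]
      refine Finset.sum_congr rfl fun a _ => ?_
      rw [Finset.sum_comm]
      exact Finset.sum_congr rfl fun b _ => Finset.sum_comm
    simp only [a1, a2]
    rw [Finset.sum_comm]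
    refine Finset.sum_congr rfl fun a _ => ?_
    rw [Finset.sum_comm]
    exact Finset.sum_congr rfl fun b _ => Finset.sum_comm
  exact ex _

theorem fibE (κ : V → Option (Fin 6))
    (F : Option (Fin 6) → Option (Fin 6) → Option (Fin 6) → ℝ) :
    ∑ x, ∑ y, ∑ z, w x * w y * w z * (F (κ x) (κ y) (κ z) * b2r (E x y z)) =
      ∑ a, ∑ b, ∑ c, F a b c * TC E w κ a b c := fibO κ F _

theorem fib1 (κ : V → Option (Fin 6))
    (F : Option (Fin 6) → Option (Fin 6) → Option (Fin 6) → ℝ) :
    ∑ x, ∑ y, ∑ z, w x * w y * w z * F (κ x) (κ y) (κ z) =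
      ∑ a, ∑ b, ∑ c, F a b c * ((∑ v, uc w κ a v) * (∑ v, uc w κ b v) * (∑ v, uc w κ c v)) := by
  have h := fibO (w := w) κ F (fun _ _ _ => 1)
  simp only [mul_one] at h
  rw [h]
  refine Finset.sum_congr rfl fun a _ => Finset.sum_congr rfl fun b _ =>
    Finset.sum_congr rfl fun c _ => ?_
  rw [Finset.sum_mul_sum, Finset.sum_mul]
  congr 1
  refine Finset.sum_congr rfl fun x _ => ?_
  rw [Finset.sum_mul_sum]

/-- Total of the bad triples by classes. -/
theorem beO_eq (κ : V → Option (Fin 6)) : beO E w κ =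
    ∑ i, ∑ j, ∑ k, b2r (bO (some i) (some j) (some k)) * TC E w κ (some i) (some j) (some k) := by
  unfold beO
  rw [fibE κ (fun a b c => b2r (bO a b c))]
  have z1 : ∀ b c, bO none b c = false := fun b c => rfl
  have z2 : ∀ a c, bO a none c = false := fun a c => by cases a <;> rfl
  have z3 : ∀ a b, bO a b none = false := fun a b => by cases a <;> cases b <;> rfl
  simp only [Fintype.sum_option, z1, z2, z3, b2r_false, zero_mul, Finset.sum_const_zero, zero_add]

/-- Total of the missing triples by classes. -/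
theorem muO_eq (κ : V → Option (Fin 6)) : muO E w κ =
    ∑ i, ∑ j, ∑ k, b2r (D6 i j k) * (xsO w κ i * xsO w κ j * xsO w κ k -
      TC E w κ (some i) (some j) (some k)) := by
  have h : muO E w κ = ∑ x, ∑ y, ∑ z, w x * w y * w z * b2r (dO (κ x) (κ y) (κ z)) -
      ∑ x, ∑ y, ∑ z, w x * w y * w z * (b2r (dO (κ x) (κ y) (κ z)) * b2r (E x y z)) := by
    unfold muO
    simp only [← Finset.sum_sub_distrib]
    exact Finset.sum_congr rfl fun x _ => Finset.sum_congr rfl fun y _ =>
      Finset.sum_congr rfl fun z _ => by ring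
  rw [h, fibE κ (fun a b c => b2r (dO a b c)), fib1 κ (fun a b c => b2r (dO a b c))]
  have z1 : ∀ b c, dO none b c = false := fun b c => rfl
  have z2 : ∀ a c, dO a none c = false := fun a c => by cases a <;> rfl
  have z3 : ∀ a b, dO a b none = false := fun a b => by cases a <;> cases b <;> rfl
  simp only [Fintype.sum_option, z1, z2, z3, b2r_false, zero_mul, Finset.sum_const_zero,
    zero_add, sum_uc_some]
  simp only [← Finset.sum_sub_distrib]
  refine Finset.sum_congr rfl fun x _ => Finset.sum_congr rfl fun y _ =>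
      Finset.sum_congr rfl fun z _ => ?_
  change b2r (D6 x y z) * _ - b2r (D6 x y z) * _ = _
  ring

/-- The sizes. -/
theorem sum_xsO (hw : Wt w) (κ : V → Option (Fin 6)) : ∑ i, xsO w κ i = 1 - unO w κ := by
  have h : ∑ v, ∑ a, uc w κ a v = 1 := by
    rw [← hw.one]
    exact Finset.sum_congr rfl fun v _ => sum_uc w κ v
  rw [Finset.sum_comm, Fintype.sum_option, sum_uc_none] at h
  simp only [sum_uc_some] at h
  linarith

theorem xsO_nn (hw : ∀ v, 0 ≤ w v) (κ : V → Option (Fin 6)) (i : Fin 6) : 0 ≤ xsO w κ i :=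
  Finset.sum_nonneg fun v _ => mul_nonneg (hw v) (b2r_nonneg _)

theorem unO_nn (hw : ∀ v, 0 ≤ w v) (κ : V → Option (Fin 6)) : 0 ≤ unO w κ :=
  Finset.sum_nonneg fun v _ => mul_nonneg (hw v) (b2r_nonneg _)

theorem tri_sum1 {ι : Type} (s : Finset ι) (f : ι → V → ℝ) (v u : V → ℝ) :
    tri E (fun x => ∑ i ∈ s, f i x) v u = ∑ i ∈ s, tri E (f i) v u := by
  classical
  induction s using Finset.induction_on with
  | empty =>
    simp [tri]
  | insert a s ha ih =>
    rw [Finset.sum_insert ha, ← ih, ← tri_add1]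
    congr 1
    funext x
    rw [Finset.sum_insert ha]
    rfl

theorem tri_sum2 (hE : K4m E) {ι : Type} (s : Finset ι) (f : ι → V → ℝ) (v u : V → ℝ) :
    tri E v (fun x => ∑ i ∈ s, f i x) u = ∑ i ∈ s, tri E v (f i) u := by
  rw [tri_swap12 hE, tri_sum1]
  exact Finset.sum_congr rfl fun i _ => tri_swap12 hE _ _ _

theorem tri_sum3 (hE : K4m E) {ι : Type} (s : Finset ι) (f : ι → V → ℝ) (v u : V → ℝ) :
    tri E v u (fun x => ∑ i ∈ s, f i x) = ∑ i ∈ s, tri E v u (f i) := by
  rw [tri_swap13 hE, tri_sum1]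
  exact Finset.sum_congr rfl fun i _ => tri_swap13 hE _ _ _

/-- The assigned part. -/
theorem wo_none (w : V → ℝ) (κ : V → Option (Fin 6)) :
    wo w (fun v => b2r (κ v).isNone) = fun v => ∑ i, uc w κ (some i) v := by
  funext v
  have h := sum_uc w κ v
  rw [Fintype.sum_option] at h
  have h2 : uc w κ none v = w v * b2r (κ v).isNone := by
    unfold uc
    rcases hk : κ v with _ | j <;> simp [b2r, hk]
  unfold wo
  rw [h2] at h
  linarith

theorem wi_none (w : V → ℝ) (κ : V → Option (Fin 6)) :
    wi w (fun v => b2r (κ v).isNone) = uc w κ none := by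
  funext v
  unfold wi uc
  rcases hk : κ v with _ | j <;> simp [b2r, hk]

/-- Ideal degree of a class. -/
noncomputable def PO (x : Fin 6 → ℝ) (i : Fin 6) : ℝ := ∑ j, ∑ k, b2r (D6 i j k) * (x j * x k)

/-- Bad triples at a class. -/
noncomputable def beC (E : V → V → V → Bool) (w : V → ℝ) (κ : V → Option (Fin 6)) (i : Fin 6) :
    ℝ := ∑ j, ∑ k, b2r (bO (some i) (some j) (some k)) * TC E w κ (some i) (some j) (some k)

/-- Missing triples at a class. -/
noncomputable def muC (E : V → V → V → Bool) (w : V → ℝ) (κ : V → Option (Fin 6)) (i : Fin 6) :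
    ℝ := ∑ j, ∑ k, b2r (D6 i j k) * (xsO w κ i * xsO w κ j * xsO w κ k -
      TC E w κ (some i) (some j) (some k))

theorem beC_nn (hw : ∀ v, 0 ≤ w v) (κ : V → Option (Fin 6)) (i : Fin 6) : 0 ≤ beC E w κ i :=
  Finset.sum_nonneg fun j _ => Finset.sum_nonneg fun k _ =>
    mul_nonneg (b2r_nonneg _) (TC_nn hw κ _ _ _)

theorem muC_nn (hw : ∀ v, 0 ≤ w v) (κ : V → Option (Fin 6)) (i : Fin 6) : 0 ≤ muC E w κ i := by
  refine Finset.sum_nonneg fun j _ => Finset.sum_nonneg fun k _ =>
    mul_nonneg (b2r_nonneg _) (sub_nonneg.2 ?_)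
  exact tri_le E (uc_nn hw κ _) (uc_nn hw κ _) (uc_nn hw κ _)

theorem beC_le (hw : ∀ v, 0 ≤ w v) (κ : V → Option (Fin 6)) (i : Fin 6) :
    beC E w κ i ≤ beO E w κ := by
  rw [beO_eq]
  exact Finset.single_le_sum (f := fun i => beC E w κ i) (fun j _ => beC_nn hw κ j)
    (Finset.mem_univ i)

theorem kindsO (i j k : Fin 6) : b2r (D6 i j k) + b2r (bO (some i) (some j) (some k)) +
    (if j = i ∧ k = i then 1 else 0) = 1 := by
  have h : ∀ i j k : Fin 6, (D6 i j k = true ∧ bO (some i) (some j) (some k) = false ∧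
      ¬ (j = i ∧ k = i)) ∨
      (D6 i j k = false ∧ bO (some i) (some j) (some k) = true ∧ ¬ (j = i ∧ k = i)) ∨
      (D6 i j k = false ∧ bO (some i) (some j) (some k) = false ∧ (j = i ∧ k = i)) := by
    decide
  rcases h i j k with ⟨h1, h2, h3⟩ | ⟨h1, h2, h3⟩ | ⟨h1, h2, h3⟩
  · rw [h1, h2, if_neg h3]; simp
  · rw [h1, h2, if_neg h3]; simp
  · rw [h1, h2, if_pos h3]; simp

/-- The triples at a class, exactly. -/
theorem class_split (hE : K4m E) (κ : V → Option (Fin 6)) (i : Fin 6) :
    tri E (uc w κ (some i)) (wo w (fun v => b2r (κ v).isNone))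
      (wo w (fun v => b2r (κ v).isNone)) =
      xsO w κ i * PO (xsO w κ) i - muC E w κ i + beC E w κ i + dens E (uc w κ (some i)) := by
  rw [wo_none, tri_sum2 hE]
  simp only [tri_sum3 hE]
  have h1 : ∑ j, ∑ k, tri E (uc w κ (some i)) (uc w κ (some j)) (uc w κ (some k)) =
      ∑ j, ∑ k, (b2r (D6 i j k) * TC E w κ (some i) (some j) (some k) +
        b2r (bO (some i) (some j) (some k)) * TC E w κ (some i) (some j) (some k) +
        (if j = i ∧ k = i then TC E w κ (some i) (some j) (some k) else 0)) := by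
    refine Finset.sum_congr rfl fun j _ => Finset.sum_congr rfl fun k _ => ?_
    have h := kindsO i j k
    change TC E w κ (some i) (some j) (some k) = _
    conv_lhs => rw [← one_mul (TC E w κ (some i) (some j) (some k)), ← h]
    split_ifs <;> ring
  rw [h1]
  simp only [Finset.sum_add_distrib]
  have h2 : ∑ j, ∑ k, (if j = i ∧ k = i then TC E w κ (some i) (some j) (some k) else 0) =
      dens E (uc w κ (some i)) := by
    rw [Finset.sum_eq_single i, Finset.sum_eq_single i]
    · simp [TC, dens_eq_tri]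
    · intro k _ hk
      rw [if_neg (fun h => hk h.2)]
    · intro h
      exact absurd (Finset.mem_univ _) h
    · intro j _ hj
      refine Finset.sum_eq_zero fun k _ => ?_
      rw [if_neg (fun h => hj h.1)]
    · intro h
      exact absurd (Finset.mem_univ _) h
  rw [h2]
  have h3 : ∑ j, ∑ k, b2r (D6 i j k) * TC E w κ (some i) (some j) (some k) =
      xsO w κ i * PO (xsO w κ) i - muC E w κ i := by
    unfold muC PO
    rw [Finset.mul_sum, ← Finset.sum_sub_distrib]
    refine Finset.sum_congr rfl fun j _ => ?_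
    rw [Finset.mul_sum, ← Finset.sum_sub_distrib]
    exact Finset.sum_congr rfl fun k _ => by ring
  rw [h3]
  unfold beC
  ring

/-- Triples with one vertex in the class and one unassigned vertex. -/
theorem class_none (ho : Opt E w) (κ : V → Option (Fin 6)) (a : Option (Fin 6)) :
    tri E (uc w κ a) (uc w κ none) w ≤ 2 * dens E w * (∑ v, uc w κ a v) * unO w κ := by
  have h1 : tri E (uc w κ a) (uc w κ none) w =
      ∑ x, ∑ y, uc w κ a x * uc w κ none y * cod E w x y := by
    unfold tri cod
    refine Finset.sum_congr rfl fun x _ => Finset.sum_congr rfl fun y _ => ?_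
    rw [Finset.mul_sum]
    exact Finset.sum_congr rfl fun z _ => by ring
  rw [h1, ← sum_uc_none, mul_assoc, Finset.sum_mul_sum, Finset.mul_sum]
  refine Finset.sum_le_sum fun x _ => ?_
  rw [Finset.mul_sum]
  refine Finset.sum_le_sum fun y _ => ?_
  have h2 := cod_le_two ho x y
  have h3 : 0 ≤ uc w κ a x * uc w κ none y :=
    mul_nonneg (uc_nn ho.wt.nn κ _ x) (uc_nn ho.wt.nn κ _ y)
  nlinarith

/-- The degree equation of a class. -/
theorem class_deg (ho : Opt E w) (κ : V → Option (Fin 6)) (i : Fin 6) :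
    dens E w * xsO w κ i ≤ xsO w κ i * PO (xsO w κ) i - muC E w κ i + beC E w κ i +
      L * xsO w κ i ^ 3 + 4 * dens E w * unO w κ * xsO w κ i := by
  have hE := ho.free
  have h1 := tri_uww ho (uc w κ (some i))
  rw [sum_uc_some] at h1
  have h2 := class_split (w := w) hE κ i
  have h3 := class_none ho κ (some i)
  rw [sum_uc_some] at h3
  have h4 : tri E (uc w κ (some i)) w w = tri E (uc w κ (some i))
      (wo w (fun v => b2r (κ v).isNone)) (wo w (fun v => b2r (κ v).isNone)) +
      2 * tri E (uc w κ (some i)) (uc w κ none) w -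
      tri E (uc w κ (some i)) (uc w κ none) (uc w κ none) := by
    rw [wo_eq, wi_none, tri_add2 hE, tri_add3 hE, tri_add3 hE, tri_smul2 hE, tri_smul2 hE,
      tri_smul3 hE, tri_smul3 hE, tri_swap23 hE (uc w κ (some i)) w (uc w κ none)]
    ring
  have h5 := tri_nonneg E (uc_nn ho.wt.nn κ (some i)) (uc_nn ho.wt.nn κ none)
    (uc_nn ho.wt.nn κ none)
  have h6 := dens_le_L_hom hE (uc_nn ho.wt.nn κ (some i))
  rw [sum_uc_some] at h6
  linarith

/-- The density of the assigned part, exactly. -/
theorem total_split (hE : K4m E) (κ : V → Option (Fin 6)) :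
    dens E (wo w (fun v => b2r (κ v).isNone)) = ∑ i, xsO w κ i * PO (xsO w κ) i -
      muO E w κ + beO E w κ + ∑ i, dens E (uc w κ (some i)) := by
  have h1 : dens E (wo w (fun v => b2r (κ v).isNone)) = ∑ i, tri E (uc w κ (some i))
      (wo w (fun v => b2r (κ v).isNone)) (wo w (fun v => b2r (κ v).isNone)) := by
    rw [dens_eq_tri, ← tri_sum1, ← wo_none]
  rw [h1]
  simp only [class_split hE]
  rw [Finset.sum_add_distrib, Finset.sum_add_distrib, Finset.sum_sub_distrib, beO_eq, muO_eq]
  rfl

/-- The total inequality. -/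
theorem total_le (ho : Opt E w) (κ : V → Option (Fin 6)) :
    dens E w * (1 - 3 * unO w κ) ≤ ∑ i, xsO w κ i * PO (xsO w κ) i - muO E w κ + beO E w κ +
      L * ∑ i, xsO w κ i ^ 3 := by
  have h1 := le_dens_out ho (z := fun v => b2r (κ v).isNone) (fun v => b2r_nonneg _)
    (fun v => b2r_le_one _)
  rw [total_split ho.free] at h1
  have h2 : ∑ i, dens E (uc w κ (some i)) ≤ L * ∑ i, xsO w κ i ^ 3 := by
    rw [Finset.mul_sum]
    refine Finset.sum_le_sum fun i _ => ?_
    have h6 := dens_le_L_hom ho.free (uc_nn ho.wt.nn κ (some i))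
    rw [sum_uc_some] at h6
    exact h6
  have h3 : unO w κ = ∑ v, w v * b2r (κ v).isNone := rfl
  rw [h3]
  linarith

end

end KS
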