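import Pool.Agent.Helper25.K4.Siz1

/-!
# Sizes of the classes of a partial partition, II: real inequalities
-/

set_option autoImplicit false

open Finset hiding dens

namespace KS

open KF KT

/-- The ideal degree is twice the sum over a pentagon. -/
theorem PO_pent (i : Fin 6) : ∃ a b c d e : Fin 6, (∀ x : Fin 6 → ℝ,
    PO x i = 2 * (x a * x b + x b * x c + x c * x d + x d * x e + x e * x a)) ∧
    (∀ x : Fin 6 → ℝ, ∑ j, x j = x i + (x a + x b + x c + x d + x e)) ∧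
    (∀ x : Fin 6 → ℝ, ∑ j, x j ^ 2 = x i ^ 2 + (x a ^ 2 + x b ^ 2 + x c ^ 2 + x d ^ 2 + x e ^ 2)) := by
  fin_cases i
  · refine ⟨1, 2, 4, 5, 3, fun x => ?_, fun x => ?_, fun x => ?_⟩
    · simp [PO, Fin.sum_univ_six, D6, b2r]
      ring
    · simp [Fin.sum_univ_six]
      ring
    · simp [Fin.sum_univ_six]
      ring
  · refine ⟨0, 2, 5, 4, 3, fun x => ?_, fun x => ?_, fun x => ?_⟩
    · simp [PO, Fin.sum_univ_six, D6, b2r]
      ring
    · simp [Fin.sum_univ_six]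
      ring
    · simp [Fin.sum_univ_six]
      ring
  · refine ⟨0, 1, 5, 3, 4, fun x => ?_, fun x => ?_, fun x => ?_⟩
    · simp [PO, Fin.sum_univ_six, D6, b2r]
      ring
    · simp [Fin.sum_univ_six]
      ring
    · simp [Fin.sum_univ_six]
      ring
  · refine ⟨0, 1, 4, 2, 5, fun x => ?_, fun x => ?_, fun x => ?_⟩
    · simp [PO, Fin.sum_univ_six, D6, b2r]
      ring
    · simp [Fin.sum_univ_six]
      ring
    · simp [Fin.sum_univ_six]
      ring
  · refine ⟨0, 2, 3, 1, 5, fun x => ?_, fun x => ?_, fun x => ?_⟩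
    · simp [PO, Fin.sum_univ_six, D6, b2r]
      ring
    · simp [Fin.sum_univ_six]
      ring
    · simp [Fin.sum_univ_six]
      ring
  · refine ⟨0, 3, 2, 1, 4, fun x => ?_, fun x => ?_, fun x => ?_⟩
    · simp [PO, Fin.sum_univ_six, D6, b2r]
      ring
    · simp [Fin.sum_univ_six]
      ring
    · simp [Fin.sum_univ_six]
      ring

/-- Pentagons are triangle-free. -/
theorem pent {a b c d e : ℝ} (ha : 0 ≤ a) (hb : 0 ≤ b) (hc : 0 ≤ c) (hd : 0 ≤ d) (he : 0 ≤ e) :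
    4 * (a * b + b * c + c * d + d * e + e * a) ≤ (a + b + c + d + e) ^ 2 := by
  rcases le_total e d with h | h
  · have h1 : (a + b + c + d + e) ^ 2 - 4 * (a * b + b * c + c * d + d * e + e * a) =
        (a - b + c - d + e) ^ 2 + 4 * (a * (d - e) + b * e) := by ring
    have h2 : 0 ≤ a * (d - e) := mul_nonneg ha (by linarith)
    have h3 : 0 ≤ b * e := mul_nonneg hb he
    nlinarith [sq_nonneg (a - b + c - d + e)]
  · have h1 : (a + b + c + d + e) ^ 2 - 4 * (a * b + b * c + c * d + d * e + e * a) =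
        (c - b + a - e + d) ^ 2 + 4 * (c * (e - d) + b * d) := by ring
    have h2 : 0 ≤ c * (e - d) := mul_nonneg hc (by linarith)
    have h3 : 0 ≤ b * d := mul_nonneg hb hd
    nlinarith [sq_nonneg (c - b + a - e + d)]

theorem PO_le_half {x : Fin 6 → ℝ} (hx : ∀ i, 0 ≤ x i) (i : Fin 6) :
    PO x i ≤ (∑ j, x j - x i) ^ 2 / 2 := by
  obtain ⟨a, b, c, d, e, h1, h2, -⟩ := PO_pent i
  rw [h1, h2]
  have h := pent (hx a) (hx b) (hx c) (hx d) (hx e)
  have h3 : x i + (x a + x b + x c + x d + x e) - x i = x a + x b + x c + x d + x e := by ring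
  rw [h3]
  linarith

/-- The ideal degree of the largest class. -/
theorem PO_le_max {x : Fin 6 → ℝ} {i : Fin 6} (hi : ∀ j, x j ≤ x i) {τ : ℝ}
    (hτ : x i = (∑ j, x j) / 6 + τ) :
    PO x i ≤ 10 * x i ^ 2 - 24 * x i * τ + 18 * τ ^ 2 := by
  obtain ⟨a, b, c, d, e, h1, h2, -⟩ := PO_pent i
  have h := pent (sub_nonneg.2 (hi a)) (sub_nonneg.2 (hi b)) (sub_nonneg.2 (hi c))
    (sub_nonneg.2 (hi d)) (sub_nonneg.2 (hi e))
  rw [h1]
  rw [h2] at hτ
  have h3 : x i - x a + (x i - x b) + (x i - x c) + (x i - x d) + (x i - x e) = 6 * τ := by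
    linarith
  rw [h3] at h
  have h4 : x a + x b + x c + x d + x e = 5 * x i - 6 * τ := by linarith
  have h5 : x i * (x a + x b + x c + x d + x e) = x i * (5 * x i - 6 * τ) := by rw [h4]
  nlinarith

theorem PO_ge {t : Fin 6 → ℝ} (i : Fin 6) : -(2 * ∑ j, t j ^ 2) ≤ PO t i := by
  obtain ⟨a, b, c, d, e, h1, -, h3⟩ := PO_pent i
  rw [h1, h3]
  nlinarith [sq_nonneg (t a + t b), sq_nonneg (t b + t c), sq_nonneg (t c + t d),
    sq_nonneg (t d + t e), sq_nonneg (t e + t a), sq_nonneg (t i)]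

/-- The total ideal density. -/
noncomputable def BB (x : Fin 6 → ℝ) : ℝ := ∑ i, x i * PO x i

theorem sum_PO {t : Fin 6 → ℝ} (ht : ∑ j, t j = 0) : ∑ i, PO t i = -(2 * ∑ j, t j ^ 2) := by
  have h : ∑ i, PO t i = 2 * (∑ j, t j) ^ 2 - 2 * ∑ j, t j ^ 2 := by
    simp [PO, Fin.sum_univ_six, D6, b2r]
    ring
  rw [h, ht]
  ring

theorem BB_expand {x t : Fin 6 → ℝ} {s : ℝ} (hx : ∀ i, x i = s / 6 + t i) (ht : ∑ j, t j = 0) :
    BB x = 10 / 36 * s ^ 3 - s * ∑ j, t j ^ 2 + BB t := by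
  have h5 : t 5 = -(t 0 + t 1 + t 2 + t 3 + t 4) := by
    rw [Fin.sum_univ_six] at ht
    linarith
  simp [BB, PO, Fin.sum_univ_six, D6, b2r, hx]
  rw [h5]
  ring

theorem cube_expand {x t : Fin 6 → ℝ} {s : ℝ} (hx : ∀ i, x i = s / 6 + t i)
    (ht : ∑ j, t j = 0) :
    ∑ i, x i ^ 3 = s ^ 3 / 36 + s / 2 * ∑ j, t j ^ 2 + ∑ j, t j ^ 3 := by
  have h5 : t 5 = -(t 0 + t 1 + t 2 + t 3 + t 4) := by
    rw [Fin.sum_univ_six] at ht
    linarith
  simp only [Fin.sum_univ_six, hx, h5]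
  ring

/-- The cubic terms. -/
theorem cubic_le {t : Fin 6 → ℝ} {τ l : ℝ} (hl : 0 ≤ l) (ht : ∑ j, t j = 0)
    (hτ : ∀ j, t j ≤ τ) :
    BB t + l * ∑ j, t j ^ 3 ≤ (10 + l) * τ * ∑ j, t j ^ 2 := by
  set r := ∑ j, t j ^ 2 with hr
  have hr0 : 0 ≤ r := Finset.sum_nonneg fun j _ => sq_nonneg _
  have h1 : BB t + l * ∑ j, t j ^ 3 = ∑ i, t i * (PO t i + l * t i ^ 2) := by
    unfold BB
    rw [Finset.mul_sum, ← Finset.sum_add_distrib]
    exact Finset.sum_congr rfl fun i _ => by ring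
  have h2 : ∑ i, t i * (PO t i + l * t i ^ 2) =
      τ * (∑ i, (PO t i + l * t i ^ 2)) - ∑ i, (τ - t i) * (PO t i + l * t i ^ 2) := by
    rw [Finset.mul_sum, ← Finset.sum_sub_distrib]
    exact Finset.sum_congr rfl fun i _ => by ring
  have h3 : ∑ i, (PO t i + l * t i ^ 2) = -(2 * r) + l * r := by
    rw [Finset.sum_add_distrib, sum_PO ht, ← Finset.mul_sum]
  have h4 : -(∑ i, (τ - t i) * (PO t i + l * t i ^ 2)) ≤ ∑ i, (τ - t i) * (2 * r) := by
    rw [← Finset.sum_neg_distrib]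
    refine Finset.sum_le_sum fun i _ => ?_
    have h5 := PO_ge (t := t) i
    have h6 : 0 ≤ τ - t i := by linarith [hτ i]
    have h7 : 0 ≤ l * t i ^ 2 := by positivity
    nlinarith
  have h5 : ∑ i, (τ - t i) * (2 * r) = 12 * τ * r := by
    rw [← Finset.sum_mul, Finset.sum_sub_distrib, ht]
    simp
    ring
  rw [h1, h2, h3]
  linarith

end KS
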