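import Pool.Agent.Helper25.K4.Lf

/-!
# The numerical steps of the chain

Generated lemmas: subdivision of the range of the mass of the unassigned part.
-/

set_option autoImplicit false

namespace KS

theorem st0 {g K mu : ℝ} (h0 : 0 ≤ g) (hg : g ≤ 634 / 100000)
    (hmu : mu ≤ (634 / 1000000 - g / 10) * (1 + 8 / 3 * g) ^ 3)
    (hK : 0 ≤ K) (hK1 : K ≤ 3145 / 10000 * g ^ 2) :
    K ≤ (7901 / 625000000) ∧ 3 * K + (8847761 / 25000000) * mu + 11 / 6 * g ^ 3 ≤ (12895281 / 40000000000) * (171 / 200 - 103 / 10 * (153 / 10000 + 5 / 6 * g)) - 1 / 100000000000 := by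
  rcases le_total g (9 / 100000) with hb0 | ha1
  · have hm : mu ≤ (634457 / 1000000000) := lfM (a := 0) (b := (9 / 100000)) (by norm_num) h0 hb0 hg hmu (by norm_num)
    have hk : K ≤ (51 / 20000000000) := lfQ (b := (9 / 100000)) h0 hb0 (by norm_num) hK1 (by norm_num)
    have hx := lfX (r := (8847761 / 25000000)) (X := (22454861 / 100000000000)) h0 hb0 hm (by norm_num) hk (by norm_num)
    exact ⟨hk.trans (by norm_num), by linarith⟩
  rcases le_total g (69 / 100000) with hb1 | ha2
  · have hm : mu ≤ (628457 / 1000000000) := lfM (a := (9 / 100000)) (b := (69 / 100000)) (by norm_num) ha1 hb1 hg hmu (by norm_num)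
    have hk : K ≤ (7487 / 50000000000) := lfQ (b := (69 / 100000)) h0 hb1 (by norm_num) hK1 (by norm_num)
    have hx := lfX (r := (8847761 / 25000000)) (X := (5571683 / 25000000000)) h0 hb1 hm (by norm_num) hk (by norm_num)
    exact ⟨hk.trans (by norm_num), by linarith⟩
  rcases le_total g (33 / 10000) with hb2 | ha3
  · have hm : mu ≤ (36253 / 62500000) := lfM (a := (69 / 100000)) (b := (33 / 10000)) (by norm_num) ha2 hb2 hg hmu (by norm_num)
    have hk : K ≤ (342491 / 100000000000) := lfQ (b := (33 / 10000)) h0 hb2 (by norm_num) hK1 (by norm_num)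
    have hx := lfX (r := (8847761 / 25000000)) (X := (10781283 / 50000000000)) h0 hb2 hm (by norm_num) hk (by norm_num)
    exact ⟨hk.trans (by norm_num), by linarith⟩
  have hgl : g ≤ (317 / 50000) := hg.trans (by norm_num)
  have hm : mu ≤ (159841 / 500000000) := lfM (a := (33 / 10000)) (b := (317 / 50000)) (by norm_num) ha3 hgl hg hmu (by norm_num)
  have hk : K ≤ (158019 / 12500000000) := lfQ (b := (317 / 50000)) h0 hgl (by norm_num) hK1 (by norm_num)
  have hx := lfX (r := (8847761 / 25000000)) (X := (15153057 / 100000000000)) h0 hgl hm (by norm_num) hk (by norm_num)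
  exact ⟨hk.trans (by norm_num), by linarith⟩

theorem st1 {g K mu : ℝ} (h0 : 0 ≤ g) (hg : g ≤ 634 / 100000)
    (hmu : mu ≤ (634 / 1000000 - g / 10) * (1 + 8 / 3 * g) ^ 3)
    (hK : 0 ≤ K) (hK1 : K ≤ 3145 / 10000 * g ^ 2) :
    K ≤ (638397 / 50000000000) ∧ g ≤ (317 / 50000) ∧ 3 * K + (6436197 / 50000000) * mu + 11 / 6 * g ^ 3 ≤ (8242709 / 100000000000) := by
  rcases le_total g (2 / 3125) with hb0 | ha1
  · have hm : mu ≤ (159313 / 250000000) := lfM (a := 0) (b := (2 / 3125)) (by norm_num) h0 hb0 hg hmu (by norm_num)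
    have hk : K ≤ (6441 / 50000000000) := lfQ (b := (2 / 3125)) h0 hb0 (by norm_num) hK1 (by norm_num)
    exact ⟨hk.trans (by norm_num), hb0.trans (by norm_num), lfX h0 hb0 hm (by norm_num) hk (by norm_num)⟩
  rcases le_total g (279 / 100000) with hb1 | ha2
  · have hm : mu ≤ (291409 / 500000000) := lfM (a := (2 / 3125)) (b := (279 / 100000)) (by norm_num) ha1 hb1 hg hmu (by norm_num)
    have hk : K ≤ (24481 / 10000000000) := lfQ (b := (279 / 100000)) h0 hb1 (by norm_num) hK1 (by norm_num)
    exact ⟨hk.trans (by norm_num), hb1.trans (by norm_num), lfX h0 hb1 hm (by norm_num) hk (by norm_num)⟩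
  rcases le_total g (601 / 100000) with hb2 | ha3
  · have hm : mu ≤ (46543 / 125000000) := lfM (a := (279 / 100000)) (b := (601 / 100000)) (by norm_num) ha2 hb2 hg hmu (by norm_num)
    have hk : K ≤ (567989 / 50000000000) := lfQ (b := (601 / 100000)) h0 hb2 (by norm_num) hK1 (by norm_num)
    exact ⟨hk.trans (by norm_num), hb2.trans (by norm_num), lfX h0 hb2 hm (by norm_num) hk (by norm_num)⟩
  have hgl : g ≤ (317 / 50000) := hg.trans (by norm_num)
  have hm : mu ≤ (34703 / 1000000000) := lfM (a := (601 / 100000)) (b := (317 / 50000)) (by norm_num) ha3 hgl hg hmu (by norm_num)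
  have hk : K ≤ (158019 / 12500000000) := lfQ (b := (317 / 50000)) h0 hgl (by norm_num) hK1 (by norm_num)
  exact ⟨hk.trans (by norm_num), hgl.trans (by norm_num), lfX h0 hgl hm (by norm_num) hk (by norm_num)⟩

theorem st2 {g K mu : ℝ} (h0 : 0 ≤ g) (hg : g ≤ 634 / 100000)
    (hmu : mu ≤ (634 / 1000000 - g / 10) * (1 + 8 / 3 * g) ^ 3)
    (hK : 0 ≤ K) (hK1 : K ≤ 3145 / 10000 * g ^ 2) :
    K ≤ (638397 / 50000000000) ∧ g ≤ (317 / 50000) ∧ 3 * K + (1832271 / 25000000) * mu + 11 / 6 * g ^ 3 ≤ (2346553 / 50000000000) := by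
  rcases le_total g (53 / 100000) with hb0 | ha1
  · have hm : mu ≤ (159173 / 250000000) := lfM (a := 0) (b := (53 / 100000)) (by norm_num) h0 hb0 hg hmu (by norm_num)
    have hk : K ≤ (1767 / 20000000000) := lfQ (b := (53 / 100000)) h0 hb0 (by norm_num) hK1 (by norm_num)
    exact ⟨hk.trans (by norm_num), hb0.trans (by norm_num), lfX h0 hb0 hm (by norm_num) hk (by norm_num)⟩
  rcases le_total g (49 / 25000) with hb1 | ha2
  · have hm : mu ≤ (295079 / 500000000) := lfM (a := (53 / 100000)) (b := (49 / 25000)) (by norm_num) ha1 hb1 hg hmu (by norm_num)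
    have hk : K ≤ (120819 / 100000000000) := lfQ (b := (49 / 25000)) h0 hb1 (by norm_num) hK1 (by norm_num)
    exact ⟨hk.trans (by norm_num), hb1.trans (by norm_num), lfX h0 hb1 hm (by norm_num) hk (by norm_num)⟩
  rcases le_total g (381 / 100000) with hb2 | ha3
  · have hm : mu ≤ (451487 / 1000000000) := lfM (a := (49 / 25000)) (b := (381 / 100000)) (by norm_num) ha2 hb2 hg hmu (by norm_num)
    have hk : K ≤ (114133 / 25000000000) := lfQ (b := (381 / 100000)) h0 hb2 (by norm_num) hK1 (by norm_num)
    exact ⟨hk.trans (by norm_num), hb2.trans (by norm_num), lfX h0 hb2 hm (by norm_num) hk (by norm_num)⟩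
  rcases le_total g (537 / 100000) with hb3 | ha4
  · have hm : mu ≤ (132013 / 500000000) := lfM (a := (381 / 100000)) (b := (537 / 100000)) (by norm_num) ha3 hb3 hg hmu (by norm_num)
    have hk : K ≤ (906921 / 100000000000) := lfQ (b := (537 / 100000)) h0 hb3 (by norm_num) hK1 (by norm_num)
    exact ⟨hk.trans (by norm_num), hb3.trans (by norm_num), lfX h0 hb3 hm (by norm_num) hk (by norm_num)⟩
  have hgl : g ≤ (317 / 50000) := hg.trans (by norm_num)
  have hm : mu ≤ (25501 / 250000000) := lfM (a := (537 / 100000)) (b := (317 / 50000)) (by norm_num) ha4 hgl hg hmu (by norm_num)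
  have hk : K ≤ (158019 / 12500000000) := lfQ (b := (317 / 50000)) h0 hgl (by norm_num) hK1 (by norm_num)
  exact ⟨hk.trans (by norm_num), hgl.trans (by norm_num), lfX h0 hgl hm (by norm_num) hk (by norm_num)⟩

theorem st3 {g K mu : ℝ} (h0 : 0 ≤ g) (hg : g ≤ 634 / 100000)
    (hmu : mu ≤ (634 / 1000000 - g / 10) * (1 + 8 / 3 * g) ^ 3)
    (hK : 0 ≤ K) (hK1 : K ≤ 3145 / 10000 * g ^ 2)
    (hl : 0 < g → 72 * K ≤ g * ((91629 / 500) * mu + (300467 / 100000) * g + (12821 / 100) * g ^ 2 + (-3963 / 250000))) :
    K ≤ (24671 / 10000000000) ∧ g ≤ (317 / 50000) ∧ 3 * K + (4463437 / 100000000) * mu + 11 / 6 * g ^ 3 ≤ (180401 / 6250000000) := by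
  rcases le_total g (33 / 50000) with hb0 | ha1
  · have hm : mu ≤ (318677 / 500000000) := lfM (a := 0) (b := (33 / 50000)) (by norm_num) h0 hb0 hg hmu (by norm_num)
    have hk : K ≤ (137 / 1000000000) := lfQ (b := (33 / 50000)) h0 hb0 (by norm_num) hK1 (by norm_num)
    exact ⟨hk.trans (by norm_num), hb0.trans (by norm_num), lfX h0 hb0 hm (by norm_num) hk (by norm_num)⟩
  rcases le_total g (91 / 50000) with hb1 | ha2
  · have hm : mu ≤ (576311 / 1000000000) := lfM (a := (33 / 50000)) (b := (91 / 50000)) (by norm_num) ha1 hb1 hg hmu (by norm_num)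
    have hk : K ≤ (4167 / 4000000000) := lfQ (b := (91 / 50000)) h0 hb1 (by norm_num) hK1 (by norm_num)
    exact ⟨hk.trans (by norm_num), hb1.trans (by norm_num), lfX h0 hb1 hm (by norm_num) hk (by norm_num)⟩
  rcases le_total g (7 / 2500) with hb2 | ha3
  · have hm : mu ≤ (462201 / 1000000000) := lfM (a := (91 / 50000)) (b := (7 / 2500)) (by norm_num) ha2 hb2 hg hmu (by norm_num)
    have hk : K ≤ (30821 / 12500000000) := lfQ (b := (7 / 2500)) h0 hb2 (by norm_num) hK1 (by norm_num)
    exact ⟨hk.trans (by norm_num), hb2.trans (by norm_num), lfX h0 hb2 hm (by norm_num) hk (by norm_num)⟩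
  rcases le_total g (293 / 100000) with hb3 | ha4
  · have hm : mu ≤ (362363 / 1000000000) := lfM (a := (7 / 2500)) (b := (293 / 100000)) (by norm_num) ha3 hb3 hg hmu (by norm_num)
    have hk : K ≤ (49207 / 20000000000) := lfK (a := (7 / 2500)) (b := (293 / 100000)) (R := (60459 / 1000000)) (by norm_num) ha3 hb3 hm (by norm_num) (by norm_num) (by norm_num) (hl (by linarith)) (by norm_num) (by norm_num) (by norm_num)
    exact ⟨hk.trans (by norm_num), hb3.trans (by norm_num), lfX h0 hb3 hm (by norm_num) hk (by norm_num)⟩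
  rcases le_total g (303 / 100000) with hb4 | ha5
  · have hm : mu ≤ (349333 / 1000000000) := lfM (a := (293 / 100000)) (b := (303 / 100000)) (by norm_num) ha4 hb4 hg hmu (by norm_num)
    have hk : K ≤ (245969 / 100000000000) := lfK (a := (293 / 100000)) (b := (303 / 100000)) (R := (3653 / 62500)) (by norm_num) ha4 hb4 hm (by norm_num) (by norm_num) (by norm_num) (hl (by linarith)) (by norm_num) (by norm_num) (by norm_num)
    exact ⟨hk.trans (by norm_num), hb4.trans (by norm_num), lfX h0 hb4 hm (by norm_num) hk (by norm_num)⟩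
  rcases le_total g (311 / 100000) with hb5 | ha6
  · have hm : mu ≤ (42413 / 125000000) := lfM (a := (303 / 100000)) (b := (311 / 100000)) (by norm_num) ha5 hb5 hg hmu (by norm_num)
    have hk : K ≤ (245833 / 100000000000) := lfK (a := (303 / 100000)) (b := (311 / 100000)) (R := (56913 / 1000000)) (by norm_num) ha5 hb5 hm (by norm_num) (by norm_num) (by norm_num) (hl (by linarith)) (by norm_num) (by norm_num) (by norm_num)
    exact ⟨hk.trans (by norm_num), hb5.trans (by norm_num), lfX h0 hb5 hm (by norm_num) hk (by norm_num)⟩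
  rcases le_total g (159 / 50000) with hb6 | ha7
  · have hm : mu ≤ (331287 / 1000000000) := lfM (a := (311 / 100000)) (b := (159 / 50000)) (by norm_num) ha6 hb6 hg hmu (by norm_num)
    have hk : K ≤ (246057 / 100000000000) := lfK (a := (311 / 100000)) (b := (159 / 50000)) (R := (55711 / 1000000)) (by norm_num) ha6 hb6 hm (by norm_num) (by norm_num) (by norm_num) (hl (by linarith)) (by norm_num) (by norm_num) (by norm_num)
    exact ⟨hk.trans (by norm_num), hb6.trans (by norm_num), lfX h0 hb6 hm (by norm_num) hk (by norm_num)⟩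
  rcases le_total g (81 / 25000) with hb7 | ha8
  · have hm : mu ≤ (162131 / 500000000) := lfM (a := (159 / 50000)) (b := (81 / 25000)) (by norm_num) ha7 hb7 hg hmu (by norm_num)
    have hk : K ≤ (245939 / 100000000000) := lfK (a := (159 / 50000)) (b := (81 / 25000)) (R := (54653 / 1000000)) (by norm_num) ha7 hb7 hm (by norm_num) (by norm_num) (by norm_num) (hl (by linarith)) (by norm_num) (by norm_num) (by norm_num)
    exact ⟨hk.trans (by norm_num), hb7.trans (by norm_num), lfX h0 hb7 hm (by norm_num) hk (by norm_num)⟩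
  rcases le_total g (33 / 10000) with hb8 | ha9
  · have hm : mu ≤ (318257 / 1000000000) := lfM (a := (81 / 25000)) (b := (33 / 10000)) (by norm_num) ha8 hb8 hg hmu (by norm_num)
    have hk : K ≤ (123253 / 50000000000) := lfK (a := (81 / 25000)) (b := (33 / 10000)) (R := (53783 / 1000000)) (by norm_num) ha8 hb8 hm (by norm_num) (by norm_num) (by norm_num) (hl (by linarith)) (by norm_num) (by norm_num) (by norm_num)
    exact ⟨hk.trans (by norm_num), hb8.trans (by norm_num), lfX h0 hb8 hm (by norm_num) hk (by norm_num)⟩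
  rcases le_total g (67 / 20000) with hb9 | ha10
  · have hm : mu ≤ (312221 / 1000000000) := lfM (a := (33 / 10000)) (b := (67 / 20000)) (by norm_num) ha9 hb9 hg hmu (by norm_num)
    have hk : K ≤ (245993 / 100000000000) := lfK (a := (33 / 10000)) (b := (67 / 20000)) (R := (5287 / 100000)) (by norm_num) ha9 hb9 hm (by norm_num) (by norm_num) (by norm_num) (hl (by linarith)) (by norm_num) (by norm_num) (by norm_num)
    exact ⟨hk.trans (by norm_num), hb9.trans (by norm_num), lfX h0 hb9 hm (by norm_num) hk (by norm_num)⟩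
  rcases le_total g (17 / 5000) with hb10 | ha11
  · have hm : mu ≤ (307207 / 1000000000) := lfM (a := (67 / 20000)) (b := (17 / 5000)) (by norm_num) ha10 hb10 hg hmu (by norm_num)
    have hk : K ≤ (246241 / 100000000000) := lfK (a := (67 / 20000)) (b := (17 / 5000)) (R := (10429 / 200000)) (by norm_num) ha10 hb10 hm (by norm_num) (by norm_num) (by norm_num) (hl (by linarith)) (by norm_num) (by norm_num) (by norm_num)
    exact ⟨hk.trans (by norm_num), hb10.trans (by norm_num), lfX h0 hb10 hm (by norm_num) hk (by norm_num)⟩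
  rcases le_total g (69 / 20000) with hb11 | ha12
  · have hm : mu ≤ (30219 / 100000000) := lfM (a := (17 / 5000)) (b := (69 / 20000)) (by norm_num) ha11 hb11 hg hmu (by norm_num)
    have hk : K ≤ (246383 / 100000000000) := lfK (a := (17 / 5000)) (b := (69 / 20000)) (R := (51419 / 1000000)) (by norm_num) ha11 hb11 hm (by norm_num) (by norm_num) (by norm_num) (hl (by linarith)) (by norm_num) (by norm_num) (by norm_num)
    exact ⟨hk.trans (by norm_num), hb11.trans (by norm_num), lfX h0 hb11 hm (by norm_num) hk (by norm_num)⟩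
  rcases le_total g (7 / 2000) with hb12 | ha13
  · have hm : mu ≤ (18573 / 62500000) := lfM (a := (69 / 20000)) (b := (7 / 2000)) (by norm_num) ha12 hb12 hg hmu (by norm_num)
    have hk : K ≤ (24643 / 10000000000) := lfK (a := (69 / 20000)) (b := (7 / 2000)) (R := (25347 / 500000)) (by norm_num) ha12 hb12 hm (by norm_num) (by norm_num) (by norm_num) (hl (by linarith)) (by norm_num) (by norm_num) (by norm_num)
    exact ⟨hk.trans (by norm_num), hb12.trans (by norm_num), lfX h0 hb12 hm (by norm_num) hk (by norm_num)⟩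
  rcases le_total g (71 / 20000) with hb13 | ha14
  · have hm : mu ≤ (292143 / 1000000000) := lfM (a := (7 / 2000)) (b := (71 / 20000)) (by norm_num) ha13 hb13 hg hmu (by norm_num)
    have hk : K ≤ (24637 / 10000000000) := lfK (a := (7 / 2000)) (b := (71 / 20000)) (R := (3123 / 62500)) (by norm_num) ha13 hb13 hm (by norm_num) (by norm_num) (by norm_num) (hl (by linarith)) (by norm_num) (by norm_num) (by norm_num)
    exact ⟨hk.trans (by norm_num), hb13.trans (by norm_num), lfX h0 hb13 hm (by norm_num) hk (by norm_num)⟩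
  rcases le_total g (9 / 2500) with hb14 | ha15
  · have hm : mu ≤ (287113 / 1000000000) := lfM (a := (71 / 20000)) (b := (9 / 2500)) (by norm_num) ha14 hb14 hg hmu (by norm_num)
    have hk : K ≤ (49243 / 20000000000) := lfK (a := (71 / 20000)) (b := (9 / 2500)) (R := (49243 / 1000000)) (by norm_num) ha14 hb14 hm (by norm_num) (by norm_num) (by norm_num) (hl (by linarith)) (by norm_num) (by norm_num) (by norm_num)
    exact ⟨hk.trans (by norm_num), hb14.trans (by norm_num), lfX h0 hb14 hm (by norm_num) hk (by norm_num)⟩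
  rcases le_total g (73 / 20000) with hb15 | ha16
  · have hm : mu ≤ (282079 / 1000000000) := lfM (a := (9 / 2500)) (b := (73 / 20000)) (by norm_num) ha15 hb15 hg hmu (by norm_num)
    have hk : K ≤ (49191 / 20000000000) := lfK (a := (9 / 2500)) (b := (73 / 20000)) (R := (48517 / 1000000)) (by norm_num) ha15 hb15 hm (by norm_num) (by norm_num) (by norm_num) (hl (by linarith)) (by norm_num) (by norm_num) (by norm_num)
    exact ⟨hk.trans (by norm_num), hb15.trans (by norm_num), lfX h0 hb15 hm (by norm_num) hk (by norm_num)⟩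
  rcases le_total g (371 / 100000) with hb16 | ha17
  · have hm : mu ≤ (34633 / 125000000) := lfM (a := (73 / 20000)) (b := (371 / 100000)) (by norm_num) ha16 hb16 hg hmu (by norm_num)
    have hk : K ≤ (61621 / 25000000000) := lfK (a := (73 / 20000)) (b := (371 / 100000)) (R := (9567 / 200000)) (by norm_num) ha16 hb16 hm (by norm_num) (by norm_num) (by norm_num) (hl (by linarith)) (by norm_num) (by norm_num) (by norm_num)
    exact ⟨hk.trans (by norm_num), hb16.trans (by norm_num), lfX h0 hb16 hm (by norm_num) hk (by norm_num)⟩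
  rcases le_total g (377 / 100000) with hb17 | ha18
  · have hm : mu ≤ (271013 / 1000000000) := lfM (a := (371 / 100000)) (b := (377 / 100000)) (by norm_num) ha17 hb17 hg hmu (by norm_num)
    have hk : K ≤ (245909 / 100000000000) := lfK (a := (371 / 100000)) (b := (377 / 100000)) (R := (11741 / 250000)) (by norm_num) ha17 hb17 hm (by norm_num) (by norm_num) (by norm_num) (hl (by linarith)) (by norm_num) (by norm_num) (by norm_num)
    exact ⟨hk.trans (by norm_num), hb17.trans (by norm_num), lfX h0 hb17 hm (by norm_num) hk (by norm_num)⟩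
  rcases le_total g (12 / 3125) with hb18 | ha19
  · have hm : mu ≤ (264977 / 1000000000) := lfM (a := (377 / 100000)) (b := (12 / 3125)) (by norm_num) ha18 hb18 hg hmu (by norm_num)
    have hk : K ≤ (246059 / 100000000000) := lfK (a := (377 / 100000)) (b := (12 / 3125)) (R := (5767 / 125000)) (by norm_num) ha18 hb18 hm (by norm_num) (by norm_num) (by norm_num) (hl (by linarith)) (by norm_num) (by norm_num) (by norm_num)
    exact ⟨hk.trans (by norm_num), hb18.trans (by norm_num), lfX h0 hb18 hm (by norm_num) hk (by norm_num)⟩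
  rcases le_total g (49 / 12500) with hb19 | ha20
  · have hm : mu ≤ (257923 / 1000000000) := lfM (a := (12 / 3125)) (b := (49 / 12500)) (by norm_num) ha19 hb19 hg hmu (by norm_num)
    have hk : K ≤ (1921 / 781250000) := lfK (a := (12 / 3125)) (b := (49 / 12500)) (R := (45163 / 1000000)) (by norm_num) ha19 hb19 hm (by norm_num) (by norm_num) (by norm_num) (hl (by linarith)) (by norm_num) (by norm_num) (by norm_num)
    exact ⟨hk.trans (by norm_num), hb19.trans (by norm_num), lfX h0 hb19 hm (by norm_num) hk (by norm_num)⟩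
  rcases le_total g (201 / 50000) with hb20 | ha21
  · have hm : mu ≤ (249867 / 1000000000) := lfM (a := (49 / 12500)) (b := (201 / 50000)) (by norm_num) ha20 hb20 hg hmu (by norm_num)
    have hk : K ≤ (61541 / 25000000000) := lfK (a := (49 / 12500)) (b := (201 / 50000)) (R := (44089 / 1000000)) (by norm_num) ha20 hb20 hm (by norm_num) (by norm_num) (by norm_num) (hl (by linarith)) (by norm_num) (by norm_num) (by norm_num)
    exact ⟨hk.trans (by norm_num), hb20.trans (by norm_num), lfX h0 hb20 hm (by norm_num) hk (by norm_num)⟩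
  rcases le_total g (83 / 20000) with hb21 | ha22
  · have hm : mu ≤ (59947 / 250000000) := lfM (a := (201 / 50000)) (b := (83 / 20000)) (by norm_num) ha21 hb21 hg hmu (by norm_num)
    have hk : K ≤ (61629 / 25000000000) := lfK (a := (201 / 50000)) (b := (83 / 20000)) (R := (42769 / 1000000)) (by norm_num) ha21 hb21 hm (by norm_num) (by norm_num) (by norm_num) (hl (by linarith)) (by norm_num) (by norm_num) (by norm_num)
    exact ⟨hk.trans (by norm_num), hb21.trans (by norm_num), lfX h0 hb21 hm (by norm_num) hk (by norm_num)⟩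
  rcases le_total g (27 / 6250) with hb22 | ha23
  · have hm : mu ≤ (226657 / 1000000000) := lfM (a := (83 / 20000)) (b := (27 / 6250)) (by norm_num) ha22 hb22 hg hmu (by norm_num)
    have hk : K ≤ (61587 / 25000000000) := lfK (a := (83 / 20000)) (b := (27 / 6250)) (R := (20529 / 500000)) (by norm_num) ha22 hb22 hm (by norm_num) (by norm_num) (by norm_num) (hl (by linarith)) (by norm_num) (by norm_num) (by norm_num)
    exact ⟨hk.trans (by norm_num), hb22.trans (by norm_num), lfX h0 hb22 hm (by norm_num) hk (by norm_num)⟩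
  rcases le_total g (57 / 12500) with hb23 | ha24
  · have hm : mu ≤ (209459 / 1000000000) := lfM (a := (27 / 6250)) (b := (57 / 12500)) (by norm_num) ha23 hb23 hg hmu (by norm_num)
    have hk : K ≤ (246373 / 100000000000) := lfK (a := (27 / 6250)) (b := (57 / 12500)) (R := (38901 / 1000000)) (by norm_num) ha23 hb23 hm (by norm_num) (by norm_num) (by norm_num) (hl (by linarith)) (by norm_num) (by norm_num) (by norm_num)
    exact ⟨hk.trans (by norm_num), hb23.trans (by norm_num), lfX h0 hb23 hm (by norm_num) hk (by norm_num)⟩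
  rcases le_total g (493 / 100000) with hb24 | ha25
  · have hm : mu ≤ (92557 / 500000000) := lfM (a := (57 / 12500)) (b := (493 / 100000)) (by norm_num) ha24 hb24 hg hmu (by norm_num)
    have hk : K ≤ (246507 / 100000000000) := lfK (a := (57 / 12500)) (b := (493 / 100000)) (R := (36001 / 1000000)) (by norm_num) ha24 hb24 hm (by norm_num) (by norm_num) (by norm_num) (hl (by linarith)) (by norm_num) (by norm_num) (by norm_num)
    exact ⟨hk.trans (by norm_num), hb24.trans (by norm_num), lfX h0 hb24 hm (by norm_num) hk (by norm_num)⟩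
  rcases le_total g (557 / 100000) with hb25 | ha26
  · have hm : mu ≤ (147377 / 1000000000) := lfM (a := (493 / 100000)) (b := (557 / 100000)) (by norm_num) ha25 hb25 hg hmu (by norm_num)
    have hk : K ≤ (4931 / 2000000000) := lfK (a := (493 / 100000)) (b := (557 / 100000)) (R := (3187 / 100000)) (by norm_num) ha25 hb25 hm (by norm_num) (by norm_num) (by norm_num) (hl (by linarith)) (by norm_num) (by norm_num) (by norm_num)
    exact ⟨hk.trans (by norm_num), hb25.trans (by norm_num), lfX h0 hb25 hm (by norm_num) hk (by norm_num)⟩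
  have hgl : g ≤ (317 / 50000) := hg.trans (by norm_num)
  have hm : mu ≤ (20243 / 250000000) := lfM (a := (557 / 100000)) (b := (317 / 50000)) (by norm_num) ha26 hgl hg hmu (by norm_num)
  have hk : K ≤ (204201 / 100000000000) := lfK (a := (557 / 100000)) (b := (317 / 50000)) (R := (2319 / 100000)) (by norm_num) ha26 hgl hm (by norm_num) (by norm_num) (by norm_num) (hl (by linarith)) (by norm_num) (by norm_num) (by norm_num)
  exact ⟨hk.trans (by norm_num), hgl.trans (by norm_num), lfX h0 hgl hm (by norm_num) hk (by norm_num)⟩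

theorem st4 {g K mu : ℝ} (h0 : 0 ≤ g) (hg : g ≤ 634 / 100000)
    (hmu : mu ≤ (634 / 1000000 - g / 10) * (1 + 8 / 3 * g) ^ 3)
    (hK : 0 ≤ K) (hK1 : K ≤ 3145 / 10000 * g ^ 2)
    (hl : 0 < g → 72 * K ≤ g * ((91241 / 500) * mu + (59519 / 20000) * g + (12821 / 100) * g ^ 2 + (-9999 / 500000))) :
    K ≤ (56301 / 25000000000) ∧ g ≤ (317 / 50000) ∧ 3 * K + (370923 / 12500000) * mu + 11 / 6 * g ^ 3 ≤ (479737 / 25000000000) := by
  rcases le_total g (11 / 20000) with hb0 | ha1
  · have hm : mu ≤ (318397 / 500000000) := lfM (a := 0) (b := (11 / 20000)) (by norm_num) h0 hb0 hg hmu (by norm_num)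
    have hk : K ≤ (4757 / 50000000000) := lfQ (b := (11 / 20000)) h0 hb0 (by norm_num) hK1 (by norm_num)
    exact ⟨hk.trans (by norm_num), hb0.trans (by norm_num), lfX h0 hb0 hm (by norm_num) hk (by norm_num)⟩
  rcases le_total g (69 / 50000) with hb1 | ha2
  · have hm : mu ≤ (73177 / 125000000) := lfM (a := (11 / 20000)) (b := (69 / 50000)) (by norm_num) ha1 hb1 hg hmu (by norm_num)
    have hk : K ≤ (29947 / 50000000000) := lfQ (b := (69 / 50000)) h0 hb1 (by norm_num) hK1 (by norm_num)
    exact ⟨hk.trans (by norm_num), hb1.trans (by norm_num), lfX h0 hb1 hm (by norm_num) hk (by norm_num)⟩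
  rcases le_total g (211 / 100000) with hb2 | ha3
  · have hm : mu ≤ (25221 / 50000000) := lfM (a := (69 / 50000)) (b := (211 / 100000)) (by norm_num) ha2 hb2 hg hmu (by norm_num)
    have hk : K ≤ (140019 / 100000000000) := lfQ (b := (211 / 100000)) h0 hb2 (by norm_num) hK1 (by norm_num)
    exact ⟨hk.trans (by norm_num), hb2.trans (by norm_num), lfX h0 hb2 hm (by norm_num) hk (by norm_num)⟩
  rcases le_total g (259 / 100000) with hb3 | ha4
  · have hm : mu ≤ (215913 / 500000000) := lfM (a := (211 / 100000)) (b := (259 / 100000)) (by norm_num) ha3 hb3 hg hmu (by norm_num)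
    have hk : K ≤ (21097 / 10000000000) := lfQ (b := (259 / 100000)) h0 hb3 (by norm_num) hK1 (by norm_num)
    exact ⟨hk.trans (by norm_num), hb3.trans (by norm_num), lfX h0 hb3 hm (by norm_num) hk (by norm_num)⟩
  rcases le_total g (137 / 50000) with hb4 | ha5
  · have hm : mu ≤ (383281 / 1000000000) := lfM (a := (259 / 100000)) (b := (137 / 50000)) (by norm_num) ha4 hb4 hg hmu (by norm_num)
    have hk : K ≤ (5619 / 2500000000) := lfK (a := (259 / 100000)) (b := (137 / 50000)) (R := (59061 / 1000000)) (by norm_num) ha4 hb4 hm (by norm_num) (by norm_num) (by norm_num) (hl (by linarith)) (by norm_num) (by norm_num) (by norm_num)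
    exact ⟨hk.trans (by norm_num), hb4.trans (by norm_num), lfX h0 hb4 hm (by norm_num) hk (by norm_num)⟩
  rcases le_total g (57 / 20000) with hb5 | ha6
  · have hm : mu ≤ (368271 / 1000000000) := lfM (a := (137 / 50000)) (b := (57 / 20000)) (by norm_num) ha5 hb5 hg hmu (by norm_num)
    have hk : K ≤ (224549 / 100000000000) := lfK (a := (137 / 50000)) (b := (57 / 20000)) (R := (7091 / 125000)) (by norm_num) ha5 hb5 hm (by norm_num) (by norm_num) (by norm_num) (hl (by linarith)) (by norm_num) (by norm_num) (by norm_num)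
    exact ⟨hk.trans (by norm_num), hb5.trans (by norm_num), lfX h0 hb5 hm (by norm_num) hk (by norm_num)⟩
  rcases le_total g (147 / 50000) with hb6 | ha7
  · have hm : mu ≤ (178637 / 500000000) := lfM (a := (57 / 20000)) (b := (147 / 50000)) (by norm_num) ha6 hb6 hg hmu (by norm_num)
    have hk : K ≤ (56203 / 25000000000) := lfK (a := (57 / 20000)) (b := (147 / 50000)) (R := (3441 / 62500)) (by norm_num) ha6 hb6 hm (by norm_num) (by norm_num) (by norm_num) (hl (by linarith)) (by norm_num) (by norm_num) (by norm_num)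
    exact ⟨hk.trans (by norm_num), hb6.trans (by norm_num), lfX h0 hb6 hm (by norm_num) hk (by norm_num)⟩
  rcases le_total g (301 / 100000) with hb7 | ha8
  · have hm : mu ≤ (174127 / 500000000) := lfM (a := (147 / 50000)) (b := (301 / 100000)) (by norm_num) ha7 hb7 hg hmu (by norm_num)
    have hk : K ≤ (224379 / 100000000000) := lfK (a := (147 / 50000)) (b := (301 / 100000)) (R := (6709 / 125000)) (by norm_num) ha7 hb7 hm (by norm_num) (by norm_num) (by norm_num) (hl (by linarith)) (by norm_num) (by norm_num) (by norm_num)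
    exact ⟨hk.trans (by norm_num), hb7.trans (by norm_num), lfX h0 hb7 hm (by norm_num) hk (by norm_num)⟩
  rcases le_total g (307 / 100000) with hb8 | ha9
  · have hm : mu ≤ (170623 / 500000000) := lfM (a := (301 / 100000)) (b := (307 / 100000)) (by norm_num) ha8 hb8 hg hmu (by norm_num)
    have hk : K ≤ (112179 / 50000000000) := lfK (a := (301 / 100000)) (b := (307 / 100000)) (R := (26309 / 500000)) (by norm_num) ha8 hb8 hm (by norm_num) (by norm_num) (by norm_num) (hl (by linarith)) (by norm_num) (by norm_num) (by norm_num)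
    exact ⟨hk.trans (by norm_num), hb8.trans (by norm_num), lfX h0 hb8 hm (by norm_num) hk (by norm_num)⟩
  rcases le_total g (313 / 100000) with hb9 | ha10
  · have hm : mu ≤ (335257 / 1000000000) := lfM (a := (307 / 100000)) (b := (313 / 100000)) (by norm_num) ha9 hb9 hg hmu (by norm_num)
    have hk : K ≤ (112489 / 50000000000) := lfK (a := (307 / 100000)) (b := (313 / 100000)) (R := (6469 / 125000)) (by norm_num) ha9 hb9 hm (by norm_num) (by norm_num) (by norm_num) (hl (by linarith)) (by norm_num) (by norm_num) (by norm_num)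
    exact ⟨hk.trans (by norm_num), hb9.trans (by norm_num), lfX h0 hb9 hm (by norm_num) hk (by norm_num)⟩
  rcases le_total g (159 / 50000) with hb10 | ha11
  · have hm : mu ≤ (82309 / 250000000) := lfM (a := (313 / 100000)) (b := (159 / 50000)) (by norm_num) ha10 hb10 hg hmu (by norm_num)
    have hk : K ≤ (224553 / 100000000000) := lfK (a := (313 / 100000)) (b := (159 / 50000)) (R := (25421 / 500000)) (by norm_num) ha10 hb10 hm (by norm_num) (by norm_num) (by norm_num) (hl (by linarith)) (by norm_num) (by norm_num) (by norm_num)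
    exact ⟨hk.trans (by norm_num), hb10.trans (by norm_num), lfX h0 hb10 hm (by norm_num) hk (by norm_num)⟩
  rcases le_total g (323 / 100000) with hb11 | ha12
  · have hm : mu ≤ (81059 / 250000000) := lfM (a := (159 / 50000)) (b := (323 / 100000)) (by norm_num) ha11 hb11 hg hmu (by norm_num)
    have hk : K ≤ (56211 / 25000000000) := lfK (a := (159 / 50000)) (b := (323 / 100000)) (R := (1253 / 25000)) (by norm_num) ha11 hb11 hm (by norm_num) (by norm_num) (by norm_num) (hl (by linarith)) (by norm_num) (by norm_num) (by norm_num)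
    exact ⟨hk.trans (by norm_num), hb11.trans (by norm_num), lfX h0 hb11 hm (by norm_num) hk (by norm_num)⟩
  rcases le_total g (41 / 12500) with hb12 | ha13
  · have hm : mu ≤ (319233 / 1000000000) := lfM (a := (323 / 100000)) (b := (41 / 12500)) (by norm_num) ha12 hb12 hg hmu (by norm_num)
    have hk : K ≤ (225031 / 100000000000) := lfK (a := (323 / 100000)) (b := (41 / 12500)) (R := (49397 / 1000000)) (by norm_num) ha12 hb12 hm (by norm_num) (by norm_num) (by norm_num) (hl (by linarith)) (by norm_num) (by norm_num) (by norm_num)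
    exact ⟨hk.trans (by norm_num), hb12.trans (by norm_num), lfX h0 hb12 hm (by norm_num) hk (by norm_num)⟩
  rcases le_total g (333 / 100000) with hb13 | ha14
  · have hm : mu ≤ (12569 / 40000000) := lfM (a := (41 / 12500)) (b := (333 / 100000)) (by norm_num) ha13 hb13 hg hmu (by norm_num)
    have hk : K ≤ (112561 / 50000000000) := lfK (a := (41 / 12500)) (b := (333 / 100000)) (R := (1947 / 40000)) (by norm_num) ha13 hb13 hm (by norm_num) (by norm_num) (by norm_num) (hl (by linarith)) (by norm_num) (by norm_num) (by norm_num)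
    exact ⟨hk.trans (by norm_num), hb13.trans (by norm_num), lfX h0 hb13 hm (by norm_num) hk (by norm_num)⟩
  rcases le_total g (169 / 50000) with hb14 | ha15
  · have hm : mu ≤ (309213 / 1000000000) := lfM (a := (333 / 100000)) (b := (169 / 50000)) (by norm_num) ha14 hb14 hg hmu (by norm_num)
    have hk : K ≤ (56277 / 25000000000) := lfK (a := (333 / 100000)) (b := (169 / 50000)) (R := (2997 / 62500)) (by norm_num) ha14 hb14 hm (by norm_num) (by norm_num) (by norm_num) (hl (by linarith)) (by norm_num) (by norm_num) (by norm_num)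
    exact ⟨hk.trans (by norm_num), hb14.trans (by norm_num), lfX h0 hb14 hm (by norm_num) hk (by norm_num)⟩
  rcases le_total g (343 / 100000) with hb15 | ha16
  · have hm : mu ≤ (304197 / 1000000000) := lfM (a := (169 / 50000)) (b := (343 / 100000)) (by norm_num) ha15 hb15 hg hmu (by norm_num)
    have hk : K ≤ (112497 / 50000000000) := lfK (a := (169 / 50000)) (b := (343 / 100000)) (R := (47229 / 1000000)) (by norm_num) ha15 hb15 hm (by norm_num) (by norm_num) (by norm_num) (hl (by linarith)) (by norm_num) (by norm_num) (by norm_num)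
    exact ⟨hk.trans (by norm_num), hb15.trans (by norm_num), lfX h0 hb15 hm (by norm_num) hk (by norm_num)⟩
  rcases le_total g (87 / 25000) with hb16 | ha17
  · have hm : mu ≤ (299177 / 1000000000) := lfM (a := (343 / 100000)) (b := (87 / 25000)) (by norm_num) ha16 hb16 hg hmu (by norm_num)
    have hk : K ≤ (224779 / 100000000000) := lfK (a := (343 / 100000)) (b := (87 / 25000)) (R := (23253 / 500000)) (by norm_num) ha16 hb16 hm (by norm_num) (by norm_num) (by norm_num) (hl (by linarith)) (by norm_num) (by norm_num) (by norm_num)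
    exact ⟨hk.trans (by norm_num), hb16.trans (by norm_num), lfX h0 hb16 hm (by norm_num) hk (by norm_num)⟩
  rcases le_total g (353 / 100000) with hb17 | ha18
  · have hm : mu ≤ (294153 / 1000000000) := lfM (a := (87 / 25000)) (b := (353 / 100000)) (by norm_num) ha17 hb17 hg hmu (by norm_num)
    have hk : K ≤ (14029 / 6250000000) := lfK (a := (87 / 25000)) (b := (353 / 100000)) (R := (45783 / 1000000)) (by norm_num) ha17 hb17 hm (by norm_num) (by norm_num) (by norm_num) (hl (by linarith)) (by norm_num) (by norm_num) (by norm_num)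
    exact ⟨hk.trans (by norm_num), hb17.trans (by norm_num), lfX h0 hb17 hm (by norm_num) hk (by norm_num)⟩
  rcases le_total g (359 / 100000) with hb18 | ha19
  · have hm : mu ≤ (72287 / 250000000) := lfM (a := (353 / 100000)) (b := (359 / 100000)) (by norm_num) ha18 hb18 hg hmu (by norm_num)
    have hk : K ≤ (224889 / 100000000000) := lfK (a := (353 / 100000)) (b := (359 / 100000)) (R := (45103 / 1000000)) (by norm_num) ha18 hb18 hm (by norm_num) (by norm_num) (by norm_num) (hl (by linarith)) (by norm_num) (by norm_num) (by norm_num)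
    exact ⟨hk.trans (by norm_num), hb18.trans (by norm_num), lfX h0 hb18 hm (by norm_num) hk (by norm_num)⟩
  rcases le_total g (183 / 50000) with hb19 | ha20
  · have hm : mu ≤ (283131 / 1000000000) := lfM (a := (359 / 100000)) (b := (183 / 50000)) (by norm_num) ha19 hb19 hg hmu (by norm_num)
    have hk : K ≤ (5627 / 2500000000) := lfK (a := (359 / 100000)) (b := (183 / 50000)) (R := (22139 / 500000)) (by norm_num) ha19 hb19 hm (by norm_num) (by norm_num) (by norm_num) (hl (by linarith)) (by norm_num) (by norm_num) (by norm_num)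
    exact ⟨hk.trans (by norm_num), hb19.trans (by norm_num), lfX h0 hb19 hm (by norm_num) hk (by norm_num)⟩
  rcases le_total g (187 / 50000) with hb20 | ha21
  · have hm : mu ≤ (276099 / 1000000000) := lfM (a := (183 / 50000)) (b := (187 / 50000)) (by norm_num) ha20 hb20 hg hmu (by norm_num)
    have hk : K ≤ (224967 / 100000000000) := lfK (a := (183 / 50000)) (b := (187 / 50000)) (R := (43309 / 1000000)) (by norm_num) ha20 hb20 hm (by norm_num) (by norm_num) (by norm_num) (hl (by linarith)) (by norm_num) (by norm_num) (by norm_num)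
    exact ⟨hk.trans (by norm_num), hb20.trans (by norm_num), lfX h0 hb20 hm (by norm_num) hk (by norm_num)⟩
  rcases le_total g (383 / 100000) with hb21 | ha22
  · have hm : mu ≤ (268049 / 1000000000) := lfM (a := (187 / 50000)) (b := (383 / 100000)) (by norm_num) ha21 hb21 hg hmu (by norm_num)
    have hk : K ≤ (112227 / 50000000000) := lfK (a := (187 / 50000)) (b := (383 / 100000)) (R := (8439 / 200000)) (by norm_num) ha21 hb21 hm (by norm_num) (by norm_num) (by norm_num) (hl (by linarith)) (by norm_num) (by norm_num) (by norm_num)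
    exact ⟨hk.trans (by norm_num), hb21.trans (by norm_num), lfX h0 hb21 hm (by norm_num) hk (by norm_num)⟩
  rcases le_total g (79 / 20000) with hb22 | ha23
  · have hm : mu ≤ (32377 / 125000000) := lfM (a := (383 / 100000)) (b := (79 / 20000)) (by norm_num) ha22 hb22 hg hmu (by norm_num)
    have hk : K ≤ (225063 / 100000000000) := lfK (a := (383 / 100000)) (b := (79 / 20000)) (R := (641 / 15625)) (by norm_num) ha22 hb22 hm (by norm_num) (by norm_num) (by norm_num) (hl (by linarith)) (by norm_num) (by norm_num) (by norm_num)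
    exact ⟨hk.trans (by norm_num), hb22.trans (by norm_num), lfX h0 hb22 hm (by norm_num) hk (by norm_num)⟩
  rcases le_total g (41 / 10000) with hb23 | ha24
  · have hm : mu ≤ (123463 / 500000000) := lfM (a := (79 / 20000)) (b := (41 / 10000)) (by norm_num) ha23 hb23 hg hmu (by norm_num)
    have hk : K ≤ (22447 / 10000000000) := lfK (a := (79 / 20000)) (b := (41 / 10000)) (R := (39419 / 1000000)) (by norm_num) ha23 hb23 hm (by norm_num) (by norm_num) (by norm_num) (hl (by linarith)) (by norm_num) (by norm_num) (by norm_num)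
    exact ⟨hk.trans (by norm_num), hb23.trans (by norm_num), lfX h0 hb23 hm (by norm_num) hk (by norm_num)⟩
  rcases le_total g (431 / 100000) with hb24 | ha25
  · have hm : mu ≤ (231813 / 1000000000) := lfM (a := (41 / 10000)) (b := (431 / 100000)) (by norm_num) ha24 hb24 hg hmu (by norm_num)
    have hk : K ≤ (224551 / 100000000000) := lfK (a := (41 / 10000)) (b := (431 / 100000)) (R := (4689 / 125000)) (by norm_num) ha24 hb24 hm (by norm_num) (by norm_num) (by norm_num) (hl (by linarith)) (by norm_num) (by norm_num) (by norm_num)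
    exact ⟨hk.trans (by norm_num), hb24.trans (by norm_num), lfX h0 hb24 hm (by norm_num) hk (by norm_num)⟩
  rcases le_total g (463 / 100000) with hb25 | ha26
  · have hm : mu ≤ (210613 / 1000000000) := lfM (a := (431 / 100000)) (b := (463 / 100000)) (by norm_num) ha25 hb25 hg hmu (by norm_num)
    have hk : K ≤ (3513 / 1562500000) := lfK (a := (431 / 100000)) (b := (463 / 100000)) (R := (34963 / 1000000)) (by norm_num) ha25 hb25 hm (by norm_num) (by norm_num) (by norm_num) (hl (by linarith)) (by norm_num) (by norm_num) (by norm_num)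
    exact ⟨hk.trans (by norm_num), hb25.trans (by norm_num), lfX h0 hb25 hm (by norm_num) hk (by norm_num)⟩
  rcases le_total g (517 / 100000) with hb26 | ha27
  · have hm : mu ≤ (178171 / 1000000000) := lfM (a := (463 / 100000)) (b := (517 / 100000)) (by norm_num) ha26 hb26 hg hmu (by norm_num)
    have hk : K ≤ (224953 / 100000000000) := lfK (a := (463 / 100000)) (b := (517 / 100000)) (R := (979 / 31250)) (by norm_num) ha26 hb26 hm (by norm_num) (by norm_num) (by norm_num) (hl (by linarith)) (by norm_num) (by norm_num) (by norm_num)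
    exact ⟨hk.trans (by norm_num), hb26.trans (by norm_num), lfX h0 hb26 hm (by norm_num) hk (by norm_num)⟩
  rcases le_total g (623 / 100000) with hb27 | ha28
  · have hm : mu ≤ (122929 / 1000000000) := lfM (a := (517 / 100000)) (b := (623 / 100000)) (by norm_num) ha27 hb27 hg hmu (by norm_num)
    have hk : K ≤ (224549 / 100000000000) := lfK (a := (517 / 100000)) (b := (623 / 100000)) (R := (25951 / 1000000)) (by norm_num) ha27 hb27 hm (by norm_num) (by norm_num) (by norm_num) (hl (by linarith)) (by norm_num) (by norm_num) (by norm_num)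
    exact ⟨hk.trans (by norm_num), hb27.trans (by norm_num), lfX h0 hb27 hm (by norm_num) hk (by norm_num)⟩
  have hgl : g ≤ (317 / 50000) := hg.trans (by norm_num)
  have hm : mu ≤ (723 / 62500000) := lfM (a := (623 / 100000)) (b := (317 / 50000)) (by norm_num) ha28 hgl hg hmu (by norm_num)
  have hk : K ≤ (27007 / 50000000000) := lfK (a := (623 / 100000)) (b := (317 / 50000)) (R := (3067 / 500000)) (by norm_num) ha28 hgl hm (by norm_num) (by norm_num) (by norm_num) (hl (by linarith)) (by norm_num) (by norm_num) (by norm_num)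
  exact ⟨hk.trans (by norm_num), hgl.trans (by norm_num), lfX h0 hgl hm (by norm_num) hk (by norm_num)⟩

end KS
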