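import Pool.Agent.Helper25.K4.W4
import Pool.Agent.Helper25.K4.St

/-!
# The steps of the chain, I
-/

set_option autoImplicit false

open Finset hiding dens

namespace KS

open KF KT KW

section
variable {V : Type} [Fintype V] {E : V → V → V → Bool} {w : V → ℝ} {κ : V → Option (Fin 6)}
  {α : Fin 6 → ℝ} {θ : ℝ}

theorem step0 (h : Env E w κ α θ) (hθ1 : θ ≤ 1 / 1000000000000)
    (S : LocL (466 / 10000) (57 / 10000) (36 / 1000) (7 / 10000) (471183360 / 348016640))
    (T : ∑ i, KB.tt (wp w κ α) (kt κ) i ^ 2 ≤ (109 / 2500) ^ 2) (l : L - 2 / 7 ≤ (109 / 100000)) :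
    ∑ i, KB.tt (wp w κ α) (kt κ) i ^ 2 ≤ (3591 / 200000) ^ 2 ∧ L - 2 / 7 ≤ (58029 / 250000000) ∧
      ∀ i, df E (wp w κ α) (kt κ) i ≤ (56417 / 250000000) := by
  have h0 := h.g0
  have hg := h.g1
  obtain ⟨a, c⟩ := st0 h0 hg h.mu' h.K0 h.K1
  have b : unO w κ ≤ (317 / 50000) := hg.trans (by norm_num)
  have p : unO w κ ^ 2 ≤ (317 / 50000) ^ 2 := pow_le_pow_left₀ h0 b 2
  have u := h.xlo (τ := (109 / 2500)) (x0 := (12051 / 100000)) (by norm_num) T (by linarith)
  have v : (1 + unO w κ / (2 * (12051 / 100000))) ^ 2 / 30 ≤ 36 / 1000 := by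
    have f : (1 + unO w κ / (2 * (12051 / 100000))) ^ 2 ≤ (1 + (317 / 50000) / (2 * (12051 / 100000))) ^ 2 :=
      pow_le_pow_left₀ (by positivity) (by gcongr) 2
    norm_num at f ⊢
    linarith
  have e := h.loc2 (s := (4763 / 2500000)) (τ' := (109 / 2500)) (x0 := (12051 / 100000)) S (by norm_num)
    (by norm_num) T (by norm_num) (by norm_num; linarith) l (by norm_num at p ⊢; linarith)
    (by norm_num) u v le_rfl
  obtain ⟨T', l', D'⟩ := h.next0 (ρ := (8847761 / 25000000)) (S := (12895281 / 40000000000)) (by linarith) e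
    (by norm_num) c (by norm_num)
  refine ⟨T'.trans (by norm_num), ?_, fun i => (D' i).trans (by norm_num)⟩
  norm_num at l' ⊢
  linarith

theorem step1 (h : Env E w κ α θ) (hθ1 : θ ≤ 1 / 1000000000000)
    (S : LocL (190 / 10000) (45 / 10000) (36 / 1000) (7 / 10000) (434368512 / 384831488))
    (T : ∑ i, KB.tt (wp w κ α) (kt κ) i ^ 2 ≤ (3591 / 200000) ^ 2) (l : L - 2 / 7 ≤ (58029 / 250000000)) :
    ∑ i, KB.tt (wp w κ α) (kt κ) i ^ 2 ≤ (10961 / 1000000) ^ 2 ∧ L - 2 / 7 ≤ (1059777 / 12500000000) ∧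
      ∀ i, df E (wp w κ α) (kt κ) i ≤ (824271 / 10000000000) := by
  have h0 := h.g0
  have hg := h.g1
  obtain ⟨a, b, c⟩ := st1 h0 hg h.mu' h.K0 h.K1
  have p : unO w κ ^ 2 ≤ (317 / 50000) ^ 2 := pow_le_pow_left₀ h0 b 2
  have u := h.xlo (τ := (3591 / 200000)) (x0 := (14393 / 100000)) (by norm_num) T (by linarith)
  have v : (1 + unO w κ / (2 * (14393 / 100000))) ^ 2 / 30 ≤ 36 / 1000 := by
    have f : (1 + unO w κ / (2 * (14393 / 100000))) ^ 2 ≤ (1 + (317 / 50000) / (2 * (14393 / 100000))) ^ 2 :=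
      pow_le_pow_left₀ (by positivity) (by gcongr) 2
    norm_num at f ⊢
    linarith
  have e := h.loc2 (s := (19147 / 10000000)) (τ' := (3591 / 200000)) (x0 := (14393 / 100000)) S (by norm_num)
    (by norm_num) T (by norm_num) (by norm_num; linarith) l (by norm_num at p ⊢; linarith)
    (by norm_num) u v le_rfl
  obtain ⟨T', l', D'⟩ := h.next (ρ := (6436197 / 50000000)) (X := (8242709 / 100000000000)) (τ := (3278583 / 200000000)) (c := (13723 / 20000))
    (Y := (824271 / 10000000000)) e (by norm_num) c (by norm_num)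
    (fun i => ((le_abs_self _).trans (h.tp (by norm_num) T i)).trans (by norm_num))
    (by norm_num) (by norm_num) (by linarith)
  refine ⟨?_, ?_, D'⟩
  · norm_num at T' ⊢
    linarith
  · norm_num at l' ⊢
    linarith

theorem step2 (h : Env E w κ α θ) (hθ1 : θ ≤ 1 / 1000000000000)
    (S : LocL (114 / 10000) (44 / 10000) (36 / 1000) (7 / 10000) (424079360 / 395120640))
    (T : ∑ i, KB.tt (wp w κ α) (kt κ) i ^ 2 ≤ (10961 / 1000000) ^ 2) (l : L - 2 / 7 ≤ (1059777 / 12500000000)) :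
    ∑ i, KB.tt (wp w κ α) (kt κ) i ^ 2 ≤ (7901 / 1000000) ^ 2 ∧ L - 2 / 7 ≤ (1206799 / 25000000000) ∧
      ∀ i, df E (wp w κ α) (kt κ) i ≤ (4693107 / 100000000000) := by
  have h0 := h.g0
  have hg := h.g1
  obtain ⟨a, b, c⟩ := st2 h0 hg h.mu' h.K0 h.K1
  have p : unO w κ ^ 2 ≤ (317 / 50000) ^ 2 := pow_le_pow_left₀ h0 b 2
  have u := h.xlo (τ := (10961 / 1000000)) (x0 := (15031 / 100000)) (by norm_num) T (by linarith)
  have v : (1 + unO w κ / (2 * (15031 / 100000))) ^ 2 / 30 ≤ 36 / 1000 := by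
    have f : (1 + unO w κ / (2 * (15031 / 100000))) ^ 2 ≤ (1 + (317 / 50000) / (2 * (15031 / 100000))) ^ 2 :=
      pow_le_pow_left₀ (by positivity) (by gcongr) 2
    norm_num at f ⊢
    linarith
  have e := h.loc2 (s := (19147 / 10000000)) (τ' := (10961 / 1000000)) (x0 := (15031 / 100000)) S (by norm_num)
    (by norm_num) T (by norm_num) (by norm_num; linarith) l (by norm_num at p ⊢; linarith)
    (by norm_num) u v le_rfl
  obtain ⟨T', l', D'⟩ := h.next (ρ := (1832271 / 25000000)) (X := (2346553 / 50000000000)) (τ := (10007393 / 1000000000)) (c := (9399 / 12500))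
    (Y := (4693107 / 100000000000)) e (by norm_num) c (by norm_num)
    (fun i => ((le_abs_self _).trans (h.tp (by norm_num) T i)).trans (by norm_num))
    (by norm_num) (by norm_num) (by linarith)
  refine ⟨?_, ?_, D'⟩
  · norm_num at T' ⊢
    linarith
  · norm_num at l' ⊢
    linarith

theorem step3 (h : Env E w κ α θ) (hθ1 : θ ≤ 1 / 1000000000000)
    (S : LocL (82 / 10000) (20 / 10000) (355 / 10000) (7 / 10000) (418541568 / 400658432))
    (K : LR.LinkL (82 / 10000) (1 / 30) (-266 / 10000) (72 / 7) 108 144 0 (108 / 25))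
    (T : ∑ i, KB.tt (wp w κ α) (kt κ) i ^ 2 ≤ (7901 / 1000000) ^ 2) (l : L - 2 / 7 ≤ (1206799 / 25000000000))
    (D : ∀ i, df E (wp w κ α) (kt κ) i ≤ (4693107 / 100000000000)) :
    ∑ i, KB.tt (wp w κ α) (kt κ) i ^ 2 ≤ (6081 / 1000000) ^ 2 ∧ L - 2 / 7 ≤ (2968887 / 100000000000) ∧
      ∀ i, df E (wp w κ α) (kt κ) i ≤ (2886417 / 100000000000) := by
  have h0 := h.g0
  have hg := h.g1
  have hq := h.xlo (τ := (7901 / 1000000)) (x0 := (15311 / 100000)) (by norm_num) T (by linarith)
  have lk : 0 < unO w κ → 72 * EK E w (up w κ α) ≤ unO w κ * ((91629 / 500) * KB.mu E (wp w κ α) (kt κ) +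
      (300467 / 100000) * unO w κ + (12821 / 100) * unO w κ ^ 2 + (-3963 / 250000)) := fun hp =>
    h.link (τ' := (7901 / 1000000)) (xl := (159453 / 1000000)) (xu := (173881 / 1000000)) (x0 := (15311 / 100000)) (Y := (4693107 / 100000000000))
      (ε := 1 / 1000000) K
      (by norm_num) (by norm_num) T le_rfl (by norm_num) (by norm_num) (by norm_num) hq
      (by norm_num; linarith) (by norm_num) (by norm_num) (by norm_num) (by norm_num) (by norm_num)
      (by norm_num) (by norm_num) D (by norm_num) (by norm_num) (hθ1.trans (by norm_num))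
      (by norm_num) hp
  obtain ⟨a, b, c⟩ := st3 h0 hg h.mu' h.K0 h.K1 lk
  have p : unO w κ ^ 2 ≤ (317 / 50000) ^ 2 := pow_le_pow_left₀ h0 b 2
  have u := h.xlo (τ := (7901 / 1000000)) (x0 := (15311 / 100000)) (by norm_num) T (by linarith)
  have v : (1 + unO w κ / (2 * (15311 / 100000))) ^ 2 / 30 ≤ 355 / 10000 := by
    have f : (1 + unO w κ / (2 * (15311 / 100000))) ^ 2 ≤ (1 + (317 / 50000) / (2 * (15311 / 100000))) ^ 2 :=
      pow_le_pow_left₀ (by positivity) (by gcongr) 2
    norm_num at f ⊢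
    linarith
  have e := h.loc2 (s := (8417 / 10000000)) (τ' := (7901 / 1000000)) (x0 := (15311 / 100000)) S (by norm_num)
    (by norm_num) T (by norm_num) (by norm_num; linarith) l (by norm_num at p ⊢; linarith)
    (by norm_num) u v le_rfl
  obtain ⟨T', l', D'⟩ := h.next (ρ := (4463437 / 100000000)) (X := (180401 / 6250000000)) (τ := (7213613 / 1000000000)) (c := (78069 / 100000))
    (Y := (2886417 / 100000000000)) e (by norm_num) c (by norm_num)
    (fun i => ((le_abs_self _).trans (h.tp (by norm_num) T i)).trans (by norm_num))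
    (by norm_num) (by norm_num) (by linarith)
  refine ⟨?_, ?_, D'⟩
  · norm_num at T' ⊢
    linarith
  · norm_num at l' ⊢
    linarith

theorem step4 (h : Env E w κ α θ) (hθ1 : θ ≤ 1 / 1000000000000)
    (S : LocL (61 / 10000) (20 / 10000) (355 / 10000) (7 / 10000) (415588352 / 403611648))
    (K : LR.LinkL (82 / 10000) (1 / 30) (-266 / 10000) (72 / 7) 108 144 0 (108 / 25))
    (T : ∑ i, KB.tt (wp w κ α) (kt κ) i ^ 2 ≤ (6081 / 1000000) ^ 2) (l : L - 2 / 7 ≤ (2968887 / 100000000000))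
    (D : ∀ i, df E (wp w κ α) (kt κ) i ≤ (2886417 / 100000000000)) :
    ∑ i, KB.tt (wp w κ α) (kt κ) i ^ 2 ≤ (981 / 200000) ^ 2 ∧ L - 2 / 7 ≤ (1973777 / 100000000000) ∧
      ∀ i, df E (wp w κ α) (kt κ) i ≤ (1918949 / 100000000000) := by
  have h0 := h.g0
  have hg := h.g1
  have hq := h.xlo (τ := (6081 / 1000000)) (x0 := (15477 / 100000)) (by norm_num) T (by linarith)
  have lk : 0 < unO w κ → 72 * EK E w (up w κ α) ≤ unO w κ * ((91241 / 500) * KB.mu E (wp w κ α) (kt κ) +
      (59519 / 20000) * unO w κ + (12821 / 100) * unO w κ ^ 2 + (-9999 / 500000)) := fun hp =>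
    h.link (τ' := (6081 / 1000000)) (xl := (80557 / 500000)) (xu := (172219 / 1000000)) (x0 := (15477 / 100000)) (Y := (2886417 / 100000000000))
      (ε := 1 / 1000000) K
      (by norm_num) (by norm_num) T le_rfl (by norm_num) (by norm_num) (by norm_num) hq
      (by norm_num; linarith) (by norm_num) (by norm_num) (by norm_num) (by norm_num) (by norm_num)
      (by norm_num) (by norm_num) D (by norm_num) (by norm_num) (hθ1.trans (by norm_num))
      (by norm_num) hp
  obtain ⟨a, b, c⟩ := st4 h0 hg h.mu' h.K0 h.K1 lk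
  have p : unO w κ ^ 2 ≤ (317 / 50000) ^ 2 := pow_le_pow_left₀ h0 b 2
  have u := h.xlo (τ := (6081 / 1000000)) (x0 := (15477 / 100000)) (by norm_num) T (by linarith)
  have v : (1 + unO w κ / (2 * (15477 / 100000))) ^ 2 / 30 ≤ 355 / 10000 := by
    have f : (1 + unO w κ / (2 * (15477 / 100000))) ^ 2 ≤ (1 + (317 / 50000) / (2 * (15477 / 100000))) ^ 2 :=
      pow_le_pow_left₀ (by positivity) (by gcongr) 2
    norm_num at f ⊢
    linarith
  have e := h.loc2 (s := (4021 / 5000000)) (τ' := (6081 / 1000000)) (x0 := (15477 / 100000)) S (by norm_num)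
    (by norm_num) T (by norm_num) (by norm_num; linarith) l (by norm_num at p ⊢; linarith)
    (by norm_num) u v le_rfl
  obtain ⟨T', l', D'⟩ := h.next (ρ := (370923 / 12500000)) (X := (479737 / 25000000000)) (τ := (5551953 / 1000000000)) (c := (79781 / 100000))
    (Y := (1918949 / 100000000000)) e (by norm_num) c (by norm_num)
    (fun i => ((le_abs_self _).trans (h.tp (by norm_num) T i)).trans (by norm_num))
    (by norm_num) (by norm_num) (by linarith)
  refine ⟨?_, ?_, D'⟩
  · norm_num at T' ⊢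
    linarith
  · norm_num at l' ⊢
    linarith

end

end KS
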