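import Pool.Agent.Helper91.KF.F3

/-!
# Symmetrisation over the labels
-/

set_option autoImplicit false

open Finset

namespace KF

/-- The labelled 3-graph induced by a sample. -/
def ind {V : Type} {n : ℕ} (E : V → V → V → Bool) (φ : Fin n → V) : Fin n → Fin n → Fin n → Bool :=
  fun i j k => E (φ i) (φ j) (φ k)

/-- Relabelling. -/
def rel {n m : ℕ} (G : Fin n → Fin n → Fin n → Bool) (σ : Fin m → Fin n) :
    Fin m → Fin m → Fin m → Bool :=
  fun i j k => G (σ i) (σ j) (σ k)

theorem ind_K4m {V : Type} {n : ℕ} {E : V → V → V → Bool} (hE : K4m E) (φ : Fin n → V) :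
    K4m (ind E φ) := hE.comp φ

theorem rel_K4m {n m : ℕ} {G : Fin n → Fin n → Fin n → Bool} (hG : K4m G) (σ : Fin m → Fin n) :
    K4m (rel G σ) := hG.comp σ

theorem rel_rel {n m l : ℕ} (G : Fin n → Fin n → Fin n → Bool) (σ : Fin m → Fin n)
    (τ : Fin l → Fin m) : rel (rel G σ) τ = rel G (fun i => σ (τ i)) := rfl

theorem ind_rel {V : Type} {n m : ℕ} (E : V → V → V → Bool) (φ : Fin n → V) (σ : Fin m → Fin n) :
    ind E (fun i => φ (σ i)) = rel (ind E φ) σ := rfl

/-- The sum over all relabellings. -/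
noncomputable def symS {n : ℕ} (g : (Fin n → Fin n → Fin n → Bool) → ℝ)
    (G : Fin n → Fin n → Fin n → Bool) : ℝ :=
  ∑ σ : Equiv.Perm (Fin n), g (rel G σ)

theorem symS_rel {n : ℕ} (g : (Fin n → Fin n → Fin n → Bool) → ℝ)
    (G : Fin n → Fin n → Fin n → Bool) (π : Equiv.Perm (Fin n)) :
    symS g (rel G π) = symS g G := by
  unfold symS
  rw [← Equiv.sum_comp (Equiv.mulLeft π) (fun σ : Equiv.Perm (Fin n) => g (rel G σ))]
  refine Finset.sum_congr rfl fun σ _ => ?_
  rw [rel_rel]
  rfl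

section
variable {V : Type} [Fintype V]

/-- The expectation of `g` is the average of its symmetrisation. -/
theorem Ev_sym {n : ℕ} (g : (Fin n → Fin n → Fin n → Bool) → ℝ) (E : V → V → V → Bool)
    {w : V → ℝ} (hw : Wt w) :
    Ev n w (fun φ => symS g (ind E φ)) = (n.factorial : ℝ) * Ev n w (fun φ => g (ind E φ)) := by
  unfold symS
  rw [Ev_sum]
  have h : ∀ σ : Equiv.Perm (Fin n), Ev n w (fun φ => g (rel (ind E φ) σ)) =
      Ev n w (fun φ => g (ind E φ)) := by
    intro σ
    exact Ev_perm σ w hw.one (fun φ => g (ind E φ))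
  simp only [h, Finset.sum_const, Finset.card_univ, Fintype.card_perm, Fintype.card_fin,
    nsmul_eq_mul]

theorem Ev_nonneg_of_sym {n : ℕ} {g : (Fin n → Fin n → Fin n → Bool) → ℝ}
    (hg : ∀ G, K4m G → 0 ≤ symS g G) {E : V → V → V → Bool} (hE : K4m E)
    {w : V → ℝ} (hw : Wt w) : 0 ≤ Ev n w (fun φ => g (ind E φ)) := by
  have h1 : 0 ≤ Ev n w (fun φ => symS g (ind E φ)) :=
    Ev_nonneg n w hw.nn fun φ => hg _ (ind_K4m hE φ)
  rw [Ev_sym g E hw] at h1
  have h2 : (0 : ℝ) < (n.factorial : ℝ) := by exact_mod_cast n.factorial_pos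
  exact nonneg_of_mul_nonneg_right (by linarith) h2

end

/-- It is enough to check representatives. -/
theorem symS_of_reps {n : ℕ} {g : (Fin n → Fin n → Fin n → Bool) → ℝ}
    {R : Set (Fin n → Fin n → Fin n → Bool)}
    (henum : ∀ G, K4m G → ∃ π : Equiv.Perm (Fin n), rel G π ∈ R)
    (hR : ∀ G ∈ R, 0 ≤ symS g G) : ∀ G, K4m G → 0 ≤ symS g G := by
  intro G hG
  obtain ⟨π, hπ⟩ := henum G hG
  rw [← symS_rel g G π]
  exact hR _ hπ

/-! ## Coset representatives -/

/-- The sum over all relabellings of a function invariant under a subgroup `H` is a sum over coset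
representatives. `h` runs through the subgroup, `c` through the representatives; the hypothesis
says that `(i, j) ↦ c i * h j` is a bijection. -/
theorem symS_cosets {n : ℕ} {g : (Fin n → Fin n → Fin n → Bool) → ℝ} {ι κ : Type} [Fintype ι]
    [Fintype κ] (c : ι → Equiv.Perm (Fin n)) (h : κ → Equiv.Perm (Fin n))
    (hb : Function.Bijective (fun p : ι × κ => c p.1 * h p.2))
    {G : Fin n → Fin n → Fin n → Bool}
    (hinv : ∀ i j, g (rel (rel G (c i)) (h j)) = g (rel G (c i))) :
    symS g G = (Fintype.card κ : ℝ) * ∑ i, g (rel G (c i)) := by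
  unfold symS
  rw [← (Equiv.ofBijective _ hb).sum_comp, Fintype.sum_prod_type]
  have : ∀ i, ∑ j, g (rel G (Equiv.ofBijective _ hb (i, j))) =
      (Fintype.card κ : ℝ) * g (rel G (c i)) := by
    intro i
    have h1 : ∀ j, g (rel G (Equiv.ofBijective _ hb (i, j))) = g (rel G (c i)) := by
      intro j
      rw [← hinv i j]
      rfl
    simp only [h1, Finset.sum_const, Finset.card_univ, nsmul_eq_mul]
  rw [Finset.mul_sum]
  exact Finset.sum_congr rfl fun i _ => this i

end KF
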