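import Pool.Agent.Helper64.K4.WP3
import Pool.Agent.Helper25.K4.Dfs

/-!
# Transfers to the environment `w'`
-/

set_option autoImplicit false

open Finset hiding dens

namespace KS

open KF KT KW

section
variable {V : Type} [Fintype V] {E : V → V → V → Bool} {w : V → ℝ} {κ : V → Option (Fin 6)}
  {α : Fin 6 → ℝ}

/-- Product of three factors, not all of the same class. -/
theorem rh_three' (hw : ∀ v, 0 ≤ w v) (hα : ∀ i, 0 ≤ α i) (h1 : ∑ i, α i = 1) {m : ℝ}
    (hm : 0 < m) (hx : ∀ i, m ≤ xsO w κ i) {i j l : Fin 6} (hn : ¬(i = j ∧ j = l)) :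
    rh w κ α i * rh w κ α j * rh w κ α l ≤ (1 + 2 * unO w κ / (3 * m)) ^ 3 := by
  have hg := unO_nn (κ := κ) hw
  have a1 : ∀ i, rh w κ α i ≤ 1 + unO w κ / m * α i := by
    intro i
    unfold rh
    have : unO w κ * α i / xsO w κ i ≤ unO w κ * α i / m :=
      div_le_div_of_nonneg_left (mul_nonneg hg (hα i)) hm (hx i)
    have e : unO w κ / m * α i = unO w κ * α i / m := by ring
    linarith
  have a0 : ∀ i, α i ≤ 1 := by
    intro i
    rw [← h1]
    exact single_le_sum (f := α) (fun j _ => hα j) (mem_univ i)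
  have ap : ∀ i j, i ≠ j → α i + α j ≤ 1 := by
    intro i j hij
    rw [← h1]
    have : ∑ l ∈ ({i, j} : Finset (Fin 6)), α l ≤ ∑ l, α l :=
      sum_le_sum_of_subset_of_nonneg (subset_univ _) fun l _ _ => hα l
    rwa [sum_pair hij] at this
  have a2 : α i + α j + α l ≤ 2 := by
    by_cases hij : i = j
    · have hjl : j ≠ l := fun h => hn ⟨hij, h⟩
      have b1 := ap j l hjl
      have b2 := a0 i
      linarith
    · have b1 := ap i j hij
      have b2 := a0 l
      linarith
  set c := unO w κ / m with hc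
  have hgm : 0 ≤ c := div_nonneg hg hm.le
  have r0 : ∀ i, 0 ≤ rh w κ α i := fun i => by linarith [rh_ge (κ := κ) hw hα i]
  have p0 : ∀ i, 0 ≤ c * α i := fun i => mul_nonneg hgm (hα i)
  have a3 : rh w κ α i * rh w κ α j * rh w κ α l ≤
      (1 + c * α i) * (1 + c * α j) * (1 + c * α l) :=
    mul_le_mul (mul_le_mul (a1 i) (a1 j) (r0 j) (by linarith [p0 i])) (a1 l) (r0 l)
      (mul_nonneg (by linarith [p0 i]) (by linarith [p0 j]))
  refine a3.trans ?_
  have e3 : 2 * unO w κ / (3 * m) = 2 * c / 3 := by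
    rw [hc]
    field_simp
  rw [e3]
  -- AM-GM
  set p := 1 + c * α i with hp
  set q := 1 + c * α j with hq
  set r := 1 + c * α l with hr
  have hp0 : 0 < p := by linarith [p0 i]
  have hq0 : 0 < q := by linarith [p0 j]
  have hr0 : 0 < r := by linarith [p0 l]
  have hs : p + q + r ≤ 3 + 2 * c := by
    have : c * (α i + α j + α l) ≤ c * 2 := mul_le_mul_of_nonneg_left a2 hgm
    rw [hp, hq, hr]
    linarith
  have h27 : 27 * (p * q * r) ≤ (p + q + r) ^ 3 := by
    nlinarith [mul_nonneg hp0.le (sq_nonneg (q - r)), mul_nonneg hq0.le (sq_nonneg (p - r)),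
      mul_nonneg hr0.le (sq_nonneg (p - q)), mul_nonneg (add_pos (add_pos hp0 hq0) hr0).le
      (add_nonneg (add_nonneg (sq_nonneg (p - q)) (sq_nonneg (q - r))) (sq_nonneg (p - r)))]
  have h28 : (p + q + r) ^ 3 ≤ (3 + 2 * c) ^ 3 :=
    pow_le_pow_left₀ (by positivity) hs 3
  have e4 : (1 + 2 * c / 3) ^ 3 = (3 + 2 * c) ^ 3 / 27 := by ring
  rw [e4]
  linarith

theorem bad_ne {i j l : Fin 6} (h : KB.bad i j l = true) : ¬(i = j ∧ j = l) := by
  revert i j l
  decide

theorem bO_bad (i j l : Fin 6) : bO (some i) (some j) (some l) = KB.bad i j l := by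
  revert i j l
  decide

/-- Bad triples in the environment. -/
theorem bet_le (hw : ∀ v, 0 ≤ w v) (hα : ∀ i, 0 ≤ α i) (h1 : ∑ i, α i = 1) {m : ℝ} (hm : 0 < m)
    (hx : ∀ i, m ≤ xsO w κ i) :
    KB.bet E (wp w κ α) (kt κ) ≤ (1 + 2 * unO w κ / (3 * m)) ^ 3 * beO E w κ := by
  unfold KB.bet KB.bb beO
  rw [mul_sum]
  refine sum_le_sum fun x _ => ?_
  rw [mul_sum, mul_sum]
  refine sum_le_sum fun y _ => ?_
  rw [mul_sum, mul_sum]
  refine sum_le_sum fun z _ => ?_
  have hg := unO_nn (κ := κ) hw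
  have hc : 0 ≤ (1 + 2 * unO w κ / (3 * m)) ^ 3 := by positivity
  have h4 : ∀ b : Bool, 0 ≤ w x * w y * w z * (b2r b * b2r (E x y z)) := fun b =>
    mul_nonneg (mul_nonneg (mul_nonneg (hw x) (hw y)) (hw z)) (mul_nonneg (b2r_nonneg _)
      (b2r_nonneg _))
  cases hX : κ x with
  | none =>
    rw [wp_none hX, zero_mul]
    exact mul_nonneg hc (h4 _)
  | some a =>
    cases hy : κ y with
    | none =>
      rw [wp_none hy, zero_mul, zero_mul, mul_zero]
      exact mul_nonneg hc (h4 _)
    | some b =>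
      cases hz : κ z with
      | none =>
        rw [wp_none hz, mul_zero, zero_mul, mul_zero]
        exact mul_nonneg hc (h4 _)
      | some c =>
        have e0 : kt κ x = a := by unfold kt; rw [hX]; rfl
        have e1 : kt κ y = b := by unfold kt; rw [hy]; rfl
        have e2 : kt κ z = c := by unfold kt; rw [hz]; rfl
        rw [wp_some hX, wp_some hy, wp_some hz, e0, e1, e2, bO_bad]
        by_cases hD : KB.bad a b c = true
        · have h3 := rh_three' (κ := κ) hw hα h1 hm hx (bad_ne hD)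
          have h5 := mul_le_mul_of_nonneg_right h3 (h4 (KB.bad a b c))
          linarith
        · have : KB.bad a b c = false := by simpa using hD
          rw [this]
          simp

end

end KS
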