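import Pool.Agent.Helper25.K4.W1
import Pool.Agent.Helper20.KT.Y7

/-!
# The environment of the chain
-/

set_option autoImplicit false

open Finset hiding dens

namespace KS

open KF KT KW

/-- All facts on the extremal configuration and its environment. -/
structure Env {V : Type} [Fintype V] (E : V → V → V → Bool) (w : V → ℝ) (κ : V → Option (Fin 6))
    (α : Fin 6 → ℝ) (θ : ℝ) : Prop where
  ho : Opt E w
  θ0 : 0 ≤ θ
  dL : L - θ ≤ dens E w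
  d2 : 2 / 7 < dens E w
  L1 : L - 2 / 7 ≤ 109 / 100000
  mu : muO E w κ + 1 / 10 * unO w κ ≤ 634 / 1000000
  mo1 : ∀ v, κ v ≠ none → mo E w κ (κ v) v ≤ 1 / 30
  mo0 : ∀ v, κ v = none → ∀ i : Fin 6, 1 / 30 ≤ mo E w κ (some i) v
  be : beO E w κ ≤ 106 / 100000
  t1 : ∀ i, tO w κ i ≤ 153 / 10000
  t2 : ∑ i, tO w κ i ^ 2 ≤ 172 / 100000
  α0 : ∀ i, 0 ≤ α i
  α1 : ∑ i, α i = 1
  αb : ∀ b, unO w κ * lam E w κ α b ≤ unO w κ * lst E w κ α
  αm : ∀ β : Fin 6 → ℝ, (∀ i, 0 ≤ β i) → ∑ i, β i = 1 →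
    dens E (wp w κ β) ≤ dens E (wp w κ α)

theorem exists_env (hH : HE (1 / 10) (59 / 100000)) (hL : 2 / 7 < L) {θ : ℝ} (hθ : 0 < θ) :
    ∃ (V : Type) (_ : Fintype V) (E : V → V → V → Bool) (w : V → ℝ) (κ : V → Option (Fin 6))
      (α : Fin 6 → ℝ), Env E w κ α θ := by
  obtain ⟨V, iV, E, w, κ, ho, h1, h2, h3, h4, h5, h6, h7, h8, h9, h10, h11, h12⟩ :=
    KT.start10 hH hL hθ zero_lt_one
  obtain ⟨α, a0, a1, a2, a3⟩ := exists_best (κ := κ) ho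
  exact ⟨V, iV, E, w, κ, α, ho, hθ.le, h1, h2, h3, h5, h6, h7, h8, h9, h10, a0, a1, a2, a3⟩

section
variable {V : Type} [Fintype V] {E : V → V → V → Bool} {w : V → ℝ} {κ : V → Option (Fin 6)}
  {α : Fin 6 → ℝ} {θ : ℝ}

namespace Env

theorem g0 (h : Env E w κ α θ) : 0 ≤ unO w κ := KT.unO_nn h.ho.wt.nn

theorem g1 (h : Env E w κ α θ) : unO w κ ≤ 634 / 100000 := by
  have h1 := h.mu
  have h2 := KT.muO_nn (κ := κ) (E := E) h.ho.wt.nn
  linarith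

theorem dL' (h : Env E w κ α θ) : dens E w ≤ L := dens_le_L h.ho.free h.ho.wt

theorem x8 (h : Env E w κ α θ) (i : Fin 6) : 1 / 8 ≤ xsO w κ i := by
  have h1 := sq_le_of_sum (sum_tO (κ := κ) h.ho.wt) i
  have h2 := h.t2
  have h3 : -(38 / 1000) ≤ tO w κ i := by
    by_contra hc
    push Not at hc
    nlinarith
  have h4 := xsO_tO (w := w) (κ := κ) i
  have h5 := h.g1
  linarith

theorem xp (h : Env E w κ α θ) (i : Fin 6) : 0 < xsO w κ i := by linarith [h.x8 i]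

theorem xn (h : Env E w κ α θ) (i : Fin 6) : xsO w κ i ≠ 0 := (h.xp i).ne'

theorem wt (h : Env E w κ α θ) : Wt (wp w κ α) := Wt_wp h.ho.wt h.xn h.α0 h.α1

theorem K0 (h : Env E w κ α θ) : 0 ≤ EK E w (up w κ α) :=
  EK_nn h.ho (up_sum (w := w) (κ := κ) h.xn h.α1)

theorem L2 (h : Env E w κ α θ) : L ≤ 28712 / 100000 := by linarith [h.L1]

theorem K1 (h : Env E w κ α θ) :
    EK E w (up w κ α) ≤ 3145 / 10000 * unO w κ ^ 2 := by
  have h1 := EK_le h.ho h.xp h.α0 h.α1 (by linarith [h.g1]) h.αm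
  have h2 := h.g0
  have h3 := h.g1
  have h4 : dens E w ≤ 28712 / 100000 := h.dL'.trans h.L2
  have h5 : 0 ≤ unO w κ ^ 2 := sq_nonneg _
  have h6 : 27 / 25 * dens E w * unO w κ ^ 2 ≤ 27 / 25 * (28712 / 100000) * unO w κ ^ 2 :=
    mul_le_mul_of_nonneg_right (by linarith) h5
  have h7 : unO w κ ^ 3 ≤ 634 / 100000 * unO w κ ^ 2 := by
    have : unO w κ * unO w κ ^ 2 ≤ 634 / 100000 * unO w κ ^ 2 := mul_le_mul_of_nonneg_right h3 h5
    nlinarith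
  linarith

theorem mu' (h : Env E w κ α θ) : KB.mu E (wp w κ α) (kt κ) ≤
    (634 / 1000000 - unO w κ / 10) * (1 + 8 / 3 * unO w κ) ^ 3 := by
  have h1 := mu_le (E := E) h.ho.wt.nn h.α0 h.α1 (by norm_num : (0 : ℝ) < 1 / 8) h.x8
  have h2 := h.g0
  have e : unO w κ / (3 * (1 / 8)) = 8 / 3 * unO w κ := by ring
  rw [e] at h1
  have h3 : muO E w κ ≤ 634 / 1000000 - unO w κ / 10 := by linarith [h.mu]
  have h4 : 0 ≤ (1 + 8 / 3 * unO w κ) ^ 3 := by positivity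
  have h5 := mul_le_mul_of_nonneg_left h3 h4
  linarith

theorem mu0 (h : Env E w κ α θ) : 0 ≤ KB.mu E (wp w κ α) (kt κ) := by
  have hw := h.wt
  unfold KB.mu
  exact sum_nonneg fun a _ => mul_nonneg (hw.nn a) (KB.mm_nn hw a)

theorem mu7 (h : Env E w κ α θ) : KB.mu E (wp w κ α) (kt κ) ≤ 7 / 10000 := by
  have h1 := h.mu'
  have h2 := h.g0
  have h3 := h.g1
  have h4 : (634 / 1000000 - unO w κ / 10) * (1 + 8 / 3 * unO w κ) ^ 3 ≤ 7 / 10000 := by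
    have a1 : (1 + 8 / 3 * unO w κ) ^ 3 ≤ 1 + 9 * unO w κ := by
      have b1 : unO w κ ^ 2 ≤ 67 / 10000 * unO w κ := by nlinarith
      have b2 : unO w κ ^ 3 ≤ 67 / 10000 * unO w κ := by
        have : unO w κ ^ 3 = unO w κ * unO w κ ^ 2 := by ring
        nlinarith [sq_nonneg (unO w κ)]
      have e : (1 + 8 / 3 * unO w κ) ^ 3 = 1 + 8 * unO w κ + 64 / 3 * unO w κ ^ 2 +
        512 / 27 * unO w κ ^ 3 := by ring
      rw [e]
      linarith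
    have a2 : (634 / 1000000 - unO w κ / 10) * (1 + 8 / 3 * unO w κ) ^ 3 ≤
        (634 / 1000000 - unO w κ / 10) * (1 + 9 * unO w κ) :=
      mul_le_mul_of_nonneg_left a1 (by linarith)
    nlinarith [sq_nonneg (unO w κ)]
  linarith

theorem bet' (h : Env E w κ α θ) : KB.bet E (wp w κ α) (kt κ) ≤ 118 / 100000 := by
  have h1 := bet_le (E := E) h.ho.wt.nn h.α0 h.α1 (by norm_num : (0 : ℝ) < 1 / 8) h.x8
  have h2 := h.g0
  have h3 := h.g1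
  have e : 2 * unO w κ / (3 * (1 / 8)) = 16 / 3 * unO w κ := by ring
  rw [e] at h1
  have h4 : (1 + 16 / 3 * unO w κ) ^ 3 ≤ (1 + 16 / 3 * (634 / 100000)) ^ 3 :=
    pow_le_pow_left₀ (by positivity) (by linarith) 3
  have h5 := mul_le_mul h4 h.be (beO_nn h.ho.wt.nn) (by positivity)
  refine (h1.trans h5).trans ?_
  norm_num

/-- Sizes, one sided. -/
theorem tt1 (h : Env E w κ α θ) (i : Fin 6) :
    KB.tt (wp w κ α) (kt κ) i ≤ 153 / 10000 + 5 / 6 * unO w κ := by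
  have h1 := tt_wp (α := α) h.xn i
  have h2 := h.t1 i
  have h3 := xsO_tO (w := w) (κ := κ) i
  have h4 := h.g0
  have h5 : α i ≤ 1 := by
    rw [← h.α1]
    exact single_le_sum (f := α) (fun j _ => h.α0 j) (mem_univ i)
  have h6 : unO w κ * α i ≤ unO w κ * 1 := mul_le_mul_of_nonneg_left h5 h4
  rw [h1, h3]
  linarith

/-- The sum of the squares of the deviations. -/
theorem tt2 (h : Env E w κ α θ) (i : Fin 6) :
    KB.tt (wp w κ α) (kt κ) i ^ 2 ≤ 5 / 6 * ∑ j, KB.tt (wp w κ α) (kt κ) j ^ 2 :=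
  sq_le_of_sum (KB.sum_tt h.wt) i

theorem s9 (h : Env E w κ α θ) {τ : ℝ} (hτ0 : 0 ≤ τ)
    (ht : ∀ i, KB.tt (wp w κ α) (kt κ) i ≤ τ) :
    35 / 36 * (L - 2 / 7) + (171 / 200 - 103 / 10 * τ) * ∑ i, KB.tt (wp w κ α) (kt κ) i ^ 2 +
      ∑ i, df E (wp w κ α) (kt κ) i + KB.mu E (wp w κ α) (kt κ) ≤
      KB.bet E (wp w κ α) (kt κ) + (θ + 3 * EK E w (up w κ α) + 11 / 6 * unO w κ ^ 3) :=
  KW.s9 h.ho.free h.wt (dens_wp h.ho h.xn h.α0 h.α1 h.dL) (by linarith [h.L2]) hτ0 ht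

/-- Degrees. -/
theorem deg' (h : Env E w κ α θ) {s ℓ δ : ℝ} (hs : 0 ≤ s)
    (hK : 28712 / 100000 * EK E w (up w κ α) ≤ s ^ 2) (hl : L - 2 / 7 ≤ ℓ)
    (hd : 2 * s + 2 * unO w κ ^ 2 + ℓ ≤ δ) (v : V) : |deg E (wp w κ α) v - 2 / 7| ≤ δ := by
  have h1 : dens E w * EK E w (up w κ α) ≤ s ^ 2 := by
    have : dens E w * EK E w (up w κ α) ≤ 28712 / 100000 * EK E w (up w κ α) :=
      mul_le_mul_of_nonneg_right (h.dL'.trans h.L2) h.K0
    linarith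
  have h2 := abs_le.1 (deg_near h.ho h.xn h.α0 h.α1 hs h1 v)
  have h3 := h.d2
  have h4 := h.dL'
  rw [abs_le]
  constructor <;> linarith [h2.1, h2.2]

/-- Missing pairs. -/
theorem mm' (h : Env E w κ α θ) {m : ℝ} (hm : (1 + 4 * unO w κ) ^ 2 / 30 ≤ m) (v : V)
    (hv : 0 < wp w κ α v) : KB.mm E (wp w κ α) (kt κ) v ≤ m := by
  have hn : κ v ≠ none := fun hc => by
    rw [wp_none hc] at hv
    exact lt_irrefl _ hv
  obtain ⟨i, hi⟩ := Option.ne_none_iff_exists'.1 hn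
  have h1 := mv_le (E := E) h.ho.wt.nn h.α0 h.α1 (by norm_num : (0 : ℝ) < 1 / 8) h.x8 i v
  have h2 := h.mo1 v hn
  rw [hi] at h2
  have h3 : kt κ v = i := by unfold kt; rw [hi]; rfl
  rw [mm_eq_mv, h3]
  have e : unO w κ / (2 * (1 / 8)) = 4 * unO w κ := by ring
  rw [e] at h1
  have h4 : (1 + 4 * unO w κ) ^ 2 * mo E w κ (some i) v ≤ (1 + 4 * unO w κ) ^ 2 * (1 / 30) :=
    mul_le_mul_of_nonneg_left h2 (sq_nonneg _)
  linarith

/-- The local lemma in the environment. -/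
theorem loc (h : Env E w κ α θ) {τ δ m U r s ℓ : ℝ} (hl : LocL τ δ m U r)
    (hT : ∑ i, KB.tt (wp w κ α) (kt κ) i ^ 2 ≤ τ ^ 2) (hs : 0 ≤ s)
    (hK : 28712 / 100000 * EK E w (up w κ α) ≤ s ^ 2) (hL : L - 2 / 7 ≤ ℓ)
    (hd : 2 * s + 2 * unO w κ ^ 2 + ℓ ≤ δ) (hm : (1 + 4 * unO w κ) ^ 2 / 30 ≤ m)
    (hU : 7 / 10000 ≤ U) :
    KB.bet E (wp w κ α) (kt κ) ≤ r * KB.mu E (wp w κ α) (kt κ) :=
  hl V _ E (wp w κ α) (kt κ) h.ho.free h.wt hT (fun v _ => h.deg' hs hK hL hd v)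
    (fun v hv => h.mm' hm v hv) (h.mu7.trans hU)

end Env

end

end KS
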