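import Pool.Agent.Helper25.K4.W2

/-!
# One step of the chain
-/

set_option autoImplicit false

open Finset hiding dens

namespace KS

open KF KT KW

section
variable {V : Type} [Fintype V] {E : V → V → V → Bool} {w : V → ℝ} {κ : V → Option (Fin 6)}
  {α : Fin 6 → ℝ} {θ : ℝ}

namespace Env

theorem df0 (h : Env E w κ α θ) (i : Fin 6) : 0 ≤ df E (wp w κ α) (kt κ) i :=
  df_nn h.ho.free h.wt i

/-- One-sided bound of the deviations from the sum of the squares. -/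
theorem tp (h : Env E w κ α θ) {τ : ℝ} (hτ : 0 ≤ τ)
    (hT : ∑ i, KB.tt (wp w κ α) (kt κ) i ^ 2 ≤ τ ^ 2) (i : Fin 6) :
    |KB.tt (wp w κ α) (kt κ) i| ≤ 913 / 1000 * τ := by
  refine abs_le_of_sq_le_sq ?_ (by positivity)
  have h1 := h.tt2 i
  nlinarith [sq_nonneg τ]

/-- Lower bound of the sizes of the classes. -/
theorem xlo (h : Env E w κ α θ) {τ x0 : ℝ} (hτ : 0 ≤ τ)
    (hT : ∑ i, KB.tt (wp w κ α) (kt κ) i ^ 2 ≤ τ ^ 2)
    (hx : x0 ≤ 1 / 6 - 913 / 1000 * τ - unO w κ) (i : Fin 6) : x0 ≤ xsO w κ i := by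
  have h1 := (abs_le.1 (h.tp hτ hT i)).1
  have h2 := tt_wp (α := α) h.xn i
  have h3 := h.g0
  have h5 : α i ≤ 1 := by
    rw [← h.α1]
    exact single_le_sum (f := α) (fun j _ => h.α0 j) (mem_univ i)
  have h6 : unO w κ * α i ≤ unO w κ * 1 := mul_le_mul_of_nonneg_left h5 h3
  rw [h2] at h1
  linarith

/-- Missing pairs. -/
theorem mm2 (h : Env E w κ α θ) {m x0 : ℝ} (h0 : 0 < x0) (hx : ∀ i, x0 ≤ xsO w κ i)
    (hm : (1 + unO w κ / (2 * x0)) ^ 2 / 30 ≤ m) (v : V)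
    (hv : 0 < wp w κ α v) : KB.mm E (wp w κ α) (kt κ) v ≤ m := by
  have hn : κ v ≠ none := fun hc => by
    rw [wp_none hc] at hv
    exact lt_irrefl _ hv
  obtain ⟨i, hi⟩ := Option.ne_none_iff_exists'.1 hn
  have h1 := mv_le (E := E) h.ho.wt.nn h.α0 h.α1 h0 hx i v
  have h2 := h.mo1 v hn
  rw [hi] at h2
  have h3 : kt κ v = i := by unfold kt; rw [hi]; rfl
  rw [mm_eq_mv, h3]
  have h4 : (1 + unO w κ / (2 * x0)) ^ 2 * mo E w κ (some i) v ≤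
      (1 + unO w κ / (2 * x0)) ^ 2 * (1 / 30) :=
    mul_le_mul_of_nonneg_left h2 (sq_nonneg _)
  linarith

/-- The local lemma in the environment, general form. -/
theorem loc2 (h : Env E w κ α θ) {τ δ m U r s ℓ τ' x0 : ℝ} (hl : LocL τ δ m U r)
    (hτ0 : 0 ≤ τ') (hτ : τ' ≤ τ)
    (hT : ∑ i, KB.tt (wp w κ α) (kt κ) i ^ 2 ≤ τ' ^ 2) (hs : 0 ≤ s)
    (hK : 28712 / 100000 * EK E w (up w κ α) ≤ s ^ 2) (hL : L - 2 / 7 ≤ ℓ)
    (hd : 2 * s + 2 * unO w κ ^ 2 + ℓ ≤ δ) (h0 : 0 < x0) (hx : ∀ i, x0 ≤ xsO w κ i)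
    (hm : (1 + unO w κ / (2 * x0)) ^ 2 / 30 ≤ m) (hU : 7 / 10000 ≤ U) :
    KB.bet E (wp w κ α) (kt κ) ≤ r * KB.mu E (wp w κ α) (kt κ) :=
  hl V _ E (wp w κ α) (kt κ) h.ho.free h.wt (hT.trans (pow_le_pow_left₀ hτ0 hτ 2))
    (fun v _ => h.deg' hs hK hL hd v) (fun v hv => h.mm2 h0 hx hm v hv) (h.mu7.trans hU)

/-- The new bounds from the inequality of the densities. -/
theorem next (h : Env E w κ α θ) {r ρ X τ Y c : ℝ}
    (hb : KB.bet E (wp w κ α) (kt κ) ≤ r * KB.mu E (wp w κ α) (kt κ)) (hr : r - 1 ≤ ρ)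
    (hX : 3 * EK E w (up w κ α) + ρ * KB.mu E (wp w κ α) (kt κ) + 11 / 6 * unO w κ ^ 3 ≤ X)
    (hτ0 : 0 ≤ τ) (ht : ∀ i, KB.tt (wp w κ α) (kt κ) i ≤ τ) (hc0 : 0 < c)
    (hc : c ≤ 171 / 200 - 103 / 10 * τ) (hY : X + θ ≤ Y) :
    c * ∑ i, KB.tt (wp w κ α) (kt κ) i ^ 2 ≤ Y ∧ 35 / 36 * (L - 2 / 7) ≤ Y ∧
      ∀ i, df E (wp w κ α) (kt κ) i ≤ Y := by
  have h1 := h.s9 hτ0 ht
  have h2 : 0 ≤ ∑ i, KB.tt (wp w κ α) (kt κ) i ^ 2 := sum_nonneg fun i _ => sq_nonneg _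
  have h3 : 0 ≤ ∑ i, df E (wp w κ α) (kt κ) i := sum_nonneg fun i _ => h.df0 i
  have h4 : (r - 1) * KB.mu E (wp w κ α) (kt κ) ≤ ρ * KB.mu E (wp w κ α) (kt κ) :=
    mul_le_mul_of_nonneg_right hr h.mu0
  have h5 : c * ∑ i, KB.tt (wp w κ α) (kt κ) i ^ 2 ≤
      (171 / 200 - 103 / 10 * τ) * ∑ i, KB.tt (wp w κ α) (kt κ) i ^ 2 :=
    mul_le_mul_of_nonneg_right hc h2
  have h6 : 0 ≤ c * ∑ i, KB.tt (wp w κ α) (kt κ) i ^ 2 := mul_nonneg hc0.le h2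
  have h7 : 0 ≤ L - 2 / 7 := by linarith [h.d2, h.dL']
  refine ⟨by linarith, by linarith, fun i => ?_⟩
  have h8 : df E (wp w κ α) (kt κ) i ≤ ∑ i, df E (wp w κ α) (kt κ) i :=
    single_le_sum (f := fun i => df E (wp w κ α) (kt κ) i) (fun j _ => h.df0 j) (mem_univ i)
  linarith

/-- The first step, with the one-sided bound of the sizes. -/
theorem next0 (h : Env E w κ α θ) {r ρ S : ℝ} (hθ : θ ≤ 1 / 100000000000)
    (hb : KB.bet E (wp w κ α) (kt κ) ≤ r * KB.mu E (wp w κ α) (kt κ)) (hr : r - 1 ≤ ρ)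
    (hX : 3 * EK E w (up w κ α) + ρ * KB.mu E (wp w κ α) (kt κ) + 11 / 6 * unO w κ ^ 3 ≤
      S * (171 / 200 - 103 / 10 * (153 / 10000 + 5 / 6 * unO w κ)) - 1 / 100000000000)
    (hS : 0 ≤ S) :
    ∑ i, KB.tt (wp w κ α) (kt κ) i ^ 2 ≤ S ∧ 35 / 36 * (L - 2 / 7) ≤ 7 / 10 * S ∧
      ∀ i, df E (wp w κ α) (kt κ) i ≤ 7 / 10 * S := by
  have g0 := h.g0
  have g1 := h.g1
  have h1 := h.s9 (τ := 153 / 10000 + 5 / 6 * unO w κ) (by linarith) h.tt1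
  have h2 : 0 ≤ ∑ i, KB.tt (wp w κ α) (kt κ) i ^ 2 := sum_nonneg fun i _ => sq_nonneg _
  have h3 : 0 ≤ ∑ i, df E (wp w κ α) (kt κ) i := sum_nonneg fun i _ => h.df0 i
  have h4 : (r - 1) * KB.mu E (wp w κ α) (kt κ) ≤ ρ * KB.mu E (wp w κ α) (kt κ) :=
    mul_le_mul_of_nonneg_right hr h.mu0
  set c := 171 / 200 - 103 / 10 * (153 / 10000 + 5 / 6 * unO w κ) with hc
  have c0 : 0 < c := by rw [hc]; linarith
  have c1 : c ≤ 7 / 10 := by rw [hc]; linarith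
  have h6 : 0 ≤ c * ∑ i, KB.tt (wp w κ α) (kt κ) i ^ 2 := mul_nonneg c0.le h2
  have h7 : 0 ≤ L - 2 / 7 := by linarith [h.d2, h.dL']
  have h9 : S * c ≤ 7 / 10 * S := by nlinarith
  refine ⟨?_, by linarith, fun i => ?_⟩
  · have h10 : c * ∑ i, KB.tt (wp w κ α) (kt κ) i ^ 2 ≤ c * S := by linarith
    exact le_of_mul_le_mul_left h10 c0
  · have h8 : df E (wp w κ α) (kt κ) i ≤ ∑ i, df E (wp w κ α) (kt κ) i :=
      single_le_sum (f := fun i => df E (wp w κ α) (kt κ) i) (fun j _ => h.df0 j) (mem_univ i)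
    linarith

/-- The start: the bound of the bad triples. -/
theorem first (h : Env E w κ α θ) (hθ : θ ≤ 1 / 100000000000) :
    ∑ i, KB.tt (wp w κ α) (kt κ) i ^ 2 ≤ (436 / 10000) ^ 2 ∧
      ∀ i, df E (wp w κ α) (kt κ) i ≤ 122 / 100000 := by
  have g0 := h.g0
  have g1 := h.g1
  have h1 := h.s9 (τ := 153 / 10000 + 5 / 6 * (634 / 100000)) (by norm_num)
    (fun i => (h.tt1 i).trans (by linarith))
  have h2 : 0 ≤ ∑ i, KB.tt (wp w κ α) (kt κ) i ^ 2 := sum_nonneg fun i _ => sq_nonneg _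
  have h3 : 0 ≤ ∑ i, df E (wp w κ α) (kt κ) i := sum_nonneg fun i _ => h.df0 i
  have h4 := h.mu0
  have h5 := h.bet'
  have h6 := h.K1
  have h7 : 0 ≤ L - 2 / 7 := by linarith [h.d2, h.dL']
  have h9 : unO w κ ^ 2 ≤ (634 / 100000) ^ 2 := pow_le_pow_left₀ g0 g1 2
  have h10 : unO w κ ^ 3 ≤ (634 / 100000) ^ 3 := pow_le_pow_left₀ g0 g1 3
  have h11 : KB.bet E (wp w κ α) (kt κ) + (θ + 3 * EK E w (up w κ α) + 11 / 6 * unO w κ ^ 3) ≤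
      1219 / 1000000 := by
    norm_num at h9 h10
    linarith
  constructor
  · norm_num at h1 ⊢
    linarith
  · intro i
    have h8 : df E (wp w κ α) (kt κ) i ≤ ∑ i, df E (wp w κ α) (kt κ) i :=
      single_le_sum (f := fun i => df E (wp w κ α) (kt κ) i) (fun j _ => h.df0 j) (mem_univ i)
    norm_num at h1 ⊢
    linarith

/-- The end: nothing is unassigned. -/
theorem last (h : Env E w κ α θ) {r : ℝ}
    (hb : KB.bet E (wp w κ α) (kt κ) ≤ r * KB.mu E (wp w κ α) (kt κ)) (hr : r ≤ 1)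
    (hT : ∑ i, KB.tt (wp w κ α) (kt κ) i ^ 2 ≤ (1 / 100) ^ 2) (hg : unO w κ = 0) :
    35 / 36 * (L - 2 / 7) ≤ θ := by
  have h1 := h.s9 (τ := 913 / 1000 * (1 / 100)) (by norm_num)
    (fun i => (le_abs_self _).trans (h.tp (by norm_num) hT i))
  have h2 : 0 ≤ ∑ i, KB.tt (wp w κ α) (kt κ) i ^ 2 := sum_nonneg fun i _ => sq_nonneg _
  have h3 : 0 ≤ ∑ i, df E (wp w κ α) (kt κ) i := sum_nonneg fun i _ => h.df0 i
  have h4 := h.mu0
  have h5 := h.K1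
  have h6 := h.K0
  rw [hg] at h1 h5
  have h7 : r * KB.mu E (wp w κ α) (kt κ) ≤ 1 * KB.mu E (wp w κ α) (kt κ) :=
    mul_le_mul_of_nonneg_right hr h4
  nlinarith

/-- The missing triples when the local lemma has a factor below one. -/
theorem muS (h : Env E w κ α θ) {r r1 : ℝ} (hθ : θ ≤ 1 / 1000000000000)
    (hb : KB.bet E (wp w κ α) (kt κ) ≤ r * KB.mu E (wp w κ α) (kt κ)) (hr : r1 ≤ 1 - r)
    (hT : ∑ i, KB.tt (wp w κ α) (kt κ) i ^ 2 ≤ (1 / 100) ^ 2) :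
    r1 * KB.mu E (wp w κ α) (kt κ) ≤ 3 * EK E w (up w κ α) + 11 / 6 * unO w κ ^ 3 +
      1 / 1000000000000 := by
  have h1 := h.s9 (τ := 913 / 1000 * (1 / 100)) (by norm_num)
    (fun i => (le_abs_self _).trans (h.tp (by norm_num) hT i))
  have h2 : 0 ≤ ∑ i, KB.tt (wp w κ α) (kt κ) i ^ 2 := sum_nonneg fun i _ => sq_nonneg _
  have h3 : 0 ≤ ∑ i, df E (wp w κ α) (kt κ) i := sum_nonneg fun i _ => h.df0 i
  have h4 : r1 * KB.mu E (wp w κ α) (kt κ) ≤ (1 - r) * KB.mu E (wp w κ α) (kt κ) :=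
    mul_le_mul_of_nonneg_right hr h.mu0
  have h7 : 0 ≤ L - 2 / 7 := by linarith [h.d2, h.dL']
  have h8 : 0 ≤ (171 / 200 - 103 / 10 * (913 / 1000 * (1 / 100))) *
      ∑ i, KB.tt (wp w κ α) (kt κ) i ^ 2 := mul_nonneg (by norm_num) h2
  linarith

end Env

end

end KS
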