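import Pool.Agent.Helper25.K4.W3
import Pool.Agent.Helper64.K4.WP6
import Pool.Agent.Helper85.LR.D

/-!
# The inequality of an unassigned vertex in the chain
-/

set_option autoImplicit false

open Finset hiding dens

namespace KS

open KF KT KW

section
variable {V : Type} [Fintype V] {E : V → V → V → Bool} {w : V → ℝ} {κ : V → Option (Fin 6)}
  {α : Fin 6 → ℝ} {θ : ℝ}

namespace Env

/-- The bound of the energy from an unassigned vertex. -/
theorem link (h : Env E w κ α θ) {τ m a ci co QL QH τ' xl xu x0 Y E' c1 c2 ε y : ℝ}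
    (hl : LR.LinkL τ m a (72 / 7) ci co QL QH) (hτ0 : 0 ≤ τ') (hτ : τ' ≤ τ)
    (hT : ∑ i, KB.tt (wp w κ α) (kt κ) i ^ 2 ≤ τ' ^ 2) (hm : m ≤ 1 / 30) (hQL : 0 ≤ QL)
    (hQL1 : QL ≤ QH) (hQH1 : 7 * QH ≤ 36) (hx0 : ∀ i, x0 ≤ xsO w κ i)
    (hQH : (7 * QH + 72) * unO w κ ≤ (36 - 7 * QH) * x0) (hxl0 : 0 < xl)
    (hxl : xl ≤ 1 / 6 - 913 / 1000 * τ') (hxu : 1 / 6 + 913 / 1000 * τ' ≤ xu)
    (hci : co ≤ ci + 12 / xu) (hE : ci + 12 / xl ≤ E') (hc1 : 4 * QH * xu ≤ c1)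
    (hc2 : 66 + 72 / 5 * QH ≤ c2) (hdf : ∀ i, df E (wp w κ α) (kt κ) i ≤ Y) (hε0 : 0 < ε)
    (hε1 : ε ≤ 1) (hε : θ ≤ ε ^ 2) (hy : a + (36 - 7 * QL) * (Y / xl) + 152 * ε ≤ y)
    (hg : 0 < unO w κ) :
    72 * EK E w (up w κ α) ≤ unO w κ * (E' * KB.mu E (wp w κ α) (kt κ) + c1 * unO w κ +
      c2 * unO w κ ^ 2 + y) := by
  have g0 := h.g0
  have g1 := h.g1
  obtain ⟨v, hv, hb⟩ := exists_Z h.ho h.xn h.α0 h.α1 hg h.αb
  have hT' : ∑ i, (KB.xs (wp w κ α) (kt κ) i - 1 / 6) ^ 2 ≤ τ ^ 2 :=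
    hT.trans (pow_le_pow_left₀ hτ0 hτ 2)
  obtain ⟨i, Qb, hQ1, hQ2, hlk⟩ := hl V _ E (wp w κ α) (kt κ) h.ho.free h.wt hT' v
    (fun i => (hm.trans (h.mo0 v hv i)).trans (le_mv h.ho.wt.nn h.α0 i v))
  have hxi := h.x8 i
  have ht := abs_le.1 (h.tp hτ0 hT i)
  have hxt : KB.xs (wp w κ α) (kt κ) i = 1 / 6 + KB.tt (wp w κ α) (kt κ) i := by
    unfold KB.tt
    ring
  have x1 : xl ≤ KB.xs (wp w κ α) (kt κ) i := by linarith [ht.1]
  have x2 : KB.xs (wp w κ α) (kt κ) i ≤ xu := by linarith [ht.2]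
  have xps : 0 < KB.xs (wp w κ α) (kt κ) i := lt_of_lt_of_le hxl0 x1
  have hxu0 : 0 < xu := lt_of_lt_of_le xps x2
  have hαi : α i ≤ 1 := by
    rw [← h.α1]
    exact single_le_sum (f := α) (fun j _ => h.α0 j) (mem_univ i)
  have hgα : unO w κ * α i ≤ unO w κ := by nlinarith
  have e1 := xs_rh (α := α) h.xn i
  have e2 := xs_wp (α := α) h.xn i
  have hQH0 : 0 ≤ QH := hQL.trans hQL1
  have hQ3 : 7 * QH * (xsO w κ i * rh w κ α i) ≤ 36 * 1 * (xsO w κ i - 2 * unO w κ) := by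
    have f1 : xsO w κ i * rh w κ α i = xsO w κ i + unO w κ * α i := by rw [← e2, e1]; ring
    rw [f1]
    have f2 : 7 * QH * (xsO w κ i + unO w κ * α i) ≤ 7 * QH * (xsO w κ i + unO w κ) :=
      mul_le_mul_of_nonneg_left (by linarith) (by linarith)
    have f3 : (36 - 7 * QH) * x0 ≤ (36 - 7 * QH) * xsO w κ i :=
      mul_le_mul_of_nonneg_left (hx0 i) (by linarith)
    linarith
  have hrh : rh w κ α i ≤ 1 + 8 * unO w κ := by
    unfold rh
    have : unO w κ * α i / xsO w κ i ≤ unO w κ / (1 / 8) :=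
      div_le_div₀ g0 hgα (by norm_num) hxi
    linarith
  have hCP : co ≤ ci + 12 * 1 / KB.xs (wp w κ α) (kt κ) i := by
    have : 12 / xu ≤ 12 / KB.xs (wp w κ α) (kt κ) i :=
      div_le_div_of_nonneg_left (by norm_num) xps x2
    linarith
  have key := vertex2 h.ho h.xp h.α0 h.α1 (by linarith [h.dL] : L - dens E w ≤ ε ^ 2) hε0 hε1 hg
    (by linarith) (hb i) (SC := 1) (VN := a) (CPi := ci) (CPo := co) (Qb := Qb) (QL := QL)
    (QH := QH) zero_le_one hQ1 (hQL.trans hQ1) hQ2 hQ3 hCP (by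
      have e3 : inj E (wp w κ α) (kt κ) v i = LR.ins E (kt κ) v (wp w κ α) i := rfl
      rw [e3]
      linarith)
  set g := unO w κ with hgd
  set K := EK E w (up w κ α) with hKd
  set mu := KB.mu E (wp w κ α) (kt κ) with hmud
  set x := KB.xs (wp w κ α) (kt κ) i with hxd
  have hmu0 : 0 ≤ mu := h.mu0
  have b1 : (ci + 12 * 1 / x) * mu ≤ E' * mu := by
    refine mul_le_mul_of_nonneg_right ?_ hmu0
    have : 12 / x ≤ 12 / xl := div_le_div_of_nonneg_left (by norm_num) hxl0 x1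
    linarith
  have b2 : (36 * 1 - 7 * QL) * (df E (wp w κ α) (kt κ) i / x) ≤ (36 - 7 * QL) * (Y / xl) := by
    have h5 := h.df0 i
    have h6 : df E (wp w κ α) (kt κ) i / x ≤ Y / xl :=
      div_le_div₀ (h5.trans (hdf i)) (hdf i) hxl0 x1
    have h7 := mul_le_mul_of_nonneg_left h6 (by linarith : (0 : ℝ) ≤ 36 - 7 * QL)
    linarith
  have b3 : 4 * QH * g * (x + 18 / 5 * g) ≤ c1 * g + 72 / 5 * QH * g ^ 2 := by
    have h5 : 4 * QH * x ≤ c1 := le_trans (by nlinarith) hc1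
    have h6 := mul_le_mul_of_nonneg_right h5 g0
    nlinarith
  have b4 : 144 * 1 * rh w κ α i * ε ≤ 152 * ε := by
    refine mul_le_mul_of_nonneg_right ?_ hε0.le
    linarith
  have b5 : (66 + 72 / 5 * QH) * g ^ 2 ≤ c2 * g ^ 2 :=
    mul_le_mul_of_nonneg_right hc2 (sq_nonneg g)
  have c0 : 72 * (K / g) ≤ E' * mu + c1 * g + c2 * g ^ 2 + y := by linarith
  have c3 := mul_le_mul_of_nonneg_left c0 g0
  have c4 : g * (72 * (K / g)) = 72 * K := by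
    field_simp
  linarith

end Env

end

end KS
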